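import Pool.Agent.CPT.Stmts

set_option autoImplicit false

namespace Pool.Agent.CPT

namespace ALG_

variable {κ K : Type} [Field κ] [Field K] [Algebra κ K]

theorem nonneg (e : DV κ K) (F : IntermediateField κ K) (h : ∀ x ∈ F, x ≠ 0 → e.v x = 0)
    (f : K) (hf : IsAlgebraic F f) : e.O f := by
  have hF : ∀ x : F, (x : K) ∈ e.vs := by
    intro x
    by_cases hx : (x : K) = 0
    · rw [hx]; exact e.O_zero
    · right; rw [h x x.2 hx]
  let φ : F →+* e.vs :=
    { toFun := fun x => ⟨(x : K), hF x⟩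
      map_one' := rfl
      map_mul' := fun _ _ => rfl
      map_zero' := rfl
      map_add' := fun _ _ => rfl }
  have hint : IsIntegral F f := isAlgebraic_iff_isIntegral.mp hf
  have h2 : IsIntegral e.vs ((RingHom.id K) f) :=
    IsIntegral.map_of_comp_eq φ (RingHom.id K) (by ext x; rfl) hint
  obtain ⟨y, hy⟩ := IsIntegrallyClosed.isIntegral_iff.mp h2
  have h3 : (y : K) ∈ e.vs := y.2
  have h4 : (y : K) = f := hy
  rw [h4] at h3
  exact h3

end ALG_

theorem alg_proof : Stmt_ALG := by
  intro κ K _ _ _ e F h f hf h0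
  have h1 := ALG_.nonneg e F h f hf
  have h2 := ALG_.nonneg e F h f⁻¹ hf.inv
  rw [DV.O_iff h0] at h1
  rw [DV.O_inv h0] at h2
  omega

end Pool.Agent.CPT
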