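import Pool.Agent.CPT.StmtsE

set_option autoImplicit false

/-!
# AMD: the data of `Inp` as `Dat`
-/

noncomputable section

namespace Pool.Agent.CPT

open Pool.Agent

namespace AMD_

theorem dvOf_inj {κ F : Type} [Field κ] [Field F] [Algebra κ F] {x y : F}
    {O O' : SRF.PP κ x y} (h : dvOf O = dvOf O') : O = O' := by
  have hv : SRF.ord O.1 = SRF.ord O'.1 := congrArg DV.v h
  apply Subtype.ext
  ext f
  by_cases hf : f = 0
  · subst hf
    exact ⟨fun _ => zero_mem _, fun _ => zero_mem _⟩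
  · rw [O.isOrd.mem f hf, O'.isOrd.mem f hf, hv]

theorem exists_ab : ∀ k l : Fin 5, k ≠ l → ∃ a b, Dist k a l b := by
  decide

theorem cr_entries : ∀ k a l b : Fin 5, Dist k a l b →
    cr k a l b k l = -1 ∧ cr k a l b l k = -1 ∧ ∀ i j, -1 ≤ cr k a l b i j := by
  decide

end AMD_

open AMD_ in
theorem amd_proof (hAX1 : SRF.Stmt_AX1) (hAX3 : SRF.Stmt_AX3) (hCEN : SRF.Stmt_CEN)
    (hTHC : SRF.Stmt_THC) (hHCH : SRF.Stmt_HCH) (hZER : SRF.Stmt_ZER) : Stmt_AMD := by
  intro κ F _ _ _ _ x y hs I S hPP hthr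
  classical
  let w : DV κ F → ℤ := fun e =>
    if h : ∃ O : SRF.PP κ x y, dvOf O = e ∧ ∃ i j, O ∈ I.D i j then I.m h.choose else 1
  have hw : ∀ i j, ∀ O ∈ I.D i j, w (dvOf O) = I.m O := by
    intro i j O hO
    have h : ∃ O' : SRF.PP κ x y, dvOf O' = dvOf O ∧ ∃ i j, O' ∈ I.D i j := ⟨O, rfl, i, j, hO⟩
    have h1 : w (dvOf O) = I.m h.choose := dif_pos h
    rw [h1, dvOf_inj h.choose_spec.1]
  have hwpos : ∀ e, 0 < w e := by
    intro e
    by_cases h : ∃ O : SRF.PP κ x y, dvOf O = e ∧ ∃ i j, O ∈ I.D i j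
    · have h1 : w e = I.m h.choose := dif_pos h
      obtain ⟨i, j, hij⟩ := h.choose_spec.2
      rw [h1]
      exact I.m_pos i j _ hij
    · have h1 : w e = 1 := dif_neg h
      rw [h1]; exact one_pos
  have hamp : ∀ k l, k ≠ l → ∀ e ∈ S.PP,
      ∃ i j, ¬ ((i = k ∧ j = l) ∨ (i = l ∧ j = k)) ∧ ∃ e' ∈ dvOf '' I.D i j, S.meets e e' := by
    intro k l hkl e he
    rw [hPP] at he
    obtain ⟨O, rfl⟩ := he
    obtain ⟨a, b, hab⟩ := exists_ab k l hkl
    obtain ⟨hn1, hn2, hn3⟩ := cr_entries k a l b hab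
    have hnL := Lam_cr k a l b hab
    set n := cr k a l b with hn
    set θ : F := I.g * (I.a n) ^ I.t with hθ
    have ha0 : I.a n ≠ 0 := I.a_ne n hnL
    have hθ0 : θ ≠ 0 := mul_ne_zero I.g_ne (pow_ne_zero _ ha0)
    have hord : ∀ O' : SRF.PP κ x y,
        SRF.ord O'.1 θ = SRF.ord O'.1 I.g + I.t * SRF.ord O'.1 (I.a n) := by
      intro O'
      rw [hθ, O'.isOrd.mul _ _ I.g_ne (pow_ne_zero _ ha0), O'.isOrd.pow ha0]
    have hD : ∀ i j, ∀ O' ∈ I.D i j,
        SRF.ord O'.1 θ = I.t * I.m O' * (1 + n i j) - I.N * SRF.H κ x y O' := by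
      intro i j O' hO'
      rw [hord, I.g_D i j O' hO', I.ord_D n hnL i j O' hO']
      ring
    have h0 : ∀ O' : SRF.PP κ x y, (∀ i j, O' ∉ I.D i j) →
        SRF.ord O'.1 θ = - (I.N * SRF.H κ x y O') := by
      intro O' hO'
      rw [hord, I.g_0 O' hO', I.ord_0 n hnL O' hO']
      ring
    have hθL : θ ∈ SRF.L κ x y (fun O => I.N * SRF.H κ x y O) := by
      rw [SRF.mem_L]
      right
      intro O'
      by_cases hb : ∃ i j, O' ∈ I.D i j
      · obtain ⟨i, j, hij⟩ := hb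
        rw [hD i j O' hij]
        have h1 : 0 ≤ (I.t : ℤ) * I.m O' * (1 + n i j) := by
          apply mul_nonneg
          · exact mul_nonneg (by positivity) (I.m_pos i j O' hij).le
          · have := hn3 i j
            linarith
        linarith
      · push Not at hb
        rw [h0 O' hb]
    obtain ⟨V, hV, hVO, hVz⟩ := hZER κ F x y hs O I.N I.N_pos θ hθL
    obtain ⟨⟨i, hi⟩, -⟩ := hCEN κ F x y hs V hV
    have hfV := hVz i hi hθ0
    have hz0 : SRF.z x y i ≠ 0 := by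
      intro hz
      apply hfV
      rw [hz, zero_pow I.N_pos.ne', div_zero, inv_zero]
      exact zero_mem _
    have hex : ∃ O' : SRF.PP κ x y, SRF.thr κ x y O'.1 V ∧ (θ / SRF.z x y i ^ I.N)⁻¹ ∉ O'.1 := by
      by_contra hcon
      push Not at hcon
      exact hfV (hAX1 κ F x y hs V hV _ hcon)
    obtain ⟨O', hO'V, hO'f⟩ := hex
    have hi' := (hTHC κ F x y hs O' V hV hO'V i hi).1
    have hH := ((hHCH κ F x y hs O').2.2 i).mp hi'
    have hzN : SRF.z x y i ^ I.N ≠ 0 := pow_ne_zero _ hz0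
    have hpos : 0 < SRF.ord O'.1 θ + I.N * SRF.H κ x y O' := by
      rw [O'.isOrd.mem _ (inv_ne_zero (div_ne_zero hθ0 hzN)),
        O'.isOrd.inv (div_ne_zero hθ0 hzN), div_eq_mul_inv,
        O'.isOrd.mul _ _ hθ0 (inv_ne_zero hzN), O'.isOrd.inv hzN, O'.isOrd.pow hz0] at hO'f
      rw [hH]
      push Not at hO'f
      linarith
    have hb : ∃ i j, O' ∈ I.D i j := by
      by_contra hcon
      push Not at hcon
      rw [h0 O' hcon] at hpos
      linarith
    obtain ⟨i', j', hij⟩ := hb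
    refine ⟨i', j', ?_, dvOf O', ⟨O', hij, rfl⟩, V, hV, ?_, ?_⟩
    · intro hcon
      have hnm : n i' j' = -1 := by
        rcases hcon with ⟨rfl, rfl⟩ | ⟨rfl, rfl⟩
        · exact hn1
        · exact hn2
      rw [hD i' j' O' hij, hnm] at hpos
      linarith
    · exact (hthr O V).mpr (hAX3 κ F x y hs V hV O hVO)
    · exact (hthr O' V).mpr hO'V
  refine ⟨{ D := fun i j => dvOf '' I.D i j
            D_sub := ?_
            D_symm := ?_
            D_diag := ?_
            D_disj := ?_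
            D_comm := ?_
            w := w
            w_pos := hwpos
            a := I.a
            a_ne := I.a_ne
            a_add := I.a_add
            ord_D := ?_
            ord_0 := ?_
            amp := fun k l hkl e he _ => hamp k l hkl e he }, fun _ _ => rfl, rfl, hw⟩
  · rintro i j e ⟨O, -, rfl⟩
    rw [hPP]
    exact ⟨O, rfl⟩
  · intro i j
    rw [I.D_symm i j]
  · intro i
    rw [I.D_diag i, Set.image_empty]
  · rintro i j k hjk e ⟨O, hO, rfl⟩ e' ⟨O', hO', rfl⟩ ⟨V, hV, h1, h2⟩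
    exact I.D_disj i j k hjk O hO O' hO' V hV ⟨(hthr O V).mp h1, (hthr O' V).mp h2⟩
  · rintro i j k l hd e ⟨O, hO, rfl⟩ ⟨O', hO', h⟩
    rw [dvOf_inj h] at hO'
    exact I.D_comm i j k l hd O hO hO'
  · rintro n hn i j e ⟨O, hO, rfl⟩
    rw [hw i j O hO]
    exact I.ord_D n hn i j O hO
  · intro n hn e he h
    rw [hPP] at he
    obtain ⟨O, rfl⟩ := he
    exact I.ord_0 n hn O (fun i j hO => h i j ⟨O, hO, rfl⟩)

end Pool.Agent.CPT
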