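import Pool.Agent.CPT.StmtsF

set_option autoImplicit false

/-!
# ANN: a subspace of `ℚ^ι` is defined by finitely many linear forms
-/

noncomputable section

namespace Pool.Agent.CPT

open Pool.Agent

theorem ann_proof : Stmt_ANN := by
  classical
  intro ι _ V
  let W := V.dualAnnihilator
  let bas := Module.finBasis ℚ W
  refine ⟨Module.finrank ℚ W, fun j i => (bas j : Module.Dual ℚ (ι → ℚ)) (Pi.single i 1), ?_⟩
  intro v
  have hform : ∀ φ : Module.Dual ℚ (ι → ℚ), ∑ i, φ (Pi.single i 1) * v i = φ v := by
    intro φ
    have hv : v = ∑ i, v i • (Pi.single i 1 : ι → ℚ) := by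
      funext k
      simp [Finset.sum_apply, Pi.single_apply]
    conv_rhs => rw [hv]
    rw [map_sum]
    refine Finset.sum_congr rfl fun i _ => ?_
    rw [map_smul, smul_eq_mul, mul_comm]
  rw [← Subspace.forall_mem_dualAnnihilator_apply_eq_zero_iff]
  constructor
  · intro h j
    rw [hform]
    exact h _ (bas j).2
  · intro h φ hφ
    have h1 : ∀ w : W, (w : Module.Dual ℚ (ι → ℚ)) v = 0 := by
      intro w
      rw [← bas.sum_repr w]
      simp only [Submodule.coe_sum, Submodule.coe_smul, LinearMap.sum_apply, LinearMap.smul_apply]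
      refine Finset.sum_eq_zero fun j _ => ?_
      have := h j
      rw [hform] at this
      rw [this, smul_zero]
    exact h1 ⟨φ, hφ⟩

end Pool.Agent.CPT
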