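import Pool.Agent.CPT.Stmts

set_option autoImplicit false

/-!
# Module AZC: the functions of a pencil are algebraic over one cross ratio
-/

namespace Pool.Agent.CPT

namespace AZC_

/-- algebraic over a field all of whose elements are algebraic over `F` -/
theorem alg_trans {κ K : Type} [Field κ] [Field K] [Algebra κ K] (F G : IntermediateField κ K)
    (h : ∀ x ∈ G, IsAlgebraic F x) (f : K) (hf : IsAlgebraic G f) : IsAlgebraic F f := by
  have hle : ∀ x ∈ G, x ∈ algebraicClosure F K := fun x hx => mem_algebraicClosure_iff.2 (h x hx)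
  let φ : G →+* algebraicClosure F K :=
    { toFun := fun x => ⟨x.1, hle x.1 x.2⟩
      map_one' := rfl
      map_mul' := fun x y => rfl
      map_zero' := rfl
      map_add' := fun x y => rfl }
  have h1 : IsAlgebraic (algebraicClosure F K) f := by
    have h2 := hf.ringHom_of_comp_eq φ (RingHom.id K) φ.injective (by ext x; rfl)
    exact h2
  exact h1.restrictScalars F

theorem adjoin_inv {κ K : Type} [Field κ] [Field K] [Algebra κ K] (a : K) :
    IntermediateField.adjoin κ {a⁻¹} = IntermediateField.adjoin κ {a} := by
  apply le_antisymm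
  · rw [IntermediateField.adjoin_simple_le_iff]
    exact IntermediateField.inv_mem _ (IntermediateField.mem_adjoin_simple_self κ a)
  · rw [IntermediateField.adjoin_simple_le_iff]
    have h := IntermediateField.inv_mem _ (IntermediateField.mem_adjoin_simple_self κ a⁻¹)
    rwa [inv_inv] at h

end AZC_

open AZC_ in
theorem azc_proof (hAZR : Stmt_AZR) : Stmt_AZC := by
  intro κ K _ _ _ _ S d i j k l m hd h1 h2 h3 h4 f hf
  rw [adjoin_inv]
  have key : IsAlgebraic (IntermediateField.adjoin κ {d.a (cr j k l m)}) f := by
    refine alg_trans _ (d.kf i) (fun x hx => ?_) f hf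
    have hb := hAZR κ K S d i j k l m hd h1 h2 h3 h4
    have ha : IsAlgebraic (IntermediateField.adjoin κ {d.a (cr j k l m)}) (d.a (cr j k l m)) :=
      isAlgebraic_algebraMap (⟨_, IntermediateField.mem_adjoin_simple_self κ _⟩ :
        IntermediateField.adjoin κ {d.a (cr j k l m)})
    have hle : d.kf i ≤ IntermediateField.restrictScalars κ
        (algebraicClosure (IntermediateField.adjoin κ {d.a (cr j k l m)}) K) := by
      unfold Dat.kf
      rw [IntermediateField.adjoin_le_iff]
      rintro _ ⟨n, hn, rfl⟩
      rw [d.isMul.basisI i j k l m hd h1 h2 h3 h4 hn]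
      have ha' := mem_algebraicClosure_iff.2 ha
      have hb' := mem_algebraicClosure_iff.2 hb
      exact mul_mem (zpow_mem ha' _) (zpow_mem hb' _)
    exact mem_algebraicClosure_iff.1 (hle hx)
  exact ⟨key, key⟩

end Pool.Agent.CPT
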