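import Pool.Agent.CPT.Stmts

/-!
Module AZR of squad CPT: the functions of one pencil are algebraically dependent.
-/

set_option autoImplicit false

namespace Pool.Agent.CPT

namespace AZR_

/-- a valuation ring containing a subfield with a given transcendental element in the maximal
ideal -/
lemma ext_val {κ K : Type} [Field κ] [Field K] [Algebra κ K] (F : IntermediateField κ K) (x : K)
    (hx : ¬ IsAlgebraic F x) :
    ∃ V : ValuationSubring K, (∀ y ∈ F, y ∈ V) ∧ x ∈ V.nonunits := by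
  let A : Subring K := (Algebra.adjoin F {x}).toSubring
  have hxA : x ∈ A := Algebra.self_mem_adjoin_singleton F x
  let I : Ideal A := Ideal.span {⟨x, hxA⟩}
  have hI : I ≠ ⊤ := by
    rw [Ideal.ne_top_iff_one]
    intro h1
    obtain ⟨y, hy⟩ := Ideal.mem_span_singleton'.1 h1
    have hy1 : (y : K) * x = 1 := congrArg Subtype.val hy
    have hyA : (y : K) ∈ Algebra.adjoin F {x} := y.2
    rw [Algebra.adjoin_singleton_eq_range_aeval] at hyA
    obtain ⟨P, hP⟩ := hyA
    refine hx ⟨P * Polynomial.X - 1, ?_, ?_⟩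
    · intro h0
      have h2 := congrArg (Polynomial.eval 0) h0
      simp at h2
    · have hP' : Polynomial.aeval x P = (y : K) := hP
      rw [map_sub, map_mul, hP', Polynomial.aeval_X, map_one, hy1, sub_self]
  obtain ⟨V, hAV, hIV⟩ := Ideal.image_subset_nonunits_valuationSubring I hI
  refine ⟨V, fun y hy => ?_, ?_⟩
  · have : y ∈ A := (Algebra.adjoin F {x}).algebraMap_mem ⟨y, hy⟩
    exact hAV this
  · exact hIV ⟨⟨x, hxA⟩, Ideal.subset_span rfl, rfl⟩

lemma E_cases (i j a b : Fin 5) : E i j a b = 0 ∨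
    (E i j a b = 1 ∧ ((a = i ∧ b = j) ∨ (a = j ∧ b = i))) := by
  unfold E
  split_ifs with h
  · exact Or.inr ⟨rfl, h⟩
  · exact Or.inl rfl

lemma cr_apply (a b c f p q : Fin 5) :
    cr a b c f p q = E a b p q + E c f p q - E a c p q - E b f p q := rfl

lemma pos_cr {a b c f p q : Fin 5} (h : 0 < cr a b c f p q) :
    ((p = a ∧ q = b) ∨ (p = b ∧ q = a)) ∨ ((p = c ∧ q = f) ∨ (p = f ∧ q = c)) := by
  rw [cr_apply] at h
  rcases E_cases a b p q with h1 | h1
  · rcases E_cases c f p q with h2 | h2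
    · exfalso
      rcases E_cases a c p q with h3 | h3 <;> rcases E_cases b f p q with h4 | h4 <;> omega
    · exact Or.inr h2.2
  · exact Or.inl h1.2

lemma neg_cr {a b c f p q : Fin 5} (h : cr a b c f p q < 0) :
    ((p = a ∧ q = c) ∨ (p = c ∧ q = a)) ∨ ((p = b ∧ q = f) ∨ (p = f ∧ q = b)) := by
  rw [cr_apply] at h
  rcases E_cases a c p q with h1 | h1
  · rcases E_cases b f p q with h2 | h2
    · exfalso
      rcases E_cases a b p q with h3 | h3 <;> rcases E_cases c f p q with h4 | h4 <;> omega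
    · exact Or.inr h2.2
  · exact Or.inl h1.2

section
variable {κ K : Type} [Field κ] [Field K] [Algebra κ K] {S : Surf κ K}

lemma mem_of {d : Dat S} {e : DV κ K} {p q a b : Fin 5} (h : e ∈ d.D p q)
    (h' : (p = a ∧ q = b) ∨ (p = b ∧ q = a)) : e ∈ d.D a b := by
  rcases h' with ⟨h1, h2⟩ | ⟨h1, h2⟩
  · rwa [h1, h2] at h
  · rw [d.D_symm]
    rwa [h1, h2] at h

lemma zero_mem (d : Dat S) {a b c f : Fin 5} (hd : Dist a b c f) {e : DV κ K} (he : e ∈ S.PP)
    (h : 0 < e.v (d.a (cr a b c f))) : e ∈ d.D a b ∨ e ∈ d.D c f := by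
  by_cases h0 : ∀ i j, e ∉ d.D i j
  · rw [d.ord_0 _ (Lam_cr _ _ _ _ hd) e he h0] at h
    exact absurd h (lt_irrefl _)
  · push Not at h0
    obtain ⟨p, q, hpq⟩ := h0
    rw [d.ord_D _ (Lam_cr _ _ _ _ hd) p q e hpq] at h
    have h1 : 0 < cr a b c f p q := pos_of_mul_pos_left h (d.w_pos e).le
    rcases pos_cr h1 with h2 | h2
    · exact Or.inl (mem_of hpq h2)
    · exact Or.inr (mem_of hpq h2)

lemma pole_mem (d : Dat S) {a b c f : Fin 5} (hd : Dist a b c f) {e : DV κ K} (he : e ∈ S.PP)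
    (h : e.v (d.a (cr a b c f)) < 0) : e ∈ d.D a c ∨ e ∈ d.D b f := by
  by_cases h0 : ∀ i j, e ∉ d.D i j
  · rw [d.ord_0 _ (Lam_cr _ _ _ _ hd) e he h0] at h
    exact absurd h (lt_irrefl _)
  · push Not at h0
    obtain ⟨p, q, hpq⟩ := h0
    rw [d.ord_D _ (Lam_cr _ _ _ _ hd) p q e hpq] at h
    have h1 : cr a b c f p q < 0 := by
      by_contra h2
      have := mul_nonneg (not_lt.1 h2) (d.w_pos e).le
      omega
    rcases neg_cr h1 with h2 | h2
    · exact Or.inl (mem_of hpq h2)
    · exact Or.inr (mem_of hpq h2)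

lemma not_meets (d : Dat S) {i j k : Fin 5} (hjk : j ≠ k) {e e' : DV κ K} (h : e ∈ d.D i j)
    (h' : e' ∈ d.D i k) : ¬ S.meets e e' := d.D_disj i j k hjk e h e' h'

lemma not_meets' (d : Dat S) {i j k : Fin 5} (hjk : j ≠ k) {e e' : DV κ K} (h : e ∈ d.D i j)
    (h' : e' ∈ d.D k i) : ¬ S.meets e e' := d.D_disj i j k hjk e h e' (by rwa [d.D_symm])

end

end AZR_

open AZR_ in
theorem azr_proof (hRON : Stmt_RON) : Stmt_AZR := by
  intro κ K _ _ _ _ S d i j k l m hd _ _ _ _
  obtain ⟨hjk, hjl, hjm, hkl, hkm, hlm⟩ := hd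
  have hd : Dist j k l m := ⟨hjk, hjl, hjm, hkl, hkm, hlm⟩
  have hd' : Dist j m l k := dist_rot hd
  by_contra hb
  have ha0 := d.a_ne _ (Lam_cr _ _ _ _ hd)
  have hb0 := d.a_ne _ (Lam_cr _ _ _ _ hd')
  set a := d.a (cr j k l m) with ha_def
  set b := d.a (cr j m l k) with hb_def
  set F := IntermediateField.adjoin κ {a} with hF
  have haF : a ∈ F := IntermediateField.mem_adjoin_simple_self κ a
  -- first part: `a` is a constant
  have hconst : ∃ c : κ, a = algebraMap κ K c := by
    obtain ⟨V, hFV, hbV⟩ := ext_val F b hb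
    have hKV : KV κ V := fun c => hFV _ (F.algebraMap_mem c)
    have hbV' : b⁻¹ ∉ V := KV.inv_notMem hbV hb0
    have h1 : ¬ ∀ e ∈ S.PP, S.thr e V → e.O b⁻¹ := fun h => hbV' (S.ax1 V hKV _ h)
    push Not at h1
    obtain ⟨e, he, heV, heb⟩ := h1
    have h2 : 0 < e.v b := by
      rw [DV.O_inv hb0] at heb
      omega
    have hpole : ∀ e' ∈ S.PP, S.meets e e' → e'.O a := by
      intro e' he' hm
      rw [DV.O_iff ha0]
      by_contra h3
      have h4 := pole_mem d hd he' (not_le.1 h3)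
      rcases zero_mem d hd' he h2 with h5 | h5
      · -- e in D j m
        rcases h4 with h4 | h4
        · exact not_meets d hlm.symm h5 h4 hm
        · rw [d.D_symm] at h5
          exact not_meets' d hjk h5 h4 hm
      · -- e in D l k
        rcases h4 with h4 | h4
        · exact not_meets' d hjk.symm h5 h4 hm
        · rw [d.D_symm] at h5
          exact not_meets d hlm h5 h4 hm
    obtain ⟨c, hc⟩ := hRON κ K S e he a hpole
    refine ⟨c, ?_⟩
    by_contra hne
    have hreg : S.reg V (a - algebraMap κ K c) := by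
      refine Surf.reg_sub (fun e' he' ht => ?_) (Surf.reg_const c)
      exact hpole e' he' ⟨V, hKV, heV, ht⟩
    have h6 := Surf.reg_nonunits hKV hreg he heV hc
    have h7 := KV.inv_notMem h6 (sub_ne_zero.2 hne)
    exact h7 (hFV _ (F.inv_mem (F.sub_mem haF (F.algebraMap_mem c))))
  obtain ⟨c, hc⟩ := hconst
  -- second part
  have hc0 : c ≠ 0 := by
    rintro rfl
    exact ha0 (by rw [hc, map_zero])
  have hbi : ¬ IsAlgebraic F b⁻¹ := fun h => hb (IsAlgebraic.inv_iff.1 h)
  obtain ⟨V, hFV, hbV⟩ := ext_val F b⁻¹ hbi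
  have hKV : KV κ V := fun c => hFV _ (F.algebraMap_mem c)
  have h1 := KV.inv_notMem hbV (inv_ne_zero hb0)
  rw [inv_inv] at h1
  refine h1 (S.ax1 V hKV b fun e he _ => ?_)
  rw [DV.O_iff hb0]
  by_contra h2
  have h3 := pole_mem d hd' he (not_le.1 h2)
  have h4 : e.v a = 0 := by rw [hc, e.map_const c hc0]
  have hw := d.w_pos e
  have hL := Lam_cr _ _ _ _ hd
  rcases h3 with h3 | h3
  · -- e in D j l
    rw [ha_def, d.ord_D _ hL j l e h3] at h4
    have h5 : cr j k l m j l = -1 := by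
      revert hd
      clear * -
      revert j k l m
      decide
    rw [h5] at h4
    omega
  · -- e in D m k
    rw [ha_def, d.ord_D _ hL m k e h3] at h4
    have h5 : cr j k l m m k = -1 := by
      revert hd
      clear * -
      revert j k l m
      decide
    rw [h5] at h4
    omega

end Pool.Agent.CPT
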