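import Pool.Agent.CPT.StmtsE

/-!
# BEZ: the order of a section of `aH` at a prime divisor
-/

set_option autoImplicit false

noncomputable section

namespace Pool.Agent.CPT

open Pool.Agent

namespace BEZ_

variable {κ F : Type} [Field κ] [Field F] [Algebra κ F] {x y : F}

/-- order at least `-c` at `O` -/
def W (O : SRF.PP κ x y) (c : ℤ) (f : F) : Prop := f = 0 ∨ -c ≤ SRF.ord O.1 f

theorem W_mono {O : SRF.PP κ x y} {c c' : ℤ} (h : c ≤ c') {f : F} (hf : W O c f) : W O c' f := by
  rcases hf with h1 | h1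
  · exact Or.inl h1
  · exact Or.inr (by omega)

theorem W_add {O : SRF.PP κ x y} {c : ℤ} {f g : F} (hf : W O c f) (hg : W O c g) :
    W O c (f + g) := by
  by_cases h0 : f = 0
  · rw [h0, zero_add]; exact hg
  by_cases h1 : g = 0
  · rw [h1, add_zero]; exact hf
  by_cases h2 : f + g = 0
  · exact Or.inl h2
  right
  have h3 := hf.resolve_left h0
  have h4 := hg.resolve_left h1
  exact le_trans (le_min h3 h4) (O.isOrd.add h0 h1 h2)

theorem W_mul {O : SRF.PP κ x y} {c c' : ℤ} {f g : F} (hf : W O c f) (hg : W O c' g) :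
    W O (c + c') (f * g) := by
  by_cases h0 : f = 0
  · left; rw [h0, zero_mul]
  by_cases h1 : g = 0
  · left; rw [h1, mul_zero]
  right
  have h3 := hf.resolve_left h0
  have h4 := hg.resolve_left h1
  rw [O.isOrd.mul _ _ h0 h1]
  omega

theorem W_const (O : SRF.PP κ x y) (c : κ) : W O 0 (algebraMap κ F c) := by
  by_cases hc : c = 0
  · left; rw [hc, map_zero]
  · right; rw [SRF.ord_const κ x y O c hc]; simp

theorem W_one (O : SRF.PP κ x y) : W O 0 (1 : F) := by
  have := W_const O 1
  rwa [map_one] at this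

theorem W_pow {O : SRF.PP κ x y} {c : ℤ} {f : F} (hf : W O c f) (n : ℕ) :
    W O (n * c) (f ^ n) := by
  induction n with
  | zero => simpa using W_one O
  | succ n ih =>
    rw [pow_succ]
    have := W_mul ih hf
    push_cast
    rwa [add_mul, one_mul]

theorem W_sum {O : SRF.PP κ x y} {c : ℤ} {ι : Type} (s : Finset ι) (f : ι → F)
    (h : ∀ i ∈ s, W O c (f i)) : W O c (∑ i ∈ s, f i) := by
  classical
  induction s using Finset.induction_on with
  | empty => left; simp
  | insert a s ha ih =>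
    rw [Finset.sum_insert ha]
    exact W_add (h a (Finset.mem_insert_self a s))
      (ih fun i hi => h i (Finset.mem_insert_of_mem hi))

theorem H_nonneg (O : SRF.PP κ x y) : 0 ≤ SRF.H κ x y O := le_max_left _ _

theorem W_poly (O : SRF.PP κ x y) (D : ℕ) (P : MvPolynomial (Fin 2) κ) (hP : P.totalDegree ≤ D) :
    W O (D * SRF.H κ x y O) (MvPolynomial.aeval ![x, y] P) := by
  rw [MvPolynomial.aeval_def, MvPolynomial.eval₂_eq']
  apply W_sum
  intro m hm
  have hx : W O (SRF.H κ x y O) x := by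
    right
    have : - SRF.ord O.1 x ≤ SRF.H κ x y O := (le_max_left _ _).trans (le_max_right _ _)
    omega
  have hy : W O (SRF.H κ x y O) y := by
    right
    have : - SRF.ord O.1 y ≤ SRF.H κ x y O := (le_max_right _ _).trans (le_max_right _ _)
    omega
  have h1 : W O (0 + ((m 0 : ℕ) * SRF.H κ x y O + (m 1 : ℕ) * SRF.H κ x y O))
      (algebraMap κ F (P.coeff m) * ∏ i, (![x, y] : Fin 2 → F) i ^ m i) := by
    rw [Fin.prod_univ_two]
    exact W_mul (W_const O _) (W_mul (W_pow hx _) (W_pow hy _))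
  refine W_mono ?_ h1
  have h2 : m 0 + m 1 ≤ D := by
    have := MvPolynomial.le_totalDegree hm
    have h3 : (m.sum fun _ e => e) = m 0 + m 1 := by
      rw [Finsupp.sum_fintype _ _ (fun _ => rfl), Fin.sum_univ_two]
    omega
  have h3 : ((m 0 : ℕ) : ℤ) + ((m 1 : ℕ) : ℤ) ≤ (D : ℤ) := by exact_mod_cast h2
  nlinarith [H_nonneg O]

end BEZ_

open BEZ_ in
theorem bez_proof (hBZP : Stmt_BZP) (hSRF_SCP : Pool.Agent.SRF.Stmt_SCP) : Stmt_BEZ := by
  classical
  intro κ F _ _ _ x y h a Q hQ0 hQ O
  obtain ⟨c, hc, hrel⟩ := (hSRF_SCP κ F x y h a Q).1 hQ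
  have hQO := hQ.resolve_left hQ0 O
  set d := Module.finrank (KK κ x y) F with hd
  set hh := SRF.H κ x y O with hhh
  have hh0 : 0 ≤ hh := H_nonneg O
  -- coefficients
  let P : ℕ → MvPolynomial (Fin 2) κ := fun j => if j = 0 then 1 else c j
  have hPdeg : ∀ j, (P j).totalDegree ≤ a * j := by
    intro j
    by_cases hj : j = 0
    · simp [P, hj]
    · simp only [P, hj, if_false]; exact hc j
  let p : ℕ → F := fun j => MvPolynomial.aeval ![x, y] (P j)
  have hp0 : p 0 = 1 := by simp [p, P]
  have hsum : ∑ j ∈ Finset.range (d + 1), p j * Q ^ (d - j) = 0 := by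
    rw [← hrel, Finset.range_eq_Ico, Finset.sum_eq_sum_Ico_succ_bot (Nat.succ_pos d)]
    rw [hp0, one_mul, Nat.sub_zero]
    congr 1
    apply Finset.sum_congr
    · ext j
      rw [Finset.mem_Ico, Finset.mem_Icc]
      omega
    · intro j hj
      have : j ≠ 0 := by have := (Finset.mem_Icc.1 hj).1; omega
      simp [p, P, this]
  -- the last nonzero coefficient
  have hfilt : ((Finset.range (d + 1)).filter fun j => p j ≠ 0).Nonempty :=
    ⟨0, by simp [hp0]⟩
  obtain ⟨n, hn, hmax⟩ := Finset.exists_max_image _ (fun j : ℕ => j) hfilt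
  rw [Finset.mem_filter, Finset.mem_range] at hn
  obtain ⟨hnd, hpn⟩ := hn
  have hz : ∀ j, j < d + 1 → n < j → p j = 0 := by
    intro j hj hnj
    by_contra hne
    have := hmax j (by rw [Finset.mem_filter, Finset.mem_range]; exact ⟨hj, hne⟩)
    omega
  have hsum2 : ∑ j ∈ Finset.range (n + 1), p j * Q ^ (n - j) = 0 := by
    have h1 : (∑ j ∈ Finset.range (n + 1), p j * Q ^ (n - j)) * Q ^ (d - n) = 0 := by
      rw [← hsum, Finset.sum_mul]
      have h2 : Finset.range (n + 1) ⊆ Finset.range (d + 1) :=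
        Finset.range_subset_range.2 (by omega)
      rw [← Finset.sum_subset h2]
      · apply Finset.sum_congr rfl
        intro j hj
        have hj' := Finset.mem_range.1 hj
        rw [mul_assoc, ← pow_add]
        congr 2
        omega
      · intro j hj hj'
        rw [Finset.mem_range] at hj hj'
        rw [hz j hj (by omega), zero_mul]
    exact (mul_eq_zero.1 h1).resolve_right (pow_ne_zero _ hQ0)
  have hn1 : 1 ≤ n := by
    rcases Nat.eq_zero_or_pos n with h0 | h0
    · exfalso
      rw [h0] at hsum2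
      simp [hp0] at hsum2
    · exact h0
  -- the sum S
  set S : F := ∑ j ∈ Finset.range n, p j * Q ^ (n - 1 - j) with hS
  have hpS : p n = -(Q * S) := by
    rw [Finset.sum_range_succ, Nat.sub_self, pow_zero, mul_one] at hsum2
    have h1 : ∑ j ∈ Finset.range n, p j * Q ^ (n - j) = Q * S := by
      rw [hS, Finset.mul_sum]
      apply Finset.sum_congr rfl
      intro j hj
      have hj' := Finset.mem_range.1 hj
      have : n - j = (n - 1 - j) + 1 := by omega
      rw [this, pow_succ]
      ring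
    rw [h1] at hsum2
    linear_combination hsum2
  have hS0 : S ≠ 0 := by
    intro h0
    rw [h0, mul_zero, neg_zero] at hpS
    exact hpn hpS
  have hWS : W O ((a * (n - 1 : ℕ) : ℕ) * hh) S := by
    apply W_sum
    intro j hj
    have hj' := Finset.mem_range.1 hj
    have h1 : W O ((a * j : ℕ) * hh + (n - 1 - j : ℕ) * (a * hh)) (p j * Q ^ (n - 1 - j)) :=
      W_mul (W_poly O _ _ (hPdeg j)) (W_pow (Or.inr hQO) _)
    refine W_mono (le_of_eq ?_) h1
    have h2 : (n - 1 : ℕ) = j + (n - 1 - j) := by omega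
    have h3 : ((a * (n - 1 : ℕ) : ℕ) : ℤ) = a * (j + (n - 1 - j : ℕ)) := by
      rw [h2]; push_cast; simp
    rw [h3]
    push_cast
    ring
  have hvS := hWS.resolve_left hS0
  have hneg : SRF.ord O.1 (p n) = SRF.ord O.1 Q + SRF.ord O.1 S := by
    have h1 : p n = algebraMap κ F (-1) * (Q * S) := by
      rw [hpS, map_neg, map_one]; ring
    rw [h1, O.isOrd.mul _ _ (by simp) (mul_ne_zero hQ0 hS0), O.isOrd.mul _ _ hQ0 hS0,
      SRF.ord_const κ x y O (-1) (by simp)]
    ring
  have hB := hBZP κ F x y h (a * n) (P n) (hPdeg n) hpn O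
  change SRF.ord O.1 (p n) + _ ≤ _ at hB
  rw [hneg] at hB
  have h4 : ((n - 1 : ℕ) : ℤ) = n - 1 := by omega
  push_cast at hB hvS
  rw [h4] at hvS
  have h5 : (n : ℤ) ≤ d := by omega
  have h6 : (0 : ℤ) ≤ a := by positivity
  have h7 : (0 : ℤ) ≤ d := by positivity
  have h8 : (d : ℤ) * (a * n) ≤ d ^ 2 * a := by
    have := mul_le_mul_of_nonneg_left h5 (mul_nonneg h7 h6)
    nlinarith
  nlinarith

end Pool.Agent.CPT
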