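import Pool.Agent.CPT.StmtsE

/-!
# BND: the bound for the poles of a nonsquare `X`
-/

set_option autoImplicit false

noncomputable section

namespace Pool.Agent.CPT

open Pool.Agent

namespace BND_

variable {κ F : Type} [Field κ] [Field F] [Algebra κ F] {x y : F}

theorem exists_uniformiser (O : SRF.PP κ x y) : ∃ π : F, π ≠ 0 ∧ SRF.ord O.1 π = 1 :=
  O.isOrd.unif

theorem ord_zpow (O : SRF.PP κ x y) {f : F} (hf : f ≠ 0) (n : ℤ) :
    SRF.ord O.1 (f ^ n) = n * SRF.ord O.1 f := by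
  obtain ⟨n, rfl | rfl⟩ := n.eq_nat_or_neg
  · rw [zpow_natCast, O.isOrd.pow hf]
  · rw [zpow_neg, zpow_natCast, O.isOrd.inv (pow_ne_zero n hf), O.isOrd.pow hf]; ring

/-- the local estimate -/
theorem local_est (O : SRF.PP κ x y) (C : ℤ) (Δ : F) (φ : F → F) (hΔ : Δ ≠ 0)
    (hφ : ∀ f g, φ (f ^ 2 * g) = f ^ 2 * φ g)
    (hO : ∀ f ∈ O.1, φ f ≠ 0 → - C ≤ SRF.ord O.1 (Δ * φ f))
    (X : F) (hX0 : X ≠ 0) (hX : φ X ≠ 0) :
    SRF.ord O.1 X - 1 - C ≤ SRF.ord O.1 (Δ * φ X) ∧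
      (SRF.ord O.1 X = 0 → - C ≤ SRF.ord O.1 (Δ * φ X)) := by
  constructor
  · obtain ⟨π, hπ0, hπ⟩ := exists_uniformiser O
    set m : ℤ := SRF.ord O.1 X / 2 with hm
    set Y : F := (π ^ (-m)) ^ 2 * X with hY
    have hπm : (π ^ (-m)) ≠ 0 := zpow_ne_zero _ hπ0
    have hvY : SRF.ord O.1 Y = SRF.ord O.1 X - 2 * m := by
      rw [hY, O.isOrd.mul _ _ (pow_ne_zero _ hπm) hX0, O.isOrd.pow hπm, ord_zpow O hπ0, hπ]
      push_cast; ring
    have hY0 : Y ≠ 0 := mul_ne_zero (pow_ne_zero _ hπm) hX0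
    have hYO : Y ∈ O.1 := by
      rw [O.isOrd.mem _ hY0, hvY]; omega
    have hφY : φ Y = (π ^ (-m)) ^ 2 * φ X := hφ _ _
    have hφY0 : φ Y ≠ 0 := by
      rw [hφY]; exact mul_ne_zero (pow_ne_zero _ hπm) hX
    have h1 := hO Y hYO hφY0
    have h2 : SRF.ord O.1 (Δ * φ Y) = SRF.ord O.1 (Δ * φ X) - 2 * m := by
      rw [hφY, show Δ * ((π ^ (-m)) ^ 2 * φ X) = (π ^ (-m)) ^ 2 * (Δ * φ X) by ring,
        O.isOrd.mul _ _ (pow_ne_zero _ hπm) (mul_ne_zero hΔ hX), O.isOrd.pow hπm,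
        ord_zpow O hπ0, hπ]
      push_cast; ring
    omega
  · intro h0
    exact hO X ((O.isOrd.mem _ hX0).2 (by omega)) hX

end BND_

open BND_ in
theorem bnd_proof (hPHI : Stmt_PHI) (hBEZ : Stmt_BEZ) : Stmt_BND := by
  intro κ F _ _ _ _ _ x y hS c c₁ w h hw hgen hh0 hh X hXsq hbd O
  obtain ⟨Δ, φ, hΔ, hadd, hmul, h1, hφX, hpole⟩ := hPHI κ F x y hS c w hw hgen X hXsq
  have : CharP F 2 := charP_of_injective_algebraMap (algebraMap κ F).injective 2
  set d := Module.finrank (KK κ x y) F with hd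
  have hX0 : X ≠ 0 := by
    rintro rfl; exact hXsq ⟨0, by simp⟩
  have hX1 : 1 - X ≠ 0 := by
    intro h0
    have : X = 1 := (sub_eq_zero.1 h0).symm
    exact hXsq ⟨1, by rw [this]; simp⟩
  have hneg : -X = X := CharTwo.neg_eq X
  have hφ1X : φ (1 - X) = φ X := by
    rw [sub_eq_add_neg, hneg, hadd, h1, zero_add]
  -- the function Q
  set Q : F := h * (Δ * φ X) * (X * (1 - X))⁻¹ with hQ
  have hΔφ : Δ * φ X ≠ 0 := mul_ne_zero hΔ hφX
  have hXX : X * (1 - X) ≠ 0 := mul_ne_zero hX0 hX1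
  have hQ0 : Q ≠ 0 := mul_ne_zero (mul_ne_zero hh0 hΔφ) (inv_ne_zero hXX)
  have hvQ : ∀ O : SRF.PP κ x y, SRF.ord O.1 Q =
      SRF.ord O.1 h + SRF.ord O.1 (Δ * φ X) - SRF.ord O.1 X - SRF.ord O.1 (1 - X) := by
    intro O
    rw [hQ, O.isOrd.mul _ _ (mul_ne_zero hh0 hΔφ) (inv_ne_zero hXX), O.isOrd.mul _ _ hh0 hΔφ,
      O.isOrd.inv hXX, O.isOrd.mul _ _ hX0 hX1]
    ring
  have hHnn : ∀ O : SRF.PP κ x y, 0 ≤ SRF.H κ x y O := fun O => le_max_left _ _
  have key : ∀ O : SRF.PP κ x y,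
      max 0 (- SRF.ord O.1 X) ≤ SRF.ord O.1 Q + (c₁ + 2 * c * d) * SRF.H κ x y O := by
    intro O
    have hhO : - (c₁ * SRF.H κ x y O) ≤ SRF.ord O.1 h := hh.resolve_left hh0 O
    have hest := local_est O (2 * c * d * SRF.H κ x y O) Δ φ hΔ hmul (hpole O) X hX0 hφX
    have hest1 := local_est O (2 * c * d * SRF.H κ x y O) Δ φ hΔ hmul (hpole O) (1 - X) hX1
      (by rw [hφ1X]; exact hφX)
    rw [hφ1X] at hest1
    have hb := hbd O
    rw [hvQ O]
    have hone : SRF.ord O.1 (1 : F) = 0 := O.isOrd.one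
    have hnX : SRF.ord O.1 (-X) = SRF.ord O.1 X := by rw [hneg]
    have e1 : min 0 (SRF.ord O.1 X) ≤ SRF.ord O.1 (1 - X) := by
      have := O.isOrd.add (f := 1) (g := -X) one_ne_zero (neg_ne_zero.2 hX0)
        (by rwa [← sub_eq_add_neg])
      rwa [hone, hnX, ← sub_eq_add_neg] at this
    have e2 : min (SRF.ord O.1 (1 - X)) (SRF.ord O.1 X) ≤ 0 := by
      have := O.isOrd.add (f := 1 - X) (g := X) hX1 hX0 (by simp)
      rwa [sub_add_cancel, hone] at this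
    have e3 : min 0 (SRF.ord O.1 (1 - X)) ≤ SRF.ord O.1 X := by
      have hn1 : -(1 - X) = 1 - X := CharTwo.neg_eq _
      have := O.isOrd.add (f := 1) (g := -(1 - X)) one_ne_zero (neg_ne_zero.2 hX1)
        (by simpa using hX0)
      rw [hone, hn1] at this
      have h5 : (1 : F) + (1 - X) = X := by
        have h6 : (1 : F) + 1 = 0 := CharTwo.add_self_eq_zero 1
        linear_combination h6 + hneg
      rwa [h5] at this
    have expand : (c₁ + 2 * c * d : ℤ) * SRF.H κ x y O =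
        c₁ * SRF.H κ x y O + 2 * c * d * SRF.H κ x y O := by ring
    rw [expand]
    obtain ⟨a1, a2⟩ := hest
    obtain ⟨b1, b2⟩ := hest1
    rcases lt_trichotomy (SRF.ord O.1 X) 0 with hlt | heq | hgt
    · have hb1 := hb (Or.inl (by omega))
      omega
    · rcases eq_or_ne (SRF.ord O.1 (1 - X)) 0 with hz | hz
      · have := a2 heq
        omega
      · have hb1 := hb (Or.inr hz)
        omega
    · have hb1 := hb (Or.inl (by omega))
      omega
  have hQL : Q ∈ SRF.L κ x y (fun O => ((c₁ + 2 * c * d : ℕ) : ℤ) * SRF.H κ x y O) := by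
    right
    intro O
    have := (le_max_left _ _).trans (key O)
    push_cast
    omega
  have hfin := hBEZ κ F x y hS (c₁ + 2 * c * d) Q hQ0 hQL O
  have := (le_max_right _ _).trans (key O)
  push_cast at hfin
  rw [← hd] at hfin
  linarith

end Pool.Agent.CPT
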