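import Pool.Agent.CPT.StmtsE

set_option autoImplicit false

noncomputable section

namespace Pool.Agent.CPT

open Pool.Agent Polynomial

namespace BZP_

section core

variable {κ F : Type} [Field κ] [Field F] [Algebra κ F] {O : ValuationSubring F} {v : F → ℤ}

theorem v_neg (hv : SRF.IsOrd O v) (f : F) : v (-f) = v f := by
  by_cases h0 : f = 0
  · rw [h0, neg_zero]
  · have h1 : v (-1) = 0 := by
      have h2 := hv.mul (-1) (-1) (neg_ne_zero.2 one_ne_zero) (neg_ne_zero.2 one_ne_zero)
      rw [neg_one_mul, neg_neg, hv.one] at h2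
      omega
    have h3 := hv.mul (-1) f (neg_ne_zero.2 one_ne_zero) h0
    rw [neg_one_mul, h1, zero_add] at h3
    exact h3

theorem nonneg (hv : SRF.IsOrd O v) (kt : IntermediateField κ F)
    (hkt : ∀ c ∈ kt, c ≠ 0 → v c = 0) (s : F) (hs : s ∈ O) (N : kt[X]) : aeval s N ∈ O := by
  have hc : ∀ c : kt, (c : F) ∈ O := by
    intro c
    by_cases h0 : (c : F) = 0
    · rw [h0]; exact O.zero_mem
    · rw [hv.mem _ h0, hkt _ c.2 h0]
  rw [aeval_eq_sum_range]
  refine sum_mem fun i _ => ?_
  rw [Algebra.smul_def]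
  exact mul_mem (hc _) (pow_mem hs i)

theorem exR (hv : SRF.IsOrd O v) (kt : IntermediateField κ F)
    (hkt : ∀ c ∈ kt, c ≠ 0 → v c = 0) (s : F) (hs : s ∈ O) :
    ∃ r : ℕ, ∀ N : kt[X], aeval s N ≠ 0 →
      v (aeval s N) ≤ r * N.natDegree ∧ (r : ℤ) ∣ v (aeval s N) := by
  classical
  have hnn : ∀ N : kt[X], aeval s N ≠ 0 → 0 ≤ v (aeval s N) := fun N hN =>
    (hv.mem _ hN).1 (nonneg hv kt hkt s hs N)
  by_cases hex : ∃ n : ℕ, ∃ q : kt[X], q.natDegree = n ∧ aeval s q ≠ 0 ∧ 0 < v (aeval s q)
  · set n := Nat.find hex with hn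
    obtain ⟨q, hqn, hq0, hqv⟩ := Nat.find_spec hex
    have hmin : ∀ N : kt[X], N.natDegree < q.natDegree → aeval s N ≠ 0 → v (aeval s N) = 0 := by
      intro N hN hN0
      by_contra hcon
      have h1 := hnn N hN0
      have h2 : 0 < v (aeval s N) := lt_of_le_of_ne h1 (Ne.symm hcon)
      exact Nat.find_min hex (hN.trans_eq hqn) ⟨N, rfl, hN0, h2⟩
    have hqne : q ≠ 0 := by
      rintro rfl
      exact hq0 (map_zero _)
    have hqdeg : 1 ≤ q.natDegree := by
      by_contra hcon
      have h1 : q.natDegree = 0 := by omega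
      rw [eq_C_of_natDegree_eq_zero h1, aeval_C] at hqv hq0
      have h2 := hkt _ (q.coeff 0).2 hq0
      change 0 < v ((q.coeff 0 : kt) : F) at hqv
      omega
    refine ⟨(v (aeval s q)).toNat, ?_⟩
    have hr : (((v (aeval s q)).toNat : ℕ) : ℤ) = v (aeval s q) := Int.toNat_of_nonneg hqv.le
    rw [hr]
    have key : ∀ (m : ℕ) (N : kt[X]), N.natDegree ≤ m → aeval s N ≠ 0 →
        v (aeval s N) ≤ v (aeval s q) * N.natDegree ∧ v (aeval s q) ∣ v (aeval s N) := by
      intro m
      induction m with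
      | zero =>
        intro N hN hN0
        rw [hmin N (by omega) hN0]
        exact ⟨by positivity, dvd_zero _⟩
      | succ m ih =>
        intro N hN hN0
        by_cases hv0 : v (aeval s N) = 0
        · rw [hv0]
          exact ⟨by positivity, dvd_zero _⟩
        have hvp : 0 < v (aeval s N) := lt_of_le_of_ne (hnn N hN0) (Ne.symm hv0)
        have hle : q.natDegree ≤ N.natDegree := by
          by_contra hcon
          exact hv0 (hmin N (by omega) hN0)
        have hdiv : q * (N / q) + N % q = N := EuclideanDomain.div_add_mod N q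
        have hR0 : aeval s (N % q) = 0 := by
          by_contra hR
          have h1 : (N % q).natDegree < q.natDegree :=
            natDegree_mod_lt N (by omega)
          have h2 := hmin _ h1 hR
          have h3 : aeval s (N % q) = aeval s N + -(aeval s q * aeval s (N / q)) := by
            have h4 := congrArg (aeval s) hdiv
            rw [map_add, map_mul] at h4
            rw [← h4]
            ring
          by_cases h5 : aeval s (N / q) = 0
          · rw [h5, mul_zero, neg_zero, add_zero] at h3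
            rw [h3] at h2
            omega
          · have h6 : aeval s q * aeval s (N / q) ≠ 0 := mul_ne_zero hq0 h5
            have h7 := hv.add hN0 (neg_ne_zero.2 h6) (by rw [← h3]; exact hR)
            rw [← h3, h2, v_neg hv, hv.mul _ _ hq0 h5] at h7
            have h8 := hnn _ h5
            rcases min_le_iff.1 h7 with h9 | h9 <;> omega
        have hN1 : aeval s N = aeval s q * aeval s (N / q) := by
          have h4 := congrArg (aeval s) hdiv
          rw [map_add, map_mul, hR0, add_zero] at h4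
          exact h4.symm
        have hM0 : aeval s (N / q) ≠ 0 := by
          intro h
          rw [h, mul_zero] at hN1
          exact hN0 hN1
        have hNne : N ≠ 0 := by
          rintro rfl
          exact hN0 (map_zero _)
        have hdeg : q.natDegree + (N / q).natDegree = N.natDegree := by
          have hM : N / q ≠ 0 := by
            intro h
            rw [h, map_zero] at hM0
            exact hM0 rfl
          have hle2 : q.degree ≤ N.degree := by
            rw [degree_eq_natDegree hqne, degree_eq_natDegree hNne]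
            exact_mod_cast hle
          have h1 := degree_add_div hqne hle2
          rw [degree_eq_natDegree hqne, degree_eq_natDegree hM, degree_eq_natDegree hNne] at h1
          exact_mod_cast h1
        obtain ⟨h1, h2⟩ := ih (N / q) (by omega) hM0
        rw [hN1, hv.mul _ _ hq0 hM0]
        constructor
        · have h3 : ((N / q).natDegree : ℤ) + 1 ≤ N.natDegree := by
            have : (N / q).natDegree + 1 ≤ N.natDegree := by omega
            exact_mod_cast this
          nlinarith
        · exact dvd_add (dvd_refl _) h2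
    exact fun N hN => key N.natDegree N le_rfl hN
  · push Not at hex
    refine ⟨0, fun N hN => ?_⟩
    have h1 := hex _ N rfl hN
    have h2 := hnn N hN
    have h3 : v (aeval s N) = 0 := by omega
    rw [h3]
    simp

theorem sum_pos (hv : SRF.IsOrd O v) {ι : Type} [DecidableEq ι] (u : Finset ι) (f : ι → F) (m : ℤ)
    (h : ∀ i ∈ u, f i ≠ 0 → m < v (f i)) : ∑ i ∈ u, f i ≠ 0 → m < v (∑ i ∈ u, f i) := by
  induction u using Finset.induction_on with
  | empty => intro h0; simp at h0
  | insert a u ha ih =>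
    rw [Finset.sum_insert ha]
    intro h0
    by_cases h1 : f a = 0
    · rw [h1, zero_add] at h0 ⊢
      exact ih (fun i hi => h i (Finset.mem_insert_of_mem hi)) h0
    · by_cases h2 : ∑ i ∈ u, f i = 0
      · rw [h2, add_zero]
        exact h a (Finset.mem_insert_self _ _) h1
      · have h3 := ih (fun i hi => h i (Finset.mem_insert_of_mem hi)) h2
        have h4 := h a (Finset.mem_insert_self _ _) h1
        exact lt_of_lt_of_le (lt_min h4 h3) (hv.add h1 h2 h0)

theorem rle (hv : SRF.IsOrd O v) (K' : IntermediateField κ F) [FiniteDimensional K' F] (r : ℕ)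
    (hr : ∀ f ∈ K', f ≠ 0 → (r : ℤ) ∣ v f) : r ≤ Module.finrank K' F := by
  classical
  obtain ⟨π, hπ0, hπ⟩ := hv.unif
  have hli : LinearIndependent K' (fun j : Fin r => π ^ (j : ℕ)) := by
    rw [Fintype.linearIndependent_iff]
    intro g hg
    by_contra hcon
    push Not at hcon
    let S := Finset.univ.filter fun j : Fin r => g j ≠ 0
    have hS : S.Nonempty := by
      obtain ⟨i, hi⟩ := hcon
      exact ⟨i, Finset.mem_filter.2 ⟨Finset.mem_univ _, hi⟩⟩
    obtain ⟨i0, hi0, hmin⟩ := Finset.exists_min_image S (fun j => v (g j • π ^ (j : ℕ))) hS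
    have hi0' : g i0 ≠ 0 := (Finset.mem_filter.1 hi0).2
    have hval : ∀ j : Fin r, g j ≠ 0 → g j • π ^ (j : ℕ) ≠ 0 ∧
        v (g j • π ^ (j : ℕ)) = v (g j : F) + (j : ℕ) := by
      intro j hj
      have h1 : ((g j : K') : F) ≠ 0 := fun h => hj (Subtype.ext h)
      rw [Algebra.smul_def]
      change ((g j : K') : F) * _ ≠ 0 ∧ v (((g j : K') : F) * _) = _
      refine ⟨mul_ne_zero h1 (pow_ne_zero _ hπ0), ?_⟩
      rw [hv.mul _ _ h1 (pow_ne_zero _ hπ0), hv.pow hπ0, hπ, mul_one]
    have h1 : ∀ j ∈ S.erase i0, g j • π ^ (j : ℕ) ≠ 0 →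
        v (g i0 • π ^ (i0 : ℕ)) < v (g j • π ^ (j : ℕ)) := by
      intro j hj _
      have hjS : j ∈ S := Finset.mem_of_mem_erase hj
      have hj0 : g j ≠ 0 := (Finset.mem_filter.1 hjS).2
      refine lt_of_le_of_ne (hmin j hjS) ?_
      intro heq
      rw [(hval i0 hi0').2, (hval j hj0).2] at heq
      obtain ⟨a, ha⟩ := hr _ (g i0).2 (fun h => hi0' (Subtype.ext h))
      obtain ⟨b, hb⟩ := hr _ (g j).2 (fun h => hj0 (Subtype.ext h))
      rw [ha, hb] at heq
      have h2 : (r : ℤ) ∣ ((i0 : ℕ) : ℤ) - ((j : ℕ) : ℤ) := ⟨b - a, by linarith⟩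
      have h3 : (i0 : ℕ) < r := i0.2
      have h4 : (j : ℕ) < r := j.2
      have h5 : ((i0 : ℕ) : ℤ) - ((j : ℕ) : ℤ) = 0 := by
        apply Int.eq_zero_of_abs_lt_dvd h2
        rw [abs_lt]
        omega
      have h6 : i0 = j := Fin.ext (by omega)
      exact (Finset.ne_of_mem_erase hj) h6.symm
    have h2 : ∑ j ∈ S, g j • π ^ (j : ℕ) = 0 := by
      rw [← hg]
      refine Finset.sum_subset (Finset.subset_univ _) fun j _ hj => ?_
      have : g j = 0 := by
        by_contra h
        exact hj (Finset.mem_filter.2 ⟨Finset.mem_univ _, h⟩)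
      rw [this, zero_smul]
    rw [← Finset.add_sum_erase S _ hi0] at h2
    have h3 : ∑ j ∈ S.erase i0, g j • π ^ (j : ℕ) = -(g i0 • π ^ (i0 : ℕ)) :=
      (neg_eq_of_add_eq_zero_right h2).symm
    have h4 : ∑ j ∈ S.erase i0, g j • π ^ (j : ℕ) ≠ 0 := by
      rw [h3]
      exact neg_ne_zero.2 (hval i0 hi0').1
    have h5 := sum_pos hv (S.erase i0) (fun j : Fin r => g j • π ^ (j : ℕ)) _ h1 h4
    rw [h3, v_neg hv] at h5
    exact lt_irrefl _ h5
  have h := hli.fintype_card_le_finrank
  rwa [Fintype.card_fin] at h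

end core

theorem third : ∀ i j : Fin 3, i ≠ j → ∃ l : Fin 3, l ≠ i ∧ l ≠ j ∧ ∀ m : Fin 3, m = i ∨ m = j ∨ m = l := by
  decide

end BZP_

open BZP_ in
theorem bzp_proof (hNAL : SRF.Stmt_NAL) (hHCH : SRF.Stmt_HCH) (hBAS : SRF.Stmt_BAS) : Stmt_BZP := by
  intro κ F _ _ _ x y hS D P hP hP0 O
  classical
  have hv := O.isOrd
  set v := SRF.ord O.1 with hvdef
  obtain ⟨hdvr, i, hi, -⟩ := O.2
  obtain ⟨j, hj⟩ := hNAL κ F x y hS O i hi
  have hx0 : x ≠ 0 := hS.indep.ne_zero 0
  have hy0 : y ≠ 0 := hS.indep.ne_zero 1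
  have hz0 : ∀ l, SRF.z x y l ≠ 0 := by
    intro l
    fin_cases l
    · exact one_ne_zero
    · exact hx0
    · exact hy0
  have hij : i ≠ j := by
    rintro rfl
    have h1 := (hj (X - C 1) (X_sub_C_ne_zero 1)).1
    rw [div_self (hz0 i)] at h1
    simp at h1
  obtain ⟨l, hli, hlj, hall⟩ := third i j hij
  set t := SRF.z x y j / SRF.z x y i with ht
  set s := SRF.z x y l / SRF.z x y i with hs
  -- elements of the chart
  have hbase : ∀ f ∈ SRF.base κ x y i, f ∈ O.1 := by
    intro f hf
    apply hi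
    change IsIntegral (SRF.base κ x y i) f
    exact isIntegral_algebraMap (R := SRF.base κ x y i) (A := F) (x := ⟨f, hf⟩)
  have hzb : ∀ m, SRF.z x y m / SRF.z x y i ∈ SRF.base κ x y i := fun m =>
    Algebra.subset_adjoin ⟨m, rfl⟩
  have hsO : s ∈ O.1 := hbase _ (hzb l)
  -- the field `κ(t)`
  let kt : IntermediateField κ F := IntermediateField.adjoin κ {t}
  have htk : t ∈ kt := IntermediateField.mem_adjoin_simple_self κ t
  have hpoly : ∀ q : κ[X], q ≠ 0 → aeval t q ≠ 0 ∧ v (aeval t q) = 0 := by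
    intro q hq
    obtain ⟨h1, h2⟩ := hj q hq
    refine ⟨h1, ?_⟩
    have h3 : aeval t q ∈ SRF.base κ x y i := by
      have h4 : aeval t q ∈ Algebra.adjoin κ {t} := by
        rw [Algebra.adjoin_singleton_eq_range_aeval]
        exact ⟨q, rfl⟩
      have hsub : ({t} : Set F) ⊆ Set.range (fun m => SRF.z x y m / SRF.z x y i) :=
        Set.singleton_subset_iff.2 ⟨j, rfl⟩
      exact Algebra.adjoin_mono hsub h4
    have h5 := (hv.mem _ h1).1 (hbase _ h3)
    have h6 := (hv.mem _ (inv_ne_zero h1)).1 h2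
    rw [hv.inv h1] at h6
    omega
  have hkt : ∀ c ∈ kt, c ≠ 0 → v c = 0 := by
    intro c hc hc0
    obtain ⟨p, q, rfl⟩ := IntermediateField.mem_adjoin_simple_iff κ c |>.1 hc
    have hp0 : aeval t p ≠ 0 := by
      intro h
      rw [h, zero_div] at hc0
      exact hc0 rfl
    have hq0 : aeval t q ≠ 0 := by
      intro h
      rw [h, div_zero] at hc0
      exact hc0 rfl
    have hp : p ≠ 0 := by
      rintro rfl
      exact hp0 (map_zero _)
    have hq : q ≠ 0 := by
      rintro rfl
      exact hq0 (map_zero _)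
    rw [div_eq_mul_inv, hv.mul _ _ hp0 (inv_ne_zero hq0), hv.inv hq0, (hpoly p hp).2,
      (hpoly q hq).2]
    rfl
  obtain ⟨r, hr⟩ := exR hv kt hkt s hsO
  -- coordinates as polynomials in `s`
  let U : Fin 3 → kt[X] := fun m => if m = i then 1 else if m = j then C ⟨t, htk⟩ else X
  have hU : ∀ m, aeval s (U m) = SRF.z x y m / SRF.z x y i := by
    intro m
    rcases hall m with rfl | rfl | rfl
    · simp [U, div_self (hz0 _)]
    · simp only [U, if_neg hij.symm, if_true, aeval_C]
      rfl
    · simp [U, if_neg hli, if_neg hlj, hs]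
  have hUd : ∀ m, (U m).natDegree ≤ 1 := by
    intro m
    rcases hall m with rfl | rfl | rfl
    · simp [U]
    · simp [U, if_neg hij.symm]
    · simp [U, if_neg hli, if_neg hlj]
  -- the base ring
  have hbN : ∀ f ∈ SRF.base κ x y i, ∃ N : kt[X], aeval s N = f := by
    intro f hf
    have hle : SRF.base κ x y i ≤ (aeval (R := kt) s).range.restrictScalars κ := by
      refine Algebra.adjoin_le ?_
      rintro _ ⟨m, rfl⟩
      exact ⟨U m, hU m⟩
    obtain ⟨N, hN⟩ := hle hf
    exact ⟨N, hN⟩
  have hrK : ∀ f ∈ KK κ x y, f ≠ 0 → (r : ℤ) ∣ v f := by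
    intro f hf hf0
    obtain ⟨a, ha, b, hb, hb0, rfl⟩ := (hBAS κ F x y hS i).2.2 f hf
    have ha0 : a ≠ 0 := by
      rintro rfl
      exact hf0 (zero_div _)
    obtain ⟨Na, hNa⟩ := hbN a ha
    obtain ⟨Nb, hNb⟩ := hbN b hb
    have h1 := (hr Na (by rw [hNa]; exact ha0)).2
    have h2 := (hr Nb (by rw [hNb]; exact hb0)).2
    rw [hNa] at h1
    rw [hNb] at h2
    rw [div_eq_mul_inv, hv.mul _ _ ha0 (inv_ne_zero hb0), hv.inv hb0, ← sub_eq_add_neg]
    exact dvd_sub h1 h2
  have := hS.fin
  have hrd : r ≤ Module.finrank (KK κ x y) F := rle hv (KK κ x y) r hrK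
  -- the polynomial
  have hmain : ∃ N : kt[X], N.natDegree ≤ D ∧
      aeval s N = MvPolynomial.aeval ![x, y] P / SRF.z x y i ^ D := by
    let T : (Fin 2 →₀ ℕ) → kt[X] := fun m =>
      C (algebraMap κ kt (P.coeff m)) * (U 1 ^ (m 0) * U 2 ^ (m 1) * U 0 ^ (D - (m 0 + m 1)))
    have hmD : ∀ m ∈ P.support, m 0 + m 1 ≤ D := by
      intro m hm
      have h1 := MvPolynomial.le_totalDegree hm
      have h2 : (m.sum fun _ e => e) = m 0 + m 1 := by
        rw [Finsupp.sum_fintype _ _ (fun _ => rfl), Fin.sum_univ_two]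
      omega
    refine ⟨∑ m ∈ P.support, T m, ?_, ?_⟩
    · refine natDegree_sum_le_of_forall_le _ _ fun m hm => ?_
      have h1 := hmD m hm
      refine (natDegree_C_mul_le _ _).trans ?_
      refine natDegree_mul_le.trans ?_
      have h2 : (U 1 ^ (m 0) * U 2 ^ (m 1)).natDegree ≤ m 0 + m 1 := by
        refine natDegree_mul_le.trans ?_
        have h3 := natDegree_pow_le_of_le (m 0) (hUd 1)
        have h4 := natDegree_pow_le_of_le (m 1) (hUd 2)
        omega
      have h5 := natDegree_pow_le_of_le (D - (m 0 + m 1)) (hUd 0)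
      omega
    · rw [map_sum, MvPolynomial.aeval_def, MvPolynomial.eval₂_eq', Finset.sum_div]
      refine Finset.sum_congr rfl fun m hm => ?_
      have h1 := hmD m hm
      have h2 : SRF.z x y i ^ D = SRF.z x y i ^ (m 0) * SRF.z x y i ^ (m 1) *
          SRF.z x y i ^ (D - (m 0 + m 1)) := by
        rw [← pow_add, ← pow_add]
        congr 1
        omega
      simp only [T, map_mul, map_pow, aeval_C, hU]
      rw [Fin.prod_univ_two, h2, div_pow, div_pow, div_pow]
      have h3 : SRF.z x y 0 = 1 := rfl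
      have h4 : SRF.z x y 1 = x := rfl
      have h5 : SRF.z x y 2 = y := rfl
      rw [h3, h4, h5, one_pow]
      have h6 : algebraMap kt F (algebraMap κ kt (P.coeff m)) = algebraMap κ F (P.coeff m) := rfl
      rw [h6]
      have h7 := hz0 i
      simp only [Matrix.cons_val_zero, Matrix.cons_val_one]
      field_simp
  obtain ⟨N, hND, hN⟩ := hmain
  have hne : aeval s N ≠ 0 := by
    rw [hN]
    exact div_ne_zero hP0 (pow_ne_zero _ (hz0 i))
  have h1 := (hr N hne).1
  rw [hN, div_eq_mul_inv, hv.mul _ _ hP0 (inv_ne_zero (pow_ne_zero _ (hz0 i))),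
    hv.inv (pow_ne_zero _ (hz0 i)), hv.pow (hz0 i)] at h1
  have h2 := ((hHCH κ F x y hS O).2.2 i).1 hi
  rw [h2]
  have h3 : (r : ℤ) * N.natDegree ≤ Module.finrank (KK κ x y) F * D := by
    have : r * N.natDegree ≤ Module.finrank (KK κ x y) F * D := Nat.mul_le_mul hrd hND
    exact_mod_cast this
  rw [← hvdef]
  linarith

end Pool.Agent.CPT
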