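import Pool.Agent.CPT.Defs

set_option autoImplicit false

namespace Pool.Agent.CPT

section dv
variable {κ K : Type} [Field κ] [Field K] [Algebra κ K]

theorem DV.v_one (e : DV κ K) : e.v 1 = 0 := by
  have h := e.map_const 1 one_ne_zero
  simpa using h

theorem DV.v_inv (e : DV κ K) {x : K} (hx : x ≠ 0) : e.v x⁻¹ = - e.v x := by
  have h := e.map_mul x x⁻¹ hx (inv_ne_zero hx)
  rw [mul_inv_cancel₀ hx, e.v_one] at h
  omega

theorem DV.v_neg_one (e : DV κ K) : e.v (-1) = 0 := by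
  have h := e.map_const (-1) (neg_ne_zero.mpr one_ne_zero)
  simpa using h

theorem DV.v_neg (e : DV κ K) (x : K) (hx : x ≠ 0) : e.v (-x) = e.v x := by
  have h := e.map_mul (-1) x (neg_ne_zero.mpr one_ne_zero) hx
  rw [e.v_neg_one, neg_one_mul] at h
  omega

theorem DV.v_mul (e : DV κ K) {x y : K} (hx : x ≠ 0) (hy : y ≠ 0) :
    e.v (x * y) = e.v x + e.v y := e.map_mul x y hx hy

theorem DV.v_div (e : DV κ K) {x y : K} (hx : x ≠ 0) (hy : y ≠ 0) :
    e.v (x / y) = e.v x - e.v y := by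
  rw [div_eq_mul_inv, e.v_mul hx (inv_ne_zero hy), e.v_inv hy]; ring

theorem DV.v_pow (e : DV κ K) {x : K} (hx : x ≠ 0) (n : ℕ) : e.v (x ^ n) = n * e.v x := by
  induction n with
  | zero => simp [e.v_one]
  | succ n ih =>
    rw [pow_succ, e.v_mul (pow_ne_zero n hx) hx, ih]; push_cast; ring

theorem DV.v_zpow (e : DV κ K) {x : K} (hx : x ≠ 0) (n : ℤ) : e.v (x ^ n) = n * e.v x := by
  cases n with
  | ofNat n => simpa using e.v_pow hx n
  | negSucc n =>
    rw [zpow_negSucc, e.v_inv (pow_ne_zero _ hx), e.v_pow hx, Int.negSucc_eq]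
    push_cast; ring

theorem DV.O_zero (e : DV κ K) : e.O 0 := Or.inl rfl
theorem DV.M_zero (e : DV κ K) : e.M 0 := Or.inl rfl
theorem DV.O_one (e : DV κ K) : e.O 1 := Or.inr (by rw [e.v_one])
theorem DV.O_const (e : DV κ K) (c : κ) : e.O (algebraMap κ K c) := by
  by_cases hc : c = 0
  · left; rw [hc, map_zero]
  · right; rw [e.map_const c hc]

theorem DV.M.O {e : DV κ K} {x : K} (h : e.M x) : e.O x := by
  rcases h with h | h
  · exact Or.inl h
  · exact Or.inr h.le

theorem DV.O_mul {e : DV κ K} {x y : K} (hx : e.O x) (hy : e.O y) : e.O (x * y) := by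
  by_cases h0 : x = 0
  · left; rw [h0, zero_mul]
  by_cases h1 : y = 0
  · left; rw [h1, mul_zero]
  right
  have hx' := hx.resolve_left h0
  have hy' := hy.resolve_left h1
  rw [e.v_mul h0 h1]; omega

theorem DV.M_mul {e : DV κ K} {x y : K} (hx : e.M x) (hy : e.O y) : e.M (x * y) := by
  by_cases h0 : x = 0
  · left; rw [h0, zero_mul]
  by_cases h1 : y = 0
  · left; rw [h1, mul_zero]
  right
  have hx' := hx.resolve_left h0
  have hy' := hy.resolve_left h1
  rw [e.v_mul h0 h1]; omega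

theorem DV.M_mul' {e : DV κ K} {x y : K} (hx : e.O x) (hy : e.M y) : e.M (x * y) := by
  rw [mul_comm]; exact DV.M_mul hy hx

theorem DV.O_add {e : DV κ K} {x y : K} (hx : e.O x) (hy : e.O y) : e.O (x + y) := by
  by_cases h0 : x = 0
  · rwa [h0, zero_add]
  by_cases h1 : y = 0
  · rwa [h1, add_zero]
  by_cases h2 : x + y = 0
  · exact Or.inl h2
  right
  have hx' := hx.resolve_left h0
  have hy' := hy.resolve_left h1
  exact le_trans (le_min hx' hy') (e.map_add x y h0 h1 h2)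

theorem DV.M_add {e : DV κ K} {x y : K} (hx : e.M x) (hy : e.M y) : e.M (x + y) := by
  by_cases h0 : x = 0
  · rwa [h0, zero_add]
  by_cases h1 : y = 0
  · rwa [h1, add_zero]
  by_cases h2 : x + y = 0
  · exact Or.inl h2
  right
  have hx' := hx.resolve_left h0
  have hy' := hy.resolve_left h1
  exact lt_of_lt_of_le (lt_min hx' hy') (e.map_add x y h0 h1 h2)

theorem DV.O_neg {e : DV κ K} {x : K} (hx : e.O x) : e.O (-x) := by
  rcases hx with h | h
  · left; rw [h, neg_zero]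
  · by_cases h0 : x = 0
    · left; rw [h0, neg_zero]
    · right; rwa [e.v_neg x h0]

theorem DV.M_neg {e : DV κ K} {x : K} (hx : e.M x) : e.M (-x) := by
  rcases hx with h | h
  · left; rw [h, neg_zero]
  · by_cases h0 : x = 0
    · left; rw [h0, neg_zero]
    · right; rwa [e.v_neg x h0]

theorem DV.O_sub {e : DV κ K} {x y : K} (hx : e.O x) (hy : e.O y) : e.O (x - y) := by
  rw [sub_eq_add_neg]; exact DV.O_add hx (DV.O_neg hy)

theorem DV.M_sub {e : DV κ K} {x y : K} (hx : e.M x) (hy : e.M y) : e.M (x - y) := by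
  rw [sub_eq_add_neg]; exact DV.M_add hx (DV.M_neg hy)

theorem DV.M_sub_comm {e : DV κ K} {x y : K} (h : e.M (x - y)) : e.M (y - x) := by
  have := DV.M_neg h
  rwa [neg_sub] at this

theorem DV.O_pow {e : DV κ K} {x : K} (hx : e.O x) (n : ℕ) : e.O (x ^ n) := by
  induction n with
  | zero => simpa using e.O_one
  | succ n ih => rw [pow_succ]; exact DV.O_mul ih hx

theorem DV.not_M_one (e : DV κ K) : ¬ e.M 1 := by
  rintro (h | h)
  · exact one_ne_zero h
  · rw [e.v_one] at h; exact lt_irrefl _ h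

theorem DV.not_M_const (e : DV κ K) {c : κ} (hc : c ≠ 0) : ¬ e.M (algebraMap κ K c) := by
  rintro (h | h)
  · exact hc ((map_eq_zero (algebraMap κ K)).mp h)
  · rw [e.map_const c hc] at h; exact lt_irrefl _ h

theorem DV.O_inv {e : DV κ K} {x : K} (hx : x ≠ 0) : e.O x⁻¹ ↔ e.v x ≤ 0 := by
  unfold DV.O
  rw [e.v_inv hx]
  constructor
  · rintro (h | h)
    · exact absurd h (inv_ne_zero hx)
    · omega
  · intro h; right; omega

theorem DV.O_iff {e : DV κ K} {x : K} (hx : x ≠ 0) : e.O x ↔ 0 ≤ e.v x := by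
  unfold DV.O; simp [hx]

theorem DV.M_iff {e : DV κ K} {x : K} (hx : x ≠ 0) : e.M x ↔ 0 < e.v x := by
  unfold DV.M; simp [hx]

theorem DV.M_inv_iff {e : DV κ K} {x : K} (hx : x ≠ 0) : e.M x⁻¹ ↔ ¬ e.O x := by
  rw [DV.M_iff (inv_ne_zero hx), e.v_inv hx, DV.O_iff hx]
  omega

/-- a strict inequality of valuations -/
theorem DV.v_add_of_lt (e : DV κ K) {x y : K} (hx : x ≠ 0) (hy : y ≠ 0)
    (h : e.v x < e.v y) : x + y ≠ 0 ∧ e.v (x + y) = e.v x := by
  have hne : x + y ≠ 0 := by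
    intro h0
    have : y = -x := by rw [eq_neg_iff_add_eq_zero, add_comm]; exact h0
    rw [this, e.v_neg x hx] at h
    exact lt_irrefl _ h
  refine ⟨hne, ?_⟩
  have h1 := e.map_add x y hx hy hne
  have h2 : min (e.v (x + y)) (e.v y) ≤ e.v x := by
    have h3 := e.map_add (x + y) (-y) hne (neg_ne_zero.mpr hy) (by rw [add_neg_cancel_right]; exact hx)
    rwa [add_neg_cancel_right, e.v_neg y hy] at h3
  rw [min_eq_left h.le] at h1
  rcases min_le_iff.mp h2 with h3 | h3
  · omega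
  · omega

/-- the valuation ring of `e` -/
def DV.vs (e : DV κ K) : ValuationSubring K where
  carrier := {x | e.O x}
  mul_mem' := fun hx hy => DV.O_mul hx hy
  one_mem' := e.O_one
  add_mem' := fun hx hy => DV.O_add hx hy
  zero_mem' := e.O_zero
  neg_mem' := fun hx => DV.O_neg hx
  mem_or_inv_mem' := by
    intro x
    by_cases hx : x = 0
    · left; exact Or.inl hx
    · rcases le_total 0 (e.v x) with h | h
      · left; exact Or.inr h
      · right; exact (DV.O_inv hx).mpr h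

theorem DV.mem_vs {e : DV κ K} {x : K} : x ∈ e.vs ↔ e.O x := Iff.rfl

theorem DV.mem_nonunits_vs {e : DV κ K} {x : K} : x ∈ e.vs.nonunits ↔ e.M x := by
  rw [ValuationSubring.mem_nonunits_iff_or]
  by_cases hx : x = 0
  · simp [hx, DV.M_zero]
  · rw [DV.mem_vs, DV.O_inv hx, DV.M_iff hx]
    simp only [hx, false_or, not_le]

theorem DV.kv_vs (e : DV κ K) : KV κ e.vs := fun c => e.O_const c

theorem DV.O_aeval {e : DV κ K} {x : K} (hx : e.O x) (P : Polynomial κ) :
    e.O (Polynomial.aeval x P) := by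
  induction P using Polynomial.induction_on' with
  | add p q hp hq => rw [_root_.map_add]; exact DV.O_add hp hq
  | monomial n c =>
    rw [Polynomial.aeval_monomial]
    exact DV.O_mul (e.O_const c) (DV.O_pow hx n)

end dv

section surf
variable {κ K : Type} [Field κ] [Field K] [Algebra κ K] {S : Surf κ K}

theorem Surf.meets_symm {e e' : DV κ K} (h : S.meets e e') : S.meets e' e := by
  obtain ⟨V, h0, h1, h2⟩ := h
  exact ⟨V, h0, h2, h1⟩

theorem Surf.thr_self {e : DV κ K} (he : e ∈ S.PP) : S.thr e e.vs :=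
  S.ax3 e.vs e.kv_vs e he (fun _ hx => hx)

theorem Surf.meets_self {e : DV κ K} (he : e ∈ S.PP) : S.meets e e :=
  ⟨e.vs, e.kv_vs, S.thr_self he, S.thr_self he⟩

theorem Surf.reg_zero {V : ValuationSubring K} : S.reg V 0 := fun e _ _ => e.O_zero
theorem Surf.reg_one {V : ValuationSubring K} : S.reg V 1 := fun e _ _ => e.O_one
theorem Surf.reg_const {V : ValuationSubring K} (c : κ) : S.reg V (algebraMap κ K c) :=
  fun e _ _ => e.O_const c
theorem Surf.reg_add {V : ValuationSubring K} {x y : K} (hx : S.reg V x) (hy : S.reg V y) :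
    S.reg V (x + y) := fun e he ht => DV.O_add (hx e he ht) (hy e he ht)
theorem Surf.reg_sub {V : ValuationSubring K} {x y : K} (hx : S.reg V x) (hy : S.reg V y) :
    S.reg V (x - y) := fun e he ht => DV.O_sub (hx e he ht) (hy e he ht)
theorem Surf.reg_mul {V : ValuationSubring K} {x y : K} (hx : S.reg V x) (hy : S.reg V y) :
    S.reg V (x * y) := fun e he ht => DV.O_mul (hx e he ht) (hy e he ht)
theorem Surf.reg_neg {V : ValuationSubring K} {x : K} (hx : S.reg V x) :
    S.reg V (-x) := fun e he ht => DV.O_neg (hx e he ht)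

theorem Surf.reg_mem {V : ValuationSubring K} (hV : KV κ V) {f : K} (hf : S.reg V f) : f ∈ V :=
  S.ax1 V hV f hf

theorem Surf.reg_nonunits {V : ValuationSubring K} (hV : KV κ V) {f : K} (hf : S.reg V f)
    {e : DV κ K} (he : e ∈ S.PP) (ht : S.thr e V) (hM : e.M f) : f ∈ V.nonunits :=
  S.ax2 V hV f e he ht hM hf

/-- the ring of functions regular at the centre of `V` -/
def Surf.regRing (S : Surf κ K) (V : ValuationSubring K) : Subring K where
  carrier := {x | S.reg V x}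
  mul_mem' := fun hx hy => Surf.reg_mul hx hy
  one_mem' := Surf.reg_one
  add_mem' := fun hx hy => Surf.reg_add hx hy
  zero_mem' := Surf.reg_zero
  neg_mem' := fun hx => Surf.reg_neg hx

theorem Surf.mem_regRing {V : ValuationSubring K} {x : K} : x ∈ S.regRing V ↔ S.reg V x := Iff.rfl

theorem KV.inv_notMem {V : ValuationSubring K} {x : K} (h : x ∈ V.nonunits) (hx : x ≠ 0) :
    x⁻¹ ∉ V := (V.mem_nonunits_iff_or.mp h).resolve_left hx

theorem KV.const_notMem_nonunits {V : ValuationSubring K} (hV : KV κ V) {c : κ} (hc : c ≠ 0) :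
    algebraMap κ K c ∉ V.nonunits := by
  intro h
  have h1 : algebraMap κ K c ≠ 0 := fun h0 => hc ((map_eq_zero (algebraMap κ K)).mp h0)
  apply KV.inv_notMem h h1
  rw [← map_inv₀]; exact hV _

end surf

section lam

theorem Lam_zero : Lam 0 := ⟨fun _ _ => rfl, fun _ => rfl, fun i => by simp⟩

theorem Lam_add {m n : Fin 5 → Fin 5 → ℤ} (hm : Lam m) (hn : Lam n) : Lam (m + n) := by
  refine ⟨fun i j => ?_, fun i => ?_, fun i => ?_⟩
  · simp only [Pi.add_apply]; rw [hm.1 i j, hn.1 i j]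
  · simp only [Pi.add_apply]; rw [hm.2.1 i, hn.2.1 i]; rfl
  · simp only [Pi.add_apply]; rw [Finset.sum_add_distrib, hm.2.2 i, hn.2.2 i]; rfl

theorem Lam_neg {n : Fin 5 → Fin 5 → ℤ} (hn : Lam n) : Lam (-n) := by
  refine ⟨fun i j => ?_, fun i => ?_, fun i => ?_⟩
  · simp only [Pi.neg_apply]; rw [hn.1 i j]
  · simp only [Pi.neg_apply]; rw [hn.2.1 i]; rfl
  · simp only [Pi.neg_apply]; rw [Finset.sum_neg_distrib, hn.2.2 i]; rfl

theorem Lam_sub {m n : Fin 5 → Fin 5 → ℤ} (hm : Lam m) (hn : Lam n) : Lam (m - n) := by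
  rw [sub_eq_add_neg]; exact Lam_add hm (Lam_neg hn)

theorem Lam_smul {n : Fin 5 → Fin 5 → ℤ} (c : ℤ) (hn : Lam n) : Lam (c • n) := by
  refine ⟨fun i j => ?_, fun i => ?_, fun i => ?_⟩
  · simp only [Pi.smul_apply]; rw [hn.1 i j]
  · simp only [Pi.smul_apply]; rw [hn.2.1 i]; simp
  · simp only [Pi.smul_apply, smul_eq_mul]; rw [← Finset.mul_sum, hn.2.2 i, mul_zero]

theorem LamI.lam {i : Fin 5} {n : Fin 5 → Fin 5 → ℤ} (h : LamI i n) : Lam n := h.1

theorem LamI_zero (i : Fin 5) : LamI i 0 := ⟨Lam_zero, fun _ => rfl⟩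

theorem LamI_add {i : Fin 5} {m n : Fin 5 → Fin 5 → ℤ} (hm : LamI i m) (hn : LamI i n) :
    LamI i (m + n) := ⟨Lam_add hm.1 hn.1, fun j => by
      simp only [Pi.add_apply]; rw [hm.2 j, hn.2 j]; rfl⟩

theorem LamI_neg {i : Fin 5} {n : Fin 5 → Fin 5 → ℤ} (hn : LamI i n) : LamI i (-n) :=
  ⟨Lam_neg hn.1, fun j => by simp only [Pi.neg_apply]; rw [hn.2 j]; rfl⟩

theorem LamI_sub {i : Fin 5} {m n : Fin 5 → Fin 5 → ℤ} (hm : LamI i m) (hn : LamI i n) :
    LamI i (m - n) := by rw [sub_eq_add_neg]; exact LamI_add hm (LamI_neg hn)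

theorem Lam_cr (i j k l : Fin 5) (h : Dist i j k l) : Lam (cr i j k l) := by
  revert i j k l
  unfold Lam
  decide

theorem LamI_cr (i j k l m : Fin 5) (h : Dist j k l m) (h1 : i ≠ j) (h2 : i ≠ k) (h3 : i ≠ l)
    (h4 : i ≠ m) : LamI i (cr j k l m) := by
  refine ⟨Lam_cr j k l m h, ?_⟩
  revert i j k l m
  decide

end lam

section dat
variable {κ K : Type} [Field κ] [Field K] [Algebra κ K] {S : Surf κ K}

theorem Dat.a_zero (d : Dat S) : d.a 0 = 1 := by
  have h := d.a_add 0 0 Lam_zero Lam_zero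
  rw [add_zero] at h
  have h0 := d.a_ne 0 Lam_zero
  exact (mul_eq_left₀ h0).mp h.symm

theorem Dat.a_neg (d : Dat S) {n : Fin 5 → Fin 5 → ℤ} (hn : Lam n) : d.a (-n) = (d.a n)⁻¹ := by
  have h := d.a_add n (-n) hn (Lam_neg hn)
  rw [add_neg_cancel, d.a_zero] at h
  exact eq_inv_of_mul_eq_one_right h.symm

theorem Dat.a_sub (d : Dat S) {m n : Fin 5 → Fin 5 → ℤ} (hm : Lam m) (hn : Lam n) :
    d.a (m - n) = d.a m / d.a n := by
  rw [sub_eq_add_neg, d.a_add m (-n) hm (Lam_neg hn), d.a_neg hn, div_eq_mul_inv]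

/-- a prime divisor of the boundary has a unique label -/
theorem Dat.label_unique (d : Dat S) {i j k l : Fin 5} {e : DV κ K} (h : e ∈ d.D i j)
    (h' : e ∈ d.D k l) : (i = k ∧ j = l) ∨ (i = l ∧ j = k) := by
  have hs := S.meets_self (d.D_sub i j h)
  have hij : i ≠ j := by
    intro hij
    rw [hij, d.D_diag] at h; exact h
  have hkl : k ≠ l := by
    intro hkl
    rw [hkl, d.D_diag] at h'; exact h'
  by_cases h1 : i = k
  · left; refine ⟨h1, ?_⟩
    by_contra h2
    rw [← h1] at h'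
    exact d.D_disj i j l h2 e h e h' hs
  by_cases h2 : i = l
  · right; refine ⟨h2, ?_⟩
    by_contra h3
    rw [d.D_symm k l, ← h2] at h'
    exact d.D_disj i j k h3 e h e h' hs
  by_cases h3 : j = k
  · exfalso
    rw [← h3] at h'
    rw [d.D_symm i j] at h
    exact d.D_disj j i l h2 e h e h' hs
  by_cases h4 : j = l
  · exfalso
    rw [d.D_symm k l, ← h4] at h'
    rw [d.D_symm i j] at h
    exact d.D_disj j i k h1 e h e h' hs
  · exfalso
    exact d.D_comm i j k l ⟨hij, h1, h2, h3, h4, hkl⟩ e h h'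

theorem Dat.ne_of_mem (d : Dat S) {i j : Fin 5} {e : DV κ K} (h : e ∈ d.D i j) : i ≠ j := by
  intro hij
  rw [hij, d.D_diag] at h; exact h

theorem Dat.a_mem_kf (d : Dat S) {i : Fin 5} {n : Fin 5 → Fin 5 → ℤ} (hn : LamI i n) :
    d.a n ∈ d.kf i := IntermediateField.subset_adjoin _ _ ⟨n, hn, rfl⟩

theorem Dat.a_mem_LL (d : Dat S) {n : Fin 5 → Fin 5 → ℤ} (hn : Lam n) :
    d.a n ∈ d.LL := IntermediateField.subset_adjoin _ _ ⟨n, hn, rfl⟩

theorem Dat.kf_le_LL (d : Dat S) (i : Fin 5) : d.kf i ≤ d.LL := by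
  apply IntermediateField.adjoin.mono
  rintro x ⟨n, hn, rfl⟩
  exact ⟨n, hn.1, rfl⟩

theorem Dat.KI_of_mem (d : Dat S) {i : Fin 5} {f : K} (hf : f ∈ d.kf i) : d.KI i f :=
  isAlgebraic_algebraMap (⟨f, hf⟩ : d.kf i)

end dat

end Pool.Agent.CPT
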