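import Pool.Agent.CPT.Stmts

set_option autoImplicit false

/-!
# Module CMP: composite valuation rings
-/

namespace Pool.Agent.CPT

namespace CMP_

variable {κ K : Type} [Field κ] [Field K] [Algebra κ K]

/-- the ring `S₀ + m_e` -/
def ring (e : DV κ K) (S₀ : Subring K) (h : ∀ x ∈ S₀, e.O x) : Subring K where
  carrier := {z | ∃ x ∈ S₀, ∃ y, e.M y ∧ z = x + y}
  mul_mem' := by
    rintro a b ⟨x, hx, y, hy, rfl⟩ ⟨x', hx', y', hy', rfl⟩
    refine ⟨x * x', S₀.mul_mem hx hx', x * y' + y * x' + y * y', ?_, by ring⟩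
    exact DV.M_add (DV.M_add (DV.M_mul' (h x hx) hy') (DV.M_mul hy (h x' hx')))
      (DV.M_mul hy hy'.O)
  one_mem' := ⟨1, S₀.one_mem, 0, e.M_zero, by ring⟩
  add_mem' := by
    rintro a b ⟨x, hx, y, hy, rfl⟩ ⟨x', hx', y', hy', rfl⟩
    exact ⟨x + x', S₀.add_mem hx hx', y + y', DV.M_add hy hy', by ring⟩
  zero_mem' := ⟨0, S₀.zero_mem, 0, e.M_zero, by ring⟩
  neg_mem' := by
    rintro a ⟨x, hx, y, hy, rfl⟩
    exact ⟨-x, S₀.neg_mem hx, -y, DV.M_neg hy, by ring⟩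

/-- the ideal `I + m_e` -/
def idl (e : DV κ K) (S₀ : Subring K) (h : ∀ x ∈ S₀, e.O x) (I : Ideal S₀) :
    Ideal (ring e S₀ h) where
  carrier := {z | ∃ x : S₀, x ∈ I ∧ ∃ y, e.M y ∧ (z : K) = (x : K) + y}
  add_mem' := by
    rintro a b ⟨x, hx, y, hy, ha⟩ ⟨x', hx', y', hy', hb⟩
    refine ⟨x + x', I.add_mem hx hx', y + y', DV.M_add hy hy', ?_⟩
    rw [Subring.coe_add, ha, hb, Subring.coe_add]; ring
  zero_mem' := ⟨0, I.zero_mem, 0, e.M_zero, by simp⟩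
  smul_mem' := by
    rintro ⟨c, u, hu, v, hv, rfl⟩ a ⟨x, hx, y, hy, ha⟩
    refine ⟨⟨u, hu⟩ * x, I.mul_mem_left _ hx, u * y + v * (x : K) + v * y, ?_, ?_⟩
    · exact DV.M_add (DV.M_add (DV.M_mul' (h u hu) hy) (DV.M_mul hv (h x x.2))) (DV.M_mul hv hy.O)
    · rw [smul_eq_mul, Subring.coe_mul, ha, Subring.coe_mul]; ring

end CMP_

open CMP_ in
theorem cmp_proof : Stmt_CMP := by
  intro κ K _ _ _ e S₀ hκ h0 I hI
  have hO : ∀ x ∈ S₀, e.O x := by
    intro x hx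
    by_cases hx0 : x = 0
    · exact Or.inl hx0
    · exact Or.inr (h0 x hx hx0).ge
  have hne : idl e S₀ hO I ≠ ⊤ := by
    rw [Ideal.ne_top_iff_one]
    rintro ⟨x, hx, y, hy, h1⟩
    have h2 : y = ((1 - x : S₀) : K) := by
      have h1' : (1 : K) = (x : K) + y := h1
      show y = (1 : K) - (x : K)
      rw [h1']; ring
    have h3 : y ∈ S₀ := by rw [h2]; exact (1 - x : S₀).2
    have h4 : y = 0 := by
      by_contra hy0
      have h5 := h0 y h3 hy0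
      have h6 := hy.resolve_left hy0
      omega
    apply (Ideal.ne_top_iff_one I).1 hI
    have h5 : (1 : S₀) = x := by
      apply Subtype.ext
      have h1' : (1 : K) = (x : K) + y := h1
      rw [h4, add_zero] at h1'
      exact h1'
    rw [h5]; exact hx
  obtain ⟨V, hV, hn⟩ := Ideal.image_subset_nonunits_valuationSubring (idl e S₀ hO I) hne
  have hM : ∀ x : K, e.M x → x ∈ V.nonunits := by
    intro x hx
    have h1 : x ∈ ring e S₀ hO := ⟨0, S₀.zero_mem, x, hx, by ring⟩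
    apply hn
    exact ⟨⟨x, h1⟩, ⟨0, I.zero_mem, x, hx, by simp⟩, rfl⟩
  have hS : ∀ x ∈ S₀, x ∈ V := fun x hx => hV ⟨x, hx, 0, e.M_zero, by ring⟩
  refine ⟨V, fun c => hS _ (hκ c), hS, ?_, ?_, hM⟩
  · intro x hx
    apply hn
    exact ⟨⟨x, x, x.2, 0, e.M_zero, by ring⟩, ⟨x, hx, 0, e.M_zero, by simp⟩, rfl⟩
  · intro x hx
    by_contra h
    have hx0 : x ≠ 0 := fun h' => h (Or.inl h')
    have h1 := hM x⁻¹ ((DV.M_inv_iff hx0).2 h)
    have h2 := KV.inv_notMem h1 (inv_ne_zero hx0)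
    rw [inv_inv] at h2
    exact h2 hx

end Pool.Agent.CPT
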