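import Pool.Agent.CPT.StmtsF

set_option autoImplicit false

noncomputable section

namespace Pool.Agent.CPT

open Pool.Agent

namespace CPF_

theorem e1 : cr 0 1 2 3 - cr 0 1 2 4 = cr 1 4 3 2 := by
  funext a b
  revert a b
  decide

theorem e2 : cr 0 3 2 1 - cr 0 4 2 1 = cr 0 3 4 1 := by
  funext a b
  revert a b
  decide

end CPF_

open CPF_ in
theorem cpf_proof (hCPL : Stmt_CPL) : Stmt_CPF := by
  intro ι _ lab r b d c c₁ hlab hr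
  obtain ⟨K, hK⟩ := hCPL ι lab r b d c c₁ hlab hr
  refine ⟨K, ?_⟩
  intro κ F _ _ _ _ _ x y hs hd w h hw hgen hh0 hh es hcp hvan
  obtain ⟨X, hne, hadd, hplu, hnc, hord⟩ := hK κ F x y hs hd w h hw hgen hh0 hh es hcp hvan
  have hm : IsMul X := ⟨hne, hadd⟩
  have q1 : X (cr 0 1 2 3) / X (cr 0 1 2 4) = X (cr 1 4 3 2) := by
    rw [← hm.sub (Lam_cr _ _ _ _ (by decide)) (Lam_cr _ _ _ _ (by decide)), e1]
  have p1 : 1 - X (cr 0 1 2 3) = X (cr 0 3 2 1) := by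
    rw [← hplu 0 1 2 3 (by decide)]; ring
  have p2 : 1 - X (cr 0 1 2 4) = X (cr 0 4 2 1) := by
    rw [← hplu 0 1 2 4 (by decide)]; ring
  have q2 : (1 - X (cr 0 1 2 3)) / (1 - X (cr 0 1 2 4)) = X (cr 0 3 4 1) := by
    rw [p1, p2, ← hm.sub (Lam_cr _ _ _ _ (by decide)) (Lam_cr _ _ _ _ (by decide)), e2]
  refine ⟨X (cr 0 1 2 3), X (cr 0 1 2 4), hnc 0 1 2 3 (by decide), hne _ (Lam_cr _ _ _ _ (by decide)),
    ?_, ?_⟩
  · intro h1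
    exact hnc 0 1 2 4 (by decide) 1 (by rw [h1, map_one])
  · intro fu P hfu O
    rw [q1, q2] at hfu
    rcases hfu with ⟨rfl, rfl⟩ | ⟨rfl, rfl⟩ | ⟨rfl, rfl⟩ | ⟨rfl, rfl⟩
    · obtain ⟨h1, h2⟩ := hord 0 1 2 3 (by decide) O
      refine ⟨h2, fun hneg => ?_⟩
      obtain ⟨i', h3, h4 | h4⟩ := h1 hneg
      · exact ⟨i', h3, _, by simp, h4⟩
      · exact ⟨i', h3, _, by simp, h4⟩
    · obtain ⟨h1, h2⟩ := hord 0 1 2 4 (by decide) O
      refine ⟨h2, fun hneg => ?_⟩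
      obtain ⟨i', h3, h4 | h4⟩ := h1 hneg
      · exact ⟨i', h3, _, by simp, h4⟩
      · exact ⟨i', h3, _, by simp, h4⟩
    · obtain ⟨h1, h2⟩ := hord 1 4 3 2 (by decide) O
      refine ⟨h2, fun hneg => ?_⟩
      obtain ⟨i', h3, h4 | h4⟩ := h1 hneg
      · exact ⟨i', h3, (1, 3), by simp, h4⟩
      · refine ⟨i', h3, (2, 4), by simp, ?_⟩
        rcases h4 with ⟨h5, h6⟩ | ⟨h5, h6⟩
        · exact Or.inr ⟨h5, h6⟩
        · exact Or.inl ⟨h5, h6⟩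
    · obtain ⟨h1, h2⟩ := hord 0 3 4 1 (by decide) O
      refine ⟨h2, fun hneg => ?_⟩
      obtain ⟨i', h3, h4 | h4⟩ := h1 hneg
      · exact ⟨i', h3, (0, 4), by simp, h4⟩
      · refine ⟨i', h3, (1, 3), by simp, ?_⟩
        rcases h4 with ⟨h5, h6⟩ | ⟨h5, h6⟩
        · exact Or.inr ⟨h5, h6⟩
        · exact Or.inl ⟨h5, h6⟩

end Pool.Agent.CPT
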