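import Pool.Agent.CPT.StmtsF

set_option autoImplicit false

noncomputable section

namespace Pool.Agent.CPT

open Pool.Agent

theorem cpl_proof (hPTS : Stmt_PTS) (hEND1 : Stmt_END1) : Stmt_CPL := by
  intro ι _ lab r b d c c₁ hlab hr
  obtain ⟨B, hB⟩ := hPTS ι lab r b hlab hr
  refine ⟨B * (d ^ 2 * (c₁ + 2 * c * d)), ?_⟩
  intro κ F _ _ _ _ _ x y hs hd w h hw hgen hh0 hh es hcp hvan
  obtain ⟨I, hI, hrat⟩ := hB κ F x y hs es hcp
  obtain ⟨X, h1, h2, h3, h4, -, h5⟩ := hEND1 κ F x y hs I c c₁ B w h hw hgen hh0 hh (by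
    intro p q O hO
    rw [hI] at hO
    obtain ⟨i, hi, -⟩ := hO
    exact hvan i O hi) hrat
  refine ⟨X, h1, h2, h3, h4, ?_⟩
  intro i j k l hd' O
  obtain ⟨h6, h7⟩ := h5 i j k l hd' O
  refine ⟨fun hneg => ?_, le_trans ?_ h7⟩
  · rcases h6 hneg with h8 | h8
    · rw [hI] at h8
      obtain ⟨i', h9, h10⟩ := h8
      exact ⟨i', h9, Or.inl h10⟩
    · rw [hI] at h8
      obtain ⟨i', h9, h10⟩ := h8
      exact ⟨i', h9, Or.inr h10⟩
  · rw [neg_le_neg_iff]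
    have hn : B * (Module.finrank (KK κ x y) F ^ 2 *
        (c₁ + 2 * c * Module.finrank (KK κ x y) F)) ≤ B * (d ^ 2 * (c₁ + 2 * c * d)) := by
      gcongr
    exact_mod_cast hn

end Pool.Agent.CPT
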