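import Pool.Agent.CPT.Stmts

/-!
Module DIV of squad CPT: 2-divisibility passes from one pencil to another.
-/

set_option autoImplicit false

namespace Pool.Agent.CPT

namespace DIV_

section
variable {κ K : Type} [Field κ] [Field K] [Algebra κ K] {S : Surf κ K}

lemma v_eq {d : Dat S} {i : Fin 5} {e : DV κ K} (h : ¬ d.Ver i e) {x : K} (hx : x ∈ d.kf i)
    (h0 : x ≠ 0) : e.v x = 0 := by
  by_contra hne
  exact h ⟨x, d.KI_of_mem hx, h0, hne⟩

lemma O_of {d : Dat S} {i : Fin 5} {e : DV κ K} (h : ¬ d.Ver i e) {x : K} (hx : x ∈ d.kf i) :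
    e.O x := by
  by_cases h0 : x = 0
  · exact Or.inl h0
  · exact Or.inr (v_eq h hx h0).ge

lemma not_M {d : Dat S} {i : Fin 5} {e : DV κ K} (h : ¬ d.Ver i e) {x : K} (hx : x ∈ d.kf i)
    (h0 : x ≠ 0) : ¬ e.M x := by
  rw [DV.M_iff h0, v_eq h hx h0]
  exact lt_irrefl _

lemma M_pow {e : DV κ K} {x : K} (hx : e.M x) {n : ℕ} (hn : 0 < n) : e.M (x ^ n) := by
  by_cases h0 : x = 0
  · rw [h0, zero_pow hn.ne']
    exact e.M_zero
  · rw [DV.M_iff (pow_ne_zero _ h0), e.v_pow h0]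
    have := (DV.M_iff h0).1 hx
    exact mul_pos (by exact_mod_cast hn) this

end

end DIV_

open DIV_ in
theorem div_proof (hHRZ : Stmt_HRZ) (hSWP : Stmt_SWP) : Stmt_DIV := by
  intro κ K _ _ _ _ _ S d i j ⟨e, he⟩ N n hn ⟨c, hc, hcn⟩
  have hi : ¬ d.Ver i e := hHRZ κ K S d i j e he
  have hj : ¬ d.Ver j e := hHRZ κ K S d j i e (by rwa [d.D_symm])
  have hLj : ∀ n, LamI i n → LamI j (rel (Equiv.swap i j) n) := by
    intro n hn
    exact LamI_rel _ (by rw [Equiv.swap_apply_right]; exact hn)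
  have key : ∀ x, x ∈ d.kf i → (x ∈ d.kf i ∧ ∃ x' ∈ d.kf j, e.M (x - x')) := by
    intro x hx
    unfold Dat.kf at hx
    induction hx using IntermediateField.adjoin_induction with
    | mem x hx =>
      obtain ⟨n, hn, rfl⟩ := hx
      refine ⟨d.a_mem_kf hn, ?_⟩
      obtain ⟨c, _, hc⟩ := hSWP κ K S d i j n hn e he
      exact ⟨_, (d.kf j).mul_mem ((d.kf j).algebraMap_mem c) (d.a_mem_kf (hLj n hn)), hc⟩
    | algebraMap x =>
      refine ⟨(d.kf i).algebraMap_mem x, algebraMap κ K x, (d.kf j).algebraMap_mem x, ?_⟩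
      rw [sub_self]
      exact e.M_zero
    | add x y _ _ hx hy =>
      obtain ⟨hx0, x', hx', hxM⟩ := hx
      obtain ⟨hy0, y', hy', hyM⟩ := hy
      refine ⟨(d.kf i).add_mem hx0 hy0, x' + y', (d.kf j).add_mem hx' hy', ?_⟩
      rw [add_sub_add_comm]
      exact DV.M_add hxM hyM
    | inv x _ hx =>
      obtain ⟨hx0, x', hx', hxM⟩ := hx
      refine ⟨(d.kf i).inv_mem hx0, x'⁻¹, (d.kf j).inv_mem hx', ?_⟩
      by_cases h0 : x = 0
      · have h1 : x' = 0 := by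
          by_contra h1
          rw [h0, zero_sub] at hxM
          have := DV.M_neg hxM
          rw [neg_neg] at this
          exact not_M hj hx' h1 this
        rw [h0, h1, sub_self]
        exact e.M_zero
      · have h1 : x' ≠ 0 := by
          intro h1
          rw [h1, sub_zero] at hxM
          exact not_M hi hx0 h0 hxM
        have h2 : x⁻¹ - x'⁻¹ = (x' - x) * (x⁻¹ * x'⁻¹) := by
          field_simp
        rw [h2]
        exact DV.M_mul (DV.M_sub_comm hxM)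
          (DV.O_mul (O_of hi ((d.kf i).inv_mem hx0)) (O_of hj ((d.kf j).inv_mem hx')))
    | mul x y _ _ hx hy =>
      obtain ⟨hx0, x', hx', hxM⟩ := hx
      obtain ⟨hy0, y', hy', hyM⟩ := hy
      refine ⟨(d.kf i).mul_mem hx0 hy0, x' * y', (d.kf j).mul_mem hx' hy', ?_⟩
      have h2 : x * y - x' * y' = x * (y - y') + (x - x') * y' := by ring
      rw [h2]
      exact DV.M_add (DV.M_mul' (O_of hi hx0) hyM) (DV.M_mul hxM (O_of hj hy'))
  obtain ⟨_, c', hc', hcM⟩ := key c hc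
  obtain ⟨c₀, hc₀, hM₀⟩ := hSWP κ K S d i j n hn e he
  have : CharP K 2 := charP_of_injective_algebraMap (algebraMap κ K).injective 2
  have h1 : e.M (c ^ 2 ^ N - c' ^ 2 ^ N) := by
    have : Fact (Nat.Prime 2) := ⟨Nat.prime_two⟩
    rw [← sub_pow_char_pow]
    exact M_pow hcM (pow_pos two_pos N)
  rw [hcn] at h1
  have h2 : e.M (c' ^ 2 ^ N - algebraMap κ K c₀ * d.a (rel (Equiv.swap i j) n)) := by
    have h3 := DV.M_sub hM₀ h1
    have h4 : d.a n - algebraMap κ K c₀ * d.a (rel (Equiv.swap i j) n) - (d.a n - c' ^ 2 ^ N) =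
        c' ^ 2 ^ N - algebraMap κ K c₀ * d.a (rel (Equiv.swap i j) n) := by ring
    rwa [h4] at h3
  have h3 : c' ^ 2 ^ N = algebraMap κ K c₀ * d.a (rel (Equiv.swap i j) n) := by
    by_contra hne
    refine not_M hj ?_ (sub_ne_zero.2 hne) h2
    exact (d.kf j).sub_mem (pow_mem hc' _)
      ((d.kf j).mul_mem ((d.kf j).algebraMap_mem c₀) (d.a_mem_kf (hLj n hn)))
  obtain ⟨γ, hγ⟩ := IsAlgClosed.exists_pow_nat_eq c₀ (pow_pos two_pos N : 0 < 2 ^ N)
  have hγK : algebraMap κ K γ ^ 2 ^ N = algebraMap κ K c₀ := by rw [← map_pow, hγ]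
  have hc₀K : algebraMap κ K c₀ ≠ 0 := fun h => hc₀ ((map_eq_zero (algebraMap κ K)).1 h)
  refine ⟨c' * (algebraMap κ K γ)⁻¹, (d.kf j).mul_mem hc' ((d.kf j).inv_mem ((d.kf j).algebraMap_mem γ)), ?_⟩
  rw [mul_pow, inv_pow, hγK, h3, mul_comm (algebraMap κ K c₀), mul_assoc, mul_inv_cancel₀ hc₀K, mul_one]

end Pool.Agent.CPT
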