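import Mathlib

set_option autoImplicit false

/-!
# END-1 of MP_db3ab1: the closed point theorem (log forms of the 5-web, characteristic two)

`K` is the function field of a projective surface over an algebraically closed field `κ` of
characteristic two. Only the prime divisors of the surface enter (as integer valued
valuations `e : DV κ K`) and the relation `thr e V`: the prime divisor `e` passes through the
centre of the valuation ring `V` of `K`.
-/

namespace Pool.Agent.CPT

/-- an integer valued valuation of `K`, trivial on `κ` (no convention for `v 0`) -/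
structure DV (κ K : Type) [Field κ] [Field K] [Algebra κ K] where
  v : K → ℤ
  map_mul : ∀ x y : K, x ≠ 0 → y ≠ 0 → v (x * y) = v x + v y
  map_add : ∀ x y : K, x ≠ 0 → y ≠ 0 → x + y ≠ 0 → min (v x) (v y) ≤ v (x + y)
  map_const : ∀ c : κ, c ≠ 0 → v (algebraMap κ K c) = 0

section
variable {κ K : Type} [Field κ] [Field K] [Algebra κ K]

/-- `x` lies in the valuation ring of `e` -/
def DV.O (e : DV κ K) (x : K) : Prop := x = 0 ∨ 0 ≤ e.v x

/-- `x` lies in the maximal ideal of the valuation ring of `e` -/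
def DV.M (e : DV κ K) (x : K) : Prop := x = 0 ∨ 0 < e.v x

/-- the valuation ring `V` contains `κ` -/
def KV (κ : Type) {K : Type} [Field κ] [Field K] [Algebra κ K] (V : ValuationSubring K) : Prop :=
  ∀ c : κ, algebraMap κ K c ∈ V

end

/-- the prime divisors of a projective normal surface, with the relation
`thr e V` : `e` passes through the centre of `V` -/
structure Surf (κ K : Type) [Field κ] [Field K] [Algebra κ K] where
  PP : Set (DV κ K)
  thr : DV κ K → ValuationSubring K → Prop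
  ax1 : ∀ V : ValuationSubring K, KV κ V → ∀ f : K,
    (∀ e ∈ PP, thr e V → e.O f) → f ∈ V
  ax2 : ∀ V : ValuationSubring K, KV κ V → ∀ f : K, ∀ e ∈ PP, thr e V → e.M f →
    (∀ e' ∈ PP, thr e' V → e'.O f) → f ∈ V.nonunits
  ax3 : ∀ V : ValuationSubring K, KV κ V → ∀ e ∈ PP, (∀ x ∈ V, e.O x) → thr e V

section
variable {κ K : Type} [Field κ] [Field K] [Algebra κ K]

/-- two prime divisors meet -/
def Surf.meets (S : Surf κ K) (e e' : DV κ K) : Prop :=
  ∃ V : ValuationSubring K, KV κ V ∧ S.thr e V ∧ S.thr e' V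

/-- `f` is regular at the centre of `V` -/
def Surf.reg (S : Surf κ K) (V : ValuationSubring K) (f : K) : Prop :=
  ∀ e ∈ S.PP, S.thr e V → e.O f

end

/-- exponent vectors of the units of `M_{0,5}` : symmetric, zero diagonal, zero row sums -/
def Lam (n : Fin 5 → Fin 5 → ℤ) : Prop :=
  (∀ i j, n i j = n j i) ∧ (∀ i, n i i = 0) ∧ ∀ i, ∑ j, n i j = 0

/-- the elements of `Lam` which do not involve the index `i` (units of the `i`-th pencil) -/
def LamI (i : Fin 5) (n : Fin 5 → Fin 5 → ℤ) : Prop := Lam n ∧ ∀ j, n i j = 0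

/-- the symmetric elementary matrix -/
def E (i j : Fin 5) : Fin 5 → Fin 5 → ℤ :=
  fun a b => if (a = i ∧ b = j) ∨ (a = j ∧ b = i) then 1 else 0

/-- the cross ratio `s_ij s_kl / (s_ik s_jl)` -/
def cr (i j k l : Fin 5) : Fin 5 → Fin 5 → ℤ := E i j + E k l - E i k - E j l

/-- four distinct indices -/
def Dist (i j k l : Fin 5) : Prop :=
  i ≠ j ∧ i ≠ k ∧ i ≠ l ∧ j ≠ k ∧ j ≠ l ∧ k ≠ l

instance (i j k l : Fin 5) : Decidable (Dist i j k l) := by unfold Dist; infer_instance

/-- exact boundary divisors `D i j` with the functions `a n` -/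
structure Dat {κ K : Type} [Field κ] [Field K] [Algebra κ K] (S : Surf κ K) where
  D : Fin 5 → Fin 5 → Set (DV κ K)
  D_sub : ∀ i j, D i j ⊆ S.PP
  D_symm : ∀ i j, D i j = D j i
  D_diag : ∀ i, D i i = ∅
  D_disj : ∀ i j k, j ≠ k → ∀ e ∈ D i j, ∀ e' ∈ D i k, ¬ S.meets e e'
  D_comm : ∀ i j k l, Dist i j k l → ∀ e ∈ D i j, e ∉ D k l
  w : DV κ K → ℤ
  w_pos : ∀ e, 0 < w e
  a : (Fin 5 → Fin 5 → ℤ) → K
  a_ne : ∀ n, Lam n → a n ≠ 0
  a_add : ∀ m n, Lam m → Lam n → a (m + n) = a m * a n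
  ord_D : ∀ n, Lam n → ∀ i j, ∀ e ∈ D i j, e.v (a n) = n i j * w e
  ord_0 : ∀ n, Lam n → ∀ e ∈ S.PP, (∀ i j, e ∉ D i j) → e.v (a n) = 0
  amp : ∀ k l, k ≠ l → ∀ e ∈ S.PP, ((∀ i j, e ∉ D i j) ∨ e ∈ D k l) →
    ∃ i j, ¬ ((i = k ∧ j = l) ∨ (i = l ∧ j = k)) ∧ ∃ e' ∈ D i j, S.meets e e'

section
variable {κ K : Type} [Field κ] [Field K] [Algebra κ K] {S : Surf κ K}

/-- the field generated over `κ` by the units of the `i`-th pencil -/
def Dat.kf (d : Dat S) (i : Fin 5) : IntermediateField κ K :=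
  IntermediateField.adjoin κ {x | ∃ n, LamI i n ∧ x = d.a n}

/-- the field generated by all units -/
def Dat.LL (d : Dat S) : IntermediateField κ K :=
  IntermediateField.adjoin κ {x | ∃ n, Lam n ∧ x = d.a n}

/-- its algebraic closure in `K` -/
def Dat.KI (d : Dat S) (i : Fin 5) (f : K) : Prop := IsAlgebraic (d.kf i) f

/-- `e` is vertical for the `i`-th pencil -/
def Dat.Ver (d : Dat S) (i : Fin 5) (e : DV κ K) : Prop :=
  ∃ f : K, d.KI i f ∧ f ≠ 0 ∧ e.v f ≠ 0

/-- no cross ratio function is a square in the field of its pencil -/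
def Dat.NS (d : Dat S) : Prop :=
  ∀ i j k l m : Fin 5, Dist j k l m → i ≠ j → i ≠ k → i ≠ l → i ≠ m →
    ¬ ∃ c ∈ d.kf i, c ^ 2 = d.a (cr j k l m)

/-- the conclusion -/
structure Out (d : Dat S) (X : (Fin 5 → Fin 5 → ℤ) → K) : Prop where
  ne : ∀ n, Lam n → X n ≠ 0
  add : ∀ m n, Lam m → Lam n → X (m + n) = X m * X n
  plu : ∀ i j k l, Dist i j k l → X (cr i j k l) + X (cr i l k j) = 1

/-- an algebraic solution, before the divisors are known -/
structure Sol (d : Dat S) (X : (Fin 5 → Fin 5 → ℤ) → K) : Prop extends Out d X where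
  mem : ∀ i n, LamI i n → X n ∈ d.kf i
  ncon : ∀ i j k l, Dist i j k l → ∀ c : κ, X (cr i j k l) ≠ algebraMap κ K c

end

end Pool.Agent.CPT
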