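import Pool.Agent.CPT.StmtsE

set_option autoImplicit false

noncomputable section

namespace Pool.Agent.CPT

open Pool.Agent

namespace END1_

theorem cr_ge : ∀ i j k l p q : Fin 5, Dist i j k l → -1 ≤ cr i j k l p q := by decide

theorem cr_neg : ∀ i j k l p q : Fin 5, Dist i j k l → cr i j k l p q < 0 →
    (p = i ∧ q = k) ∨ (p = k ∧ q = i) ∨ (p = j ∧ q = l) ∨ (p = l ∧ q = j) := by decide

theorem cr_val : ∀ i j k l : Fin 5, Dist i j k l → cr i j k l i k = -1 := by decide

end END1_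

open END1_ in
theorem end1_proof (hSFS : Stmt_SFS) (hAMD : Stmt_AMD) (hROT : Stmt_ROT) (hBND : Stmt_BND)
    (hNEM : Stmt_NEM) (hGLB : Stmt_GLB) (hFIN : Stmt_FIN) : Stmt_END1 := by
  intro κ F _ _ _ _ _ x y hs I c c₁ B w h hw hgen hh0 hh hvan hrat
  obtain ⟨S, hPP, hthr⟩ := hSFS κ F x y hs
  obtain ⟨d, hD, ha, hdw⟩ := hAMD κ F x y hs I S hPP hthr
  have hne : ∃ e, e ∈ S.PP := by
    by_contra hcon
    push Not at hcon
    obtain ⟨c', hc'⟩ := hGLB κ F S x (fun e he => absurd he (hcon e))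
    have h1 := hs.indep
    have h2 : Transcendental κ x := by
      have := h1.transcendental 0
      simpa using this
    apply h2
    rw [hc']
    exact isAlgebraic_algebraMap c'
  obtain ⟨X0, hOut0, hnc0, r0, s0, hr0, hs0, hrs0⟩ := hFIN κ F S d hne
  have hnem := hNEM κ F S d hne
  obtain ⟨X, hOut, hnc, ⟨r, s, hr, hspos, hrs⟩, i, j, k, l, hd, hnsq⟩ :=
    hROT κ F S d ⟨0, 1, hnem 0 1 (by decide)⟩ X0 hOut0 hnc0 ⟨r0, s0, hr0, hs0, hrs0⟩
  have hmemPP : ∀ O : SRF.PP κ x y, dvOf O ∈ S.PP := fun O => by rw [hPP]; exact ⟨O, rfl⟩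
  have hinj : ∀ (O : SRF.PP κ x y) (i j : Fin 5), dvOf O ∈ d.D i j → O ∈ I.D i j := by
    intro O i j hO
    rw [hD] at hO
    obtain ⟨O', hO', heq⟩ := hO
    have : O' = O := by
      apply Subtype.ext
      ext f
      have hv : SRF.ord O'.1 = SRF.ord O.1 := congrArg DV.v heq
      by_cases hf : f = 0
      · rw [hf]; exact ⟨fun _ => zero_mem _, fun _ => zero_mem _⟩
      · rw [O'.isOrd.mem f hf, O.isOrd.mem f hf, hv]
    rw [← this]; exact hO'
  -- the relation between the orders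
  have hrs' : ∀ n, Lam n → ∀ O : SRF.PP κ x y,
      (r : ℤ) * SRF.ord O.1 (X n) = (s : ℤ) * SRF.ord O.1 (I.a n) := by
    intro n hn O
    have := hrs n hn (dvOf O) (hmemPP O)
    rw [ha] at this
    exact this
  have hrpos : (0 : ℤ) < r := by exact_mod_cast hr
  have hspos' : (0 : ℤ) < s := by exact_mod_cast hspos
  -- the bound for the nonsquare
  have hbd := hBND κ F x y hs c c₁ w h hw hgen hh0 hh (X (cr i j k l)) hnsq (by
    intro O hO
    have hex : ∃ n, Lam n ∧ SRF.ord O.1 (X n) ≠ 0 := by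
      rcases hO with hO | hO
      · exact ⟨_, Lam_cr i j k l hd, hO⟩
      · refine ⟨_, Lam_cr i l k j (dist_rot hd), ?_⟩
        have := hOut.plu i j k l hd
        have h3 : X (cr i l k j) = 1 - X (cr i j k l) := by rw [← this]; ring
        rw [h3]; exact hO
    obtain ⟨n, hn, hne⟩ := hex
    have hb : ∃ p q, O ∈ I.D p q := by
      by_contra hcon
      push Not at hcon
      have h1 := hrs' n hn O
      rw [I.ord_0 n hn O hcon, mul_zero] at h1
      rcases mul_eq_zero.mp h1 with h2 | h2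
      · omega
      · exact hne h2
    obtain ⟨p, q, hpq⟩ := hb
    exact hvan p q O hpq)
  set K0 : ℤ := (Module.finrank (KK κ x y) F : ℤ) ^ 2 *
    ((c₁ : ℤ) + 2 * c * Module.finrank (KK κ x y) F) with hK0
  have hK0' : 0 ≤ K0 := by positivity
  have hik : i ≠ k := hd.2.1
  obtain ⟨e, he⟩ := hnem i k hik
  rw [hD] at he
  obtain ⟨O, hO, -⟩ := he
  have hm : (s : ℤ) * I.m O ≤ r * K0 := by
    have h1 := hrs' _ (Lam_cr i j k l hd) O
    rw [I.ord_D _ (Lam_cr i j k l hd) i k O hO, cr_val i j k l hd] at h1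
    have h2 := hbd O
    have h3 : (r : ℤ) * (- SRF.ord O.1 (X (cr i j k l))) ≤ r * K0 :=
      mul_le_mul_of_nonneg_left h2 hrpos.le
    linarith
  refine ⟨X, hOut.ne, hOut.add, hOut.plu, hnc, ⟨r, s, hr, hspos, hrs'⟩, ?_⟩
  intro i' j' k' l' hd' O'
  have h1 := hrs' _ (Lam_cr i' j' k' l' hd') O'
  by_cases hb : ∃ p q, O' ∈ I.D p q
  · obtain ⟨p, q, hpq⟩ := hb
    rw [I.ord_D _ (Lam_cr i' j' k' l' hd') p q O' hpq] at h1
    have hmp := I.m_pos p q O' hpq
    have hge := cr_ge i' j' k' l' p q hd'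
    constructor
    · intro hneg
      have h2 : cr i' j' k' l' p q < 0 := by
        by_contra hcon
        push Not at hcon
        have h3 : 0 ≤ (s : ℤ) * (cr i' j' k' l' p q * I.m O') := by positivity
        rw [← h1] at h3
        have h4 : (r : ℤ) * SRF.ord O'.1 (X (cr i' j' k' l')) < 0 :=
          mul_neg_of_pos_of_neg hrpos hneg
        omega
      rcases cr_neg i' j' k' l' p q hd' h2 with ⟨h3, h4⟩ | ⟨h3, h4⟩ | ⟨h3, h4⟩ | ⟨h3, h4⟩
      · left; rw [h3, h4] at hpq; exact hpq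
      · left; rw [h3, h4, I.D_symm] at hpq; exact hpq
      · right; rw [h3, h4] at hpq; exact hpq
      · right; rw [h3, h4, I.D_symm] at hpq; exact hpq
    · have h2 : I.m O' ≤ B * I.m O := hrat p q O' hpq i k O hO
      have h3 : - (s * I.m O') ≤ (s : ℤ) * (cr i' j' k' l' p q * I.m O') := by
        have h7 : (-1) * I.m O' ≤ cr i' j' k' l' p q * I.m O' :=
          mul_le_mul_of_nonneg_right hge hmp.le
        have h8 := mul_le_mul_of_nonneg_left h7 hspos'.le
        linarith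
      have h4 : (s : ℤ) * I.m O' ≤ B * (s * I.m O) := by
        have := mul_le_mul_of_nonneg_left h2 hspos'.le
        linarith
      have h5 : (B : ℤ) * (s * I.m O) ≤ B * (r * K0) :=
        mul_le_mul_of_nonneg_left hm (by positivity)
      have h6 : (r : ℤ) * (- (B * K0)) ≤ r * SRF.ord O'.1 (X (cr i' j' k' l')) := by
        rw [h1]; linarith
      exact le_of_mul_le_mul_left h6 hrpos
  · push Not at hb
    rw [I.ord_0 _ (Lam_cr i' j' k' l' hd') O' hb, mul_zero] at h1
    have h2 : SRF.ord O'.1 (X (cr i' j' k' l')) = 0 := by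
      rcases mul_eq_zero.mp h1 with h2 | h2
      · omega
      · exact h2
    rw [h2]
    refine ⟨fun h => absurd h (lt_irrefl _), ?_⟩
    have : 0 ≤ (B : ℤ) * K0 := by positivity
    omega

end Pool.Agent.CPT
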