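import Pool.Agent.CPT.Stmts

set_option autoImplicit false

/-!
# CPT, module GLB: a function without poles is constant
-/

namespace Pool.Agent.CPT

namespace GLB_

theorem const_of_alg {κ K : Type} [Field κ] [IsAlgClosed κ] [Field K] [Algebra κ K] {f : K}
    (h : IsAlgebraic κ f) : ∃ c : κ, f = algebraMap κ K c := by
  obtain ⟨c, hc⟩ := minpoly.mem_range_of_degree_eq_one κ f
    (IsAlgClosed.degree_eq_one_of_irreducible κ (minpoly.irreducible h.isIntegral))
  exact ⟨c, hc.symm⟩

end GLB_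

open GLB_

theorem glb_proof : Stmt_GLB := by
  intro κ K _ _ _ _ S f hf
  by_contra hcon
  have hf0 : f ≠ 0 := by
    rintro rfl
    exact hcon ⟨0, (map_zero _).symm⟩
  let A : Subring K := (Algebra.adjoin κ {f⁻¹}).toSubring
  have hfA : f⁻¹ ∈ A := Algebra.subset_adjoin rfl
  let I : Ideal A := Ideal.span {⟨f⁻¹, hfA⟩}
  have hI : I ≠ ⊤ := by
    intro h
    rw [Ideal.eq_top_iff_one, Ideal.mem_span_singleton'] at h
    obtain ⟨⟨a, ha⟩, h1⟩ := h
    have h2 : a * f⁻¹ = 1 := congrArg Subtype.val h1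
    have h3 : a = f := by
      field_simp at h2
      exact h2
    subst h3
    -- `f` is a polynomial in `f⁻¹`
    have h4 : a ∈ Algebra.adjoin κ {a⁻¹} := ha
    rw [Algebra.adjoin_singleton_eq_range_aeval] at h4
    obtain ⟨P, hP⟩ := h4
    have h5 : Polynomial.aeval a⁻¹ P = a := hP
    apply hcon
    have h6 : IsAlgebraic κ a⁻¹ := by
      refine ⟨Polynomial.X * P - 1, ?_, ?_⟩
      · intro h7
        have h8 := congrArg (Polynomial.eval 0) h7
        simp at h8
      · rw [map_sub, map_mul, Polynomial.aeval_X, h5, map_one, inv_mul_cancel₀ hf0, sub_self]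
    have h7 : IsAlgebraic κ a := by
      have := h6.inv
      rwa [inv_inv] at this
    exact const_of_alg h7
  obtain ⟨V, hAV, hIV⟩ := Ideal.image_subset_nonunits_valuationSubring I hI
  have hKV : KV κ V := fun c => hAV ((Algebra.adjoin κ {f⁻¹}).algebraMap_mem c)
  have hfV : f ∈ V := S.ax1 V hKV f fun e he _ => hf e he
  have hm : f⁻¹ ∈ V.nonunits := hIV ⟨⟨f⁻¹, hfA⟩, Ideal.mem_span_singleton_self _, rfl⟩
  rw [V.mem_nonunits_iff] at hm
  rw [← V.valuation_le_one_iff] at hfV
  have h1 : V.valuation f * V.valuation f⁻¹ = 1 := by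
    rw [← map_mul, mul_inv_cancel₀ hf0, map_one]
  have h2 : V.valuation f * V.valuation f⁻¹ < 1 :=
    lt_of_le_of_lt (mul_le_of_le_one_left' hfV) hm
  rw [h1] at h2
  exact lt_irrefl _ h2

end Pool.Agent.CPT
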