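import Pool.Agent.CPT.Stmts

set_option autoImplicit false

/-!
# CPT, module HOR
-/

namespace Pool.Agent.CPT

/-- HOR. -/
theorem hor_proof (hCMP : Stmt_CMP) : Stmt_HOR := by
  intro κ K _ _ _ e F hF V₀ hV₀
  let S₀ : Subring K := (algebraicClosure F K).toSubring ⊓ V₀.toSubring
  have memS : ∀ x, x ∈ S₀ ↔ IsAlgebraic F x ∧ x ∈ V₀ := by
    intro x
    change x ∈ algebraicClosure F K ∧ x ∈ V₀ ↔ _
    rw [mem_algebraicClosure_iff]
  let φ : S₀ →+* V₀ := Subring.inclusion (inf_le_right : S₀ ≤ V₀.toSubring)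
  have hφ : ∀ x : S₀, ((φ x : V₀) : K) = x := fun x => rfl
  let I : Ideal S₀ := (IsLocalRing.maximalIdeal V₀).comap φ
  have hI : I ≠ ⊤ := Ideal.comap_ne_top φ (IsLocalRing.maximalIdeal.isMaximal V₀).ne_top
  have memI : ∀ x : S₀, x ∈ I ↔ (x : K) ∈ V₀.nonunits := by
    intro x
    rw [Ideal.mem_comap, ← ValuationSubring.coe_mem_nonunits_iff, hφ]
  obtain ⟨V, hV, hSV, hIV, hVO, -⟩ := hCMP κ K e S₀
    (fun c => (memS _).2 ⟨isAlgebraic_algebraMap (algebraMap κ F c), hV₀ c⟩)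
    (fun x hx hx0 => hF x ((memS x).1 hx).1 hx0) I hI
  refine ⟨V, hV, hVO, fun f hf => ⟨fun hfV => ?_, fun hfV₀ => hSV f ((memS f).2 ⟨hf, hfV₀⟩)⟩⟩
  by_contra hn
  have hf0 : f ≠ 0 := by
    intro h
    rw [h] at hn
    exact hn V₀.zero_mem
  have h1 : f⁻¹ ∈ V₀ := (V₀.mem_or_inv_mem f).resolve_left hn
  have h2 : f⁻¹ ∈ V₀.nonunits := by
    rw [ValuationSubring.mem_nonunits_iff_or]
    right
    rwa [inv_inv]
  have h3 : f⁻¹ ∈ V.nonunits := hIV ⟨f⁻¹, (memS _).2 ⟨hf.inv, h1⟩⟩ ((memI _).2 h2)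
  have h4 := KV.inv_notMem h3 (inv_ne_zero hf0)
  rw [inv_inv] at h4
  exact h4 hfV

end Pool.Agent.CPT
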