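import Pool.Agent.CPT.Stmts

set_option autoImplicit false

namespace Pool.Agent.CPT

namespace HRZ_

theorem exists_rst : ∀ i m : Fin 5, i ≠ m → ∃ r s t : Fin 5, Dist i m r s ∧ Dist i m r t ∧
    Dist r s t m ∧ i ≠ r ∧ i ≠ s ∧ i ≠ t := by
  decide

theorem cr_val (r s t m : Fin 5) (h : Dist r s t m) :
    cr r s t m r s = 1 ∧ cr r s t m r t = -1 := by
  obtain ⟨h1, h2, h3, h4, h5, h6⟩ := h
  constructor <;>
    simp [cr, E, h1, h2, h3, h4, h5, h6, h1.symm, h2.symm, h3.symm, h4.symm, h5.symm, h6.symm]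

end HRZ_

open HRZ_ in
theorem hrz_proof (hNTR : Stmt_NTR) (hSPL : Stmt_SPL) : Stmt_HRZ := by
  intro κ K _ _ _ _ S d i m e he hver
  have him : i ≠ m := by
    rintro rfl
    rw [d.D_diag] at he
    exact he
  obtain ⟨r, s, t, h1, h2, h3, hr, hs, ht⟩ := exists_rst i m him
  obtain ⟨e1, he1, V1, hV1, hth1, hth1'⟩ := hNTR κ K S d i m r s h1 e he
  obtain ⟨e2, he2, V2, hV2, hth2, hth2'⟩ := hNTR κ K S d i m r t h2 e he
  have hLI : LamI i (cr r s t m) := LamI_cr i r s t m h3 hr hs ht him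
  have hmem : d.a (cr r s t m) ∈ d.kf i := IntermediateField.subset_adjoin κ _ ⟨_, hLI, rfl⟩
  have hKI : d.KI i (d.a (cr r s t m)) := by
    have := isAlgebraic_algebraMap (R := d.kf i) (A := K) ⟨d.a (cr r s t m), hmem⟩
    exact this
  have hne := d.a_ne _ hLI.1
  obtain ⟨hv1, hv2⟩ := cr_val r s t m h3
  have o1 : e1.v (d.a (cr r s t m)) = d.w e1 := by
    rw [d.ord_D _ hLI.1 r s e1 he1, hv1, one_mul]
  have o2 : e2.v (d.a (cr r s t m)) = -d.w e2 := by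
    rw [d.ord_D _ hLI.1 r t e2 he2, hv2]; ring
  have w1 := d.w_pos e1
  have w2 := d.w_pos e2
  have ver1 : d.Ver i e1 := ⟨_, hKI, hne, by rw [o1]; exact w1.ne'⟩
  have ver2 : d.Ver i e2 := ⟨_, hKI, hne, by rw [o2]; exact (neg_lt_zero.2 w2).ne⟩
  have P := d.D_sub _ _ he
  have P1 := d.D_sub _ _ he1
  have P2 := d.D_sub _ _ he2
  have a1 : e1.O (d.a (cr r s t m)) := Or.inr (by rw [o1]; exact w1.le)
  have b1 := (hSPL κ K S d i V1 hV1 e1 P1 hth1' ver1 _ hKI).1 a1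
  have b2 := (hSPL κ K S d i V1 hV1 e P hth1 hver _ hKI).2 b1
  have b3 := (hSPL κ K S d i V2 hV2 e P hth2 hver _ hKI).1 b2
  have b4 := (hSPL κ K S d i V2 hV2 e2 P2 hth2' ver2 _ hKI).2 b3
  rcases b4 with h | h
  · exact hne h
  · rw [o2] at h
    omega

end Pool.Agent.CPT
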