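import Pool.Agent.CPT.Stmts

set_option autoImplicit false

/-!
# CPT, module IND: two cross ratio functions are two-independent
-/

namespace Pool.Agent.CPT

namespace IND_

section
variable {κ K : Type} [Field κ] [IsAlgClosed κ] [CharP κ 2] [Field K] [Algebra κ K]

theorem two_zero (κ : Type) {K : Type} [Field κ] [CharP κ 2] [Field K] [Algebra κ K] :
    (2 : K) = 0 := by
  have h : (2 : κ) = 0 := CharTwo.two_eq_zero
  have h2 := congrArg (algebraMap κ K) h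
  rw [map_ofNat, map_zero] at h2
  exact h2

/-- `L² + L² u` -/
def Q (L : IntermediateField κ K) (u : K) (hu : u ∈ L) : IntermediateField κ K where
  carrier := {x | ∃ α ∈ L, ∃ β ∈ L, x = α ^ 2 + β ^ 2 * u}
  mul_mem' := by
    rintro _ _ ⟨α, hα, β, hβ, rfl⟩ ⟨γ, hγ, δ, hδ, rfl⟩
    refine ⟨α * γ + β * δ * u, add_mem (mul_mem hα hγ) (mul_mem (mul_mem hβ hδ) hu),
      α * δ + β * γ, add_mem (mul_mem hα hδ) (mul_mem hβ hγ), ?_⟩
    linear_combination (-(2 * α * β * γ * δ * u)) * two_zero κ (K := K)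
  one_mem' := ⟨1, one_mem _, 0, zero_mem _, by ring⟩
  add_mem' := by
    rintro _ _ ⟨α, hα, β, hβ, rfl⟩ ⟨γ, hγ, δ, hδ, rfl⟩
    refine ⟨α + γ, add_mem hα hγ, β + δ, add_mem hβ hδ, ?_⟩
    linear_combination (-(α * γ + β * δ * u)) * two_zero κ (K := K)
  zero_mem' := ⟨0, zero_mem _, 0, zero_mem _, by ring⟩
  algebraMap_mem' := by
    intro c
    obtain ⟨c', hc'⟩ := IsAlgClosed.exists_pow_nat_eq c (n := 2) (by norm_num)
    refine ⟨algebraMap κ K c', L.algebraMap_mem _, 0, zero_mem _, ?_⟩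
    rw [← map_pow, hc']
    ring
  inv_mem' := by
    rintro _ ⟨α, hα, β, hβ, rfl⟩
    set x := α ^ 2 + β ^ 2 * u with hx
    have hxL : x ∈ L := add_mem (pow_mem hα 2) (mul_mem (pow_mem hβ 2) hu)
    refine ⟨α * x⁻¹, mul_mem hα (inv_mem hxL), β * x⁻¹, mul_mem hβ (inv_mem hxL), ?_⟩
    have h1 : x⁻¹ = x⁻¹ ^ 2 * x := by
      by_cases h0 : x = 0
      · rw [h0]
        simp
      · field_simp
    linear_combination h1 + x⁻¹ ^ 2 * hx

theorem mem_Q {L : IntermediateField κ K} {u : K} {hu : u ∈ L} {x : K} :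
    x ∈ Q L u hu ↔ ∃ α ∈ L, ∃ β ∈ L, x = α ^ 2 + β ^ 2 * u := Iff.rfl

theorem derivation_sq {F L M : Type} [Field F] [Field L] [Algebra F L] [AddCommGroup M]
    [Module L M] [Module F M] [IsScalarTower F L M] (h2 : (2 : L) = 0) (D : Derivation F L M)
    (x : L) : D (x ^ 2) = 0 := by
  rw [Derivation.leibniz_pow]
  have h3 : (2 : ℕ) • (x ^ (2 - 1) • D x) = (2 : L) • (x ^ (2 - 1) • D x) := by
    rw [two_smul, two_smul]
  rw [h3, h2, zero_smul]

/-- if `L = L² + L² u` then `L` is algebraic over every subfield containing `u` -/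
theorem alg_of_Q (F L : IntermediateField κ K) (hFL : F ≤ L) (hL : L.FG) (u : K) (hu : u ∈ F)
    (h : L ≤ Q L u (hFL hu)) (x : K) (hx : x ∈ L) : IsAlgebraic F x := by
  let L' : IntermediateField F K := IntermediateField.extendScalars hFL
  have hFG : L'.FG := by
    obtain ⟨s, hs⟩ := hL
    refine ⟨s, ?_⟩
    apply le_antisymm
    · rw [IntermediateField.adjoin_le_iff]
      intro y hy
      have h1 : y ∈ L := by
        rw [← hs]
        exact IntermediateField.subset_adjoin _ _ hy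
      exact h1
    · rw [IntermediateField.extendScalars_le_iff]
      conv_lhs => rw [← hs]
      rw [IntermediateField.adjoin_le_iff]
      intro y hy
      exact IntermediateField.subset_adjoin F _ hy
  have hE : Algebra.EssFiniteType F L' := IntermediateField.essFiniteType_iff.2 hFG
  have hU : Algebra.FormallyUnramified F L' := by
    constructor
    have hD : ∀ y : L', KaehlerDifferential.D F L' y = 0 := by
      intro y
      obtain ⟨α, hα, β, hβ, hy⟩ := mem_Q.1 (h y.2)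
      have h2 : (2 : L') = 0 := by
        apply Subtype.ext
        exact two_zero κ
      have hy2 : y = (⟨α, hα⟩ : L') ^ 2 + (⟨β, hβ⟩ : L') ^ 2 *
          algebraMap F L' (⟨u, hu⟩ : F) := by
        apply Subtype.ext
        exact hy
      rw [hy2, map_add, Derivation.leibniz, derivation_sq h2, derivation_sq h2,
        Derivation.map_algebraMap, smul_zero, smul_zero, add_zero, add_zero]
    have h0 : ∀ a : Ω[L'⁄F], a = 0 := by
      intro a
      have ha : a ∈ Submodule.span L' (Set.range (KaehlerDifferential.D F L')) := by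
        rw [KaehlerDifferential.span_range_derivation]
        exact Submodule.mem_top
      have hle : Submodule.span L' (Set.range (KaehlerDifferential.D F L')) ≤ ⊥ := by
        rw [Submodule.span_le]
        rintro _ ⟨y, rfl⟩
        exact hD y
      exact (Submodule.mem_bot _).1 (hle ha)
    exact ⟨fun a b => by rw [h0 a, h0 b]⟩
  have hS := Algebra.FormallyUnramified.isSeparable F L'
  have h3 : IsAlgebraic F (⟨x, hx⟩ : L') :=
    (hS.isSeparable _ (⟨x, hx⟩ : L')).isIntegral.isAlgebraic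
  exact h3.algebraMap

variable {S : Surf κ K}

omit [IsAlgClosed κ] [CharP κ 2] in
theorem LL_le (d : Dat S) (F : IntermediateField κ K) (h1 : d.a (cr 0 3 1 2) ∈ F)
    (h2 : d.a (cr 0 2 1 3) ∈ F) (h3 : d.a (cr 0 4 1 2) ∈ F) (h4 : d.a (cr 0 2 1 4) ∈ F)
    (h5 : d.a (cr 0 2 4 3) ∈ F) : d.LL ≤ F := by
  unfold Dat.LL
  rw [IntermediateField.adjoin_le_iff]
  rintro _ ⟨n, hn, rfl⟩
  rw [d.isMul.basis hn]
  exact mul_mem (mul_mem (mul_mem (mul_mem (zpow_mem h1 _) (zpow_mem h2 _)) (zpow_mem h3 _))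
    (zpow_mem h4 _)) (zpow_mem h5 _)

omit [IsAlgClosed κ] [CharP κ 2] in
theorem LL_FG (d : Dat S) : d.LL.FG := by
  rw [IntermediateField.fg_def]
  refine ⟨{d.a (cr 0 3 1 2), d.a (cr 0 2 1 3), d.a (cr 0 4 1 2), d.a (cr 0 2 1 4),
    d.a (cr 0 2 4 3)}, Set.toFinite _, ?_⟩
  apply le_antisymm
  · rw [IntermediateField.adjoin_le_iff]
    rintro x (rfl | rfl | rfl | rfl | rfl)
    · exact d.a_mem_LL (Lam_cr _ _ _ _ (by decide))
    · exact d.a_mem_LL (Lam_cr _ _ _ _ (by decide))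
    · exact d.a_mem_LL (Lam_cr _ _ _ _ (by decide))
    · exact d.a_mem_LL (Lam_cr _ _ _ _ (by decide))
    · exact d.a_mem_LL (Lam_cr _ _ _ _ (by decide))
  · apply LL_le
    · exact IntermediateField.subset_adjoin _ _ (by simp)
    · exact IntermediateField.subset_adjoin _ _ (by simp)
    · exact IntermediateField.subset_adjoin _ _ (by simp)
    · exact IntermediateField.subset_adjoin _ _ (by simp)
    · exact IntermediateField.subset_adjoin _ _ (by simp)

omit [IsAlgClosed κ] [CharP κ 2] in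
theorem exists_not (d : Dat S) (F : IntermediateField κ K) (h : ¬ d.LL ≤ F) :
    ∃ i j k l m : Fin 5, Dist j k l m ∧ i ≠ j ∧ i ≠ k ∧ i ≠ l ∧ i ≠ m ∧
      d.a (cr j k l m) ∉ F := by
  by_contra hc
  push Not at hc
  apply h
  apply LL_le
  · exact hc 4 0 3 1 2 (by decide) (by decide) (by decide) (by decide) (by decide)
  · exact hc 4 0 2 1 3 (by decide) (by decide) (by decide) (by decide) (by decide)
  · exact hc 3 0 4 1 2 (by decide) (by decide) (by decide) (by decide) (by decide)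
  · exact hc 3 0 2 1 4 (by decide) (by decide) (by decide) (by decide) (by decide)
  · exact hc 1 0 2 4 3 (by decide) (by decide) (by decide) (by decide) (by decide)

theorem cr_val : ∀ i j k l : Fin 5, Dist i j k l → cr i j k l i j = 1 := by decide

/-- not all units are squares -/
theorem not_all_sq (hNEM : Stmt_NEM) (d : Dat S) (hP : ∃ e, e ∈ S.PP) :
    ¬ d.LL ≤ Q d.LL 0 (zero_mem _) := by
  intro h
  obtain ⟨e, he⟩ := hNEM κ K S d hP 0 1 (by decide)
  have hL := Lam_cr 0 1 2 3 (by decide)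
  have hv : e.v (d.a (cr 0 1 2 3)) = d.w e := by
    rw [d.ord_D _ hL 0 1 e he, cr_val 0 1 2 3 (by decide), one_mul]
  have key : ∀ N : ℕ, ∃ c ∈ d.LL, c ^ (2 ^ N) = d.a (cr 0 1 2 3) := by
    intro N
    induction N with
    | zero => exact ⟨_, d.a_mem_LL hL, by rw [pow_zero, pow_one]⟩
    | succ N ih =>
      obtain ⟨c, hc, hc2⟩ := ih
      obtain ⟨α, hα, β, -, hab⟩ := mem_Q.1 (h hc)
      refine ⟨α, hα, ?_⟩
      rw [mul_zero, add_zero] at hab
      rw [pow_succ', pow_mul, ← hab, hc2]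
  obtain ⟨c, -, hc⟩ := key (d.w e).toNat
  have hc0 : c ≠ 0 := by
    rintro rfl
    rw [zero_pow (by positivity)] at hc
    exact d.a_ne _ hL hc.symm
  have h1 := e.v_pow hc0 (2 ^ (d.w e).toNat)
  rw [hc, hv] at h1
  have hw := d.w_pos e
  have h2 : ((2 ^ (d.w e).toNat : ℕ) : ℤ) ∣ d.w e := ⟨e.v c, h1⟩
  have h3 := Int.le_of_dvd hw h2
  have h4 : (d.w e).toNat < 2 ^ (d.w e).toNat := Nat.lt_two_pow_self
  have h5 : ((d.w e).toNat : ℤ) = d.w e := Int.toNat_of_nonneg hw.le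
  have h6 : ((d.w e).toNat : ℤ) < ((2 ^ (d.w e).toNat : ℕ) : ℤ) := by exact_mod_cast h4
  omega

/-- the units of one pencil do not generate `LL` over the squares -/
theorem not_all_Q (hHRZ : Stmt_HRZ) (hNEM : Stmt_NEM) (d : Dat S) (hP : ∃ e, e ∈ S.PP)
    (i j k l m : Fin 5) (hd : Dist j k l m) (h1 : i ≠ j) (h2 : i ≠ k) (h3 : i ≠ l) (h4 : i ≠ m)
    (hu : d.a (cr j k l m) ∈ d.LL) : ¬ d.LL ≤ Q d.LL (d.a (cr j k l m)) hu := by
  intro h
  have hui : d.a (cr j k l m) ∈ d.kf i := d.a_mem_kf (LamI_cr i j k l m hd h1 h2 h3 h4)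
  obtain ⟨e, he⟩ := hNEM κ K S d hP i j h1
  have hD : Dist i j k l := ⟨h1, h2, h3, hd.1, hd.2.1, hd.2.2.2.1⟩
  have hL := Lam_cr i j k l hD
  apply hHRZ κ K S d i j e he
  refine ⟨d.a (cr i j k l), ?_, d.a_ne _ hL, ?_⟩
  · exact alg_of_Q (d.kf i) d.LL (d.kf_le_LL i) (LL_FG d) _ hui h _ (d.a_mem_LL hL)
  · rw [d.ord_D _ hL i j e he, cr_val i j k l hD, one_mul]
    exact (d.w_pos e).ne'

omit [IsAlgClosed κ] in
/-- linear algebra over the field of squares -/
theorem indep (L : IntermediateField κ K) (u u' : K)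
    (h1 : ∀ α ∈ L, α ^ 2 ≠ u) (h2 : ∀ α ∈ L, ∀ β ∈ L, α ^ 2 + β ^ 2 * u ≠ u')
    (α β γ δ : K) (hα : α ∈ L) (hβ : β ∈ L) (hγ : γ ∈ L) (hδ : δ ∈ L) (huL : u ∈ L)
    (h : α ^ 2 + β ^ 2 * u + γ ^ 2 * u' + δ ^ 2 * (u * u') = 0) :
    α = 0 ∧ β = 0 ∧ γ = 0 ∧ δ = 0 := by
  have h0 := two_zero κ (K := K)
  have two : ∀ x ∈ L, ∀ y ∈ L, x ^ 2 + y ^ 2 * u = 0 → x = 0 ∧ y = 0 := by
    intro x hx y hy hxy
    by_cases hy0 : y = 0
    · rw [hy0] at hxy
      have : x ^ 2 = 0 := by linear_combination hxy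
      exact ⟨by simpa using this, hy0⟩
    · exfalso
      apply h1 (x / y) (div_mem hx hy)
      rw [div_pow, div_eq_iff (pow_ne_zero 2 hy0)]
      linear_combination hxy - y ^ 2 * u * h0
  set s := γ ^ 2 + δ ^ 2 * u with hs
  have hsL : s ∈ L := add_mem (pow_mem hγ 2) (mul_mem (pow_mem hδ 2) huL)
  have h3 : s * u' = α ^ 2 + β ^ 2 * u := by
    linear_combination h + u' * hs - (α ^ 2 + β ^ 2 * u) * h0
  by_cases hs0 : s = 0
  · rw [hs0, zero_mul] at h3
    obtain ⟨h4, h5⟩ := two α hα β hβ h3.symm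
    obtain ⟨h6, h7⟩ := two γ hγ δ hδ (by rw [← hs, hs0])
    exact ⟨h4, h5, h6, h7⟩
  · exfalso
    apply h2 ((α * γ + β * δ * u) / s)
      (div_mem (add_mem (mul_mem hα hγ) (mul_mem (mul_mem hβ hδ) huL)) hsL)
      ((α * δ + β * γ) / s) (div_mem (add_mem (mul_mem hα hδ) (mul_mem hβ hγ)) hsL)
    rw [div_pow, div_pow]
    have h8 : u' = (α ^ 2 + β ^ 2 * u) / s := by
      rw [eq_div_iff hs0, ← h3, mul_comm]
    rw [h8]
    have h9 : s ^ 2 ≠ 0 := pow_ne_zero 2 hs0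
    field_simp
    rw [hs]
    linear_combination (2 * α * β * γ * δ * u) * h0

end

end IND_

theorem ind_proof (hPBK : Stmt_PBK) (hHRZ : Stmt_HRZ) (hNEM : Stmt_NEM) : Stmt_IND := by
  intro κ K _ _ _ _ _ S d hP _
  have : CharP K 2 := charP_of_injective_algebraMap (algebraMap κ K).injective 2
  obtain ⟨i, j, k, l, m, hd, n1, n2, n3, n4, hu⟩ :=
    IND_.exists_not d _ (IND_.not_all_sq hNEM d hP)
  have huL : d.a (cr j k l m) ∈ d.LL := d.a_mem_LL (Lam_cr j k l m hd)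
  have hui : d.a (cr j k l m) ∈ d.kf i := d.a_mem_kf (LamI_cr i j k l m hd n1 n2 n3 n4)
  obtain ⟨i', j', k', l', m', hd', m1, m2, m3, m4, hu'⟩ :=
    IND_.exists_not d _ (IND_.not_all_Q hHRZ hNEM d hP i j k l m hd n1 n2 n3 n4 huL)
  have hu'i : d.a (cr j' k' l' m') ∈ d.kf i' := d.a_mem_kf (LamI_cr i' j' k' l' m' hd' m1 m2 m3 m4)
  set u := d.a (cr j k l m) with hudef
  set u' := d.a (cr j' k' l' m') with hu'def
  have nu : ∀ α ∈ d.LL, α ^ 2 ≠ u := by
    intro α hα h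
    apply hu
    exact ⟨α, hα, 0, zero_mem _, by rw [← h]; ring⟩
  have nu' : ∀ α ∈ d.LL, ∀ β ∈ d.LL, α ^ 2 + β ^ 2 * u ≠ u' := by
    intro α hα β hβ h
    apply hu'
    exact ⟨α, hα, β, hβ, h.symm⟩
  have sq1 : ¬ ∃ c ∈ d.kf i, c ^ 2 = u := by
    rintro ⟨c, hc, h⟩
    exact nu c (d.kf_le_LL i hc) h
  have sq2 : ¬ ∃ c ∈ d.kf i', c ^ 2 = u' := by
    rintro ⟨c, hc, h⟩
    apply nu' c (d.kf_le_LL i' hc) 0 (zero_mem _)
    rw [← h]
    ring
  have hii : i ≠ i' := by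
    rintro rfl
    obtain ⟨α, hα, β, hβ, h⟩ := hPBK κ K S d i u hui sq1 u' hu'i
    exact nu' α (d.kf_le_LL i hα) β (d.kf_le_LL i hβ) h.symm
  refine ⟨i, i', hii, ?_⟩
  intro b hb hb2 b' hb' hb2' α hα β hβ γ hγ δ hδ h
  obtain ⟨p, hp, q, hq, hpq⟩ := hPBK κ K S d i u hui sq1 b hb
  obtain ⟨p', hp', q', hq', hpq'⟩ := hPBK κ K S d i' u' hu'i sq2 b' hb'
  have hq0 : q ≠ 0 := by
    rintro rfl
    apply hb2
    exact ⟨p, hp, by rw [hpq]; ring⟩
  have hq0' : q' ≠ 0 := by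
    rintro rfl
    apply hb2'
    exact ⟨p', hp', by rw [hpq']; ring⟩
  have lp := d.kf_le_LL i hp
  have lq := d.kf_le_LL i hq
  have lp' := d.kf_le_LL i' hp'
  have lq' := d.kf_le_LL i' hq'
  have e1 : (α + β * p + γ * p' + δ * (p * p')) ^ 2 =
      α ^ 2 + β ^ 2 * p ^ 2 + γ ^ 2 * p' ^ 2 + δ ^ 2 * (p ^ 2 * p' ^ 2) := by
    rw [CharTwo.add_sq, CharTwo.add_sq, CharTwo.add_sq]
    ring
  have e2 : (β * q + δ * (q * p')) ^ 2 = β ^ 2 * q ^ 2 + δ ^ 2 * (q ^ 2 * p' ^ 2) := by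
    rw [CharTwo.add_sq]
    ring
  have e3 : (γ * q' + δ * (p * q')) ^ 2 = γ ^ 2 * q' ^ 2 + δ ^ 2 * (p ^ 2 * q' ^ 2) := by
    rw [CharTwo.add_sq]
    ring
  obtain ⟨r1, r2, r3, r4⟩ := IND_.indep d.LL u u' nu nu'
    (α + β * p + γ * p' + δ * (p * p')) (β * q + δ * (q * p')) (γ * q' + δ * (p * q'))
    (δ * (q * q'))
    (add_mem (add_mem (add_mem hα (mul_mem hβ lp)) (mul_mem hγ lp'))
      (mul_mem hδ (mul_mem lp lp')))
    (add_mem (mul_mem hβ lq) (mul_mem hδ (mul_mem lq lp')))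
    (add_mem (mul_mem hγ lq') (mul_mem hδ (mul_mem lp lq')))
    (mul_mem hδ (mul_mem lq lq')) huL (by
      rw [e1, e2, e3]
      rw [hpq, hpq'] at h
      linear_combination h)
  have hδ0 : δ = 0 := by
    rcases mul_eq_zero.1 r4 with h5 | h5
    · exact h5
    · exact absurd h5 (mul_ne_zero hq0 hq0')
  have hγ0 : γ = 0 := by
    rw [hδ0, zero_mul, add_zero] at r3
    exact (mul_eq_zero.1 r3).resolve_right hq0'
  have hβ0 : β = 0 := by
    rw [hδ0, zero_mul, add_zero] at r2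
    exact (mul_eq_zero.1 r2).resolve_right hq0
  refine ⟨?_, hβ0, hγ0, hδ0⟩
  rw [hβ0, hγ0, hδ0, zero_mul, zero_mul, zero_mul, add_zero, add_zero, add_zero] at r1
  exact r1

end Pool.Agent.CPT
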