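import Pool.Agent.CPT.Stmts

set_option autoImplicit false

namespace Pool.Agent.CPT

namespace IVA_

variable {κ K : Type} [Field κ] [Field K] [Algebra κ K]

theorem M_of_mul {e : DV κ K} {x y : K} (hx : e.O x) (hy : e.O y) (h : e.M (x * y)) :
    e.M x ∨ e.M y := by
  by_cases h0 : x = 0
  · exact Or.inl (Or.inl h0)
  by_cases h1 : y = 0
  · exact Or.inr (Or.inl h1)
  rcases h with h | h
  · exact absurd h (mul_ne_zero h0 h1)
  rw [e.v_mul h0 h1] at h
  have hx' := hx.resolve_left h0
  have hy' := hy.resolve_left h1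
  by_cases h2 : 0 < e.v x
  · exact Or.inl (Or.inr h2)
  · exact Or.inr (Or.inr (by omega))

theorem exists_of_prod {e : DV κ K} {r : K} (hr : e.O r) (s : Multiset κ)
    (h : e.M ((s.map (fun a => r - algebraMap κ K a)).prod)) :
    ∃ a : κ, e.M (r - algebraMap κ K a) := by
  induction s using Multiset.induction_on with
  | empty =>
    rw [Multiset.map_zero, Multiset.prod_zero] at h
    exact absurd h e.not_M_one
  | cons a s ih =>
    rw [Multiset.map_cons, Multiset.prod_cons] at h
    have h1 : e.O (r - algebraMap κ K a) := DV.O_sub hr (e.O_const a)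
    have h2 : e.O ((s.map (fun a => r - algebraMap κ K a)).prod) := by
      clear ih h
      induction s using Multiset.induction_on with
      | empty => rw [Multiset.map_zero, Multiset.prod_zero]; exact e.O_one
      | cons b s ih =>
        rw [Multiset.map_cons, Multiset.prod_cons]
        exact DV.O_mul (DV.O_sub hr (e.O_const b)) ih
    rcases M_of_mul h1 h2 h with h3 | h3
    · exact ⟨a, h3⟩
    · exact ih h3

theorem M_aeval {e : DV κ K} {α : K} {c : κ} (hα : e.O α) (hc : e.M (α - algebraMap κ K c))
    (Q : Polynomial κ) :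
    e.M (Polynomial.aeval α Q - algebraMap κ K (Q.eval c)) := by
  have h1 : (Polynomial.X - Polynomial.C c) ∣ Q - Polynomial.C (Q.eval c) := by
    rw [Polynomial.dvd_iff_isRoot]
    simp [Polynomial.IsRoot]
  obtain ⟨R, hR⟩ := h1
  have h2 : Polynomial.aeval α Q - algebraMap κ K (Q.eval c)
      = (α - algebraMap κ K c) * Polynomial.aeval α R := by
    have := congrArg (Polynomial.aeval α) hR
    simpa using this
  rw [h2]
  exact DV.M_mul hc (DV.O_aeval hα R)

end IVA_

open IVA_ Polynomial in
theorem iva_proof : Stmt_IVA := by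
  intro κ K _ _ _ _ e α c hc r hr
  have hα : e.O α := by
    have := DV.O_add hc.O (e.O_const c)
    rwa [sub_add_cancel] at this
  have hA : ∀ x : Algebra.adjoin κ {α}, ∃ Q : Polynomial κ, aeval α Q = (x : K) := by
    rintro ⟨x, hx⟩
    rw [Algebra.adjoin_singleton_eq_range_aeval] at hx
    exact hx
  have hAO : ∀ x : Algebra.adjoin κ {α}, e.O (x : K) := by
    intro x
    obtain ⟨Q, hQ⟩ := hA x
    rw [← hQ]
    exact DV.O_aeval hα Q
  obtain ⟨P, hP, hP0⟩ := hr
  have hrO : e.O r := by
    let φ : Algebra.adjoin κ {α} →+* e.vs :=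
      RingHom.codRestrict (algebraMap (Algebra.adjoin κ {α}) K) e.vs (fun x => hAO x)
    have h1 : IsIntegral e.vs r := by
      refine ⟨P.map φ, hP.map φ, ?_⟩
      rw [eval₂_map]
      have : (algebraMap e.vs K).comp φ = algebraMap (Algebra.adjoin κ {α}) K := by
        ext x; rfl
      rw [this]
      exact hP0
    obtain ⟨y, hy⟩ := IsIntegrallyClosed.isIntegral_iff.1 h1
    rw [← hy]
    exact y.2
  refine ⟨hrO, ?_⟩
  have hres : ∀ x : Algebra.adjoin κ {α}, ∃ c' : κ, e.M ((x : K) - algebraMap κ K c') := by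
    intro x
    obtain ⟨Q, hQ⟩ := hA x
    exact ⟨Q.eval c, by rw [← hQ]; exact M_aeval hα hc Q⟩
  choose res hres using hres
  set n := P.natDegree with hn
  let Q : Polynomial κ := X ^ n + ∑ j ∈ Finset.range n, C (res (P.coeff j)) * X ^ j
  have hdeg : (∑ j ∈ Finset.range n, C (res (P.coeff j)) * X ^ j : Polynomial κ).degree < n := by
    refine lt_of_le_of_lt (degree_sum_le _ _) ?_
    refine (Finset.sup_lt_iff (WithBot.bot_lt_coe n)).2 fun j hj => ?_
    refine lt_of_le_of_lt (degree_C_mul_X_pow_le _ _) ?_
    exact Nat.cast_lt.2 (Finset.mem_range.1 hj)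
  have hQm : Q.Monic := monic_X_pow_add hdeg
  have hQr : aeval r Q = ((Q.roots.map (fun a => r - algebraMap κ K a)).prod) := by
    conv_lhs => rw [(IsAlgClosed.splits Q).eq_prod_roots_of_monic hQm]
    rw [map_multiset_prod, Multiset.map_map]
    congr 1
    refine Multiset.map_congr rfl fun a _ => ?_
    simp
  have hP0' : r ^ n + ∑ j ∈ Finset.range n, ((P.coeff j : Algebra.adjoin κ {α}) : K) * r ^ j = 0 := by
    rw [eval₂_eq_sum_range, ← hn, Finset.sum_range_succ] at hP0
    have h1 : P.coeff n = 1 := hP
    rw [h1, map_one, one_mul, add_comm] at hP0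
    exact hP0
  have hM : e.M (aeval r Q) := by
    have h1 : aeval r Q = -∑ j ∈ Finset.range n,
        (((P.coeff j : Algebra.adjoin κ {α}) : K) - algebraMap κ K (res (P.coeff j))) * r ^ j := by
      have h2 : aeval r Q = r ^ n + ∑ j ∈ Finset.range n, algebraMap κ K (res (P.coeff j)) * r ^ j := by
        simp [Q, map_sum]
      rw [h2]
      simp only [sub_mul, Finset.sum_sub_distrib]
      linear_combination hP0'
    rw [h1]
    refine DV.M_neg ?_
    have : ∀ s : Finset ℕ, e.M (∑ j ∈ s,
        (((P.coeff j : Algebra.adjoin κ {α}) : K) - algebraMap κ K (res (P.coeff j))) * r ^ j) := by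
      intro s
      classical
      induction s using Finset.induction_on with
      | empty => rw [Finset.sum_empty]; exact e.M_zero
      | insert a s ha ih =>
        rw [Finset.sum_insert ha]
        exact DV.M_add (DV.M_mul (hres _) (DV.O_pow hrO a)) ih
    exact this _
  rw [hQr] at hM
  exact exists_of_prod hrO _ hM

end Pool.Agent.CPT
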