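import Pool.Agent.CPT.Stmts

/-!
# KAP: Kaplansky's Theorem 67
-/

set_option autoImplicit false

namespace Pool.Agent.CPT

namespace KAP_

open Polynomial

theorem main {A K : Type} [CommRing A] [IsLocalRing A] [Field K] [Algebra A K]
    (hint : ∀ x : K, IsIntegral A x → ∃ a, algebraMap A K a = x) (f : K) (hf : f ≠ 0) :
    ∀ n : ℕ, ∀ P : Polynomial A, P.natDegree ≤ n → aeval f P = 0 → (∃ j, IsUnit (P.coeff j)) →
    (∃ a, algebraMap A K a = f) ∨ (∃ a, algebraMap A K a = f⁻¹) := by
  intro n
  induction n with
  | zero =>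
    intro P hP h0 ⟨j, hj⟩
    exfalso
    have h1 : P = C (P.coeff 0) := eq_C_of_natDegree_le_zero hP
    rw [h1, aeval_C] at h0
    have h2 : IsUnit (P.coeff 0) := by
      rcases Nat.eq_zero_or_pos j with h | h
      · rwa [h] at hj
      · have h3 : P.coeff j = 0 := coeff_eq_zero_of_natDegree_lt (by omega)
        rw [h3] at hj
        exact absurd hj not_isUnit_zero
    exact (h2.map (algebraMap A K)).ne_zero h0
  | succ n ih =>
    intro P hP h0 ⟨j, hj⟩
    by_cases hd : P.natDegree ≤ n
    · exact ih P hd h0 ⟨j, hj⟩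
    have hdeg : P.natDegree = n + 1 := by omega
    have hev : P.eval₂ (algebraMap A K) f = 0 := h0
    have hw : IsIntegral A (algebraMap A K P.leadingCoeff * f) :=
      RingHom.isIntegralElem_leadingCoeff_mul (algebraMap A K) P f hev
    obtain ⟨w, hw'⟩ := hint _ hw
    by_cases hu : IsUnit P.leadingCoeff
    · left
      obtain ⟨u, hu⟩ := hu
      refine ⟨((u⁻¹ : Aˣ) : A) * w, ?_⟩
      rw [map_mul, hw', ← hu, ← mul_assoc, ← map_mul, Units.inv_mul, map_one, one_mul]
    -- the new polynomial
    set P' : Polynomial A := P.eraseLead + C w * X ^ n with hP'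
    have hsum : aeval f P' = 0 := by
      have h1 := P.eraseLead_add_C_mul_X_pow
      have h2 : aeval f P = aeval f P.eraseLead + algebraMap A K P.leadingCoeff * f ^ (n + 1) := by
        conv_lhs => rw [← h1]
        rw [map_add, map_mul, aeval_C, map_pow, aeval_X, hdeg]
      rw [hP', map_add, map_mul, aeval_C, map_pow, aeval_X, hw']
      rw [h2] at h0
      rw [← h0, pow_succ']
      ring
    have hd' : P'.natDegree ≤ n := by
      rw [hP']
      refine (natDegree_add_le _ _).trans (max_le ?_ (natDegree_C_mul_X_pow_le _ _))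
      have := P.eraseLead_natDegree_le
      omega
    have hjn : j ≠ n + 1 := by
      rintro rfl
      apply hu
      rw [leadingCoeff, hdeg]
      exact hj
    have hcoeff : P'.coeff j = P.coeff j + if j = n then w else 0 := by
      rw [hP', coeff_add, eraseLead_coeff_of_ne _ (by rw [hdeg]; exact hjn), coeff_C_mul,
        coeff_X_pow]
      simp
    by_cases hj2 : j = n
    · rw [if_pos hj2] at hcoeff
      by_cases hwu : IsUnit w
      · right
        obtain ⟨u, hu'⟩ := hwu
        refine ⟨((u⁻¹ : Aˣ) : A) * P.leadingCoeff, ?_⟩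
        have h3 : algebraMap A K w ≠ 0 := by
          rw [← hu']
          exact (u.isUnit.map (algebraMap A K)).ne_zero
        have h4 : algebraMap A K ((u⁻¹ : Aˣ) : A) = (algebraMap A K w)⁻¹ := by
          apply eq_inv_of_mul_eq_one_left
          rw [← map_mul, ← hu', Units.inv_mul, map_one]
        rw [map_mul, h4, hw', mul_inv, mul_assoc, mul_comm f⁻¹, ← mul_assoc]
        have h5 : algebraMap A K P.leadingCoeff ≠ 0 := by
          intro h6
          rw [hw', h6, zero_mul] at h3
          exact h3 rfl
        rw [inv_mul_cancel₀ h5, one_mul]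
      · apply ih P' hd' hsum ⟨j, ?_⟩
        rw [hcoeff]
        by_contra hcon
        apply hwu
        -- P.coeff j unit, sum not unit, so w unit
        rcases IsLocalRing.isUnit_or_isUnit_of_isUnit_add (a := P.coeff j + w) (b := -w)
          (by rwa [add_neg_cancel_right]) with h | h
        · exact absurd h hcon
        · exact (IsUnit.neg_iff w).mp h
    · rw [if_neg hj2, add_zero] at hcoeff
      exact ih P' hd' hsum ⟨j, by rw [hcoeff]; exact hj⟩

end KAP_

open KAP_ in
theorem kap_proof : Stmt_KAP := by
  intro K _ R Q _ hR f hf P hP hn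
  obtain ⟨n, hn⟩ := hn
  have hunit : ∀ y : Q.primeCompl, IsUnit (R.subtype y) := by
    intro y
    rw [isUnit_iff_ne_zero]
    intro h
    apply y.2
    have : (y : R) = 0 := Subtype.ext h
    rw [this]
    exact Q.zero_mem
  let _ : Algebra (Localization.AtPrime Q) K :=
    (IsLocalization.lift (M := Q.primeCompl) (S := Localization.AtPrime Q) (g := R.subtype)
      hunit).toAlgebra
  have hmap : ∀ r : R, algebraMap (Localization.AtPrime Q) K (algebraMap R _ r) = (r : K) := by
    intro r
    exact IsLocalization.lift_eq hunit r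
  have _ : IsScalarTower R (Localization.AtPrime Q) K :=
    IsScalarTower.of_algebraMap_eq fun r => (hmap r).symm
  have hint : ∀ x : K, IsIntegral (Localization.AtPrime Q) x →
      ∃ a, algebraMap (Localization.AtPrime Q) K a = x := by
    intro x hx
    obtain ⟨m, hm⟩ := IsIntegral.exists_multiple_integral_of_isLocalization Q.primeCompl x hx
    have h1 : (m : R) • x ∈ R := hR _ hm
    refine ⟨IsLocalization.mk' _ (⟨_, h1⟩ : R) m, ?_⟩
    have hm0 : ((m : R) : K) ≠ 0 := (hunit m).ne_zero
    apply mul_left_cancel₀ hm0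
    rw [← hmap (m : R), ← map_mul, IsLocalization.mk'_spec', hmap, hmap]
    rfl
  have hconv : ∀ x : K, (∃ a, algebraMap (Localization.AtPrime Q) K a = x) →
      ∃ r s : R, s ∉ Q ∧ x * (s : K) = (r : K) := by
    rintro x ⟨a, rfl⟩
    obtain ⟨⟨r, s⟩, h⟩ := IsLocalization.surj Q.primeCompl a
    refine ⟨r, s, s.2, ?_⟩
    rw [← hmap (s : R), ← map_mul, h, hmap]
  rcases main hint f hf _ (P.map (algebraMap R (Localization.AtPrime Q))) le_rfl
    (by rw [Polynomial.aeval_map_algebraMap]; exact hP)
    ⟨n, by
      rw [Polynomial.coeff_map]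
      exact (IsLocalization.AtPrime.isUnit_to_map_iff _ Q _).mpr hn⟩ with h | h
  · exact Or.inl (hconv _ h)
  · exact Or.inr (hconv _ h)

end Pool.Agent.CPT
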