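import Pool.Agent.CPT.Basic

set_option autoImplicit false

namespace Pool.Agent.CPT

theorem dist_rot {i j k l : Fin 5} (h : Dist i j k l) : Dist i l k j :=
  ⟨h.2.2.1, h.2.1, h.1, h.2.2.2.2.2.symm, h.2.2.2.2.1.symm, h.2.2.2.1.symm⟩

/-- symmetric matrices are determined by the entries above the diagonal -/
theorem Lam_ext {m n : Fin 5 → Fin 5 → ℤ} (hm : Lam m) (hn : Lam n)
    (h01 : m 0 1 = n 0 1) (h02 : m 0 2 = n 0 2) (h03 : m 0 3 = n 0 3) (h04 : m 0 4 = n 0 4)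
    (h12 : m 1 2 = n 1 2) (h13 : m 1 3 = n 1 3) (h14 : m 1 4 = n 1 4)
    (h23 : m 2 3 = n 2 3) (h24 : m 2 4 = n 2 4) (h34 : m 3 4 = n 3 4) : m = n := by
  funext a b
  fin_cases a <;> fin_cases b <;> simp only [Fin.zero_eta, Fin.mk_one, Fin.reduceFinMk]
  · rw [hm.2.1, hn.2.1]
  · exact h01
  · exact h02
  · exact h03
  · exact h04
  · rw [hm.1, hn.1, h01]
  · rw [hm.2.1, hn.2.1]
  · exact h12
  · exact h13
  · exact h14
  · rw [hm.1, hn.1, h02]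
  · rw [hm.1, hn.1, h12]
  · rw [hm.2.1, hn.2.1]
  · exact h23
  · exact h24
  · rw [hm.1, hn.1, h03]
  · rw [hm.1, hn.1, h13]
  · rw [hm.1, hn.1, h23]
  · rw [hm.2.1, hn.2.1]
  · exact h34
  · rw [hm.1, hn.1, h04]
  · rw [hm.1, hn.1, h14]
  · rw [hm.1, hn.1, h24]
  · rw [hm.1, hn.1, h34]
  · rw [hm.2.1, hn.2.1]

/-- the row sum conditions -/
theorem Lam_rows {n : Fin 5 → Fin 5 → ℤ} (hn : Lam n) :
    n 0 1 + n 0 2 + n 0 3 + n 0 4 = 0 ∧ n 0 1 + n 1 2 + n 1 3 + n 1 4 = 0 ∧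
    n 0 2 + n 1 2 + n 2 3 + n 2 4 = 0 ∧ n 0 3 + n 1 3 + n 2 3 + n 3 4 = 0 ∧
    n 0 4 + n 1 4 + n 2 4 + n 3 4 = 0 := by
  have e0 := hn.2.2 0
  have e1 := hn.2.2 1
  have e2 := hn.2.2 2
  have e3 := hn.2.2 3
  have e4 := hn.2.2 4
  simp only [Fin.sum_univ_five, hn.2.1] at e0 e1 e2 e3 e4
  rw [hn.1 1 0] at e1
  rw [hn.1 2 0, hn.1 2 1] at e2
  rw [hn.1 3 0, hn.1 3 1, hn.1 3 2] at e3
  rw [hn.1 4 0, hn.1 4 1, hn.1 4 2, hn.1 4 3] at e4
  refine ⟨by linarith, by linarith, by linarith, by linarith, by linarith⟩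

/-- five cross ratios generate `Lam` -/
theorem Lam_basis {n : Fin 5 → Fin 5 → ℤ} (hn : Lam n) :
    n = n 0 3 • cr 0 3 1 2 + n 1 3 • cr 0 2 1 3 + (n 0 4 + n 3 4) • cr 0 4 1 2
      + n 1 4 • cr 0 2 1 4 + n 3 4 • cr 0 2 4 3 := by
  obtain ⟨e0, e1, e2, e3, e4⟩ := Lam_rows hn
  have hL : Lam (n 0 3 • cr 0 3 1 2 + n 1 3 • cr 0 2 1 3 + (n 0 4 + n 3 4) • cr 0 4 1 2
      + n 1 4 • cr 0 2 1 4 + n 3 4 • cr 0 2 4 3) := by
    refine Lam_add (Lam_add (Lam_add (Lam_add ?_ ?_) ?_) ?_) ?_ <;>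
      exact Lam_smul _ (Lam_cr _ _ _ _ (by decide))
  apply Lam_ext hn hL <;>
    simp only [Pi.add_apply, Pi.smul_apply, smul_eq_mul, cr, E, Pi.sub_apply] <;>
    simp <;> linarith

/-- relabelling of exponent vectors -/
def rel (σ : Equiv.Perm (Fin 5)) (n : Fin 5 → Fin 5 → ℤ) : Fin 5 → Fin 5 → ℤ :=
  fun a b => n (σ a) (σ b)

theorem Lam_rel (σ : Equiv.Perm (Fin 5)) {n : Fin 5 → Fin 5 → ℤ} (hn : Lam n) :
    Lam (rel σ n) := by
  refine ⟨fun i j => hn.1 _ _, fun i => hn.2.1 _, fun i => ?_⟩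
  unfold rel
  rw [Equiv.sum_comp σ (fun b => n (σ i) b)]
  exact hn.2.2 _

theorem LamI_rel (σ : Equiv.Perm (Fin 5)) {i : Fin 5} {n : Fin 5 → Fin 5 → ℤ}
    (hn : LamI (σ i) n) : LamI i (rel σ n) :=
  ⟨Lam_rel σ hn.1, fun j => hn.2 _⟩

theorem rel_add (σ : Equiv.Perm (Fin 5)) (m n : Fin 5 → Fin 5 → ℤ) :
    rel σ (m + n) = rel σ m + rel σ n := rfl

theorem rel_rel (σ τ : Equiv.Perm (Fin 5)) (n : Fin 5 → Fin 5 → ℤ) :
    rel σ (rel τ n) = rel (τ * σ) n := rfl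

theorem rel_E (σ : Equiv.Perm (Fin 5)) (i j : Fin 5) : rel σ (E (σ i) (σ j)) = E i j := by
  funext a b
  simp only [rel, E, EmbeddingLike.apply_eq_iff_eq]

theorem rel_cr (σ : Equiv.Perm (Fin 5)) (i j k l : Fin 5) :
    rel σ (cr (σ i) (σ j) (σ k) (σ l)) = cr i j k l := by
  have h : ∀ m n : Fin 5 → Fin 5 → ℤ, rel σ (m - n) = rel σ m - rel σ n := fun _ _ => rfl
  unfold cr
  rw [h, h, rel_add, rel_E, rel_E, rel_E, rel_E]

theorem rel_swap_cr (i j : Fin 5) (k l m n : Fin 5) :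
    rel (Equiv.swap i j) (cr k l m n) =
      cr (Equiv.swap i j k) (Equiv.swap i j l) (Equiv.swap i j m) (Equiv.swap i j n) := by
  have h := rel_cr (Equiv.swap i j) (Equiv.swap i j k) (Equiv.swap i j l) (Equiv.swap i j m)
    (Equiv.swap i j n)
  simpa only [Equiv.swap_apply_self] using h

theorem rel_one (n : Fin 5 → Fin 5 → ℤ) : rel 1 n = n := rfl

theorem rel_smul (σ : Equiv.Perm (Fin 5)) (c : ℤ) (n : Fin 5 → Fin 5 → ℤ) :
    rel σ (c • n) = c • rel σ n := rfl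

theorem LamI_basis4 {n : Fin 5 → Fin 5 → ℤ} (hn : LamI 4 n) :
    n = n 0 1 • cr 0 1 2 3 + n 0 3 • cr 0 3 2 1 := by
  have hL : Lam (n 0 1 • cr 0 1 2 3 + n 0 3 • cr 0 3 2 1) :=
    Lam_add (Lam_smul _ (Lam_cr _ _ _ _ (by decide))) (Lam_smul _ (Lam_cr _ _ _ _ (by decide)))
  obtain ⟨e0, e1, e2, e3, e4⟩ := Lam_rows hn.1
  have hi := hn.2
  have hs := hn.1.1
  have i0 := hi 0
  have i1 := hi 1
  have i2 := hi 2
  have i3 := hi 3
  have s40 := hs 4 0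
  have s41 := hs 4 1
  have s42 := hs 4 2
  have s43 := hs 4 3
  apply Lam_ext hn.1 hL <;>
    simp only [Pi.add_apply, Pi.smul_apply, smul_eq_mul, cr, E, Pi.sub_apply] <;>
    simp <;> linarith

/-- a permutation with prescribed values -/
theorem exists_perm (i j k l m : Fin 5) (h : Dist j k l m) (h1 : i ≠ j) (h2 : i ≠ k)
    (h3 : i ≠ l) (h4 : i ≠ m) : ∃ σ : Equiv.Perm (Fin 5),
    σ 0 = j ∧ σ 1 = k ∧ σ 2 = l ∧ σ 3 = m ∧ σ 4 = i := by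
  have hinj : Function.Injective ![j, k, l, m, i] := by
    obtain ⟨a1, a2, a3, a4, a5, a6⟩ := h
    intro a b hab
    fin_cases a <;> fin_cases b <;> simp_all [eq_comm]
  refine ⟨Equiv.ofBijective _ (Finite.injective_iff_bijective.mp hinj), rfl, rfl, rfl, rfl, rfl⟩

/-- the two basic cross ratios generate `LamI` -/
theorem LamI_basis (i j k l m : Fin 5) (h : Dist j k l m) (h1 : i ≠ j) (h2 : i ≠ k)
    (h3 : i ≠ l) (h4 : i ≠ m) {n : Fin 5 → Fin 5 → ℤ} (hn : LamI i n) :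
    n = n j k • cr j k l m + n j m • cr j m l k := by
  obtain ⟨σ, s0, s1, s2, s3, s4⟩ := exists_perm i j k l m h h1 h2 h3 h4
  have h5 : LamI 4 (rel σ n) := LamI_rel σ (by rw [s4]; exact hn)
  have h6 := LamI_basis4 h5
  have h7 : n = rel σ⁻¹ (rel σ n) := by rw [rel_rel, mul_inv_cancel, rel_one]
  have h8 : ∀ a b c e : Fin 5, rel σ⁻¹ (cr a b c e) = cr (σ a) (σ b) (σ c) (σ e) := by
    intro a b c e
    have h9 := rel_cr σ⁻¹ (σ a) (σ b) (σ c) (σ e)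
    simpa using h9
  rw [h6, rel_add, rel_smul, rel_smul, h8, h8, s0, s1, s2, s3] at h7
  have h10 : rel σ n 0 1 = n j k := by simp only [rel, s0, s1]
  have h11 : rel σ n 0 3 = n j m := by simp only [rel, s0, s3]
  rw [h10, h11] at h7
  exact h7

section
variable {K : Type} [Field K]

/-- multiplicative functions on `Lam` -/
structure IsMul (X : (Fin 5 → Fin 5 → ℤ) → K) : Prop where
  ne : ∀ n, Lam n → X n ≠ 0
  add : ∀ m n, Lam m → Lam n → X (m + n) = X m * X n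

variable {X : (Fin 5 → Fin 5 → ℤ) → K}

theorem IsMul.zero (h : IsMul X) : X 0 = 1 := by
  have h1 := h.add 0 0 Lam_zero Lam_zero
  rw [add_zero] at h1
  exact (mul_eq_left₀ (h.ne 0 Lam_zero)).mp h1.symm

theorem IsMul.neg (h : IsMul X) {n : Fin 5 → Fin 5 → ℤ} (hn : Lam n) : X (-n) = (X n)⁻¹ := by
  have h1 := h.add n (-n) hn (Lam_neg hn)
  rw [add_neg_cancel, h.zero] at h1
  exact eq_inv_of_mul_eq_one_right h1.symm

theorem IsMul.sub (h : IsMul X) {m n : Fin 5 → Fin 5 → ℤ} (hm : Lam m) (hn : Lam n) :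
    X (m - n) = X m / X n := by
  rw [sub_eq_add_neg, h.add m (-n) hm (Lam_neg hn), h.neg hn, div_eq_mul_inv]

theorem IsMul.nsmul (h : IsMul X) {n : Fin 5 → Fin 5 → ℤ} (hn : Lam n) (c : ℕ) :
    X ((c : ℤ) • n) = X n ^ c := by
  induction c with
  | zero => simp [h.zero]
  | succ c ih =>
    have : ((c + 1 : ℕ) : ℤ) • n = (c : ℤ) • n + n := by push_cast; rw [add_smul, one_smul]
    rw [this, h.add _ _ (Lam_smul _ hn) hn, ih, pow_succ]

theorem IsMul.zsmul (h : IsMul X) {n : Fin 5 → Fin 5 → ℤ} (hn : Lam n) (c : ℤ) :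
    X (c • n) = X n ^ c := by
  cases c with
  | ofNat c => simpa using h.nsmul hn c
  | negSucc c =>
    have : Int.negSucc c • n = -(((c + 1 : ℕ) : ℤ) • n) := by
      rw [Int.negSucc_eq, neg_smul]; push_cast; rfl
    rw [this, h.neg (Lam_smul _ hn), h.nsmul hn, zpow_negSucc]

theorem IsMul.basis (h : IsMul X) {n : Fin 5 → Fin 5 → ℤ} (hn : Lam n) :
    X n = X (cr 0 3 1 2) ^ n 0 3 * X (cr 0 2 1 3) ^ n 1 3 * X (cr 0 4 1 2) ^ (n 0 4 + n 3 4)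
      * X (cr 0 2 1 4) ^ n 1 4 * X (cr 0 2 4 3) ^ n 3 4 := by
  have c1 := Lam_cr 0 3 1 2 (by decide)
  have c2 := Lam_cr 0 2 1 3 (by decide)
  have c3 := Lam_cr 0 4 1 2 (by decide)
  have c4 := Lam_cr 0 2 1 4 (by decide)
  have c5 := Lam_cr 0 2 4 3 (by decide)
  conv_lhs => rw [Lam_basis hn]
  rw [h.add _ _ (Lam_add (Lam_add (Lam_add (Lam_smul _ c1) (Lam_smul _ c2)) (Lam_smul _ c3))
      (Lam_smul _ c4)) (Lam_smul _ c5),
    h.add _ _ (Lam_add (Lam_add (Lam_smul _ c1) (Lam_smul _ c2)) (Lam_smul _ c3)) (Lam_smul _ c4),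
    h.add _ _ (Lam_add (Lam_smul _ c1) (Lam_smul _ c2)) (Lam_smul _ c3),
    h.add _ _ (Lam_smul _ c1) (Lam_smul _ c2), h.zsmul c1, h.zsmul c2, h.zsmul c3, h.zsmul c4,
    h.zsmul c5]

theorem IsMul.basisI (h : IsMul X) (i j k l m : Fin 5) (hd : Dist j k l m) (h1 : i ≠ j)
    (h2 : i ≠ k) (h3 : i ≠ l) (h4 : i ≠ m) {n : Fin 5 → Fin 5 → ℤ} (hn : LamI i n) :
    X n = X (cr j k l m) ^ n j k * X (cr j m l k) ^ n j m := by
  have c1 := Lam_cr j k l m hd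
  have c2 := Lam_cr j m l k (dist_rot hd)
  conv_lhs => rw [LamI_basis i j k l m hd h1 h2 h3 h4 hn]
  rw [h.add _ _ (Lam_smul _ c1) (Lam_smul _ c2), h.zsmul c1, h.zsmul c2]

end

section
variable {κ K : Type} [Field κ] [Field K] [Algebra κ K] {S : Surf κ K}

theorem Dat.isMul (d : Dat S) : IsMul d.a := ⟨d.a_ne, d.a_add⟩

theorem Out.isMul {d : Dat S} {X : (Fin 5 → Fin 5 → ℤ) → K} (h : Out d X) : IsMul X :=
  ⟨h.ne, h.add⟩

/-- relabelling of the data: the new `D i j` is the old `D (σ i) (σ j)` -/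
def Dat.perm (d : Dat S) (σ : Equiv.Perm (Fin 5)) : Dat S where
  D i j := d.D (σ i) (σ j)
  D_sub i j := d.D_sub _ _
  D_symm i j := d.D_symm _ _
  D_diag i := d.D_diag _
  D_disj i j k h := d.D_disj _ _ _ (fun h' => h (σ.injective h'))
  D_comm i j k l h := d.D_comm _ _ _ _ ⟨fun h' => h.1 (σ.injective h'),
    fun h' => h.2.1 (σ.injective h'), fun h' => h.2.2.1 (σ.injective h'),
    fun h' => h.2.2.2.1 (σ.injective h'), fun h' => h.2.2.2.2.1 (σ.injective h'),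
    fun h' => h.2.2.2.2.2 (σ.injective h')⟩
  w := d.w
  w_pos := d.w_pos
  a n := d.a (rel σ⁻¹ n)
  a_ne n hn := d.a_ne _ (Lam_rel _ hn)
  a_add m n hm hn := d.a_add _ _ (Lam_rel _ hm) (Lam_rel _ hn)
  ord_D n hn i j e he := by
    rw [d.ord_D _ (Lam_rel _ hn) _ _ e he]
    simp [rel]
  ord_0 n hn e he h := by
    apply d.ord_0 _ (Lam_rel _ hn) e he
    intro i j hij
    apply h (σ⁻¹ i) (σ⁻¹ j)
    simpa using hij
  amp k l hkl e he h := by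
    have h' : (∀ i j, e ∉ d.D i j) ∨ e ∈ d.D (σ k) (σ l) := by
      rcases h with h | h
      · left; intro i j hij
        apply h (σ⁻¹ i) (σ⁻¹ j)
        simpa using hij
      · right; exact h
    obtain ⟨i, j, h1, e', h2, h3⟩ := d.amp (σ k) (σ l) (fun h0 => hkl (σ.injective h0)) e he h'
    refine ⟨σ⁻¹ i, σ⁻¹ j, ?_, e', by simpa using h2, h3⟩
    intro h4
    apply h1
    rcases h4 with ⟨h5, h6⟩ | ⟨h5, h6⟩
    · left; rw [← h5, ← h6]; simp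
    · right; rw [← h5, ← h6]; simp

theorem Dat.perm_D (d : Dat S) (σ : Equiv.Perm (Fin 5)) (i j : Fin 5) :
    (d.perm σ).D i j = d.D (σ i) (σ j) := rfl

theorem Dat.perm_a (d : Dat S) (σ : Equiv.Perm (Fin 5)) (n : Fin 5 → Fin 5 → ℤ) :
    (d.perm σ).a n = d.a (rel σ⁻¹ n) := rfl

theorem Dat.perm_kf (d : Dat S) (σ : Equiv.Perm (Fin 5)) (i : Fin 5) :
    (d.perm σ).kf i = d.kf (σ i) := by
  unfold Dat.kf
  congr 1
  ext x
  constructor
  · rintro ⟨n, hn, rfl⟩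
    refine ⟨rel σ⁻¹ n, LamI_rel σ⁻¹ (by simpa using hn), rfl⟩
  · rintro ⟨n, hn, rfl⟩
    refine ⟨rel σ n, LamI_rel σ hn, ?_⟩
    rw [Dat.perm_a, rel_rel, mul_inv_cancel, rel_one]

theorem Dat.perm_LL (d : Dat S) (σ : Equiv.Perm (Fin 5)) : (d.perm σ).LL = d.LL := by
  unfold Dat.LL
  congr 1
  ext x
  constructor
  · rintro ⟨n, hn, rfl⟩
    exact ⟨rel σ⁻¹ n, Lam_rel _ hn, rfl⟩
  · rintro ⟨n, hn, rfl⟩
    refine ⟨rel σ n, Lam_rel _ hn, ?_⟩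
    rw [Dat.perm_a, rel_rel, mul_inv_cancel, rel_one]

end

end Pool.Agent.CPT
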