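import Pool.Agent.CPT.Stmts

/-!
Module NEM of squad CPT: all boundary divisors are nonempty.
-/

set_option autoImplicit false

namespace Pool.Agent.CPT

namespace NEM_

lemma chain : ∀ p q i j : Fin 5, p ≠ q → i ≠ j →
    (i = p ∧ j = q) ∨ (i = q ∧ j = p) ∨ Dist p q i j ∨ ∃ k l, Dist p q k l ∧ Dist k l i j := by
  decide

end NEM_

open NEM_ in
theorem nem_proof (hNTR : Stmt_NTR) : Stmt_NEM := by
  intro κ K _ _ _ _ S d ⟨e, he⟩ i j hij
  have h1 : ∃ p q, ∃ e, e ∈ d.D p q := by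
    by_cases h : ∀ i j, e ∉ d.D i j
    · obtain ⟨p, q, _, e', he', _⟩ := d.amp 0 1 (by decide) e he (Or.inl h)
      exact ⟨p, q, e', he'⟩
    · push Not at h
      obtain ⟨p, q, hpq⟩ := h
      exact ⟨p, q, e, hpq⟩
  obtain ⟨p, q, e, he⟩ := h1
  have hpq := d.ne_of_mem he
  have step : ∀ a b k l : Fin 5, Dist a b k l → (∃ e, e ∈ d.D a b) → ∃ e, e ∈ d.D k l := by
    rintro a b k l h ⟨e, he⟩
    obtain ⟨e', he', _⟩ := hNTR κ K S d a b k l h e he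
    exact ⟨e', he'⟩
  rcases chain p q i j hpq hij with ⟨h1, h2⟩ | ⟨h1, h2⟩ | h | ⟨k, l, h1, h2⟩
  · exact ⟨e, by rwa [h1, h2]⟩
  · exact ⟨e, by rwa [h1, h2, d.D_symm]⟩
  · exact step p q i j h ⟨e, he⟩
  · exact step k l i j h2 (step p q k l h1 ⟨e, he⟩)

end Pool.Agent.CPT
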