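import Pool.Agent.CPT.Stmts

set_option autoImplicit false

namespace Pool.Agent.CPT

namespace NFR_

theorem pick (x m n : Fin 5) (h1 : x ≠ m) (h2 : x ≠ n) (h3 : m ≠ n) :
    ∃ p q : Fin 5, Dist m p n q ∧ x ≠ p ∧ x ≠ q := by
  revert x m n
  decide

theorem cr_val (m p n q : Fin 5) (h : Dist m p n q) : cr m p n q m n = -1 := by
  revert m p n q
  decide

variable {κ K : Type} [Field κ] [Field K] [Algebra κ K]

/-- an `x`-vertical prime divisor outside all `D` meets only those `D m n` which involve `x` -/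
theorem only (hSPL : Stmt_SPL) (hVRD : Stmt_VRD) [IsAlgClosed κ] (S : Surf κ K) (d : Dat S)
    (x : Fin 5) (e : DV κ K) (he : e ∈ S.PP) (hx : d.Ver x e) (hD : ∀ k l, e ∉ d.D k l)
    (m n : Fin 5) (e' : DV κ K) (he' : e' ∈ d.D m n) (hm : S.meets e e') : x = m ∨ x = n := by
  by_contra hcon
  have h1 : x ≠ m := fun h => hcon (Or.inl h)
  have h2 : x ≠ n := fun h => hcon (Or.inr h)
  have h3 : m ≠ n := d.ne_of_mem he'
  obtain ⟨p, q, hdist, h4, h5⟩ := pick x m n h1 h2 h3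
  have hI : LamI x (cr m p n q) := LamI_cr x m p n q hdist h1 h4 h2 h5
  have hne := d.a_ne _ hI.1
  have hKI : d.KI x (d.a (cr m p n q)) := d.KI_of_mem (d.a_mem_kf hI)
  obtain ⟨V, hV, ht, ht'⟩ := hm
  have hver' : d.Ver x e' := hVRD κ K S d x m n h1 h2 e' he'
  have s1 := hSPL κ K S d x V hV e he ht hx _ hKI
  have s2 := hSPL κ K S d x V hV e' (d.D_sub m n he') ht' hver' _ hKI
  have o1 : e.O (d.a (cr m p n q)) := by
    right; rw [d.ord_0 _ hI.1 e he hD]
  have o2 : ¬ e'.O (d.a (cr m p n q)) := by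
    rw [DV.O_iff hne, d.ord_D _ hI.1 m n e' he', cr_val m p n q hdist]
    have := d.w_pos e'
    omega
  exact o2 (s2.mpr (s1.mp o1))

end NFR_

theorem nfr_proof (_hRON : Stmt_RON) (hSPL : Stmt_SPL) (hHRZ : Stmt_HRZ) (hVRD : Stmt_VRD)
    (_hNTR : Stmt_NTR) : Stmt_NFR := by
  intro κ K _ _ _ _ S d i j hij e he hi hj
  by_cases hD : ∃ k l, e ∈ d.D k l
  · obtain ⟨k, l, hkl⟩ := hD
    have hlk : e ∈ d.D l k := by rw [d.D_symm]; exact hkl
    refine ⟨k, l, ⟨hij, ?_, ?_, ?_, ?_, d.ne_of_mem hkl⟩, hkl⟩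
    · intro h; rw [← h] at hkl; exact hHRZ κ K S d i l e hkl hi
    · intro h; rw [← h] at hlk; exact hHRZ κ K S d i k e hlk hi
    · intro h; rw [← h] at hkl; exact hHRZ κ K S d j l e hkl hj
    · intro h; rw [← h] at hlk; exact hHRZ κ K S d j k e hlk hj
  · exfalso
    have hD' : ∀ k l, e ∉ d.D k l := fun k l h => hD ⟨k, l, h⟩
    obtain ⟨m, n, hmn, e', he', hmeet⟩ := d.amp i j hij e he (Or.inl hD')
    apply hmn
    have a1 := NFR_.only hSPL hVRD S d i e he hi hD' m n e' he' hmeet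
    have a2 := NFR_.only hSPL hVRD S d j e he hj hD' m n e' he' hmeet
    rcases a1 with a1 | a1 <;> rcases a2 with a2 | a2
    · exact absurd (a1.trans a2.symm) hij
    · exact Or.inl ⟨a1.symm, a2.symm⟩
    · exact Or.inr ⟨a2.symm, a1.symm⟩
    · exact absurd (a1.trans a2.symm) hij

end Pool.Agent.CPT
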