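import Pool.Agent.CPT.Stmts

set_option autoImplicit false

namespace Pool.Agent.CPT

namespace NTR_

theorem nonunits_sub {K : Type} [Field K] (V : ValuationSubring K) {x y : K}
    (hx : x ∈ V.nonunits) (hy : y ∈ V.nonunits) : x - y ∈ V.nonunits := by
  rw [ValuationSubring.mem_nonunits_iff] at *
  exact lt_of_le_of_lt (Valuation.map_sub _ _ _) (max_lt hx hy)

theorem neg_entry (i r s t : Fin 5) (p q : Fin 5) (h : cr s t r i p q < 0) :
    ((p = r ∧ q = s) ∨ (p = s ∧ q = r)) ∨ ((p = t ∧ q = i) ∨ (p = i ∧ q = t)) := by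
  by_contra hc
  simp only [cr, E, Pi.sub_apply, Pi.add_apply] at h
  have h1 : ¬ ((p = s ∧ q = r) ∨ (p = r ∧ q = s)) := fun h' => hc (Or.inl h'.symm)
  have h2 : ¬ ((p = t ∧ q = i) ∨ (p = i ∧ q = t)) := fun h' => hc (Or.inr h')
  rw [if_neg h1, if_neg h2] at h
  split_ifs at h <;> omega

theorem core {κ K : Type} [Field κ] [IsAlgClosed κ] [Field K] [Algebra κ K] {S : Surf κ K}
    (hRON : Stmt_RON) (d : Dat S) (i j r s t : Fin 5) (hd : Dist i r s t) (hij : i ≠ j)
    (hjr : j ≠ r) (hjs : j ≠ s) (hjt : j ≠ t)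
    (e : DV κ K) (he : e ∈ d.D i j) (e1 : DV κ K) (he1 : e1 ∈ d.D s t) (hm : S.meets e e1) :
    ∃ e' ∈ d.D r s, S.meets e e' := by
  by_contra hcon
  push Not at hcon
  obtain ⟨hir, his, hit, hrs, hrt, hst⟩ := hd
  have hn : Lam (cr s t r i) := Lam_cr s t r i ⟨hst, hrs.symm, his.symm, hrt.symm, hit.symm, hir.symm⟩
  have hreg : ∀ e' ∈ S.PP, S.meets e e' → e'.O (d.a (cr s t r i)) := by
    intro e' he' hme'
    by_cases h0 : ∀ p q, e' ∉ d.D p q
    · right; rw [d.ord_0 _ hn e' he' h0]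
    push Not at h0
    obtain ⟨p, q, hpq⟩ := h0
    right
    rw [d.ord_D _ hn p q e' hpq]
    by_contra hneg
    have hw := d.w_pos e'
    have h5 : cr s t r i p q < 0 := by
      by_contra h6
      apply hneg
      exact mul_nonneg (not_lt.mp h6) hw.le
    rcases neg_entry i r s t p q h5 with (⟨rfl, rfl⟩ | ⟨rfl, rfl⟩) | (⟨rfl, rfl⟩ | ⟨rfl, rfl⟩)
    · exact hcon e' hpq hme'
    · rw [d.D_symm] at hpq; exact hcon e' hpq hme'
    · rw [d.D_symm] at hpq
      exact d.D_disj q j p hjt e he e' hpq hme'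
    · exact d.D_disj p j q hjt e he e' hpq hme'
  obtain ⟨c, hc⟩ := hRON κ K S e (d.D_sub _ _ he) _ hreg
  obtain ⟨V, hV, ht, ht1⟩ := hm
  have hregV : S.reg V (d.a (cr s t r i)) := by
    intro e' he' hte'
    exact hreg e' he' ⟨V, hV, ht, hte'⟩
  have hv1 : e1.M (d.a (cr s t r i)) := by
    right
    rw [d.ord_D _ hn s t e1 he1]
    have h6 : cr s t r i s t = 1 := by
      simp only [cr, E, Pi.sub_apply, Pi.add_apply]
      simp [hst, hrs, his.symm, hit.symm, hrt.symm, hst.symm, hir.symm, hrs.symm, hrt, hir, his, hit]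
    rw [h6, one_mul]; exact d.w_pos e1
  have hnu := Surf.reg_nonunits hV hregV (d.D_sub _ _ he1) ht1 hv1
  have hnu2 := Surf.reg_nonunits hV (Surf.reg_sub hregV (Surf.reg_const c)) (d.D_sub _ _ he) ht hc
  have hcnu : algebraMap κ K c ∈ V.nonunits := by
    have := nonunits_sub V hnu hnu2
    rwa [sub_sub_cancel] at this
  have hc0 : c = 0 := by
    by_contra h
    exact KV.const_notMem_nonunits hV h hcnu
  rw [hc0, map_zero, sub_zero] at hc
  rcases hc with hc | hc
  · exact d.a_ne _ hn hc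
  · rw [d.ord_D _ hn i j e he] at hc
    have h6 : cr s t r i i j = 0 := by
      simp only [cr, E, Pi.sub_apply, Pi.add_apply]
      simp [hij, hjr, hjs, hjt, hst, hrs, his.symm, hit.symm, hrt.symm, hst.symm, hir.symm, hrs.symm, hrt,
        hir, his, hit]
    rw [h6, zero_mul] at hc
    exact lt_irrefl _ hc

theorem fifth (i j k l : Fin 5) (h : Dist i j k l) :
    ∃ m : Fin 5, i ≠ m ∧ j ≠ m ∧ k ≠ m ∧ l ≠ m ∧
      ∀ p : Fin 5, p = i ∨ p = j ∨ p = k ∨ p = l ∨ p = m := by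
  revert i j k l; decide

end NTR_

theorem ntr_proof (hRON : Stmt_RON) : Stmt_NTR := by
  intro κ K _ _ _ _ S d i j k l hd e he
  obtain ⟨m, him, hjm, hkm, hlm, hall⟩ := NTR_.fifth i j k l hd
  obtain ⟨hij, hik, hil, hjk, hjl, hkl⟩ := hd
  obtain ⟨p, q, hpq, e', he', hme'⟩ := d.amp i j hij e (d.D_sub _ _ he) (Or.inr he)
  have hpq' : p ≠ q := d.ne_of_mem he'
  have hpi : p ≠ i := by
    rintro rfl
    exact d.D_disj p j q (fun h => hpq (Or.inl ⟨rfl, h.symm⟩)) e he e' he' hme'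
  have hqi : q ≠ i := by
    rintro rfl
    exact d.D_disj q j p (fun h => hpq (Or.inr ⟨h.symm, rfl⟩)) e he e' (by rw [d.D_symm]; exact he') hme'
  have hpj : p ≠ j := by
    rintro rfl
    exact d.D_disj p i q (fun h => hpq (Or.inr ⟨rfl, h.symm⟩)) e (by rw [d.D_symm]; exact he) e' he' hme'
  have hqj : q ≠ j := by
    rintro rfl
    exact d.D_disj q i p (fun h => hpq (Or.inl ⟨h.symm, rfl⟩)) e (by rw [d.D_symm]; exact he) e'
      (by rw [d.D_symm]; exact he') hme'
  rcases hall p with rfl | rfl | rfl | rfl | rfl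
  · exact absurd rfl hpi
  · exact absurd rfl hpj
  · -- p = k
    rcases hall q with rfl | rfl | rfl | rfl | rfl
    · exact absurd rfl hqi
    · exact absurd rfl hqj
    · exact absurd rfl hpq'
    · exact ⟨e', he', hme'⟩
    · -- e' ∈ D k m, want D k l: r = l, s = k, t = m
      obtain ⟨e2, h2, h3⟩ := NTR_.core hRON d i j l p q ⟨hil, hik, him, hkl.symm, hlm, hkm⟩ hij hjl hjk hjm
        e he e' he' hme'
      exact ⟨e2, by rw [d.D_symm]; exact h2, h3⟩
  · -- p = l
    rcases hall q with rfl | rfl | rfl | rfl | rfl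
    · exact absurd rfl hqi
    · exact absurd rfl hqj
    · exact ⟨e', by rw [d.D_symm]; exact he', hme'⟩
    · exact absurd rfl hpq'
    · -- e' ∈ D l m : r = k, s = l, t = m
      exact NTR_.core hRON d i j k p q ⟨hik, hil, him, hkl, hkm, hlm⟩ hij hjk hjl hjm
        e he e' he' hme'
  · -- p = m
    rcases hall q with rfl | rfl | rfl | rfl | rfl
    · exact absurd rfl hqi
    · exact absurd rfl hqj
    · obtain ⟨e2, h2, h3⟩ := NTR_.core hRON d i j l q p ⟨hil, hik, him, hkl.symm, hlm, hkm⟩ hij hjl hjk hjm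
        e he e' (by rw [d.D_symm]; exact he') hme'
      exact ⟨e2, by rw [d.D_symm]; exact h2, h3⟩
    · exact NTR_.core hRON d i j k q p ⟨hik, hil, him, hkl, hkm, hlm⟩ hij hjk hjl hjm
        e he e' (by rw [d.D_symm]; exact he') hme'
    · exact absurd rfl hpq'

end Pool.Agent.CPT
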