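import Pool.Agent.CPT.Stmts

set_option autoImplicit false

/-!
# CPT, module PAR: pairs of places
-/

namespace Pool.Agent.CPT

namespace PAR_

variable {κ K : Type} [Field κ] [Field K] [Algebra κ K] {S : Surf κ K}

theorem cr_pos {j k l m p q : Fin 5} (h : 0 < cr j k l m p q) :
    ((p = j ∧ q = k) ∨ (p = k ∧ q = j)) ∨ ((p = l ∧ q = m) ∨ (p = m ∧ q = l)) := by
  by_contra hc
  rw [not_or] at hc
  have h1 : E j k p q = 0 := if_neg hc.1
  have h2 : E l m p q = 0 := if_neg hc.2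
  have h3 : 0 ≤ E j l p q := by unfold E; split_ifs <;> norm_num
  have h4 : 0 ≤ E k m p q := by unfold E; split_ifs <;> norm_num
  have h5 : cr j k l m p q = E j k p q + E l m p q - E j l p q - E k m p q := rfl
  rw [h5, h1, h2] at h
  linarith

theorem v_pos (d : Dat S) {j k l m : Fin 5} (hd : Dist j k l m) {e : DV κ K} (he : e ∈ S.PP)
    (h : 0 < e.v (d.a (cr j k l m))) : e ∈ d.D j k ∨ e ∈ d.D l m := by
  have hL := Lam_cr j k l m hd
  by_cases hD : ∀ p q, e ∉ d.D p q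
  · rw [d.ord_0 _ hL e he hD] at h
    exact absurd h (lt_irrefl _)
  · push Not at hD
    obtain ⟨p, q, hpq⟩ := hD
    rw [d.ord_D _ hL p q e hpq] at h
    have hw := d.w_pos e
    have hn : 0 < cr j k l m p q := by
      by_contra hc
      push Not at hc
      have : cr j k l m p q * d.w e ≤ 0 := mul_nonpos_of_nonpos_of_nonneg hc hw.le
      linarith
    rcases cr_pos hn with (⟨h1, h2⟩ | ⟨h1, h2⟩) | (⟨h1, h2⟩ | ⟨h1, h2⟩)
    · left; rw [← h1, ← h2]; exact hpq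
    · left; rw [d.D_symm, ← h1, ← h2]; exact hpq
    · right; rw [← h1, ← h2]; exact hpq
    · right; rw [d.D_symm, ← h1, ← h2]; exact hpq

theorem cr_val {j k l m : Fin 5} (hd : Dist j k l m) :
    cr j k l m j k = 1 ∧ cr j k l m l m = 1 := by
  revert j k l m
  decide

end PAR_

open PAR_ in
/-- PAR. -/
theorem par_proof (hNTR : Stmt_NTR) (hHRZ : Stmt_HRZ) (hHOR : Stmt_HOR) (hSPL : Stmt_SPL)
    (hVRD : Stmt_VRD) : Stmt_PAR := by
  intro κ K _ _ _ _ S d i j k l m hd n1 n2 n3 n4 e5 h5 e4 h4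
  obtain ⟨jk, jl, jm, kl, km, lm⟩ := hd
  -- (1)
  have step1 : ∃ e1 ∈ d.D j l, ∀ f : K, d.KI i f → (e1.O f ↔ e5.O f) := by
    rcases h5 with h5 | h5
    · exact ⟨e5, h5, fun f _ => Iff.rfl⟩
    · obtain ⟨e1, he1, V, hV, ht5, ht1⟩ :=
        hNTR κ K S d k m j l ⟨km, jk.symm, kl, jm.symm, lm.symm, jl⟩ e5 h5
      refine ⟨e1, he1, fun f hf => ?_⟩
      have a1 := hSPL κ K S d i V hV e1 (d.D_sub _ _ he1) ht1 (hVRD κ K S d i j l n1 n3 e1 he1) f hf
      have a2 := hSPL κ K S d i V hV e5 (d.D_sub _ _ h5) ht5 (hVRD κ K S d i k m n2 n4 e5 h5) f hf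
      rw [a1, a2]
  obtain ⟨e1, he1, hpl⟩ := step1
  -- (2)
  have hnv := hHRZ κ K S d j l e1 he1
  have htriv : ∀ f : K, IsAlgebraic (d.kf j) f → f ≠ 0 → e1.v f = 0 := by
    intro f hf hf0
    by_contra hv
    exact hnv ⟨f, hf, hf0, hv⟩
  obtain ⟨V, hV, hVO, hVV⟩ := hHOR κ K e1 (d.kf j) htriv e4.vs e4.kv_vs
  have ht1 : S.thr e1 V := S.ax3 V hV e1 (d.D_sub _ _ he1) hVO
  have hdist : Dist i l k m := ⟨n3, n2, n4, kl.symm, lm, km⟩
  have hLI : LamI j (cr i l k m) := LamI_cr j i l k m hdist n1.symm jl jk jm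
  have ha0 := d.a_ne _ hLI.1
  have hpos4 : 0 < e4.v (d.a (cr i l k m)) := by
    obtain ⟨c1, c2⟩ := cr_val hdist
    have hw := d.w_pos e4
    rcases h4 with h4 | h4
    · rw [d.ord_D _ hLI.1 i l e4 h4, c1, one_mul]
      exact hw
    · rw [d.ord_D _ hLI.1 k m e4 h4, c2, one_mul]
      exact hw
  have hnot : (d.a (cr i l k m))⁻¹ ∉ V := by
    intro hin
    have halg : IsAlgebraic (d.kf j) (d.a (cr i l k m))⁻¹ :=
      d.KI_of_mem ((d.kf j).inv_mem (d.a_mem_kf hLI))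
    have h6 := (hVV _ halg).1 hin
    rw [DV.mem_vs, DV.O_inv ha0] at h6
    omega
  have hex : ∃ e ∈ S.PP, S.thr e V ∧ ¬ e.O (d.a (cr i l k m))⁻¹ := by
    by_contra hc
    push Not at hc
    exact hnot (S.ax1 V hV _ hc)
  obtain ⟨e, he, ht, hnO⟩ := hex
  rw [DV.O_inv ha0] at hnO
  push Not at hnO
  have hekm : e ∈ d.D k m := by
    rcases v_pos d hdist he hnO with h7 | h7
    · exfalso
      rw [d.D_symm] at h7
      have he1' := he1
      rw [d.D_symm] at he1'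
      exact d.D_disj l i j n1 e h7 e1 he1' ⟨V, hV, ht, ht1⟩
    · exact h7
  refine ⟨e, hekm, fun f hf => ?_, fun f hf => ?_⟩
  · have a1 := hSPL κ K S d i V hV e he ht (hVRD κ K S d i k m n2 n4 e hekm) f hf
    have a2 := hSPL κ K S d i V hV e1 (d.D_sub _ _ he1) ht1 (hVRD κ K S d i j l n1 n3 e1 he1) f hf
    rw [a1, ← a2]
    exact hpl f hf
  · have a1 := hSPL κ K S d j V hV e he ht (hVRD κ K S d j k m jk jm e hekm) f hf
    rw [a1]
    exact hVV f hf

end Pool.Agent.CPT
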