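import Pool.Agent.CPT.Stmts

set_option autoImplicit false

namespace Pool.Agent.CPT

namespace PBK_

theorem others (i : Fin 5) : ∃ j k l m : Fin 5, Dist j k l m ∧ i ≠ j ∧ i ≠ k ∧ i ≠ l ∧ i ≠ m := by
  revert i; decide

theorem kf_eq {κ K : Type} [Field κ] [Field K] [Algebra κ K] {S : Surf κ K} (d : Dat S)
    (i j k l m : Fin 5) (hd : Dist j k l m) (h1 : i ≠ j) (h2 : i ≠ k) (h3 : i ≠ l) (h4 : i ≠ m) :
    d.kf i = IntermediateField.adjoin κ {d.a (cr j k l m), d.a (cr j m l k)} := by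
  apply le_antisymm
  · unfold Dat.kf
    rw [IntermediateField.adjoin_le_iff]
    rintro x ⟨n, hn, rfl⟩
    change d.a n ∈ IntermediateField.adjoin κ {d.a (cr j k l m), d.a (cr j m l k)}
    rw [d.isMul.basisI i j k l m hd h1 h2 h3 h4 hn]
    apply mul_mem
    · apply zpow_mem
      exact IntermediateField.subset_adjoin _ _ (by simp)
    · apply zpow_mem
      exact IntermediateField.subset_adjoin _ _ (by simp)
  · rw [IntermediateField.adjoin_le_iff]
    rintro x hx
    rcases hx with rfl | hx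
    · exact d.a_mem_kf (LamI_cr i j k l m hd h1 h2 h3 h4)
    · rw [Set.mem_singleton_iff] at hx
      rw [hx]
      exact d.a_mem_kf (LamI_cr i j m l k (dist_rot hd) h1 h4 h3 h2)

end PBK_

theorem pbk_proof (hAZR : Stmt_AZR) (hPBS : Stmt_PBS) : Stmt_PBK := by
  intro κ K _ _ _ _ _ S d i b hb hns f hf
  obtain ⟨j, k, l, m, hd, h1, h2, h3, h4⟩ := PBK_.others i
  rw [PBK_.kf_eq d i j k l m hd h1 h2 h3 h4] at hb hns hf ⊢
  exact hPBS κ K _ _ (hAZR κ K S d i j k l m hd h1 h2 h3 h4) b hb hns f hf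

end Pool.Agent.CPT
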