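import Pool.Agent.CPT.Stmts

set_option autoImplicit false

/-!
# CPT: module PBS (function fields in one variable over a perfect field of characteristic two)
-/

namespace Pool.Agent.CPT

namespace PBS_

/-- the field `L` as a module over itself through the Frobenius map -/
def Fr (L : Type) : Type := L

instance instG (L : Type) [Field L] : AddCommGroup (Fr L) := inferInstanceAs (AddCommGroup L)

instance instM (L : Type) [Field L] [CharP L 2] : Module L (Fr L) :=
  Module.compHom L (frobenius L 2)

lemma smul_def' {L : Type} [Field L] [CharP L 2] (c : L) (x : Fr L) :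
    c • x = (show Fr L from c ^ 2 * (show L from x)) := rfl

lemma main (E L : Type) [Field E] [Field L] [Algebra E L] [CharP L 2] [FiniteDimensional E L]
    (u : L) (hE : ∀ x : E, ∃ a b : E, algebraMap E L x =
      (algebraMap E L a) ^ 2 + (algebraMap E L b) ^ 2 * u)
    (b : L) (hb : ¬ ∃ c : L, c ^ 2 = b) (f : L) : ∃ α β : L, f = α ^ 2 + β ^ 2 * b := by
  classical
  let iM : Module E (Fr L) := Module.compHom (Fr L) (algebraMap E L)
  have hsE : ∀ (a : E) (x : Fr L), a • x = (algebraMap E L a) • x := fun _ _ => rfl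
  have : IsScalarTower E L (Fr L) := ⟨fun a c x => by
    rw [hsE, Algebra.smul_def, mul_smul]⟩
  let e := Module.finBasis E L
  set n := Module.finrank E L with hn
  have hn0 : 0 < n := Module.finrank_pos
  -- a spanning family
  let w : Fin n × Fin 2 → Fr L := fun p => if p.2 = 0 then (show Fr L from e p.1) else
    (show Fr L from u * e p.1)
  have hw : Submodule.span E (Set.range w) = ⊤ := by
    rw [eq_top_iff]
    intro x _
    have hx : (show L from x) = ∑ i, (e.repr (show L from x) i) • e i := (e.sum_repr _).symm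
    choose A B hAB using fun i => hE (e.repr (show L from x) i)
    have h1 : x = ∑ i, (A i • w (i, 0) + B i • w (i, 1)) := by
      have h2 : ∀ i, A i • w (i, 0) + B i • w (i, 1) =
          (show Fr L from (e.repr (show L from x) i) • e i) := by
        intro i
        rw [hsE, hsE, smul_def', smul_def']
        have h3 : ((algebraMap E L (A i)) ^ 2 * e i + (algebraMap E L (B i)) ^ 2 * (u * e i) : L) =
            (e.repr (show L from x) i) • e i := by
          rw [Algebra.smul_def, hAB i]
          ring
        exact h3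
      rw [Finset.sum_congr rfl fun i _ => h2 i]
      exact hx
    rw [h1]
    refine Submodule.sum_mem _ fun i _ => Submodule.add_mem _ ?_ ?_
    · exact Submodule.smul_mem _ _ (Submodule.subset_span ⟨_, rfl⟩)
    · exact Submodule.smul_mem _ _ (Submodule.subset_span ⟨_, rfl⟩)
  have : Module.Finite E (Fr L) := Module.finite_def.2 ⟨Finset.univ.image w, by
    rw [Finset.coe_image, Finset.coe_univ, Set.image_univ, hw]⟩
  have : Module.Finite L (Fr L) := Module.Finite.of_restrictScalars_finite E L (Fr L)
  have h2n : Module.finrank E (Fr L) ≤ 2 * n := by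
    have h := finrank_range_le_card (R := E) w
    rw [Set.finrank, hw, finrank_top] at h
    simpa [mul_comm] using h
  have hmul := Module.finrank_mul_finrank E L (Fr L)
  have h2 : Module.finrank L (Fr L) ≤ 2 := by
    by_contra h
    push Not at h
    have : n * 3 ≤ n * Module.finrank L (Fr L) := Nat.mul_le_mul_left _ h
    rw [hmul] at this
    omega
  -- `1, b` is independent
  let z : Fin 2 → Fr L := ![(show Fr L from (1 : L)), (show Fr L from b)]
  have hz : LinearIndependent L z := by
    rw [LinearIndependent.pair_iff]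
    intro s t hst
    rw [smul_def', smul_def'] at hst
    have h1 : s ^ 2 * 1 + t ^ 2 * b = 0 := hst
    have ht : t = 0 := by
      by_contra ht
      refine hb ⟨s / t, ?_⟩
      have h3 : s ^ 2 = t ^ 2 * b := by
        have h4 : s ^ 2 = -(t ^ 2 * b) := by linear_combination h1
        rw [h4, CharTwo.neg_eq]
      rw [div_pow, h3]
      field_simp
    refine ⟨?_, ht⟩
    rw [ht] at h1
    simpa using h1
  have hcard : Fintype.card (Fin 2) = Module.finrank L (Fr L) := by
    have := hz.fintype_card_le_finrank
    simp only [Fintype.card_fin] at this ⊢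
    omega
  have hsp := hz.span_eq_top_of_card_eq_finrank' hcard
  have hf : (show Fr L from f) ∈ Submodule.span L (Set.range z) := by
    rw [hsp]
    trivial
  rw [Submodule.mem_span_range_iff_exists_fun] at hf
  obtain ⟨c, hc⟩ := hf
  refine ⟨c 0, c 1, ?_⟩
  rw [Fin.sum_univ_two, smul_def', smul_def'] at hc
  have h5 : (c 0) ^ 2 * 1 + (c 1) ^ 2 * b = f := hc
  rw [← h5, mul_one]

end PBS_

open PBS_ in
theorem pbs_proof : Stmt_PBS := by
  intro κ K _ _ _ _ _ u v halg b hb hbs f hf
  have : CharP K 2 := charP_of_injective_algebraMap (algebraMap κ K).injective 2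
  set E := IntermediateField.adjoin κ {u} with hEd
  let L := IntermediateField.adjoin E {v}
  have hmem : ∀ x, x ∈ IntermediateField.adjoin κ {u, v} ↔ x ∈ L := by
    intro x
    have h1 := IntermediateField.adjoin_adjoin_left κ {u} ({v} : Set K)
    have h2 : ({u} ∪ {v} : Set K) = {u, v} := by
      exact Set.singleton_union
    rw [h2] at h1
    rw [← h1]
    exact IntermediateField.mem_restrictScalars (K := κ)
  have : FiniteDimensional E L := IntermediateField.adjoin.finiteDimensional halg.isIntegral
  have : CharP L 2 := charP_of_injective_algebraMap (algebraMap κ L).injective 2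
  have huE : u ∈ E := IntermediateField.subset_adjoin κ _ rfl
  have hsq : ∀ x ∈ E, ∃ a ∈ E, ∃ b ∈ E, x = a ^ 2 + b ^ 2 * u := by
    intro x hx
    induction hx using IntermediateField.adjoin_induction with
    | mem x hx =>
      rw [Set.mem_singleton_iff] at hx
      exact ⟨0, E.zero_mem, 1, E.one_mem, by rw [hx]; ring⟩
    | algebraMap c =>
      obtain ⟨d, hd⟩ := IsAlgClosed.exists_pow_nat_eq c (n := 2) (by norm_num)
      refine ⟨algebraMap κ K d, E.algebraMap_mem d, 0, E.zero_mem, ?_⟩
      rw [← map_pow, hd]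
      ring
    | add x y _ _ h1 h2 =>
      obtain ⟨a, ha, b, hb, h1⟩ := h1
      obtain ⟨c, hc, d, hd, h2⟩ := h2
      refine ⟨a + c, E.add_mem ha hc, b + d, E.add_mem hb hd, ?_⟩
      rw [h1, h2, CharTwo.add_sq, CharTwo.add_sq]
      ring
    | inv x hx h1 =>
      obtain ⟨a, ha, b, hb, h1⟩ := h1
      by_cases h0 : x = 0
      · exact ⟨0, E.zero_mem, 0, E.zero_mem, by rw [h0]; simp⟩
      · refine ⟨a / x, E.div_mem ha hx, b / x, E.div_mem hb hx, ?_⟩
        have h3 : (a / x) ^ 2 + (b / x) ^ 2 * u = (a ^ 2 + b ^ 2 * u) / x ^ 2 := by ring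
        rw [h3, ← h1]
        field_simp
    | mul x y _ _ h1 h2 =>
      obtain ⟨a, ha, b, hb, h1⟩ := h1
      obtain ⟨c, hc, d, hd, h2⟩ := h2
      refine ⟨a * c + b * d * u, E.add_mem (E.mul_mem ha hc) (E.mul_mem (E.mul_mem hb hd) huE),
        a * d + b * c, E.add_mem (E.mul_mem ha hd) (E.mul_mem hb hc), ?_⟩
      rw [h1, h2, CharTwo.add_sq, CharTwo.add_sq]
      ring
  have huL : u ∈ L := (hmem u).1 (IntermediateField.subset_adjoin κ _ (by simp))
  obtain ⟨α, β, h⟩ := main E L ⟨u, huL⟩ (fun x => by
      obtain ⟨a, ha, b, hb, h⟩ := hsq x x.2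
      refine ⟨⟨a, ha⟩, ⟨b, hb⟩, Subtype.ext ?_⟩
      exact h) ⟨b, (hmem b).1 hb⟩ (fun ⟨c, hc⟩ => hbs ⟨c, (hmem _).2 c.2, by
      have := congrArg Subtype.val hc
      exact this⟩) ⟨f, (hmem f).1 hf⟩
  refine ⟨α, (hmem _).2 α.2, β, (hmem _).2 β.2, ?_⟩
  have := congrArg Subtype.val h
  exact this

end Pool.Agent.CPT
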