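import Pool.Agent.CPT.Stmts

set_option autoImplicit false

/-!
# CPT, module RON: a function without poles on the curve `e` is constant on it
-/

namespace Pool.Agent.CPT

open Polynomial in
/-- RON. -/
theorem ron_proof (hCMP : Stmt_CMP) (hTRN : Stmt_TRN) : Stmt_RON := by
  intro κ K _ _ _ _ S e he f hf
  by_contra hc
  push Not at hc
  have hO : e.O f := hf e he (S.meets_self he)
  have hf0 : f ≠ 0 := by
    intro h
    apply hc 0
    rw [h, map_zero, sub_zero]
    exact e.M_zero
  have hT := hTRN κ K e f hO hc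
  have hvf : e.v f = 0 := by
    have := (hT X X_ne_zero).2
    rwa [aeval_X] at this
  set g := f⁻¹ with hg
  have hg0 : g ≠ 0 := inv_ne_zero hf0
  have hvg : e.v g = 0 := by rw [hg, e.v_inv hf0, hvf]; rfl
  have hgO : e.O g := Or.inr (by rw [hvg])
  have hgc : ∀ c : κ, ¬ e.M (g - algebraMap κ K c) := by
    intro c h
    by_cases c0 : c = 0
    · rw [c0, map_zero, sub_zero, DV.M_iff hg0, hvg] at h
      exact lt_irrefl _ h
    · have hcK : algebraMap κ K c ≠ 0 := fun h0 => c0 ((map_eq_zero (algebraMap κ K)).mp h0)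
      apply hc c⁻¹
      have e1 : f - algebraMap κ K c⁻¹ = -(algebraMap κ K c⁻¹ * f) * (g - algebraMap κ K c) := by
        rw [map_inv₀, hg]
        field_simp
        ring
      rw [e1]
      exact DV.M_mul' (DV.O_neg (DV.O_mul (e.O_const _) hO)) h
  have hTg := hTRN κ K e g hgO hgc
  let S₀ : Subring K := (Algebra.adjoin κ {g}).toSubring
  have memS : ∀ x, x ∈ S₀ ↔ ∃ P : κ[X], aeval g P = x := by
    intro x
    change x ∈ Algebra.adjoin κ {g} ↔ _
    rw [Algebra.adjoin_singleton_eq_range_aeval]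
    rfl
  have hgS : g ∈ S₀ := (memS g).2 ⟨X, aeval_X g⟩
  let I : Ideal S₀ := Ideal.span {⟨g, hgS⟩}
  have hI : I ≠ ⊤ := by
    intro h
    have h1 : (1 : S₀) ∈ I := by rw [h]; trivial
    rw [Ideal.mem_span_singleton'] at h1
    obtain ⟨a, ha⟩ := h1
    have ha' : (a : K) * g = 1 := congrArg Subtype.val ha
    obtain ⟨P, hP⟩ := (memS (a : K)).1 a.2
    have h2 : aeval g (P * X - 1) = 0 := by
      rw [map_sub, map_mul, aeval_X, hP, ha', map_one, sub_self]
    have h3 : P * X - 1 ≠ 0 := by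
      intro h4
      have := congrArg (fun Q : κ[X] => Q.coeff 0) h4
      simp at this
    exact (hTg _ h3).1 h2
  obtain ⟨V, hV, hSV, hIV, hVO, -⟩ := hCMP κ K e S₀
    (fun c => (memS _).2 ⟨C c, aeval_C g c⟩)
    (fun x hx hx0 => by
      obtain ⟨P, rfl⟩ := (memS x).1 hx
      have hP : P ≠ 0 := by
        intro h
        rw [h, map_zero] at hx0
        exact hx0 rfl
      exact (hTg P hP).2) I hI
  have hgV : g ∈ V.nonunits := hIV ⟨g, hgS⟩ (Ideal.subset_span rfl)
  have hfV : f ∉ V := by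
    have := KV.inv_notMem hgV hg0
    rwa [hg, inv_inv] at this
  have ht : S.thr e V := S.ax3 V hV e he hVO
  exact hfV (S.ax1 V hV f fun e' he' ht' => hf e' he' ⟨V, hV, ht, ht'⟩)

end Pool.Agent.CPT
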