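import Pool.Agent.CPT.Stmts

/-!
# SAM: prime divisors through the centre of `V` over one point
-/

set_option autoImplicit false

namespace Pool.Agent.CPT

namespace SAM_

open Polynomial

variable {κ K : Type} [Field κ] [Field K] [Algebra κ K]

/-- integral elements over subrings of a valuation subring -/
theorem mem_of_integral (W : ValuationSubring K) (A : Subalgebra κ K) (hA : ∀ x ∈ A, x ∈ W)
    (r : K) (hr : IsIntegral A r) : r ∈ W := by
  let incl : A →+* W :=
    (A.val : A →+* K).codRestrict W.toSubring (fun x => hA x x.2)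
  have h1 : ((algebraMap W K).comp incl).IsIntegralElem r := hr
  have h2 : IsIntegral W r := h1.of_comp
  obtain ⟨y, hy⟩ := (IsIntegrallyClosed.isIntegral_iff (R := W) (K := K)).mp h2
  rw [← hy]
  exact y.2

theorem aeval_sub_mem {e : DV κ K} {α : K} {c : κ} (h : e.M (α - algebraMap κ K c))
    (hα : e.O α) (g : κ[X]) : e.M (aeval α g - algebraMap κ K (g.eval c)) := by
  have h1 : (X - C c) ∣ g - C (g.eval c) := by
    rw [dvd_iff_isRoot, IsRoot.def, eval_sub, eval_C, sub_self]
  obtain ⟨q, hq⟩ := h1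
  have h2 : aeval α g - algebraMap κ K (g.eval c) = (α - algebraMap κ K c) * aeval α q := by
    have h3 := congrArg (aeval α) hq
    simpa using h3
  rw [h2]
  exact DV.M_mul h (DV.O_aeval hα q)

/-- a polynomial relation without common factor `T - c` -/
theorem exists_rel {α f : K} {c : κ} (hα : α ≠ algebraMap κ K c)
    (hf : IsAlgebraic (IntermediateField.adjoin κ {α}) f) :
    ∃ q : (κ[X])[X], q.eval₂ (aeval α : κ[X] →ₐ[κ] K).toRingHom f = 0 ∧
      ∃ n, (q.coeff n).eval c ≠ 0 := by
  open scoped IntermediateField.algebraAdjoinAdjoin in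
  have h1 : IsAlgebraic (Algebra.adjoin κ {α}) f :=
    (IsFractionRing.isAlgebraic_iff (Algebra.adjoin κ {α}) (IntermediateField.adjoin κ {α}) K).mpr hf
  obtain ⟨p, hp0, hp⟩ := h1
  -- lift to `κ[T][X]`
  have hmem : ∀ g : κ[X], aeval α g ∈ Algebra.adjoin κ {α} := by
    intro g
    rw [Algebra.adjoin_singleton_eq_range_aeval]
    exact ⟨g, rfl⟩
  let φ : κ[X] →+* Algebra.adjoin κ {α} :=
    ((aeval α : κ[X] →ₐ[κ] K).codRestrict (Algebra.adjoin κ {α}) hmem).toRingHom
  have hφ : Function.Surjective φ := by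
    rintro ⟨x, hx⟩
    have hx' := hx
    rw [Algebra.adjoin_singleton_eq_range_aeval] at hx'
    obtain ⟨g, hg⟩ := hx'
    exact ⟨g, Subtype.ext hg⟩
  obtain ⟨P, hP⟩ := Polynomial.map_surjective φ hφ p
  have hP0 : P ≠ 0 := by
    rintro rfl
    rw [Polynomial.map_zero] at hP
    exact hp0 hP.symm
  have hPe : P.eval₂ (aeval α : κ[X] →ₐ[κ] K).toRingHom f = 0 := by
    rw [← hP, aeval_def, eval₂_map] at hp
    exact hp
  have hnu : ¬IsUnit (C (X - C c) : (κ[X])[X]) := by
    rw [isUnit_C]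
    exact not_isUnit_X_sub_C c
  obtain ⟨q, hq, hq'⟩ := (FiniteMultiplicity.of_not_isUnit hnu hP0).exists_eq_pow_mul_and_not_dvd
  refine ⟨q, ?_, ?_⟩
  · rw [hq, eval₂_mul, eval₂_pow, eval₂_C] at hPe
    refine (mul_eq_zero.mp hPe).resolve_left (pow_ne_zero _ ?_)
    have : (aeval α : κ[X] →ₐ[κ] K).toRingHom (X - C c) = α - algebraMap κ K c := by simp
    rw [this]
    exact sub_ne_zero.mpr hα
  · by_contra hcon
    push Not at hcon
    apply hq'
    rw [C_dvd_iff_dvd_coeff]
    intro n
    rw [dvd_iff_isRoot]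
    exact hcon n

theorem mem_range_of_algebraic [IsAlgClosed κ] (f : K) (hf : IsAlgebraic κ f) :
    ∃ c : κ, algebraMap κ K c = f := by
  have h1 : Algebra.IsAlgebraic κ (IntermediateField.adjoin κ {f}) :=
    IntermediateField.isAlgebraic_adjoin_simple hf.isIntegral
  have h2 : Algebra.IsIntegral κ (IntermediateField.adjoin κ {f}) := inferInstance
  obtain ⟨c, hc⟩ := (IsAlgClosed.algebraMap_bijective_of_isIntegral
    (k := κ) (K := IntermediateField.adjoin κ {f})).2 (IntermediateField.AdjoinSimple.gen κ f)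
  refine ⟨c, ?_⟩
  have h3 := congrArg (algebraMap (IntermediateField.adjoin κ {f}) K) hc
  rw [IntermediateField.AdjoinSimple.algebraMap_gen] at h3
  exact h3

end SAM_

open SAM_ Polynomial in
theorem sam_proof (hKAP : Stmt_KAP) (hIVA : Stmt_IVA) : Stmt_SAM := by
  intro κ K _ _ _ _ S V hV α hα e he ht c hc f hf
  have hOα : e.O α := hα e he ht
  by_cases hf0 : f = 0
  · rw [hf0]
    exact ⟨fun _ => V.zero_mem, fun _ => e.O_zero⟩
  by_cases hαc : α = algebraMap κ K c
  · -- everything is constant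
    have h1 : Algebra.IsAlgebraic κ (IntermediateField.adjoin κ {α}) :=
      IntermediateField.isAlgebraic_adjoin_simple (by rw [hαc]; exact isIntegral_algebraMap)
    have h2 : IsAlgebraic κ f := hf.restrictScalars κ
    obtain ⟨c', rfl⟩ := mem_range_of_algebraic f h2
    exact ⟨fun _ => hV c', fun _ => e.O_const c'⟩
  obtain ⟨q, hq, n, hn⟩ := exists_rel hαc hf
  -- the ring `R`
  set A : Subalgebra κ K := Algebra.adjoin κ {α} with hA
  let R : Subring K := (integralClosure A K).toSubring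
  have hRmem : ∀ x : K, x ∈ R ↔ IsIntegral A x := fun x => Iff.rfl
  have hAmem : ∀ e' ∈ S.PP, S.thr e' V → ∀ x ∈ A, x ∈ e'.vs := by
    intro e' he' ht' x hx
    rw [hA, Algebra.adjoin_singleton_eq_range_aeval] at hx
    obtain ⟨g, rfl⟩ := hx
    exact DV.O_aeval (hα e' he' ht') g
  have hRreg : ∀ r ∈ R, S.reg V r := by
    intro r hr e' he' ht'
    exact mem_of_integral e'.vs A (hAmem e' he' ht') r hr
  have hRV : ∀ r ∈ R, r ∈ V := fun r hr => Surf.reg_mem hV (hRreg r hr)
  let ι : R →+* V := R.subtype.codRestrict V.toSubring (fun r => hRV r r.2)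
  let Q : Ideal R := (IsLocalRing.maximalIdeal V).comap ι
  have hQmem : ∀ r : R, r ∈ Q ↔ (r : K) ∈ V.nonunits := by
    intro r
    change ι r ∈ IsLocalRing.maximalIdeal V ↔ _
    rw [← ValuationSubring.coe_mem_nonunits_iff]
    rfl
  have hQprime : Q.IsPrime := Ideal.IsPrime.comap ι
  have hQe : ∀ r : R, r ∈ Q ↔ e.M (r : K) := by
    intro r
    rw [hQmem]
    constructor
    · intro h
      obtain ⟨-, c', hc'⟩ := hIVA κ K e α c hc r r.2
      have h1 : ((r : K) - algebraMap κ K c') ∈ V.nonunits :=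
        Surf.reg_nonunits hV (Surf.reg_sub (hRreg r r.2) (Surf.reg_const c')) he ht hc'
      have h2 : algebraMap κ K c' ∈ V.nonunits := by
        have h3 : algebraMap κ K c' = (r : K) - ((r : K) - algebraMap κ K c') := by ring
        rw [h3]
        exact sub_mem (S := NonUnitalSubring K) h h1
      by_cases hc0 : c' = 0
      · rwa [hc0, map_zero, sub_zero] at hc'
      · exact absurd h2 (KV.const_notMem_nonunits hV hc0)
    · intro h
      exact Surf.reg_nonunits hV (hRreg r r.2) he ht h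
  have hRint : ∀ x : K, IsIntegral R x → x ∈ R := by
    intro x hx
    have hx' : IsIntegral (integralClosure A K) x := hx
    exact isIntegral_trans (A := integralClosure A K) x hx'
  have hmemR : ∀ g : κ[X], (aeval α : κ[X] →ₐ[κ] K).toRingHom g ∈ R := by
    intro g
    have h1 : aeval α g ∈ A := by
      rw [hA, Algebra.adjoin_singleton_eq_range_aeval]
      exact ⟨g, rfl⟩
    exact isIntegral_algebraMap (R := A) (A := K) (x := ⟨_, h1⟩)
  let ψ : κ[X] →+* R := (aeval α : κ[X] →ₐ[κ] K).toRingHom.codRestrict R hmemR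
  have hq' : aeval f (q.map ψ) = 0 := by
    rw [aeval_def, eval₂_map]
    exact hq
  have hn' : (q.map ψ).coeff n ∉ Q := by
    rw [coeff_map, hQe]
    intro h
    have h1 := DV.M_sub h (aeval_sub_mem hc hOα (q.coeff n))
    have h2 : ((ψ (q.coeff n) : R) : K) - (aeval α (q.coeff n) -
        algebraMap κ K ((q.coeff n).eval c)) = algebraMap κ K ((q.coeff n).eval c) := by
      change aeval α (q.coeff n) - _ = _
      ring
    rw [h2] at h1
    exact e.not_M_const hn h1
  have hOr : ∀ r : R, e.O (r : K) := fun r => hRreg r r.2 e he ht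
  have hunit : ∀ s : R, s ∉ Q → (s : K) ≠ 0 ∧ e.v (s : K) = 0 ∧ (s : K)⁻¹ ∈ V := by
    intro s hs
    have h0 : (s : K) ≠ 0 := by
      intro h
      apply hs
      rw [hQe, h]
      exact e.M_zero
    refine ⟨h0, ?_, ?_⟩
    · have h1 := (DV.O_iff h0).mp (hOr s)
      have h2 := mt (DV.M_iff h0).mpr (mt (hQe s).mpr hs)
      omega
    · by_contra h
      exact hs ((hQmem s).mpr (V.mem_nonunits_iff_or.mpr (Or.inr h)))
  rcases hKAP K R Q hRint f hf0 (q.map ψ) hq' ⟨n, hn'⟩ with ⟨r, s, hs, h⟩ | ⟨r, s, hs, h⟩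
  · obtain ⟨hs0, hsv, hsV⟩ := hunit s hs
    have hfe : f = (r : K) * (s : K)⁻¹ := by
      rw [← h, mul_assoc, mul_inv_cancel₀ hs0, mul_one]
    have h1 : e.O f := by
      rw [hfe]
      exact DV.O_mul (hOr r) ((DV.O_inv hs0).mpr hsv.le)
    have h2 : f ∈ V := by
      rw [hfe]
      exact V.mul_mem _ _ (hRV r r.2) hsV
    exact ⟨fun _ => h2, fun _ => h1⟩
  · obtain ⟨hs0, hsv, hsV⟩ := hunit s hs
    have hfe : f⁻¹ = (r : K) * (s : K)⁻¹ := by
      rw [← h, mul_assoc, mul_inv_cancel₀ hs0, mul_one]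
    by_cases hr : r ∈ Q
    · have hMe : e.M f⁻¹ := by
        rw [hfe]
        exact DV.M_mul ((hQe r).mp hr) ((DV.O_inv hs0).mpr hsv.le)
      have h1 : ¬ e.O f := (DV.M_inv_iff hf0).mp hMe
      have h2 : f ∉ V := by
        intro hfV
        have h3 : (1 : K) ∈ V.nonunits := by
          have h4 : (1 : K) = (r : K) * ((s : K)⁻¹ * f) := by
            rw [← mul_assoc, ← hfe, inv_mul_cancel₀ hf0]
          rw [h4]
          obtain ⟨ha, hb⟩ := ValuationSubring.mem_nonunits_iff_exists_mem_maximalIdeal.mp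
            ((hQmem r).mp hr)
          refine ValuationSubring.mem_nonunits_iff_exists_mem_maximalIdeal.mpr
            ⟨V.mul_mem _ _ ha (V.mul_mem _ _ hsV hfV), ?_⟩
          exact Ideal.mul_mem_right (⟨(s : K)⁻¹ * f, V.mul_mem _ _ hsV hfV⟩ : V) _ hb
        have h5 := KV.inv_notMem h3 one_ne_zero
        rw [inv_one] at h5
        exact h5 V.one_mem
      exact ⟨fun h => absurd h h1, fun h => absurd h h2⟩
    · obtain ⟨hr0, hrv, hrV⟩ := hunit r hr
      have hff : f = (s : K) * (r : K)⁻¹ := by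
        rw [← inv_inv f, hfe, mul_inv, inv_inv, mul_comm]
      have h1 : e.O f := by
        rw [hff]
        exact DV.O_mul (hOr s) ((DV.O_inv hr0).mpr hrv.le)
      have h2 : f ∈ V := by
        rw [hff]
        exact V.mul_mem _ _ (hRV s s.2) hrV
      exact ⟨fun _ => h2, fun _ => h1⟩

end Pool.Agent.CPT
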