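import Pool.Agent.CPT.Stmts

set_option autoImplicit false

/-!
# CPT, module SLA: the algebraic solution when the independent pencils are `4` and `3`
-/

namespace Pool.Agent.CPT

namespace SLA_

section XX
variable {K : Type} [Field K]

/-- the solution -/
def XX (x y : K) (n : Fin 5 → Fin 5 → ℤ) : K :=
  x ^ n 0 3 * y ^ n 0 4 * (1 - x) ^ n 1 3 * (1 - y) ^ n 1 4 * (x - y) ^ n 3 4

variable {x y : K} (hx : x ≠ 0) (hy : y ≠ 0) (hx1 : 1 - x ≠ 0) (hy1 : 1 - y ≠ 0) (hxy : x - y ≠ 0)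

include hx hy hx1 hy1 hxy in
lemma XX_ne (n : Fin 5 → Fin 5 → ℤ) : XX x y n ≠ 0 := by
  unfold XX
  exact mul_ne_zero (mul_ne_zero (mul_ne_zero (mul_ne_zero (zpow_ne_zero _ hx) (zpow_ne_zero _ hy))
    (zpow_ne_zero _ hx1)) (zpow_ne_zero _ hy1)) (zpow_ne_zero _ hxy)

include hx hy hx1 hy1 hxy in
lemma XX_add (m n : Fin 5 → Fin 5 → ℤ) : XX x y (m + n) = XX x y m * XX x y n := by
  unfold XX
  simp only [Pi.add_apply]
  rw [zpow_add₀ hx, zpow_add₀ hy, zpow_add₀ hx1, zpow_add₀ hy1, zpow_add₀ hxy]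
  ring

include hx hy hx1 hy1 hxy in
lemma XX_sub (m n : Fin 5 → Fin 5 → ℤ) : XX x y (m - n) = XX x y m / XX x y n := by
  have h := XX_add hx hy hx1 hy1 hxy (m - n) n
  rw [sub_add_cancel] at h
  rw [h, mul_div_cancel_right₀ _ (XX_ne hx hy hx1 hy1 hxy n)]

lemma E_symm (a b : Fin 5) : E a b = E b a := by
  funext c e
  simp only [E]
  congr 1
  exact propext ⟨fun h => h.symm, fun h => h.symm⟩

/-- homogeneous coordinates of the five points -/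
def uu (x y : K) : Fin 5 → K := ![0, 1, 1, x, y]
def vv : Fin 5 → K := ![1, 1, 0, 1, 1]

lemma XX_E (h2 : (2 : K) = 0) (a b : Fin 5) (hab : a ≠ b) :
    XX x y (E a b) = uu x y a * vv b + uu x y b * vv a := by
  have n1 : ∀ t : K, 1 - t = 1 + t := fun t => by linear_combination (-t) * h2
  have n2 : ∀ t t' : K, t - t' = t + t' := fun t t' => by linear_combination (-t') * h2
  fin_cases a <;> fin_cases b <;>
    first
    | exact absurd rfl hab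
    | (simp [XX, E, uu, vv] <;> first
        | done
        | exact n1 _
        | exact n2 _ _
        | (rw [n1]; ring1)
        | (rw [n2]; ring1)
        | ring1)

include hx hy hx1 hy1 hxy in
lemma XX_plu (h2 : (2 : K) = 0) (i j k l : Fin 5) (h : Dist i j k l) :
    XX x y (cr i j k l) + XX x y (cr i l k j) = 1 := by
  obtain ⟨h1, h3, h4, h5, h6, h7⟩ := h
  have P : XX x y (E i j) * XX x y (E k l) + XX x y (E i l) * XX x y (E k j) =
      XX x y (E i k) * XX x y (E j l) := by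
    rw [XX_E h2 i j h1, XX_E h2 k l h7, XX_E h2 i l h4, XX_E h2 k j h5.symm, XX_E h2 i k h3,
      XX_E h2 j l h6]
    linear_combination (uu x y j * vv i * uu x y l * vv k + uu x y i * vv j * uu x y k * vv l) * h2
  have N1 := XX_ne hx hy hx1 hy1 hxy (E i k)
  have N2 := XX_ne hx hy hx1 hy1 hxy (E j l)
  have e1 : XX x y (cr i j k l) = XX x y (E i j) * XX x y (E k l) /
      (XX x y (E i k) * XX x y (E j l)) := by
    unfold cr
    rw [XX_sub hx hy hx1 hy1 hxy, XX_sub hx hy hx1 hy1 hxy, XX_add hx hy hx1 hy1 hxy, div_div]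
  have e2 : XX x y (cr i l k j) = XX x y (E i l) * XX x y (E k j) /
      (XX x y (E i k) * XX x y (E j l)) := by
    have e3 : E l j = E j l := E_symm l j
    unfold cr
    rw [XX_sub hx hy hx1 hy1 hxy, XX_sub hx hy hx1 hy1 hxy, XX_add hx hy hx1 hy1 hxy, div_div, e3]
  rw [e1, e2, ← add_div, P, div_self (mul_ne_zero N1 N2)]

end XX

section good
variable {κ K : Type} [Field κ] [Field K] [Algebra κ K] {S : Surf κ K} (d : Dat S)

/-- `X n = a n * g²` for the pencil `i`, from the two generators -/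
lemma good {X : (Fin 5 → Fin 5 → ℤ) → K} (hX : IsMul X) (i j k l m : Fin 5) (hd : Dist j k l m)
    (h1 : i ≠ j) (h2 : i ≠ k) (h3 : i ≠ l) (h4 : i ≠ m)
    (γ δ : K) (hγ : γ ∈ d.kf i) (hδ : δ ∈ d.kf i) (γ0 : γ ≠ 0) (δ0 : δ ≠ 0)
    (e1 : X (cr j k l m) = d.a (cr j k l m) * γ ^ 2)
    (e2 : X (cr j m l k) = d.a (cr j m l k) * δ ^ 2) (n : Fin 5 → Fin 5 → ℤ) (hn : LamI i n) :
    ∃ g ∈ d.kf i, g ≠ 0 ∧ X n = d.a n * g ^ 2 := by
  refine ⟨γ ^ n j k * δ ^ n j m, mul_mem (zpow_mem hγ _) (zpow_mem hδ _),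
    mul_ne_zero (zpow_ne_zero _ γ0) (zpow_ne_zero _ δ0), ?_⟩
  rw [hX.basisI i j k l m hd h1 h2 h3 h4 hn, d.isMul.basisI i j k l m hd h1 h2 h3 h4 hn, e1, e2,
    mul_zpow, mul_zpow]
  have f1 : ∀ (t : K) (r : ℤ), (t ^ 2) ^ r = (t ^ r) ^ 2 := by
    intro t r
    rw [← zpow_natCast, ← zpow_natCast, ← zpow_mul, ← zpow_mul, mul_comm]
  rw [f1, f1]
  ring

/-- the function of one pencil -/
lemma pencil [IsAlgClosed κ] [CharP κ 2] [CharP K 2] (hPBK : Stmt_PBK) (hWBA : Stmt_WBA)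
    (hNS : d.NS) (i j k l m : Fin 5) (hd : Dist j k l m)
    (h1 : i ≠ j) (h2 : i ≠ k) (h3 : i ≠ l) (h4 : i ≠ m) :
    ∃ X γ δ : K, X ∈ d.kf i ∧ γ ∈ d.kf i ∧ δ ∈ d.kf i ∧ γ ≠ 0 ∧ δ ≠ 0 ∧
      X = d.a (cr j k l m) * γ ^ 2 ∧ 1 - X = d.a (cr j m l k) * δ ^ 2 := by
  have c1 := Lam_cr j k l m hd
  have c2 := Lam_cr j m l k (dist_rot hd)
  have I1 := LamI_cr i j k l m hd h1 h2 h3 h4
  have I2 := LamI_cr i j m l k (dist_rot hd) h1 h4 h3 h2
  have hd3 : Dist j k m l := ⟨hd.1, hd.2.2.1, hd.2.1, hd.2.2.2.2.1, hd.2.2.2.1, hd.2.2.2.2.2.symm⟩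
  have n1 := hNS i j k l m hd h1 h2 h3 h4
  have n2 := hNS i j m l k (dist_rot hd) h1 h4 h3 h2
  have n3 := hNS i j k m l hd3 h1 h2 h4 h3
  have e3 : cr j k m l = cr j k l m - cr j m l k := by
    unfold cr
    rw [E_symm m l, E_symm m k, E_symm k l]
    abel
  have q : d.a (cr j k m l) = d.a (cr j k l m) / d.a (cr j m l k) := by
    rw [e3, d.a_sub c1 c2]
  exact hWBA K (d.kf i).toSubfield (d.a (cr j k l m)) (d.a (cr j m l k)) (d.a_mem_kf I1)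
    (d.a_mem_kf I2) (d.a_ne _ c1) (d.a_ne _ c2) n1 n2 (by rw [← q]; exact n3)
    (hPBK κ K S d i _ (d.a_mem_kf I1) n1)

end good

end SLA_

open SLA_

theorem sla_proof (hPBK : Stmt_PBK) (hWBA : Stmt_WBA) (hWBU : Stmt_WBU) (hWBC : Stmt_WBC) :
    Stmt_SLA := by
  intro κ K _ _ _ _ _ S d hNS hind
  have : CharP K 2 := charP_of_injective_algebraMap (algebraMap κ K).injective 2
  have h2 : (2 : K) = 0 := CharTwo.two_eq_zero
  -- the functions of the five pencils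
  obtain ⟨x, γ4, δ4, hx, hγ4, hδ4, γ40, δ40, ex, ex1⟩ :=
    pencil d hPBK hWBA hNS 4 0 3 1 2 (by decide) (by decide) (by decide) (by decide) (by decide)
  obtain ⟨y, γ3, δ3, hy, hγ3, hδ3, γ30, δ30, ey, ey1⟩ :=
    pencil d hPBK hWBA hNS 3 0 4 1 2 (by decide) (by decide) (by decide) (by decide) (by decide)
  obtain ⟨W, γ1, δ1, hW, hγ1, hδ1, γ10, δ10, eW, eW1⟩ :=
    pencil d hPBK hWBA hNS 1 0 3 4 2 (by decide) (by decide) (by decide) (by decide) (by decide)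
  obtain ⟨Z, γ0, δ0, hZ, hγ0, hδ0, γ00, δ00, eZ, eZ1⟩ :=
    pencil d hPBK hWBA hNS 0 1 3 4 2 (by decide) (by decide) (by decide) (by decide) (by decide)
  obtain ⟨T, γ2, δ2, hT, hγ2, hδ2, γ20, δ20, eT, eT1⟩ :=
    pencil d hPBK hWBA hNS 2 0 3 4 1 (by decide) (by decide) (by decide) (by decide) (by decide)
  -- the functions `a`
  have L1 : Lam (cr 0 3 1 2) := Lam_cr _ _ _ _ (by decide)
  have L2 : Lam (cr 0 2 1 3) := Lam_cr _ _ _ _ (by decide)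
  have L3 : Lam (cr 0 4 1 2) := Lam_cr _ _ _ _ (by decide)
  have L4 : Lam (cr 0 2 1 4) := Lam_cr _ _ _ _ (by decide)
  have L5 : Lam (cr 0 2 4 3) := Lam_cr _ _ _ _ (by decide)
  set b4 := d.a (cr 0 3 1 2) with hb4
  set b4' := d.a (cr 0 2 1 3) with hb4'
  set b3 := d.a (cr 0 4 1 2) with hb3
  set b3' := d.a (cr 0 2 1 4) with hb3'
  set b1 := d.a (cr 0 2 4 3) with hb1
  have b40 : b4 ≠ 0 := d.a_ne _ L1
  have b40' : b4' ≠ 0 := d.a_ne _ L2
  have b30 : b3 ≠ 0 := d.a_ne _ L3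
  have b30' : b3' ≠ 0 := d.a_ne _ L4
  have b10 : b1 ≠ 0 := d.a_ne _ L5
  have eqW : d.a (cr 0 3 4 2) = b4 / b3 := by
    rw [show cr 0 3 4 2 = cr 0 3 1 2 - cr 0 4 1 2 by decide, d.a_sub L1 L3]
  have eqZ : d.a (cr 1 3 4 2) = b4' / b3' := by
    rw [show cr 1 3 4 2 = cr 0 2 1 3 - cr 0 2 1 4 by decide, d.a_sub L2 L4]
  have eqZ1 : d.a (cr 1 2 4 3) = b1 * b3 / b3' := by
    rw [show cr 1 2 4 3 = cr 0 2 4 3 + cr 0 4 1 2 - cr 0 2 1 4 by decide,
      d.a_sub (Lam_add L5 L3) L4, d.a_add _ _ L5 L3]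
  have eqT : d.a (cr 0 3 4 1) = b4 * b3' / (b3 * b4') := by
    rw [show cr 0 3 4 1 = (cr 0 3 1 2 + cr 0 2 1 4) - (cr 0 4 1 2 + cr 0 2 1 3) by decide,
      d.a_sub (Lam_add L1 L4) (Lam_add L3 L2), d.a_add _ _ L1 L4, d.a_add _ _ L3 L2]
  have eqT1 : d.a (cr 0 1 4 3) = b1 / b4' := by
    rw [show cr 0 1 4 3 = cr 0 2 4 3 - cr 0 2 1 3 by decide, d.a_sub L5 L2]
  rw [eqW] at eW
  rw [eqZ] at eZ
  rw [eqZ1] at eZ1
  rw [eqT] at eT
  rw [eqT1] at eT1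
  -- non vanishing
  have x0 : x ≠ 0 := by rw [ex]; exact mul_ne_zero b40 (pow_ne_zero 2 γ40)
  have x10 : 1 - x ≠ 0 := by rw [ex1]; exact mul_ne_zero b40' (pow_ne_zero 2 δ40)
  have y0 : y ≠ 0 := by rw [ey]; exact mul_ne_zero b30 (pow_ne_zero 2 γ30)
  have y10 : 1 - y ≠ 0 := by rw [ey1]; exact mul_ne_zero b30' (pow_ne_zero 2 δ30)
  have le : ∀ (i : Fin 5) {z : K}, z ∈ d.kf i → z ∈ d.LL := fun i z h => d.kf_le_LL i h
  have ind : ∀ α ∈ d.LL, ∀ β ∈ d.LL, ∀ γ ∈ d.LL, ∀ δ ∈ d.LL,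
      α ^ 2 + β ^ 2 * x + γ ^ 2 * y + δ ^ 2 * (x * y) = 0 → α = 0 ∧ β = 0 ∧ γ = 0 ∧ δ = 0 := by
    intro α hα β hβ γ hγ δ hδ h
    have m4 := le 4 hγ4
    have m3 := le 3 hγ3
    have key := hind b4 (d.a_mem_kf (LamI_cr 4 0 3 1 2 (by decide) (by decide) (by decide)
      (by decide) (by decide))) (hNS 4 0 3 1 2 (by decide) (by decide) (by decide)
      (by decide) (by decide)) b3 (d.a_mem_kf (LamI_cr 3 0 4 1 2 (by decide) (by decide) (by decide)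
      (by decide) (by decide))) (hNS 3 0 4 1 2 (by decide) (by decide) (by decide)
      (by decide) (by decide)) α hα (β * γ4) (mul_mem hβ m4) (γ * γ3) (mul_mem hγ m3)
      (δ * (γ4 * γ3)) (mul_mem hδ (mul_mem m4 m3)) (by
        rw [ex, ey] at h
        linear_combination h)
    refine ⟨key.1, ?_, ?_, ?_⟩
    · exact (mul_eq_zero.1 key.2.1).resolve_right γ40
    · exact (mul_eq_zero.1 key.2.2.1).resolve_right γ30
    · exact (mul_eq_zero.1 key.2.2.2).resolve_right (mul_ne_zero γ40 γ30)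
  have hbm : ∀ n, Lam n → d.a n ∈ d.LL := fun n hn => d.a_mem_LL hn
  obtain ⟨rW, rZ, η, hη, η0, eη⟩ := hWBC K d.LL.toSubfield x y W Z (b1 * b3) (le 4 hx) (le 3 hy)
    (le 1 hW) (le 0 hZ) (mul_mem (hbm _ L5) (hbm _ L3)) (mul_ne_zero b10 b30) x0 y0 ind
    ⟨γ3 * γ1 / γ4, div_mem (mul_mem (le 3 hγ3) (le 1 hγ1)) (le 4 hγ4),
      div_ne_zero (mul_ne_zero γ30 γ10) γ40, by
        rw [eW, ex, ey]; field_simp⟩
    ⟨γ3 * δ1, mul_mem (le 3 hγ3) (le 1 hδ1), mul_ne_zero γ30 δ10, by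
        rw [eW1, ey]; field_simp⟩
    ⟨δ3 * γ0 / δ4, div_mem (mul_mem (le 3 hδ3) (le 0 hγ0)) (le 4 hδ4),
      div_ne_zero (mul_ne_zero δ30 γ00) δ40, by
        rw [eZ, ex1, ey1]; field_simp⟩
    ⟨δ3 * δ0, mul_mem (le 3 hδ3) (le 0 hδ0), mul_ne_zero δ30 δ00, by
        rw [eZ1, ey1]; field_simp⟩
  have xy0 : x - y ≠ 0 := by
    rw [eη]; exact mul_ne_zero (mul_ne_zero b10 b30) (pow_ne_zero 2 η0)
  -- the pencil `2`
  set T' := x * (1 - y) / (y * (1 - x)) with hT'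
  have T'm : T' ∈ d.LL := div_mem (mul_mem (le 4 hx) (sub_mem (one_mem _) (le 3 hy)))
    (mul_mem (le 3 hy) (sub_mem (one_mem _) (le 4 hx)))
  have T'1 : 1 - T' = (x - y) / (y * (1 - x)) := by
    rw [hT']
    field_simp
    linear_combination (y - x) * h2
  have TT : T = T' := by
    refine hWBU K d.LL.toSubfield T' T (γ2 * (γ3 * δ4) / (γ4 * δ3))
      (δ2 * (γ3 * δ4) / η) T'm (le 2 hT)
      (div_mem (mul_mem (le 2 hγ2) (mul_mem (le 3 hγ3) (le 4 hδ4)))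
        (mul_mem (le 4 hγ4) (le 3 hδ3)))
      (div_mem (mul_mem (le 2 hδ2) (mul_mem (le 3 hγ3) (le 4 hδ4))) hη) ?_ ?_ ?_
    · rintro ⟨c, hc, e⟩
      have hc' : c ∈ d.LL := hc
      rw [hT', eq_div_iff (mul_ne_zero y0 x10)] at e
      have := (ind 0 (zero_mem _) 1 (one_mem _) c hc' (1 + c) (add_mem (one_mem _) hc')
        (by linear_combination e + (x + c ^ 2 * x * y + c * x * y) * h2)).2.1
      exact one_ne_zero this
    · rw [eT, hT', ex1, ey1, ex, ey]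
      field_simp
    · rw [eT1, T'1, eη, ex1, ey]
      field_simp
  -- the solution
  have hX : IsMul (XX x y) :=
    ⟨fun n _ => XX_ne x0 y0 x10 y10 xy0 n, fun m n _ _ => XX_add x0 y0 x10 y10 xy0 m n⟩
  have g4 := good d hX 4 0 3 1 2 (by decide) (by decide) (by decide) (by decide) (by decide)
    γ4 δ4 hγ4 hδ4 γ40 δ40 (by rw [← hb4, ← ex]; simp [XX, cr, E])
    (by rw [← hb4', ← ex1]; simp [XX, cr, E])
  have g3 := good d hX 3 0 4 1 2 (by decide) (by decide) (by decide) (by decide) (by decide)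
    γ3 δ3 hγ3 hδ3 γ30 δ30 (by rw [← hb3, ← ey]; simp [XX, cr, E])
    (by rw [← hb3', ← ey1]; simp [XX, cr, E])
  have g1 := good d hX 1 0 3 4 2 (by decide) (by decide) (by decide) (by decide) (by decide)
    γ1 δ1 hγ1 hδ1 γ10 δ10 (by rw [eqW, ← eW, rW]; simp [XX, cr, E, div_eq_mul_inv])
    (by
      rw [← hb1, ← eW1, rW]
      simp [XX, cr, E]
      field_simp
      linear_combination (x - y) * h2)
  have g0 := good d hX 0 1 3 4 2 (by decide) (by decide) (by decide) (by decide) (by decide)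
    γ0 δ0 hγ0 hδ0 γ00 δ00 (by rw [eqZ, ← eZ, rZ]; simp [XX, cr, E, div_eq_mul_inv])
    (by
      rw [eqZ1, ← eZ1, rZ]
      simp [XX, cr, E]
      field_simp
      ring)
  have g2 := good d hX 2 0 3 4 1 (by decide) (by decide) (by decide) (by decide) (by decide)
    γ2 δ2 hγ2 hδ2 γ20 δ20 (by
      rw [eqT, ← eT, TT, hT']
      simp [XX, cr, E]
      field_simp)
    (by
      rw [eqT1, ← eT1, TT, T'1]
      simp [XX, cr, E]
      field_simp)
  have gd : ∀ (i : Fin 5) (n : Fin 5 → Fin 5 → ℤ), LamI i n →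
      ∃ g ∈ d.kf i, g ≠ 0 ∧ XX x y n = d.a n * g ^ 2 := by
    intro i
    fin_cases i
    · exact g0
    · exact g1
    · exact g2
    · exact g3
    · exact g4
  refine ⟨XX x y, ⟨⟨hX.ne, hX.add, fun i j k l h => XX_plu x0 y0 x10 y10 xy0 h2 i j k l h⟩,
    ?_, ?_⟩⟩
  · intro i n hn
    obtain ⟨g, hg, -, e⟩ := gd i n hn
    rw [e]
    exact mul_mem (d.a_mem_kf hn) (pow_mem hg 2)
  · intro i j k l h c e
    obtain ⟨m, hm⟩ : ∃ m : Fin 5, m ≠ i ∧ m ≠ j ∧ m ≠ k ∧ m ≠ l := by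
      revert h
      clear e
      revert i j k l
      decide
    obtain ⟨g, hg, g0', e'⟩ := gd m _ (LamI_cr m i j k l h hm.1 hm.2.1 hm.2.2.1 hm.2.2.2)
    obtain ⟨r, hr⟩ := IsAlgClosed.exists_pow_nat_eq c (n := 2) (by norm_num)
    refine hNS m i j k l h hm.1 hm.2.1 hm.2.2.1 hm.2.2.2 ⟨algebraMap κ K r / g,
      div_mem ((d.kf m).algebraMap_mem r) hg, ?_⟩
    rw [div_pow, ← map_pow, hr, ← e, e', mul_div_cancel_right₀ _ (pow_ne_zero 2 g0')]

end Pool.Agent.CPT
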