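import Pool.Agent.CPT.Stmts

set_option autoImplicit false

/-!
# CPT, module SLP: the algebraic solution in general (relabelling)
-/

namespace Pool.Agent.CPT

namespace SLP_

theorem exists_rest : ∀ i j : Fin 5, i ≠ j → ∃ a b c : Fin 5,
    Dist a b c j ∧ i ≠ a ∧ i ≠ b ∧ i ≠ c := by
  decide

theorem dist_map (σ : Equiv.Perm (Fin 5)) {i j k l : Fin 5} (h : Dist i j k l) :
    Dist (σ i) (σ j) (σ k) (σ l) :=
  ⟨fun h' => h.1 (σ.injective h'), fun h' => h.2.1 (σ.injective h'),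
    fun h' => h.2.2.1 (σ.injective h'), fun h' => h.2.2.2.1 (σ.injective h'),
    fun h' => h.2.2.2.2.1 (σ.injective h'), fun h' => h.2.2.2.2.2 (σ.injective h')⟩

theorem rel_cr_inv (σ : Equiv.Perm (Fin 5)) (a b c e : Fin 5) :
    rel σ⁻¹ (cr a b c e) = cr (σ a) (σ b) (σ c) (σ e) := by
  have h9 := rel_cr σ⁻¹ (σ a) (σ b) (σ c) (σ e)
  simpa using h9

theorem rel_cr_fwd (σ : Equiv.Perm (Fin 5)) (a b c e : Fin 5) :
    rel σ (cr a b c e) = cr (σ⁻¹ a) (σ⁻¹ b) (σ⁻¹ c) (σ⁻¹ e) := by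
  have h9 := rel_cr_inv σ⁻¹ a b c e
  simpa using h9

end SLP_

open SLP_ in
/-- SLP. -/
theorem slp_proof (hIND : Stmt_IND) (hSLA : Stmt_SLA) : Stmt_SLP := by
  intro κ K _ _ _ _ _ S d hne hNS
  obtain ⟨i, j, hij, hind⟩ := hIND κ K S d hne hNS
  obtain ⟨a, b, c, hd, h1, h2, h3⟩ := exists_rest i j hij
  obtain ⟨σ, -, -, -, s3, s4⟩ := exists_perm i a b c j hd h1 h2 h3 hij
  have hNS' : (d.perm σ).NS := by
    intro i' j' k' l' m' hD n1 n2 n3 n4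
    rw [Dat.perm_kf, Dat.perm_a, rel_cr_inv]
    exact hNS (σ i') (σ j') (σ k') (σ l') (σ m') (dist_map σ hD)
      (fun h => n1 (σ.injective h)) (fun h => n2 (σ.injective h))
      (fun h => n3 (σ.injective h)) (fun h => n4 (σ.injective h))
  have hind' : ∀ b ∈ (d.perm σ).kf 4, (¬ ∃ c ∈ (d.perm σ).kf 4, c ^ 2 = b) →
      ∀ b' ∈ (d.perm σ).kf 3, (¬ ∃ c ∈ (d.perm σ).kf 3, c ^ 2 = b') →
      ∀ α ∈ (d.perm σ).LL, ∀ β ∈ (d.perm σ).LL, ∀ γ ∈ (d.perm σ).LL, ∀ δ ∈ (d.perm σ).LL,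
        α ^ 2 + β ^ 2 * b + γ ^ 2 * b' + δ ^ 2 * (b * b') = 0 →
        α = 0 ∧ β = 0 ∧ γ = 0 ∧ δ = 0 := by
    rw [Dat.perm_kf, Dat.perm_kf, Dat.perm_LL, s3, s4]
    exact hind
  obtain ⟨X', hX'⟩ := hSLA κ K S (d.perm σ) hNS' hind'
  refine ⟨fun n => X' (rel σ n), ⟨⟨?_, ?_, ?_⟩, ?_, ?_⟩⟩
  · intro n hn
    exact hX'.ne _ (Lam_rel σ hn)
  · intro m n hm hn
    change X' (rel σ (m + n)) = X' (rel σ m) * X' (rel σ n)
    rw [rel_add]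
    exact hX'.add _ _ (Lam_rel σ hm) (Lam_rel σ hn)
  · intro i j k l hD
    change X' (rel σ (cr i j k l)) + X' (rel σ (cr i l k j)) = 1
    rw [rel_cr_fwd, rel_cr_fwd]
    exact hX'.plu _ _ _ _ (dist_map σ⁻¹ hD)
  · intro i n hn
    change X' (rel σ n) ∈ d.kf i
    have h := hX'.mem (σ⁻¹ i) (rel σ n) (LamI_rel σ (by simpa using hn))
    rw [Dat.perm_kf] at h
    simpa using h
  · intro i j k l hD c
    change X' (rel σ (cr i j k l)) ≠ algebraMap κ K c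
    rw [rel_cr_fwd]
    exact hX'.ncon _ _ _ _ (dist_map σ⁻¹ hD) c

end Pool.Agent.CPT
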