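import Pool.Agent.CPT.Stmts

set_option autoImplicit false

/-!
# CPT, module SPL: vertical prime divisors through the centre of `V` lie over one place
-/

namespace Pool.Agent.CPT

namespace SPL_

variable {κ K : Type} [Field κ] [Field K] [Algebra κ K] {S : Surf κ K}

theorem cr_neg {j k l m p q : Fin 5} (h : cr j k l m p q < 0) :
    ((p = j ∧ q = l) ∨ (p = l ∧ q = j)) ∨ ((p = k ∧ q = m) ∨ (p = m ∧ q = k)) := by
  by_contra hc
  rw [not_or] at hc
  have h1 : E j l p q = 0 := if_neg hc.1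
  have h2 : E k m p q = 0 := if_neg hc.2
  have h3 : 0 ≤ E j k p q := by unfold E; split_ifs <;> norm_num
  have h4 : 0 ≤ E l m p q := by unfold E; split_ifs <;> norm_num
  have h5 : cr j k l m p q = E j k p q + E l m p q - E j l p q - E k m p q := rfl
  rw [h5, h1, h2] at h
  linarith

theorem cr_pos {j k l m p q : Fin 5} (h : 0 < cr j k l m p q) :
    ((p = j ∧ q = k) ∨ (p = k ∧ q = j)) ∨ ((p = l ∧ q = m) ∨ (p = m ∧ q = l)) := by
  by_contra hc
  rw [not_or] at hc
  have h1 : E j k p q = 0 := if_neg hc.1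
  have h2 : E l m p q = 0 := if_neg hc.2
  have h3 : 0 ≤ E j l p q := by unfold E; split_ifs <;> norm_num
  have h4 : 0 ≤ E k m p q := by unfold E; split_ifs <;> norm_num
  have h5 : cr j k l m p q = E j k p q + E l m p q - E j l p q - E k m p q := rfl
  rw [h5, h1, h2] at h
  linarith

theorem v_neg (d : Dat S) {j k l m : Fin 5} (hd : Dist j k l m) {e : DV κ K} (he : e ∈ S.PP)
    (h : e.v (d.a (cr j k l m)) < 0) : e ∈ d.D j l ∨ e ∈ d.D k m := by
  have hL := Lam_cr j k l m hd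
  by_cases hD : ∀ p q, e ∉ d.D p q
  · rw [d.ord_0 _ hL e he hD] at h
    exact absurd h (lt_irrefl _)
  · push Not at hD
    obtain ⟨p, q, hpq⟩ := hD
    rw [d.ord_D _ hL p q e hpq] at h
    have hw := d.w_pos e
    have hn : cr j k l m p q < 0 := by
      by_contra hc
      push Not at hc
      have : 0 ≤ cr j k l m p q * d.w e := mul_nonneg hc hw.le
      linarith
    rcases cr_neg hn with (⟨h1, h2⟩ | ⟨h1, h2⟩) | (⟨h1, h2⟩ | ⟨h1, h2⟩)
    · left; rw [← h1, ← h2]; exact hpq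
    · left; rw [d.D_symm, ← h1, ← h2]; exact hpq
    · right; rw [← h1, ← h2]; exact hpq
    · right; rw [d.D_symm, ← h1, ← h2]; exact hpq

theorem v_pos (d : Dat S) {j k l m : Fin 5} (hd : Dist j k l m) {e : DV κ K} (he : e ∈ S.PP)
    (h : 0 < e.v (d.a (cr j k l m))) : e ∈ d.D j k ∨ e ∈ d.D l m := by
  have hL := Lam_cr j k l m hd
  by_cases hD : ∀ p q, e ∉ d.D p q
  · rw [d.ord_0 _ hL e he hD] at h
    exact absurd h (lt_irrefl _)
  · push Not at hD
    obtain ⟨p, q, hpq⟩ := hD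
    rw [d.ord_D _ hL p q e hpq] at h
    have hw := d.w_pos e
    have hn : 0 < cr j k l m p q := by
      by_contra hc
      push Not at hc
      have : cr j k l m p q * d.w e ≤ 0 := mul_nonpos_of_nonpos_of_nonneg hc hw.le
      linarith
    rcases cr_pos hn with (⟨h1, h2⟩ | ⟨h1, h2⟩) | (⟨h1, h2⟩ | ⟨h1, h2⟩)
    · left; rw [← h1, ← h2]; exact hpq
    · left; rw [d.D_symm, ← h1, ← h2]; exact hpq
    · right; rw [← h1, ← h2]; exact hpq
    · right; rw [d.D_symm, ← h1, ← h2]; exact hpq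

/-- two boundary divisors with a common index do not pass through the same centre -/
theorem no_common (d : Dat S) {i j k : Fin 5} (hjk : j ≠ k) {V : ValuationSubring K}
    (hV : KV κ V) {e e' : DV κ K} (he : e ∈ d.D i j) (he' : e' ∈ d.D i k) (ht : S.thr e V)
    (ht' : S.thr e' V) : False :=
  d.D_disj i j k hjk e he e' he' ⟨V, hV, ht, ht'⟩

theorem exists_rest : ∀ i : Fin 5, ∃ j k l m : Fin 5,
    Dist j k l m ∧ i ≠ j ∧ i ≠ k ∧ i ≠ l ∧ i ≠ m := by
  decide

/-- the cross ratio function or its inverse is regular -/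
theorem reg_or (d : Dat S) {j k l m : Fin 5} (hd : Dist j k l m) {V : ValuationSubring K}
    (hV : KV κ V) : S.reg V (d.a (cr j k l m)) ∨ S.reg V (d.a (cr j k l m))⁻¹ := by
  have hL := Lam_cr j k l m hd
  have h0 := d.a_ne _ hL
  by_contra hc
  rw [not_or] at hc
  obtain ⟨h1, h2⟩ := hc
  unfold Surf.reg at h1 h2
  push Not at h1 h2
  obtain ⟨e, he, ht, h3⟩ := h1
  obtain ⟨e', he', ht', h4⟩ := h2
  rw [DV.O_iff h0] at h3
  rw [DV.O_inv h0] at h4
  push Not at h3 h4
  obtain ⟨d1, d2, d3, d4, d5, d6⟩ := hd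
  have hd : Dist j k l m := ⟨d1, d2, d3, d4, d5, d6⟩
  rcases v_neg d hd he h3 with h5 | h5 <;> rcases v_pos d hd he' h4 with h6 | h6
  · exact no_common d d4 hV h6 h5 ht' ht
  · rw [d.D_symm] at h5
    exact no_common d d3.symm hV h6 h5 ht' ht
  · rw [d.D_symm] at h6
    exact no_common d d3 hV h6 h5 ht' ht
  · rw [d.D_symm] at h5 h6
    exact no_common d d4.symm hV h6 h5 ht' ht

end SPL_

open SPL_ in
/-- SPL. -/
theorem spl_proof (hSAM : Stmt_SAM) (hVRT : Stmt_VRT) (hAZC : Stmt_AZC) : Stmt_SPL := by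
  intro κ K _ _ _ _ S d i V hV e he ht hver f hf
  obtain ⟨j, k, l, m, hd, n1, n2, n3, n4⟩ := exists_rest i
  obtain ⟨f0, hf0, hf00, hf0v⟩ := hver
  have haz := hAZC κ K S d i j k l m hd n1 n2 n3 n4
  rcases reg_or d hd hV with hr | hr
  · have hO := hr e he ht
    obtain ⟨c, hc⟩ := hVRT κ K e _ hO f0 (haz f0 hf0).1 hf00 hf0v
    exact hSAM κ K S V hV _ hr e he ht c hc f (haz f hf).1
  · have hO := hr e he ht
    obtain ⟨c, hc⟩ := hVRT κ K e _ hO f0 (haz f0 hf0).2 hf00 hf0v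
    exact hSAM κ K S V hV _ hr e he ht c hc f (haz f hf).2

end Pool.Agent.CPT
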