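import Pool.Agent.CPT.Stmts

set_option autoImplicit false

/-!
# CPT, module SUP: the support of `X` of a cross ratio
-/

namespace Pool.Agent.CPT

namespace SUP_

variable {κ K : Type} [Field κ] [Field K] [Algebra κ K] {S : Surf κ K}

theorem exists_fifth : ∀ i j k l : Fin 5, Dist i j k l →
    ∃ m : Fin 5, m ≠ i ∧ m ≠ j ∧ m ≠ k ∧ m ≠ l := by
  decide

theorem E_symm (i j : Fin 5) : E i j = E j i := by
  funext a b
  unfold E
  congr 1
  rw [Or.comm]

theorem rel1 (i j k l m : Fin 5) : cr i j k l = cr i m k l + cr i j m l := by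
  unfold cr
  rw [E_symm m l]
  abel

theorem rel2 (i j k l m : Fin 5) : cr i j k l = cr m j k l + cr i j k m := by
  unfold cr
  rw [E_symm m k, E_symm m j]
  abel

theorem all_five {m a b c e p : Fin 5} (hma : m ≠ a) (hmb : m ≠ b) (hmc : m ≠ c) (hme : m ≠ e)
    (hab : a ≠ b) (hac : a ≠ c) (hae : a ≠ e) (hbc : b ≠ c) (hbe : b ≠ e) (hce : c ≠ e)
    (h1 : m ≠ p) (h2 : a ≠ p) (h3 : b ≠ p) : p = c ∨ p = e := by
  have hu : ({m, a, b, c, e} : Finset (Fin 5)) = Finset.univ := by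
    apply Finset.eq_univ_of_card
    rw [Finset.card_insert_of_notMem (by simp [*]), Finset.card_insert_of_notMem (by simp [*]),
      Finset.card_insert_of_notMem (by simp [*]), Finset.card_insert_of_notMem (by simp [*]),
      Finset.card_singleton]
    rfl
  have hp : p ∈ ({m, a, b, c, e} : Finset (Fin 5)) := by rw [hu]; exact Finset.mem_univ p
  simp only [Finset.mem_insert, Finset.mem_singleton] at hp
  rcases hp with h | h | h | h | h
  · exact absurd h.symm h1
  · exact absurd h.symm h2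
  · exact absurd h.symm h3
  · exact Or.inl h
  · exact Or.inr h

/-- three vertical pencils -/
theorem three (d : Dat S) (hN : ∀ i j : Fin 5, i ≠ j → ∀ e ∈ S.PP, d.Ver i e → d.Ver j e →
    ∃ k l, Dist i j k l ∧ e ∈ d.D k l) {m a b c c' : Fin 5} (hma : m ≠ a) (hmb : m ≠ b)
    (hmc : m ≠ c) (hme : m ≠ c') (hab : a ≠ b) (hac : a ≠ c) (hae : a ≠ c') (hbc : b ≠ c)
    (hbe : b ≠ c') (hce : c ≠ c') {e : DV κ K} (he : e ∈ S.PP) (v1 : d.Ver m e) (v2 : d.Ver a e)
    (v3 : d.Ver b e) : e ∈ d.D c c' := by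
  obtain ⟨p, q, hd, hpq⟩ := hN m a hma e he v1 v2
  obtain ⟨p', q', hd', hpq'⟩ := hN m b hmb e he v1 v3
  obtain ⟨-, mp, mq, ap, aq, pq⟩ := hd
  obtain ⟨-, mp', mq', bp', bq', pq'⟩ := hd'
  have hb : b ≠ p ∧ b ≠ q := by
    rcases d.label_unique hpq hpq' with ⟨h1, h2⟩ | ⟨h1, h2⟩
    · rw [h1, h2]
      exact ⟨bp', bq'⟩
    · rw [h1, h2]
      exact ⟨bq', bp'⟩
  have h1 := all_five hma hmb hmc hme hab hac hae hbc hbe hce mp ap hb.1
  have h2 := all_five hma hmb hmc hme hab hac hae hbc hbe hce mq aq hb.2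
  rcases h1 with h1 | h1 <;> rcases h2 with h2 | h2
  · exact absurd (h1.trans h2.symm) pq
  · rw [h1, h2] at hpq
    exact hpq
  · rw [h1, h2, d.D_symm] at hpq
    exact hpq
  · exact absurd (h1.trans h2.symm) pq

end SUP_

open SUP_ in
/-- SUP. -/
theorem sup_proof (hNFR : Stmt_NFR) : Stmt_SUP := by
  intro κ K _ _ _ _ S d X hX i j k l hd e he hv
  have hN := hNFR κ K S d
  obtain ⟨m, mi, mj, mk, ml⟩ := exists_fifth i j k l hd
  obtain ⟨ij, ik, il, jk, jl, kl⟩ := hd
  have ver : ∀ (a : Fin 5) (n : Fin 5 → Fin 5 → ℤ), LamI a n → e.v (X n) ≠ 0 → d.Ver a e :=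
    fun a n hn h => ⟨X n, d.KI_of_mem (hX.mem a n hn), hX.ne n hn.1, h⟩
  have vm : d.Ver m e := ver m _ (LamI_cr m i j k l ⟨ij, ik, il, jk, jl, kl⟩ mi mj mk ml) hv
  have L1 : LamI j (cr i m k l) :=
    LamI_cr j i m k l ⟨mi.symm, ik, il, mk, ml, kl⟩ ij.symm mj.symm jk jl
  have L2 : LamI k (cr i j m l) :=
    LamI_cr k i j m l ⟨ij, mi.symm, il, mj.symm, jl, ml⟩ ik.symm jk.symm mk.symm kl
  have L3 : LamI i (cr m j k l) :=
    LamI_cr i m j k l ⟨mj, mk, ml, jk, jl, kl⟩ mi.symm ij ik il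
  have L4 : LamI l (cr i j k m) :=
    LamI_cr l i j k m ⟨ij, ik, mi.symm, jk, mj.symm, mk.symm⟩ il.symm jl.symm kl.symm ml.symm
  have c1 : d.Ver j e ∨ d.Ver k e := by
    have h1 := hv
    rw [rel1 i j k l m, hX.add _ _ L1.1 L2.1, e.v_mul (hX.ne _ L1.1) (hX.ne _ L2.1)] at h1
    by_cases h2 : e.v (X (cr i m k l)) = 0
    · right
      apply ver k _ L2
      intro h3
      rw [h2, h3] at h1
      exact h1 rfl
    · left
      exact ver j _ L1 h2
  have c2 : d.Ver i e ∨ d.Ver l e := by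
    have h1 := hv
    rw [rel2 i j k l m, hX.add _ _ L3.1 L4.1, e.v_mul (hX.ne _ L3.1) (hX.ne _ L4.1)] at h1
    by_cases h2 : e.v (X (cr m j k l)) = 0
    · right
      apply ver l _ L4
      intro h3
      rw [h2, h3] at h1
      exact h1 rfl
    · left
      exact ver i _ L3 h2
  rcases c1 with v1 | v1 <;> rcases c2 with v2 | v2
  · -- j, i : D k l
    right; left
    exact three d hN mj mi mk ml ij.symm jk jl ik il kl he vm v1 v2
  · -- j, l : D i k
    right; right; left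
    exact three d hN mj ml mi mk jl ij.symm jk il.symm kl.symm ik he vm v1 v2
  · -- k, i : D j l
    right; right; right
    exact three d hN mk mi mj ml ik.symm jk.symm kl ij il jl he vm v1 v2
  · -- k, l : D i j
    left
    exact three d hN mk ml mi mj kl ik.symm jk.symm il.symm jl.symm ij he vm v1 v2

end Pool.Agent.CPT
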