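import Pool.Agent.CPT.Stmts

set_option autoImplicit false

/-!
# CPT: SWP
-/

namespace Pool.Agent.CPT

theorem swp_proof (hRON : Stmt_RON) : Stmt_SWP := by
  intro κ K _ _ _ _ S d i j n hn e he
  have hij : i ≠ j := d.ne_of_mem he
  have hn' : LamI j (rel (Equiv.swap i j) n) := LamI_rel (Equiv.swap i j) (by simpa using hn)
  set n' := rel (Equiv.swap i j) n with hn'def
  have hm : Lam (n - n') := Lam_sub hn.1 hn'.1
  have hnij : n i j = 0 := hn.2 j
  have hn'ij : n' i j = 0 := by
    rw [hn'.1.1 i j]
    exact hn'.2 i
  have heP := d.D_sub i j he
  have key : ∀ e' ∈ S.PP, S.meets e e' → e'.v (d.a (n - n')) = 0 := by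
    intro e' he' hme
    by_cases hD : ∀ k l, e' ∉ d.D k l
    · exact d.ord_0 _ hm e' he' hD
    · push Not at hD
      obtain ⟨k, l, hkl⟩ := hD
      rw [d.ord_D _ hm k l e' hkl]
      have hz : (n - n') k l = 0 := by
        simp only [Pi.sub_apply]
        by_cases h1 : i = k
        · subst h1
          by_cases h2 : j = l
          · subst h2
            rw [hnij, hn'ij, sub_zero]
          · exact absurd hme (d.D_disj i j l h2 e he e' hkl)
        · by_cases h2 : i = l
          · subst h2
            have hkl' := hkl
            rw [d.D_symm] at hkl'
            by_cases h3 : j = k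
            · subst h3
              rw [hn.1.1, hn'.1.1, hnij, hn'ij, sub_zero]
            · exact absurd hme (d.D_disj i j k h3 e he e' hkl')
          · by_cases h3 : j = k
            · subst h3
              have he2 := he
              rw [d.D_symm] at he2
              exact absurd hme (d.D_disj j i l h2 e he2 e' hkl)
            · by_cases h4 : j = l
              · subst h4
                have he2 := he
                rw [d.D_symm] at he2
                have hkl' := hkl
                rw [d.D_symm] at hkl'
                exact absurd hme (d.D_disj j i k h1 e he2 e' hkl')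
              · have e1 : n' k l = n k l := by
                  rw [hn'def]
                  simp only [rel]
                  rw [Equiv.swap_apply_of_ne_of_ne (Ne.symm h1) (Ne.symm h3),
                    Equiv.swap_apply_of_ne_of_ne (Ne.symm h2) (Ne.symm h4)]
                rw [e1, sub_self]
      rw [hz, zero_mul]
  have hne := d.a_ne _ hm
  obtain ⟨c, hc⟩ := hRON κ K S e heP (d.a (n - n'))
    (fun e' he' hme => Or.inr (by rw [key e' he' hme]))
  refine ⟨c, ?_, ?_⟩
  · rintro rfl
    rw [map_zero, sub_zero] at hc
    rcases hc with h | h
    · exact hne h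
    · rw [key e heP (S.meets_self heP)] at h
      exact lt_irrefl _ h
  · have h1 : d.a n = d.a (n - n') * d.a n' := by
      rw [← d.a_add _ _ hm hn'.1, sub_add_cancel]
    have h2 : d.a n - algebraMap κ K c * d.a n' = (d.a (n - n') - algebraMap κ K c) * d.a n' := by
      rw [h1]
      ring
    rw [h2]
    apply DV.M_mul hc
    right
    rw [d.ord_D _ hn'.1 i j e he, hn'ij, zero_mul]

end Pool.Agent.CPT
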