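import Pool.Agent.CPT.Stmts

/-!
Module TRN of squad CPT: a valuation trivial on a polynomial ring.
-/

set_option autoImplicit false

namespace Pool.Agent.CPT

open Polynomial in
theorem trn_proof : Stmt_TRN := by
  intro κ K _ _ _ _ e f hf hc P hP
  have hlin : ∀ c : κ, f - algebraMap κ K c ≠ 0 ∧ e.v (f - algebraMap κ K c) = 0 := by
    intro c
    have h1 : f - algebraMap κ K c ≠ 0 := by
      intro h
      exact hc c (by rw [h]; exact e.M_zero)
    refine ⟨h1, ?_⟩
    have h2 := (DV.O_iff h1).1 (DV.O_sub hf (e.O_const c))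
    have h3 := hc c
    rw [DV.M_iff h1] at h3
    omega
  have hprod : ∀ s : Multiset κ, ((s.map fun r => (X - C r : κ[X])).prod.aeval f ≠ 0) ∧
      e.v ((s.map fun r => (X - C r : κ[X])).prod.aeval f) = 0 := by
    intro s
    induction s using Multiset.induction_on with
    | empty => simp [e.v_one]
    | cons r s ih =>
      rw [Multiset.map_cons, Multiset.prod_cons, map_mul]
      have h1 : aeval f (X - C r : κ[X]) = f - algebraMap κ K r := by simp
      rw [h1]
      refine ⟨mul_ne_zero (hlin r).1 ih.1, ?_⟩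
      rw [e.v_mul (hlin r).1 ih.1, (hlin r).2, ih.2, add_zero]
  have hsp := (IsAlgClosed.splits P).eq_prod_roots
  have hl : P.leadingCoeff ≠ 0 := leadingCoeff_ne_zero.2 hP
  have hlK : algebraMap κ K P.leadingCoeff ≠ 0 := fun h => hl ((map_eq_zero (algebraMap κ K)).1 h)
  have h2 : aeval f P = algebraMap κ K P.leadingCoeff *
      ((P.roots.map fun r => (X - C r : κ[X])).prod.aeval f) := by
    conv_lhs => rw [hsp]
    rw [map_mul, aeval_C]
  obtain ⟨h3, h4⟩ := hprod P.roots
  rw [h2]
  refine ⟨mul_ne_zero hlK h3, ?_⟩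
  rw [e.v_mul hlK h3, e.map_const _ hl, h4, add_zero]

end Pool.Agent.CPT
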