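import Pool.Agent.CPT.Stmts

set_option autoImplicit false

namespace Pool.Agent.CPT

namespace VRD_

theorem exists_pq (i k l : Fin 5) (h1 : i ≠ k) (h2 : i ≠ l) (h3 : k ≠ l) :
    ∃ p q : Fin 5, Dist k l p q ∧ i ≠ p ∧ i ≠ q ∧ cr k l p q k l = 1 ∧
      ∀ j, cr k l p q i j = 0 := by
  revert i k l
  decide

end VRD_

theorem vrd_proof : Stmt_VRD := by
  intro κ K _ _ _ S d i k l hik hil e he
  have hkl : k ≠ l := by
    rintro rfl
    rw [d.D_diag] at he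
    exact he
  obtain ⟨p, q, hd, hp, hq, h1, h0⟩ := VRD_.exists_pq i k l hik hil hkl
  have hL : Lam (cr k l p q) := Lam_cr _ _ _ _ hd
  refine ⟨d.a (cr k l p q), ?_, d.a_ne _ hL, ?_⟩
  · have hm : d.a (cr k l p q) ∈ d.kf i :=
      IntermediateField.subset_adjoin κ _ ⟨cr k l p q, ⟨hL, h0⟩, rfl⟩
    exact isAlgebraic_algebraMap (⟨_, hm⟩ : d.kf i)
  · rw [d.ord_D _ hL k l e he, h1]
    have := d.w_pos e
    omega

end Pool.Agent.CPT
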