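import Pool.Agent.CPT.Stmts

set_option autoImplicit false

/-!
# CPT, module VRT
-/

namespace Pool.Agent.CPT

open Polynomial in
/-- VRT. -/
theorem vrt_proof (hALG : Stmt_ALG) (hTRN : Stmt_TRN) : Stmt_VRT := by
  intro κ K _ _ _ _ e α hα f hf hf0 hv
  by_contra hc
  push Not at hc
  have hT := hTRN κ K e α hα hc
  apply hv
  apply hALG κ K e (IntermediateField.adjoin κ {α}) _ f hf hf0
  intro x hx hx0
  rw [IntermediateField.mem_adjoin_simple_iff] at hx
  obtain ⟨r, s, rfl⟩ := hx
  have hr : r ≠ 0 := by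
    intro h
    rw [h, map_zero, zero_div] at hx0
    exact hx0 rfl
  have hs : s ≠ 0 := by
    intro h
    rw [h, map_zero, div_zero] at hx0
    exact hx0 rfl
  rw [e.v_div (hT r hr).1 (hT s hs).1, (hT r hr).2, (hT s hs).2]
  rfl

end Pool.Agent.CPT
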