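import Pool.Agent.CPT.Stmts

set_option autoImplicit false

namespace Pool.Agent.CPT

theorem wba_proof : Stmt_WBA := by
  intro K _ _ F b b' hb hb' hb0 hb'0 hns hns' hnsq hF
  obtain ⟨α, hα, β, hβ, h⟩ := hF b' hb'
  have hβ0 : β ≠ 0 := by
    rintro rfl
    exact hns' ⟨α, hα, by rw [h]; ring⟩
  have hα0 : α ≠ 0 := by
    rintro rfl
    apply hnsq
    refine ⟨β⁻¹, F.inv_mem hβ, ?_⟩
    rw [h]
    field_simp
    ring
  refine ⟨b * (β / α) ^ 2, β / α, α⁻¹, F.mul_mem hb (F.pow_mem (F.div_mem hβ hα) 2),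
    F.div_mem hβ hα, F.inv_mem hα, div_ne_zero hβ0 hα0, inv_ne_zero hα0, rfl, ?_⟩
  rw [h]
  have h2 : (2 : K) = 0 := by exact_mod_cast CharP.cast_eq_zero K 2
  field_simp
  linear_combination (- β ^ 2 * b) * h2

end Pool.Agent.CPT
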