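import Pool.Agent.CPT.Stmts

set_option autoImplicit false

namespace Pool.Agent.CPT

theorem wbc_proof : Stmt_WBC := by
  intro K _ _ L X Y W Z bxy hX hY hW hZ hb hb0 hX0 hY0 hind
  rintro ⟨θ, hθ, hθ0, hWθ⟩ ⟨η, hη, hη0, hWη⟩ ⟨θ', hθ', hθ'0, hZθ⟩ ⟨η', hη', hη'0, hZη⟩
  have h2 : (2 : K) = 0 := CharTwo.two_eq_zero
  have hY1 : 1 - Y ≠ 0 := by
    intro h
    have h5 := hind 1 L.one_mem 0 L.zero_mem 1 L.one_mem 0 L.zero_mem
      (by linear_combination h + Y * h2)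
    exact one_ne_zero h5.1
  have h1 : Y - X * θ ^ 2 = bxy * η ^ 2 := by
    rw [hWθ] at hWη
    field_simp at hWη
    linear_combination hWη
  have h3 : (1 - Y) - (1 - X) * θ' ^ 2 = bxy * η' ^ 2 := by
    rw [hZθ] at hZη
    field_simp at hZη
    linear_combination hZη
  obtain ⟨ζ, hζL, hζ⟩ : ∃ ζ ∈ L, η = ζ * η' :=
    ⟨η / η', L.div_mem hη hη', by field_simp⟩
  have h4 : (Y - X * θ ^ 2) - ζ ^ 2 * ((1 - Y) - (1 - X) * θ' ^ 2) = 0 := by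
    rw [h1, h3, hζ]; ring
  have h6 := hind (ζ * (1 + θ')) (L.mul_mem hζL (L.add_mem L.one_mem hθ'))
    (θ + ζ * θ') (L.add_mem hθ (L.mul_mem hζL hθ')) (1 + ζ) (L.add_mem L.one_mem hζL)
    0 L.zero_mem (by
      linear_combination h4 + (ζ ^ 2 + θ ^ 2 * X + ζ ^ 2 * θ' ^ 2 * X + ζ ^ 2 * θ'
        + θ * ζ * θ' * X + ζ * Y) * h2)
  obtain ⟨h7, h8, h9, -⟩ := h6
  have hζ1 : ζ = 1 := by linear_combination h9 - h2
  have hθ'1 : θ' = 1 := by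
    rw [hζ1] at h7; linear_combination h7 - h2
  have hθ1 : θ = 1 := by
    rw [hζ1, hθ'1] at h8; linear_combination h8 - h2
  refine ⟨by rw [hWθ, hθ1]; ring, by rw [hZθ, hθ'1]; ring, η, hη, hη0, ?_⟩
  rw [hθ1] at h1
  linear_combination h1 + (X - Y) * h2

end Pool.Agent.CPT
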