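import Pool.Agent.CPT.Stmts

/-!
Module WBU of squad CPT: uniqueness of `X`.
-/

set_option autoImplicit false

namespace Pool.Agent.CPT

theorem wbu_proof : Stmt_WBU := by
  intro K _ _ L X X' γ δ _ _ hγ hδ hns h1 h2
  have h2' : (2 : K) = 0 := CharP.cast_eq_zero K 2
  have h3 : X * (δ - γ) ^ 2 = (δ - 1) ^ 2 := by
    linear_combination h2 - h1 + (X' - 1 - X * δ * γ + δ) * h2'
  by_cases h4 : δ = γ
  · rw [h4, sub_self] at h3
    have h5 : (γ - 1) ^ 2 = 0 := by rw [← h3]; ring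
    have h6 : γ = 1 := sub_eq_zero.1 (pow_eq_zero_iff (by norm_num) |>.1 h5)
    rw [h1, h6]
    ring
  · exfalso
    have h5 : δ - γ ≠ 0 := sub_ne_zero.2 h4
    refine hns ⟨(δ - 1) / (δ - γ), L.div_mem (L.sub_mem hδ L.one_mem) (L.sub_mem hδ hγ), ?_⟩
    rw [div_pow, ← h3, mul_div_assoc, div_self (pow_ne_zero 2 h5), mul_one]

end Pool.Agent.CPT
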