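import Pool.Agent.CPT.ALG
import Pool.Agent.CPT.AZC
import Pool.Agent.CPT.AZR
import Pool.Agent.CPT.CMP
import Pool.Agent.CPT.DIV
import Pool.Agent.CPT.FIN
import Pool.Agent.CPT.GLB
import Pool.Agent.CPT.HOR
import Pool.Agent.CPT.HRZ
import Pool.Agent.CPT.IND
import Pool.Agent.CPT.IVA
import Pool.Agent.CPT.KAP
import Pool.Agent.CPT.NEM
import Pool.Agent.CPT.NFR
import Pool.Agent.CPT.NTR
import Pool.Agent.CPT.PAR
import Pool.Agent.CPT.PBK
import Pool.Agent.CPT.PBS
import Pool.Agent.CPT.PRO
import Pool.Agent.CPT.RAT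
import Pool.Agent.CPT.RON
import Pool.Agent.CPT.SAM
import Pool.Agent.CPT.SLA
import Pool.Agent.CPT.SLP
import Pool.Agent.CPT.SPL
import Pool.Agent.CPT.SUP
import Pool.Agent.CPT.SWP
import Pool.Agent.CPT.TRN
import Pool.Agent.CPT.VRD
import Pool.Agent.CPT.VRT
import Pool.Agent.CPT.WBA
import Pool.Agent.CPT.WBC
import Pool.Agent.CPT.WBU

set_option autoImplicit false

/-!
# The closed point theorem, without the module NRM
-/

namespace Pool.Agent.CPT

theorem ron : Stmt_RON := ron_proof cmp_proof trn_proof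
theorem azr : Stmt_AZR := azr_proof ron
theorem azc : Stmt_AZC := azc_proof azr
theorem ntr : Stmt_NTR := ntr_proof ron
theorem sam : Stmt_SAM := sam_proof kap_proof iva_proof
theorem vrt : Stmt_VRT := vrt_proof alg_proof trn_proof
theorem spl : Stmt_SPL := spl_proof sam vrt azc
theorem hrz : Stmt_HRZ := hrz_proof ntr spl
theorem nfr : Stmt_NFR := nfr_proof ron spl hrz vrd_proof ntr
theorem hor : Stmt_HOR := hor_proof cmp_proof
theorem par : Stmt_PAR := par_proof ntr hrz hor spl vrd_proof
theorem swp : Stmt_SWP := swp_proof ron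
theorem dvi : Stmt_DIV := div_proof hrz swp
theorem nem : Stmt_NEM := nem_proof ntr
theorem pbk : Stmt_PBK := pbk_proof azr pbs_proof
theorem ind : Stmt_IND := ind_proof pbk hrz nem
theorem sla : Stmt_SLA := sla_proof pbk wba_proof wbu_proof wbc_proof
theorem slp : Stmt_SLP := slp_proof ind sla
theorem sup : Stmt_SUP := sup_proof nfr
theorem pro : Stmt_PRO := pro_proof glb_proof nem rat_proof par sup

theorem fin_of (hNRM : Stmt_NRM) : Stmt_FIN := fin_proof hNRM slp pro

end Pool.Agent.CPT
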