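import Pool.Agent.CPT.Stmts

set_option autoImplicit false

/-!
# NRM: common extraction of square roots
-/

namespace Pool.Agent.CPT

namespace NRM_

section
variable {κ K : Type} [Field κ] [Field K] [Algebra κ K] {S : Surf κ K}

/-- `a n` has a root of order `2 ^ N` in the field of the pencil `i` -/
def Rt (d : Dat S) (N : ℕ) (i : Fin 5) (n : Fin 5 → Fin 5 → ℤ) : Prop :=
  ∃ c ∈ d.kf i, c ^ (2 ^ N) = d.a n

/-- the same for the cross ratio defined by a permutation -/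
def Q (d : Dat S) (N : ℕ) (σ : Equiv.Perm (Fin 5)) : Prop :=
  Rt d N (σ 4) (cr (σ 0) (σ 1) (σ 2) (σ 3))

theorem lamI_perm (σ : Equiv.Perm (Fin 5)) : LamI (σ 4) (cr (σ 0) (σ 1) (σ 2) (σ 3)) := by
  have h : ∀ a b : Fin 5, a ≠ b → σ a ≠ σ b := fun a b hab hh => hab (σ.injective hh)
  exact LamI_cr _ _ _ _ _ ⟨h _ _ (by decide), h _ _ (by decide), h _ _ (by decide),
    h _ _ (by decide), h _ _ (by decide), h _ _ (by decide)⟩ (h _ _ (by decide))
    (h _ _ (by decide)) (h _ _ (by decide)) (h _ _ (by decide))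

end

set_option linter.unusedSectionVars false

section
variable {κ K : Type} [Field κ] [IsAlgClosed κ] [CharP κ 2] [Field K] [Algebra κ K] {S : Surf κ K}

theorem Q_swap4 (hDIV : Stmt_DIV) (d : Dat S) (hne : ∀ i j, i ≠ j → ∃ e, e ∈ d.D i j) (N : ℕ)
    (σ : Equiv.Perm (Fin 5)) (r : Fin 5) (h : Q d N σ) : Q d N (σ * Equiv.swap 4 r) := by
  by_cases hr : r = 4
  · rw [hr, Equiv.swap_self]
    exact h
  · have h1 : σ 4 ≠ σ r := fun h' => hr (σ.injective h').symm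
    have h2 := hDIV κ K S d (σ 4) (σ r) (hne _ _ h1) N _ (lamI_perm σ) h
    rw [rel_swap_cr] at h2
    have h3 : ∀ x, Equiv.swap (σ 4) (σ r) (σ x) = (σ * Equiv.swap 4 r) x := by
      intro x
      rw [Equiv.mul_swap_eq_swap_mul]
      rfl
    have h4 : σ r = (σ * Equiv.swap 4 r) 4 := by
      rw [Equiv.Perm.mul_apply, Equiv.swap_apply_left]
    rw [h3, h3, h3, h3] at h2
    rw [h4] at h2
    exact h2

theorem Q_swap (hDIV : Stmt_DIV) (d : Dat S) (hne : ∀ i j, i ≠ j → ∃ e, e ∈ d.D i j) (N : ℕ)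
    (σ : Equiv.Perm (Fin 5)) (x y : Fin 5) (hxy : x ≠ y) (h : Q d N σ) :
    Q d N (σ * Equiv.swap x y) := by
  have h1 : ∀ x y : Fin 5, x ≠ y → x = 4 ∨ y = 4 ∨
      Equiv.swap x y = Equiv.swap 4 x * Equiv.swap 4 y * Equiv.swap 4 x := by decide
  rcases h1 x y hxy with h2 | h2 | h2
  · rw [h2]
    exact Q_swap4 hDIV d hne N _ _ h
  · rw [h2, Equiv.swap_comm]
    exact Q_swap4 hDIV d hne N _ _ h
  · rw [h2, ← mul_assoc, ← mul_assoc]
    exact Q_swap4 hDIV d hne N _ _ (Q_swap4 hDIV d hne N _ _ (Q_swap4 hDIV d hne N _ _ h))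

theorem Q_all (hDIV : Stmt_DIV) (d : Dat S) (hne : ∀ i j, i ≠ j → ∃ e, e ∈ d.D i j) (N : ℕ)
    (σ : Equiv.Perm (Fin 5)) (h : Q d N σ) (τ : Equiv.Perm (Fin 5)) : Q d N τ := by
  have h1 : ∀ ρ : Equiv.Perm (Fin 5), Q d N (σ * ρ) := by
    intro ρ
    induction ρ using Equiv.Perm.swap_induction_on' with
    | one => rwa [mul_one]
    | mul_swap f x y hxy ih =>
      rw [← mul_assoc]
      exact Q_swap hDIV d hne N _ x y hxy ih
  have h2 := h1 (σ⁻¹ * τ)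
  rwa [mul_inv_cancel_left] at h2

theorem charK (κ K : Type) [Field κ] [CharP κ 2] [Field K] [Algebra κ K] : CharP K 2 :=
  charP_of_injective_algebraMap (algebraMap κ K).injective 2

theorem root_unique (κ : Type) {K : Type} [Field κ] [CharP κ 2] [Field K] [Algebra κ K] (N : ℕ)
    {x y : K} (h : x ^ (2 ^ N) = y ^ (2 ^ N)) : x = y := by
  have _c := charK κ K
  have h1 : (x - y) ^ (2 ^ N) = 0 := by
    rw [sub_pow_char_pow, h, sub_self]
  exact sub_eq_zero.1 (pow_eq_zero_iff (pow_ne_zero N two_ne_zero) |>.1 h1)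

/-- the roots of the cross ratios -/
theorem Rt_cr {d : Dat S} {N : ℕ} (h : ∀ τ, Q d N τ) (i j k l m : Fin 5) (hd : Dist j k l m)
    (h1 : i ≠ j) (h2 : i ≠ k) (h3 : i ≠ l) (h4 : i ≠ m) : Rt d N i (cr j k l m) := by
  obtain ⟨σ, s0, s1, s2, s3, s4⟩ := exists_perm i j k l m hd h1 h2 h3 h4
  have h5 := h σ
  unfold Q at h5
  rw [s0, s1, s2, s3, s4] at h5
  exact h5

theorem Rt_lamI {d : Dat S} {N : ℕ} (h : ∀ τ, Q d N τ) (i j k l m : Fin 5) (hd : Dist j k l m)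
    (h1 : i ≠ j) (h2 : i ≠ k) (h3 : i ≠ l) (h4 : i ≠ m) {n : Fin 5 → Fin 5 → ℤ}
    (hn : LamI i n) : Rt d N i n := by
  obtain ⟨c, hc, hc'⟩ := Rt_cr h i j k l m hd h1 h2 h3 h4
  obtain ⟨b, hb, hb'⟩ := Rt_cr h i j m l k (dist_rot hd) h1 h4 h3 h2
  refine ⟨c ^ n j k * b ^ n j m, mul_mem (zpow_mem hc _) (zpow_mem hb _), ?_⟩
  rw [d.isMul.basisI i j k l m hd h1 h2 h3 h4 hn, ← hc', ← hb', mul_pow, ← zpow_natCast,
    ← zpow_natCast, ← zpow_natCast, ← zpow_natCast, ← zpow_mul, ← zpow_mul, ← zpow_mul,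
    ← zpow_mul, mul_comm (n j k), mul_comm (n j m)]

/-- four indices different from a given one -/
theorem exists_four (i : Fin 5) : ∃ j k l m : Fin 5, Dist j k l m ∧ i ≠ j ∧ i ≠ k ∧ i ≠ l ∧
    i ≠ m := by
  revert i
  decide

theorem root_ex {d : Dat S} {N : ℕ} (h : ∀ τ, Q d N τ) {n : Fin 5 → Fin 5 → ℤ} (hn : Lam n) :
    ∃ c : K, c ^ (2 ^ N) = d.a n := by
  obtain ⟨c1, -, e1⟩ := Rt_cr h 4 0 3 1 2 (by decide) (by decide) (by decide) (by decide)
    (by decide)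
  obtain ⟨c2, -, e2⟩ := Rt_cr h 4 0 2 1 3 (by decide) (by decide) (by decide) (by decide)
    (by decide)
  obtain ⟨c3, -, e3⟩ := Rt_cr h 3 0 4 1 2 (by decide) (by decide) (by decide) (by decide)
    (by decide)
  obtain ⟨c4, -, e4⟩ := Rt_cr h 3 0 2 1 4 (by decide) (by decide) (by decide) (by decide)
    (by decide)
  obtain ⟨c5, -, e5⟩ := Rt_cr h 1 0 2 4 3 (by decide) (by decide) (by decide) (by decide)
    (by decide)
  refine ⟨c1 ^ n 0 3 * c2 ^ n 1 3 * c3 ^ (n 0 4 + n 3 4) * c4 ^ n 1 4 * c5 ^ n 3 4, ?_⟩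
  have hp : ∀ (c : K) (z : ℤ), (c ^ z) ^ (2 ^ N) = (c ^ (2 ^ N)) ^ z := by
    intro c z
    rw [← zpow_natCast, ← zpow_natCast, ← zpow_mul, ← zpow_mul, mul_comm]
  rw [d.isMul.basis hn, ← e1, ← e2, ← e3, ← e4, ← e5, mul_pow, mul_pow, mul_pow, mul_pow, hp, hp,
    hp, hp, hp]

/-- the orders of vanishing of the roots -/
theorem v_root {d : Dat S} {N : ℕ} {e : DV κ K} {c : K} {n : Fin 5 → Fin 5 → ℤ} (hn : Lam n)
    (hc : c ^ (2 ^ N) = d.a n) : ((2 ^ N : ℕ) : ℤ) * e.v c = e.v (d.a n) := by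
  have h0 : c ≠ 0 := by
    intro h0
    rw [h0, zero_pow (pow_ne_zero _ two_ne_zero)] at hc
    exact d.a_ne n hn hc.symm
  rw [← hc, e.v_pow h0]

/-- a cross ratio with a simple zero on `D i j` -/
theorem cr_one (i j : Fin 5) (hij : i ≠ j) : ∃ a k l m : Fin 5, Dist j k l m ∧ a ≠ j ∧ a ≠ k ∧
    a ≠ l ∧ a ≠ m ∧ cr j k l m i j = 1 := by
  revert i j
  decide

theorem dvd_w {d : Dat S} {N : ℕ} (h : ∀ τ, Q d N τ) (i j : Fin 5) (e : DV κ K)
    (he : e ∈ d.D i j) : ((2 ^ N : ℕ) : ℤ) ∣ d.w e := by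
  obtain ⟨a, k, l, m, hd, -, -, -, -, h1⟩ := cr_one i j (d.ne_of_mem he)
  obtain ⟨c, hc⟩ := root_ex h (Lam_cr _ _ _ _ hd)
  have h2 := v_root (e := e) (Lam_cr _ _ _ _ hd) hc
  rw [d.ord_D _ (Lam_cr _ _ _ _ hd) i j e he, h1, one_mul] at h2
  exact ⟨_, h2.symm⟩

open scoped Classical in
/-- the roots -/
noncomputable def ra (d : Dat S) (N : ℕ) (h : ∀ τ, Q d N τ) (n : Fin 5 → Fin 5 → ℤ) : K :=
  if hn : Lam n then Classical.choose (root_ex h hn) else 1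

theorem ra_pow (d : Dat S) (N : ℕ) (h : ∀ τ, Q d N τ) (n : Fin 5 → Fin 5 → ℤ) (hn : Lam n) :
    ra d N h n ^ (2 ^ N) = d.a n := by
  unfold ra
  rw [dif_pos hn]
  exact Classical.choose_spec (root_ex h hn)

/-- the new data -/
noncomputable def nd (d : Dat S) (N : ℕ) (h : ∀ τ, Q d N τ) : Dat S :=
  have ha' := ra_pow d N h
  { D := d.D
    D_sub := d.D_sub
    D_symm := d.D_symm
    D_diag := d.D_diag
    D_disj := d.D_disj
    D_comm := d.D_comm
    w := fun e => if ((2 ^ N : ℕ) : ℤ) ∣ d.w e then d.w e / ((2 ^ N : ℕ) : ℤ) else 1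
    w_pos := by
      intro e
      split_ifs with hd
      · exact Int.ediv_pos_of_pos_of_dvd (d.w_pos e) (by positivity) hd
      · exact one_pos
    a := ra d N h
    a_ne := by
      intro n hn h0
      have h1 := ha' n hn
      rw [h0, zero_pow (pow_ne_zero _ two_ne_zero)] at h1
      exact d.a_ne n hn h1.symm
    a_add := by
      intro m n hm hn
      apply root_unique κ N
      rw [ha' _ (Lam_add hm hn), mul_pow, ha' m hm, ha' n hn, d.a_add m n hm hn]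
    ord_D := by
      intro n hn i j e he
      have h1 := v_root (e := e) hn (ha' n hn)
      have h2 := dvd_w h i j e he
      rw [if_pos h2]
      obtain ⟨z, hz⟩ := h2
      have h3 : ((2 ^ N : ℕ) : ℤ) ≠ 0 := by positivity
      rw [d.ord_D n hn i j e he, hz] at h1
      rw [hz, Int.mul_ediv_cancel_left _ h3]
      apply mul_left_cancel₀ h3
      rw [h1]
      ring
    ord_0 := by
      intro n hn e he h0
      have h1 := v_root (e := e) hn (ha' n hn)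
      rw [d.ord_0 n hn e he h0] at h1
      have h3 : ((2 ^ N : ℕ) : ℤ) ≠ 0 := by positivity
      exact (mul_eq_zero.1 h1).resolve_left h3
    amp := d.amp }

theorem nd_a (d : Dat S) (N : ℕ) (h : ∀ τ, Q d N τ) {n : Fin 5 → Fin 5 → ℤ} (hn : Lam n) :
    (nd d N h).a n ^ (2 ^ N) = d.a n := by
  exact ra_pow d N h n hn

theorem nd_kf (d : Dat S) (N : ℕ) (h : ∀ τ, Q d N τ) (i : Fin 5) : (nd d N h).kf i ≤ d.kf i := by
  unfold Dat.kf
  rw [IntermediateField.adjoin_le_iff]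
  rintro x ⟨n, hn, rfl⟩
  obtain ⟨j, k, l, m, hd, h1, h2, h3, h4⟩ := exists_four i
  obtain ⟨c, hc, hc'⟩ := Rt_lamI h i j k l m hd h1 h2 h3 h4 hn
  have h5 : (nd d N h).a n = c := root_unique κ N (by rw [nd_a d N h hn.1, hc'])
  rw [h5]
  exact hc

end

end NRM_

open NRM_ in
theorem nrm_proof (hNEM : Stmt_NEM) (hDIV : Stmt_DIV) : Stmt_NRM := by
  classical
  intro κ K _ _ _ _ _ S d hPP
  have hne := hNEM κ K S d hPP
  -- the exponents are bounded
  obtain ⟨e, he⟩ := hne 0 1 (by decide)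
  have hb : ∀ N, (∀ τ, Q d N τ) → N ≤ (d.w e).toNat := by
    intro N h
    have h1 := Int.le_of_dvd (d.w_pos e) (dvd_w h 0 1 e he)
    have h2 : N < 2 ^ N := Nat.lt_two_pow_self
    omega
  have h0 : ∀ τ, Q d 0 τ := fun τ => ⟨d.a _, d.a_mem_kf (lamI_perm τ), by rw [pow_zero, pow_one]⟩
  let N := Nat.findGreatest (fun N => ∀ τ, Q d N τ) (d.w e).toNat
  have hN : ∀ τ, Q d N τ :=
    Nat.findGreatest_spec (P := fun N => ∀ τ, Q d N τ) (Nat.zero_le _) h0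
  have hN1 : ¬ ∀ τ, Q d (N + 1) τ := by
    intro h
    have h1 := Nat.le_findGreatest (P := fun N => ∀ τ, Q d N τ) (hb _ h) h
    have h2 : N + 1 ≤ N := h1
    omega
  refine ⟨nd d N hN, N, ?_, rfl, fun n hn => nd_a d N hN hn⟩
  rintro i j k l m hd h1 h2 h3 h4 ⟨c, hc, hc'⟩
  apply hN1
  obtain ⟨σ, s0, s1, s2, s3, s4⟩ := exists_perm i j k l m hd h1 h2 h3 h4
  apply Q_all hDIV d hne (N + 1) σ
  unfold Q
  rw [s0, s1, s2, s3, s4]
  refine ⟨c, nd_kf d N hN i hc, ?_⟩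
  rw [pow_succ', pow_mul, hc', nd_a d N hN (Lam_cr _ _ _ _ hd)]

end Pool.Agent.CPT
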