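import Pool.Agent.CPT.StmtsE

set_option autoImplicit false

/-!
# CPT, module PHC: multiples of the elements of a chart in terms of the powers of `(w/z)²`
-/

noncomputable section

namespace Pool.Agent.CPT

open Pool.Agent Polynomial

namespace PHC_

theorem frob_eval {K F : Type} [Field K] [Field F] [Algebra K F] [CharP K 2] [CharP F 2] (w : F)
    (q : K[X]) : aeval (w ^ 2) (q.map (frobenius K 2)) = (aeval w q) ^ 2 := by
  have h1 : (aeval w q) ^ 2 = frobenius F 2 (eval₂ (algebraMap K F) w q) := rfl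
  rw [h1, hom_eval₂, aeval_def, eval₂_map]
  congr 1
  ext a
  simp [frobenius_def]

theorem minpoly_eq {K F : Type} [Field K] [Field F] [Algebra K F] [FiniteDimensional K F] {v : F}
    (hv : IntermediateField.adjoin K {v} = ⊤) {P : K[X]} (hP : P.Monic) (h0 : aeval v P = 0)
    (hd : P.natDegree ≤ Module.finrank K F) : P = minpoly K v := by
  have hint : IsIntegral K v := Algebra.IsIntegral.isIntegral v
  refine Polynomial.eq_of_monic_of_dvd_of_natDegree_le (minpoly.monic hint) hP
    (minpoly.dvd K v h0) ?_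
  rw [← IntermediateField.adjoin.finrank hint, hv, IntermediateField.finrank_top']
  exact hd

theorem natDegree_minpoly {K F : Type} [Field K] [Field F] [Algebra K F] [FiniteDimensional K F]
    {v : F} (hv : IntermediateField.adjoin K {v} = ⊤) :
    (minpoly K v).natDegree = Module.finrank K F := by
  have hint : IsIntegral K v := Algebra.IsIntegral.isIntegral v
  rw [← IntermediateField.adjoin.finrank hint, hv, IntermediateField.finrank_top']

theorem adjoin_div {K F : Type} [Field K] [Field F] [Algebra K F] {w : F}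
    (hw : IntermediateField.adjoin K {w} = ⊤) {ζ : K} (hζ : ζ ≠ 0) :
    IntermediateField.adjoin K {w / algebraMap K F ζ} = ⊤ := by
  rw [eq_top_iff, ← hw, IntermediateField.adjoin_simple_le_iff]
  have h1 : w = (w / algebraMap K F ζ) * algebraMap K F ζ := by
    rw [div_mul_cancel₀]
    rwa [Ne, map_eq_zero]
  rw [h1]
  refine mul_mem ?_ (IntermediateField.algebraMap_mem _ _)
  have h2 := IntermediateField.mem_adjoin_simple_self K (w / algebraMap K F ζ)
  rw [← h1]
  exact h2

/-- the derivative of the minimal polynomial of `w / ζ` -/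
theorem der_div {K F : Type} [Field K] [Field F] [Algebra K F] [FiniteDimensional K F] {w : F}
    (hw : IntermediateField.adjoin K {w} = ⊤) {ζ : K} (hζ : ζ ≠ 0) :
    aeval (w / algebraMap K F ζ) (derivative (minpoly K (w / algebraMap K F ζ))) =
      aeval w (derivative (minpoly K w)) / (algebraMap K F ζ) ^ (Module.finrank K F - 1) := by
  have hint : IsIntegral K w := Algebra.IsIntegral.isIntegral w
  have hz : algebraMap K F ζ ≠ 0 := by rwa [Ne, map_eq_zero]
  let d := Module.finrank K F
  have hd : 0 < d := Module.finrank_pos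
  let G : K[X] := C ((ζ⁻¹) ^ d) * (minpoly K w).comp (C ζ * X)
  have hdX : (C ζ * X : K[X]).natDegree = 1 := natDegree_C_mul_X ζ hζ
  have hGm : G.Monic := by
    unfold Polynomial.Monic
    rw [leadingCoeff_mul, leadingCoeff_C, leadingCoeff_comp (by rw [hdX]; norm_num),
      (minpoly.monic hint).leadingCoeff, one_mul, natDegree_minpoly hw, leadingCoeff_C_mul_X,
      inv_pow, inv_mul_cancel₀ (pow_ne_zero _ hζ)]
  have hwz : algebraMap K F ζ * (w / algebraMap K F ζ) = w := mul_div_cancel₀ w hz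
  have hG0 : aeval (w / algebraMap K F ζ) G = 0 := by
    rw [map_mul, aeval_comp, map_mul, aeval_C, aeval_C, aeval_X, hwz, minpoly.aeval, mul_zero]
  have hGd : G.natDegree ≤ Module.finrank K F := by
    refine (natDegree_C_mul_le _ _).trans ?_
    rw [natDegree_comp, hdX, mul_one, natDegree_minpoly hw]
  rw [← minpoly_eq (adjoin_div hw hζ) hGm hG0 hGd]
  have h3 : derivative G = C ((ζ⁻¹) ^ d) * (C ζ * (derivative (minpoly K w)).comp (C ζ * X)) := by
    rw [derivative_C_mul, derivative_comp, derivative_C_mul_X]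
  rw [h3, map_mul, map_mul, aeval_comp, map_mul, aeval_C, aeval_C, aeval_X, hwz, map_pow, map_inv₀]
  obtain ⟨m, hm⟩ : ∃ m, d = m + 1 := ⟨d - 1, by omega⟩
  have h4 : Module.finrank K F - 1 = m := by
    show d - 1 = m
    omega
  rw [h4, hm, inv_pow, pow_succ, mul_inv]
  field_simp

/-- the derivative of the minimal polynomial of a square -/
theorem der_sq {K F : Type} [Field K] [Field F] [Algebra K F] [CharP K 2] [CharP F 2]
    [FiniteDimensional K F] {w : F} (hw : IntermediateField.adjoin K {w} = ⊤)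
    (hw2 : IntermediateField.adjoin K {w ^ 2} = ⊤) :
    aeval (w ^ 2) (derivative (minpoly K (w ^ 2))) =
      (aeval w (derivative (minpoly K w))) ^ 2 := by
  have hint : IsIntegral K w := Algebra.IsIntegral.isIntegral w
  have h1 : (minpoly K w).map (frobenius K 2) = minpoly K (w ^ 2) := by
    refine minpoly_eq hw2 ((minpoly.monic hint).map _) ?_ ?_
    · rw [frob_eval, minpoly.aeval, zero_pow two_ne_zero]
    · rw [natDegree_map, natDegree_minpoly hw]
  rw [← h1, derivative_map, frob_eval]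

/-- integral fractions belong to an integrally closed ring -/
theorem mem_of_int {F : Type} [Field F] (A : Subring F) [IsIntegrallyClosed A] {f a b : F}
    (ha : a ∈ A) (hb : b ∈ A) (_hb0 : b ≠ 0) (hf : f = a / b) (h : IsIntegral A f) : f ∈ A := by
  have hinj : Function.Injective (algebraMap A F) := Subtype.val_injective
  let φ : FractionRing A →ₐ[A] F := IsFractionRing.liftAlgHom (g := Algebra.ofId A F) hinj
  let q : FractionRing A := algebraMap A _ ⟨a, ha⟩ / algebraMap A _ ⟨b, hb⟩
  have h1 : φ q = f := by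
    rw [hf]
    show φ (algebraMap A _ ⟨a, ha⟩ / algebraMap A _ ⟨b, hb⟩) = a / b
    rw [map_div₀, AlgHom.commutes, AlgHom.commutes]
    rfl
  have h2 : IsIntegral A q := by
    rw [← isIntegral_algHom_iff φ φ.toRingHom.injective, h1]
    exact h
  obtain ⟨c, hc⟩ := IsIntegrallyClosed.algebraMap_eq_of_integral h2
  rw [← h1, ← hc, AlgHom.commutes]
  exact c.2

theorem core (hTRD : Stmt_TRD) {F : Type} [Field F] [CharP F 2] (A : Subring F) (K : Subfield F)
    (hAK : ∀ f ∈ A, f ∈ K) (hfr : ∀ f ∈ K, ∃ a ∈ A, ∃ b ∈ A, b ≠ 0 ∧ f = a / b)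
    (hic : IsIntegrallyClosed A) (hfd : FiniteDimensional K F) (hsep : Algebra.IsSeparable K F)
    (w : F) (hw : IntermediateField.adjoin K {w} = ⊤) (ζ : F) (hζK : ζ ∈ K) (hζ : ζ ≠ 0)
    (hwi : IsIntegral A (w / ζ)) (r : F) (hr : IsIntegral A r) :
    ∃ b : ℕ → F, (∀ j, b j ∈ A) ∧
      (aeval w (derivative (minpoly K w)) / ζ ^ (Module.finrank K F - 1)) ^ 2 * r =
        ∑ j ∈ Finset.range (Module.finrank K F), b j * ((w / ζ) ^ j) ^ 2 := by
  have hcK : CharP K 2 := K.subtype.charP Subtype.val_injective 2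
  have hcF : ExpChar F 2 := ExpChar.prime Nat.prime_two
  have hcK' : ExpChar K 2 := ExpChar.prime Nat.prime_two
  let ζ' : K := ⟨ζ, hζK⟩
  have hζ' : ζ' ≠ 0 := fun h => hζ (congrArg Subtype.val h)
  have h6 : algebraMap K F ζ' = ζ := rfl
  have h1 := adjoin_div (K := K) hw hζ'
  rw [h6] at h1
  have h2 : IntermediateField.adjoin K {(w / ζ) ^ 2} = ⊤ := by
    rw [← h1]
    exact (IntermediateField.adjoin_simple_eq_adjoin_pow_expChar_of_isSeparable' K F (w / ζ) 2).symm
  obtain ⟨b, hb, h3⟩ := hTRD F A K hAK hfr (fun f hf hi => by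
    obtain ⟨a, ha, b, hb, hb0, h⟩ := hfr f hf
    exact mem_of_int A ha hb hb0 h hi) hfd hsep ((w / ζ) ^ 2) (hwi.pow 2) h2 r hr
  refine ⟨b, hb, ?_⟩
  have h4 := der_div (K := K) hw hζ'
  have h5 := der_sq (K := K) h1 h2
  rw [h5] at h3
  rw [h6] at h4
  rw [← h4, h3]
  refine Finset.sum_congr rfl fun j _ => ?_
  rw [← pow_mul, ← pow_mul, mul_comm 2 j]

end PHC_

open PHC_

theorem phc_proof (hTRD : Stmt_TRD) (hBAS : Pool.Agent.SRF.Stmt_BAS)
    (hSEC : Pool.Agent.SRF.Stmt_SEC) (_hFIN : Pool.Agent.SRF.Stmt_FIN) : Stmt_PHC := by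
  intro κ F _ _ _ _ _ x y hS c w hw hgen
  have hcF : CharP F 2 := charP_of_injective_algebraMap (algebraMap κ F).injective 2
  let K : Subfield F := (KK κ x y).toSubfield
  have hfd : FiniteDimensional K F := hS.fin
  have hsep : Algebra.IsSeparable K F := hS.sep
  have hgen' : IntermediateField.adjoin K {w} = ⊤ := hgen
  refine ⟨aeval w (derivative (minpoly K w)), ?_, ?_⟩
  · have h1 : IsSeparable K w := Algebra.IsSeparable.isSeparable K w
    exact h1.aeval_derivative_ne_zero (minpoly.aeval K w)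
  · intro i r hr
    obtain ⟨⟨e⟩, hB1, hB2⟩ := hBAS κ F x y hS i
    have hic : IsIntegrallyClosed (SRF.base κ x y i).toSubring :=
      IsIntegrallyClosed.of_equiv (R := MvPolynomial (Fin 2) κ) e.toRingEquiv
    have hzi : SRF.z x y i ∈ K ∧ SRF.z x y i ≠ 0 := by
      have hx : x ∈ K := IntermediateField.subset_adjoin κ _ (Set.mem_insert _ _)
      have hy : y ∈ K := IntermediateField.subset_adjoin κ _ (Set.mem_insert_of_mem _ rfl)
      have hx0 : x ≠ 0 := hS.indep.ne_zero 0
      have hy0 : y ≠ 0 := hS.indep.ne_zero 1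
      fin_cases i
      · exact ⟨one_mem K, one_ne_zero⟩
      · exact ⟨hx, hx0⟩
      · exact ⟨hy, hy0⟩
    have hwi : w / SRF.z x y i ^ c ∈ SRF.chart κ x y i := (hSEC κ F x y hS c w).1 hw i
    obtain ⟨b, hb, h⟩ := core hTRD (SRF.base κ x y i).toSubring K hB1 hB2 hic hfd hsep w hgen'
      (SRF.z x y i ^ c) (pow_mem hzi.1 c) (pow_ne_zero c hzi.2) hwi r hr
    refine ⟨b, hb, ?_⟩
    rw [pow_mul]
    exact h

end Pool.Agent.CPT
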