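import Pool.Agent.CPT.StmtsE

set_option autoImplicit false

/-!
# PHI: an `F²`-linear map with bounded poles which does not kill `X`
-/

noncomputable section

namespace Pool.Agent.CPT

open Pool.Agent

namespace PHI_

section

variable {κ F : Type} [Field κ] [Field F] [Algebra κ F] {x y : F}

theorem ne0 (hS : SRF.IsSurf κ x y) : x ≠ 0 ∧ y ≠ 0 := by
  have h := hS.indep
  refine ⟨?_, ?_⟩
  · have := h.ne_zero 0
    simpa using this
  · have := h.ne_zero 1
    simpa using this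

theorem z_mon (i : Fin 3) : ∃ m n : ℤ, SRF.z x y i = x ^ m * y ^ n := by
  fin_cases i
  · exact ⟨0, 0, by simp [SRF.z]⟩
  · exact ⟨1, 0, by simp [SRF.z]⟩
  · exact ⟨0, 1, by simp [SRF.z]⟩

theorem z_ne (hx : x ≠ 0) (hy : y ≠ 0) (i : Fin 3) : SRF.z x y i ≠ 0 := by
  obtain ⟨m, n, h⟩ := z_mon (x := x) (y := y) i
  rw [h]
  exact mul_ne_zero (zpow_ne_zero _ hx) (zpow_ne_zero _ hy)

theorem base_mon (hx : x ≠ 0) (hy : y ≠ 0) (i : Fin 3) (g : F)
    (hg : g ∈ Submonoid.closure (Set.range fun j => SRF.z x y j / SRF.z x y i)) :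
    ∃ m n : ℤ, g = x ^ m * y ^ n := by
  induction hg using Submonoid.closure_induction with
  | mem g hg =>
    obtain ⟨j, rfl⟩ := hg
    obtain ⟨a, b, h1⟩ := z_mon (x := x) (y := y) j
    obtain ⟨a', b', h2⟩ := z_mon (x := x) (y := y) i
    refine ⟨a - a', b - b', ?_⟩
    change SRF.z x y j / SRF.z x y i = _
    rw [h1, h2, zpow_sub₀ hx, zpow_sub₀ hy]
    field_simp
  | one => exact ⟨0, 0, by simp⟩
  | mul g g' _ _ h1 h2 =>
    obtain ⟨a, b, rfl⟩ := h1
    obtain ⟨a', b', rfl⟩ := h2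
    refine ⟨a + a', b + b', ?_⟩
    rw [zpow_add₀ hx, zpow_add₀ hy]
    ring

theorem phi_base [IsAlgClosed κ] (hx : x ≠ 0) (hy : y ≠ 0) (φ : F → F)
    (hadd : ∀ f g, φ (f + g) = φ f + φ g) (hsq : ∀ f g, φ (f ^ 2 * g) = f ^ 2 * φ g)
    (hmon : ∀ m n : ℤ, φ (x ^ m * y ^ n) = x ^ m * y ^ n ∨ φ (x ^ m * y ^ n) = 0)
    (i : Fin 3) (g : F) (hg : g ∈ SRF.base κ x y i) : φ g ∈ SRF.base κ x y i := by
  have h0 : φ 0 = 0 := by
    have := hadd 0 0
    rw [add_zero] at this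
    have h1 : φ 0 + φ 0 = φ 0 + 0 := by rw [add_zero]; exact this.symm
    exact add_left_cancel h1
  have hg' : g ∈ Submodule.span κ (Submonoid.closure
      (Set.range fun j => SRF.z x y j / SRF.z x y i) : Set F) := by
    rw [← Algebra.adjoin_eq_span]
    exact hg
  induction hg' using Submodule.span_induction with
  | mem g hgm =>
    obtain ⟨m, n, h⟩ := base_mon hx hy i g hgm
    rcases hmon m n with h1 | h1
    · rw [h, h1, ← h]
      exact hg
    · rw [h, h1]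
      exact zero_mem _
  | zero => rw [h0]; exact zero_mem _
  | add a b ha hb iha ihb =>
    rw [hadd]
    refine add_mem (iha ?_) (ihb ?_)
    · have : a ∈ Subalgebra.toSubmodule (SRF.base κ x y i) := by
        unfold SRF.base
        rw [Algebra.adjoin_eq_span]
        exact ha
      exact this
    · have : b ∈ Subalgebra.toSubmodule (SRF.base κ x y i) := by
        unfold SRF.base
        rw [Algebra.adjoin_eq_span]
        exact hb
      exact this
  | smul c a ha iha =>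
    have hab : a ∈ SRF.base κ x y i := by
      have : a ∈ Subalgebra.toSubmodule (SRF.base κ x y i) := by
        unfold SRF.base
        rw [Algebra.adjoin_eq_span]
        exact ha
      exact this
    obtain ⟨s, hs⟩ := IsAlgClosed.exists_pow_nat_eq c (n := 2) (by norm_num)
    have h1 : φ (c • a) = c • φ a := by
      rw [← hs, Algebra.smul_def, Algebra.smul_def, map_pow, hsq]
    rw [h1]
    exact Subalgebra.smul_mem _ (iha hab) c

theorem phi_sum (φ : F → F) (hadd : ∀ f g, φ (f + g) = φ f + φ g) (n : ℕ) (u : ℕ → F) :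
    φ (∑ j ∈ Finset.range n, u j) = ∑ j ∈ Finset.range n, φ (u j) := by
  have h0 : φ 0 = 0 := by
    have := hadd 0 0
    rw [add_zero] at this
    have h1 : φ 0 + φ 0 = φ 0 + 0 := by rw [add_zero]; exact this.symm
    exact add_left_cancel h1
  induction n with
  | zero => simp [h0]
  | succ n ih => rw [Finset.sum_range_succ, hadd, ih, Finset.sum_range_succ]

theorem base_le_chart (i : Fin 3) (g : F) (hg : g ∈ SRF.base κ x y i) :
    g ∈ SRF.chart κ x y i := by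
  change IsIntegral (SRF.base κ x y i) g
  exact isIntegral_algebraMap (R := SRF.base κ x y i) (A := F) (x := ⟨g, hg⟩)

end

end PHI_

theorem phi_proof (hPRJ : Stmt_PRJ) (hPHC : Stmt_PHC) (_hBAS : SRF.Stmt_BAS)
    (hLOC : SRF.Stmt_LOC) (hHCH : SRF.Stmt_HCH) (hSEC : SRF.Stmt_SEC) : Stmt_PHI := by
  intro κ F _ _ _ _ _ x y hS c w hw hgen X hX
  obtain ⟨hx, hy⟩ := PHI_.ne0 hS
  obtain ⟨Φ, hadd, hsq, hone, hker, hmon⟩ := hPRJ κ F x y hS
  obtain ⟨e, he, hPH⟩ := hPHC κ F x y hS c w hw hgen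
  have hl : ∃ l, Φ l X ≠ 0 := by
    by_contra hcon
    push Not at hcon
    exact hX (hker X hcon)
  obtain ⟨l, hlX⟩ := hl
  refine ⟨e ^ 2, Φ l, pow_ne_zero 2 he, hadd l, hsq l, hone l, hlX, ?_⟩
  intro O f hf hφ
  obtain ⟨i, hi, -⟩ := O.2.2
  obtain ⟨a, ha, b, hb, hb0, hbO, hfab⟩ := hLOC κ F x y hS O i hi f hf
  obtain ⟨hH0, -, hHi⟩ := hHCH κ F x y hS O
  have hHz := (hHi i).mp hi
  have hz := PHI_.z_ne hx hy (i := i)
  have hOrd := O.isOrd
  obtain ⟨bb, hbb, hsum⟩ := hPH i (a * b) (mul_mem ha hb)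
  have hwc : w / SRF.z x y i ^ c ∈ SRF.chart κ x y i := (hSEC κ F x y hS c w).mp hw i
  have h1 := congrArg (Φ l) hsum
  rw [hsq, PHI_.phi_sum (Φ l) (hadd l)] at h1
  have h2 : ∑ j ∈ Finset.range (Module.finrank (KK κ x y) F),
      Φ l (bb j * ((w / SRF.z x y i ^ c) ^ j) ^ 2) ∈ O.1.toSubring := by
    refine sum_mem ?_
    intro j _
    rw [mul_comm, hsq]
    refine mul_mem (hi (pow_mem (pow_mem hwc j) 2)) (hi ?_)
    exact PHI_.base_le_chart i _ (PHI_.phi_base hx hy (Φ l) (hadd l) (hsq l) (hmon l) i _ (hbb j))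
  rw [← h1] at h2
  have hff : f = b⁻¹ ^ 2 * (a * b) := by
    rw [hfab]
    field_simp
  have hφf : Φ l f = b⁻¹ ^ 2 * Φ l (a * b) := by
    rw [← hsq, ← hff]
  have hφr : Φ l (a * b) ≠ 0 := by
    intro h0
    apply hφ
    rw [hφf, h0, mul_zero]
  set D := Module.finrank (KK κ x y) F with hD
  have hbi : b⁻¹ ≠ 0 := inv_ne_zero hb0
  have hq : e / SRF.z x y i ^ (c * (D - 1)) ≠ 0 := div_ne_zero he (pow_ne_zero _ hz)
  have h3 := (hOrd.mem _ (mul_ne_zero (pow_ne_zero 2 hq) hφr)).mp h2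
  rw [hOrd.mul _ _ (pow_ne_zero 2 hq) hφr, hOrd.pow hq, div_eq_mul_inv,
    hOrd.mul _ _ he (inv_ne_zero (pow_ne_zero _ hz)), hOrd.inv (pow_ne_zero _ hz),
    hOrd.pow hz] at h3
  have h4 : 0 ≤ SRF.ord O.1 b⁻¹ := (hOrd.mem _ hbi).mp hbO
  have h5 : SRF.ord O.1 (e ^ 2 * Φ l f) =
      2 * SRF.ord O.1 e + (2 * SRF.ord O.1 b⁻¹ + SRF.ord O.1 (Φ l (a * b))) := by
    rw [hφf, hOrd.mul _ _ (pow_ne_zero 2 he) (mul_ne_zero (pow_ne_zero 2 hbi) hφr),
      hOrd.pow he, hOrd.mul _ _ (pow_ne_zero 2 hbi) hφr, hOrd.pow hbi]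
    push_cast
    ring
  rw [h5]
  have h6 : ((c * (D - 1) : ℕ) : ℤ) * SRF.H κ x y O ≤ ((c * D : ℕ) : ℤ) * SRF.H κ x y O := by
    apply mul_le_mul_of_nonneg_right _ hH0
    exact_mod_cast Nat.mul_le_mul_left c (Nat.sub_le D 1)
  have h7 : SRF.ord O.1 (SRF.z x y i) = - SRF.H κ x y O := by omega
  rw [h7] at h3
  push_cast at h3 h6 ⊢
  nlinarith [h3, h4, h6]

end Pool.Agent.CPT
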