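import Pool.Agent.CPT.StmtsE

set_option autoImplicit false

noncomputable section

namespace Pool.Agent.CPT

open Pool.Agent

namespace PRJ_

open TensorProduct KaehlerDifferential in
/-- the derivations `∂/∂x`, `∂/∂y` of a surface -/
theorem exists_der (κ F : Type) [Field κ] [Field F] [Algebra κ F] (x y : F)
    (h : SRF.IsSurf κ x y) (i : Fin 2) :
    ∃ D : Derivation κ F F, ∀ j, D (![x, y] j) = if j = i then 1 else 0 := by
  classical
  let _ : Algebra (MvPolynomial (Fin 2) κ) F := (MvPolynomial.aeval ![x, y]).toRingHom.toAlgebra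
  have hPF : ∀ p : MvPolynomial (Fin 2) κ, algebraMap (MvPolynomial (Fin 2) κ) F p =
      MvPolynomial.aeval ![x, y] p := fun _ => rfl
  have : IsScalarTower κ (MvPolynomial (Fin 2) κ) F := by
    apply IsScalarTower.of_algebraMap_eq
    intro c
    rw [hPF, MvPolynomial.algebraMap_eq, MvPolynomial.aeval_C]
  let K' := IntermediateField.adjoin κ {x, y}
  have hx : x ∈ K' := IntermediateField.subset_adjoin _ _ (by simp)
  have hy : y ∈ K' := IntermediateField.subset_adjoin _ _ (by simp)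
  let _ : Algebra (MvPolynomial (Fin 2) κ) K' :=
    (MvPolynomial.aeval ![(⟨x, hx⟩ : K'), ⟨y, hy⟩]).toRingHom.toAlgebra
  have hPK : ∀ p : MvPolynomial (Fin 2) κ, algebraMap (MvPolynomial (Fin 2) κ) K' p =
      MvPolynomial.aeval ![(⟨x, hx⟩ : K'), ⟨y, hy⟩] p := fun _ => rfl
  have hcomp : ∀ p : MvPolynomial (Fin 2) κ, algebraMap (MvPolynomial (Fin 2) κ) F p =
      algebraMap K' F (algebraMap (MvPolynomial (Fin 2) κ) K' p) := by
    have h1 : (MvPolynomial.aeval ![x, y] : MvPolynomial (Fin 2) κ →ₐ[κ] F) =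
        K'.val.comp (MvPolynomial.aeval ![(⟨x, hx⟩ : K'), ⟨y, hy⟩]) := by
      apply MvPolynomial.algHom_ext
      intro j
      fin_cases j <;> simp
    intro p
    rw [hPF, hPK]
    exact DFunLike.congr_fun h1 p
  have : IsScalarTower (MvPolynomial (Fin 2) κ) K' F := IsScalarTower.of_algebraMap_eq hcomp
  have hinj : Function.Injective (algebraMap (MvPolynomial (Fin 2) κ) F) := h.indep
  have hinj' : Function.Injective (algebraMap (MvPolynomial (Fin 2) κ) K') := by
    intro p q hpq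
    apply hinj
    rw [hcomp, hcomp, hpq]
  have : FaithfulSMul (MvPolynomial (Fin 2) κ) K' :=
    (faithfulSMul_iff_algebraMap_injective _ _).2 hinj'
  have : IsFractionRing (MvPolynomial (Fin 2) κ) K' := by
    apply IsFractionRing.of_field
    rintro ⟨f, hf⟩
    have hf' := IntermediateField.mem_adjoin_iff_div.1 hf
    obtain ⟨a, ha, b, hb, hab⟩ := hf'
    have hr : Algebra.adjoin κ {x, y} = (MvPolynomial.aeval ![x, y]).range := by
      rw [← Algebra.adjoin_range_eq_range_aeval]
      congr 1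
      ext t
      simp [eq_comm, or_comm]
    rw [hr] at ha hb
    obtain ⟨p, hp⟩ := ha
    obtain ⟨q, hq⟩ := hb
    refine ⟨p, q, ?_⟩
    apply (algebraMap K' F).injective
    rw [map_div₀, ← hcomp, ← hcomp]
    change f = _
    rw [hab, ← hp, ← hq]
    rfl
  have : Algebra.FormallyEtale (MvPolynomial (Fin 2) κ) K' :=
    Algebra.FormallyEtale.of_isLocalization (nonZeroDivisors (MvPolynomial (Fin 2) κ))
  have : Algebra.IsSeparable K' F := h.sep
  have : Algebra.FormallyEtale K' F := Algebra.FormallyEtale.of_isSeparable K' F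
  have : Algebra.FormallyEtale (MvPolynomial (Fin 2) κ) F :=
    Algebra.FormallyEtale.comp (MvPolynomial (Fin 2) κ) K' F
  let b := ((KaehlerDifferential.mvPolynomialBasis κ (Fin 2)).baseChange F).map
    (KaehlerDifferential.tensorKaehlerEquivOfFormallyEtale κ (MvPolynomial (Fin 2) κ) F)
  refine ⟨(b.coord i).compDer (KaehlerDifferential.D κ F), fun j => ?_⟩
  have h2 : ![x, y] j = algebraMap (MvPolynomial (Fin 2) κ) F (MvPolynomial.X j) := by
    rw [hPF, MvPolynomial.aeval_X]
  rw [h2]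
  change (b.coord i) (KaehlerDifferential.D κ F _) = _
  rw [Module.Basis.coord_apply, Module.Basis.map_repr, LinearEquiv.trans_apply,
    KaehlerDifferential.tensorKaehlerEquivOfFormallyEtale_symm_D_algebraMap,
    Module.Basis.baseChange_repr_tmul, KaehlerDifferential.mvPolynomialBasis_repr_D_X,
    Finsupp.single_apply]
  split_ifs <;> simp

section char2

variable {F : Type} [Field F] [CharP F 2]

/-- the subfield `F² + F² x + F² y + F² x y` -/
def VV (x y : F) : Subfield F where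
  carrier := {f | ∃ a b c e, f = a ^ 2 + b ^ 2 * x + c ^ 2 * y + e ^ 2 * (x * y)}
  mul_mem' := by
    rintro f f' ⟨a, b, c, e, rfl⟩ ⟨a', b', c', e', rfl⟩
    refine ⟨a * a' + b * b' * x + c * c' * y + e * e' * (x * y),
      a * b' + b * a' + (c * e' + e * c') * y, a * c' + c * a' + (b * e' + e * b') * x,
      a * e' + e * a' + (b * c' + c * b'), ?_⟩
    simp only [CharTwo.add_sq, mul_pow]
    ring
  one_mem' := ⟨1, 0, 0, 0, by ring⟩
  add_mem' := by
    rintro f f' ⟨a, b, c, e, rfl⟩ ⟨a', b', c', e', rfl⟩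
    refine ⟨a + a', b + b', c + c', e + e', ?_⟩
    simp only [CharTwo.add_sq]
    ring
  zero_mem' := ⟨0, 0, 0, 0, by ring⟩
  neg_mem' := by
    rintro f ⟨a, b, c, e, rfl⟩
    refine ⟨a, b, c, e, ?_⟩
    rw [CharTwo.neg_eq]
  inv_mem' := by
    rintro f ⟨a, b, c, e, hf⟩
    by_cases h : f = 0
    · rw [h, inv_zero]
      exact ⟨0, 0, 0, 0, by ring⟩
    · refine ⟨f⁻¹ * a, f⁻¹ * b, f⁻¹ * c, f⁻¹ * e, ?_⟩
      have h1 : f⁻¹ = f⁻¹ ^ 2 * f := by field_simp
      calc f⁻¹ = f⁻¹ ^ 2 * f := h1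
        _ = f⁻¹ ^ 2 * (a ^ 2 + b ^ 2 * x + c ^ 2 * y + e ^ 2 * (x * y)) := by rw [← hf]
        _ = _ := by ring

theorem sq_mem (x y a : F) : a ^ 2 ∈ VV x y := ⟨a, 0, 0, 0, by ring⟩
theorem x_mem (x y : F) : x ∈ VV x y := ⟨0, 1, 0, 0, by ring⟩
theorem y_mem (x y : F) : y ∈ VV x y := ⟨0, 0, 1, 0, by ring⟩

end char2

section

variable {κ F : Type} [Field κ] [IsAlgClosed κ] [CharP κ 2] [Field F] [CharP F 2] [Algebra κ F]
  {x y : F}

theorem all_mem (h : SRF.IsSurf κ x y) (f : F) : f ∈ VV x y := by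
  have hc : ∀ c : κ, algebraMap κ F c ∈ VV x y := by
    intro c
    obtain ⟨r, hr⟩ := IsAlgClosed.exists_pow_nat_eq c (n := 2) (by norm_num)
    rw [← hr, map_pow]
    exact sq_mem x y _
  have h1 : IntermediateField.adjoin κ {x, y} ≤ (VV x y).toIntermediateField hc := by
    rw [IntermediateField.adjoin_le_iff]
    rintro t (rfl | rfl)
    · exact x_mem _ _
    · exact y_mem _ _
  let K' := IntermediateField.adjoin κ {x, y}
  have : Algebra.IsSeparable K' F := h.sep
  have : CharP K' 2 := charP_of_injective_algebraMap (algebraMap κ K').injective 2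
  have : ExpChar K' 2 := ExpChar.prime Nat.prime_two
  have h2 := IntermediateField.adjoin_eq_adjoin_pow_expChar_of_isSeparable' K' F Set.univ 2
  have h3 : IntermediateField.adjoin K' ((· ^ 2) '' (Set.univ : Set F)) ≤
      (VV x y).toIntermediateField (K := K') (fun c => h1 c.2) := by
    rw [IntermediateField.adjoin_le_iff]
    rintro _ ⟨t, -, rfl⟩
    exact sq_mem x y t
  rw [← h2] at h3
  exact h3 (IntermediateField.subset_adjoin _ _ (Set.mem_univ f))

omit [IsAlgClosed κ] [CharP κ 2] in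
theorem der_sq (D : Derivation κ F F) (r s : F) : D (r ^ 2 * s) = r ^ 2 * D s := by
  rw [Derivation.leibniz, Derivation.leibniz_pow]
  have : (2 : F) = 0 := CharTwo.two_eq_zero
  simp only [smul_eq_mul, nsmul_eq_mul, Nat.cast_ofNat, this]
  ring

omit [IsAlgClosed κ] [CharP κ 2] in
theorem indep (h : SRF.IsSurf κ x y) (a b c e : F)
    (h0 : a ^ 2 + b ^ 2 * x + c ^ 2 * y + e ^ 2 * (x * y) = 0) :
    a = 0 ∧ b = 0 ∧ c = 0 ∧ e = 0 := by
  obtain ⟨D0, hD0⟩ := exists_der κ F x y h 0
  obtain ⟨D1, hD1⟩ := exists_der κ F x y h 1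
  have x0 : D0 x = 1 := by simpa using hD0 0
  have y0 : D0 y = 0 := by simpa using hD0 1
  have x1 : D1 x = 0 := by simpa using hD1 0
  have y1 : D1 y = 1 := by simpa using hD1 1
  have sq0 : ∀ (D : Derivation κ F F) (r : F), D (r ^ 2) = 0 := by
    intro D r
    have := der_sq D r 1
    rwa [mul_one, Derivation.map_one_eq_zero, mul_zero] at this
  have h1 := congrArg D0 h0
  simp only [map_add, sq0, x0, y0, Derivation.leibniz, map_zero, smul_eq_mul] at h1
  have h1' : b ^ 2 + e ^ 2 * y = 0 := by linear_combination h1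
  have h2 := congrArg D1 h1'
  simp only [map_add, der_sq, sq0, y1, map_zero] at h2
  have he : e = 0 := by
    have : e ^ 2 = 0 := by linear_combination h2
    exact pow_eq_zero_iff (two_ne_zero) |>.1 this
  have hb : b = 0 := by
    have : b ^ 2 = 0 := by
      rw [he] at h1'
      linear_combination h1'
    exact pow_eq_zero_iff (two_ne_zero) |>.1 this
  rw [he, hb] at h0
  have h3 := congrArg D1 h0
  simp only [map_add, der_sq, sq0, y1, map_zero] at h3
  have hcc : c = 0 := by
    have : c ^ 2 = 0 := by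
      have h4 : D1 (0 ^ 2 * (x * y)) = 0 := by simp
      have h5 : D1 (0 ^ 2 * x) = 0 := by simp
      simp at h3
      simpa using h3
    exact pow_eq_zero_iff (two_ne_zero) |>.1 this
  have ha : a = 0 := by
    have : a ^ 2 = 0 := by
      rw [hcc] at h0
      linear_combination h0
    exact pow_eq_zero_iff (two_ne_zero) |>.1 this
  exact ⟨ha, hb, hcc, he⟩

omit [IsAlgClosed κ] [CharP κ 2] in
theorem uniq (h : SRF.IsSurf κ x y) (a b c e a' b' c' e' : F)
    (h0 : a ^ 2 + b ^ 2 * x + c ^ 2 * y + e ^ 2 * (x * y) =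
      a' ^ 2 + b' ^ 2 * x + c' ^ 2 * y + e' ^ 2 * (x * y)) :
    a = a' ∧ b = b' ∧ c = c' ∧ e = e' := by
  have h1 := indep h (a - a') (b - b') (c - c') (e - e') (by
    simp only [CharTwo.sub_eq_add, CharTwo.add_sq]
    have h2 := CharTwo.add_self_eq_zero (a ^ 2 + b ^ 2 * x + c ^ 2 * y + e ^ 2 * (x * y))
    calc _ = (a ^ 2 + b ^ 2 * x + c ^ 2 * y + e ^ 2 * (x * y)) +
        (a' ^ 2 + b' ^ 2 * x + c' ^ 2 * y + e' ^ 2 * (x * y)) := by ring
      _ = 0 := by rw [← h0, h2])
  exact ⟨sub_eq_zero.1 h1.1, sub_eq_zero.1 h1.2.1, sub_eq_zero.1 h1.2.2.1, sub_eq_zero.1 h1.2.2.2⟩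

end

end PRJ_

open PRJ_ in
theorem prj_proof : Stmt_PRJ := by
  intro κ F _ _ _ _ _ x y h
  have : CharP F 2 := charP_of_injective_algebraMap (algebraMap κ F).injective 2
  choose a b c e hf using fun f => all_mem h f
  have un := fun f a' b' c' e' (h1 : f = a' ^ 2 + b' ^ 2 * x + c' ^ 2 * y + e' ^ 2 * (x * y)) =>
    uniq h (a f) (b f) (c f) (e f) a' b' c' e' ((hf f).symm.trans h1)
  have hx : x ≠ 0 := by simpa using h.indep.ne_zero 0
  have hy : y ≠ 0 := by simpa using h.indep.ne_zero 1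
  refine ⟨fun l f => ![b f ^ 2 * x, c f ^ 2 * y, e f ^ 2 * (x * y)] l, ?_, ?_, ?_, ?_, ?_⟩
  · intro l f g
    obtain ⟨-, h2, h3, h4⟩ := un (f + g) (a f + a g) (b f + b g) (c f + c g) (e f + e g) (by
      simp only [CharTwo.add_sq]
      conv_lhs => rw [hf f, hf g]
      ring)
    fin_cases l
    · change b (f + g) ^ 2 * x = b f ^ 2 * x + b g ^ 2 * x
      rw [h2, CharTwo.add_sq, add_mul]
    · change c (f + g) ^ 2 * y = c f ^ 2 * y + c g ^ 2 * y
      rw [h3, CharTwo.add_sq, add_mul]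
    · change e (f + g) ^ 2 * (x * y) = e f ^ 2 * (x * y) + e g ^ 2 * (x * y)
      rw [h4, CharTwo.add_sq, add_mul]
  · intro l f g
    obtain ⟨-, h2, h3, h4⟩ := un (f ^ 2 * g) (f * a g) (f * b g) (f * c g) (f * e g) (by
      conv_lhs => rw [hf g]
      ring)
    fin_cases l
    · change b (f ^ 2 * g) ^ 2 * x = f ^ 2 * (b g ^ 2 * x)
      rw [h2]
      ring
    · change c (f ^ 2 * g) ^ 2 * y = f ^ 2 * (c g ^ 2 * y)
      rw [h3]
      ring
    · change e (f ^ 2 * g) ^ 2 * (x * y) = f ^ 2 * (e g ^ 2 * (x * y))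
      rw [h4]
      ring
  · intro l
    obtain ⟨-, h2, h3, h4⟩ := un 1 1 0 0 0 (by ring)
    fin_cases l
    · change b 1 ^ 2 * x = 0
      rw [h2]
      ring
    · change c 1 ^ 2 * y = 0
      rw [h3]
      ring
    · change e 1 ^ 2 * (x * y) = 0
      rw [h4]
      ring
  · intro f hl
    refine ⟨a f, ?_⟩
    have h0 : b f ^ 2 * x = 0 := hl 0
    have h1 : c f ^ 2 * y = 0 := hl 1
    have h2 : e f ^ 2 * (x * y) = 0 := hl 2
    conv_rhs => rw [hf f, h0, h1, h2]
    ring
  · intro l m n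
    obtain ⟨m', hm | hm⟩ := Int.even_or_odd' m <;> obtain ⟨n', hn | hn⟩ := Int.even_or_odd' n
    · have hmn : x ^ m * y ^ n = (x ^ m' * y ^ n') ^ 2 := by
        rw [hm, hn, mul_comm 2 m', mul_comm 2 n', zpow_mul, zpow_mul, mul_pow]
        norm_cast
      obtain ⟨h1, h2, h3, h4⟩ := un (x ^ m * y ^ n) (x ^ m' * y ^ n') 0 0 0 (by rw [hmn]; ring)
      right
      fin_cases l
      · change b _ ^ 2 * x = 0
        rw [h2]
        ring
      · change c _ ^ 2 * y = 0
        rw [h3]
        ring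
      · change e _ ^ 2 * (x * y) = 0
        rw [h4]
        ring
    · have hmn : x ^ m * y ^ n = (x ^ m' * y ^ n') ^ 2 * y := by
        rw [hm, hn, mul_comm 2 m', mul_comm 2 n', zpow_add₀ hy, zpow_mul, zpow_mul, mul_pow]
        norm_cast
        ring
      obtain ⟨h1, h2, h3, h4⟩ := un (x ^ m * y ^ n) 0 0 (x ^ m' * y ^ n') 0 (by rw [hmn]; ring)
      fin_cases l
      · right
        change b _ ^ 2 * x = 0
        rw [h2]
        ring
      · left
        change c _ ^ 2 * y = _
        rw [h3, hmn]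
      · right
        change e _ ^ 2 * (x * y) = 0
        rw [h4]
        ring
    · have hmn : x ^ m * y ^ n = (x ^ m' * y ^ n') ^ 2 * x := by
        rw [hm, hn, mul_comm 2 m', mul_comm 2 n', zpow_add₀ hx, zpow_mul, zpow_mul, mul_pow]
        norm_cast
        ring
      obtain ⟨h1, h2, h3, h4⟩ := un (x ^ m * y ^ n) 0 (x ^ m' * y ^ n') 0 0 (by rw [hmn]; ring)
      fin_cases l
      · left
        change b _ ^ 2 * x = _
        rw [h2, hmn]
      · right
        change c _ ^ 2 * y = 0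
        rw [h3]
        ring
      · right
        change e _ ^ 2 * (x * y) = 0
        rw [h4]
        ring
    · have hmn : x ^ m * y ^ n = (x ^ m' * y ^ n') ^ 2 * (x * y) := by
        rw [hm, hn, mul_comm 2 m', mul_comm 2 n', zpow_add₀ hx, zpow_add₀ hy, zpow_mul, zpow_mul,
          mul_pow]
        norm_cast
        ring
      obtain ⟨h1, h2, h3, h4⟩ := un (x ^ m * y ^ n) 0 0 0 (x ^ m' * y ^ n') (by rw [hmn]; ring)
      fin_cases l
      · right
        change b _ ^ 2 * x = 0
        rw [h2]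
        ring
      · right
        change c _ ^ 2 * y = 0
        rw [h3]
        ring
      · left
        change e _ ^ 2 * (x * y) = _
        rw [h4, hmn]

end Pool.Agent.CPT
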