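import Pool.Agent.CPT.StmtsE

set_option autoImplicit false

/-! # SFS: the surface of `SRF` as `Surf` -/

namespace Pool.Agent.CPT

open Pool.Agent

section
variable {κ F : Type} [Field κ] [Field F] [Algebra κ F] {x y : F}

theorem dvOf_O (O : SRF.PP κ x y) (f : F) : (dvOf O).O f ↔ f ∈ O.1 := by
  constructor
  · rintro (h | h)
    · rw [h]; exact zero_mem _
    · by_cases hf : f = 0
      · rw [hf]; exact zero_mem _
      · exact (O.isOrd.mem f hf).mpr h
  · intro h
    by_cases hf : f = 0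
    · exact Or.inl hf
    · exact Or.inr ((O.isOrd.mem f hf).mp h)

theorem dvOf_inj : Function.Injective (dvOf (κ := κ) (F := F) (x := x) (y := y)) := by
  intro O O' h
  apply Subtype.ext
  ext f
  rw [← dvOf_O O f, ← dvOf_O O' f, h]

theorem dvOf_M (O : SRF.PP κ x y) (f : F) (hf : f ≠ 0) (h : (dvOf O).M f) : f⁻¹ ∉ O.1 := by
  intro h1
  have h2 := (O.isOrd.mem f⁻¹ (inv_ne_zero hf)).mp h1
  rw [O.isOrd.inv hf] at h2
  rcases h with h | h
  · exact hf h
  · have h3 : 0 < SRF.ord O.1 f := h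
    omega

end

theorem nonunits_of_inv {F : Type} [Field F] (V : ValuationSubring F) (f : F)
    (h : f = 0 ∨ f⁻¹ ∉ V) : f ∈ V.nonunits := by
  rw [ValuationSubring.mem_nonunits_iff]
  rcases h with h | h
  · rw [h, map_zero]; exact zero_lt_one
  · by_contra h1
    push Not at h1
    apply h
    rw [← ValuationSubring.valuation_le_one_iff, map_inv₀]
    exact inv_le_one_of_one_le₀ h1

theorem pf_SFS (h1 : Pool.Agent.SRF.Stmt_AX1) (h2 : Pool.Agent.SRF.Stmt_AX2)
    (h3 : Pool.Agent.SRF.Stmt_AX3) : Stmt_SFS := by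
  intro κ F _ _ _ x y hS
  refine ⟨{ PP := Set.range (dvOf (κ := κ) (x := x) (y := y))
            thr := fun e V => ∃ O : SRF.PP κ x y, dvOf O = e ∧ SRF.thr κ x y O.1 V
            ax1 := ?_
            ax2 := ?_
            ax3 := ?_ }, rfl, ?_⟩
  · intro V hV f hf
    apply h1 κ F x y hS V hV f
    intro O hO
    exact (dvOf_O O f).mp (hf _ ⟨O, rfl⟩ ⟨O, rfl, hO⟩)
  · rintro V hV f e - ⟨O, rfl, hO⟩ hM hf
    apply nonunits_of_inv
    by_cases hf0 : f = 0
    · exact Or.inl hf0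
    · right
      exact h2 κ F x y hS V hV f hf0
        (fun O' hO' => (dvOf_O O' f).mp (hf _ ⟨O', rfl⟩ ⟨O', rfl, hO'⟩)) O hO
        (dvOf_M O f hf0 hM)
  · rintro V hV e ⟨O, rfl⟩ hO
    refine ⟨O, rfl, h3 κ F x y hS V hV O ?_⟩
    intro f hf
    exact (dvOf_O O f).mp (hO f hf)
  · intro O V
    constructor
    · rintro ⟨O', hO', h⟩
      rw [← dvOf_inj hO']; exact h
    · intro h
      exact ⟨O, rfl, h⟩

end Pool.Agent.CPT
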