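import Pool.Agent.SRF.AX1
import Pool.Agent.SRF.AX2
import Pool.Agent.SRF.AX3
import Pool.Agent.SRF.BAS
import Pool.Agent.SRF.CEN
import Pool.Agent.SRF.DVQ
import Pool.Agent.SRF.FIN
import Pool.Agent.SRF.FRA
import Pool.Agent.SRF.HCH
import Pool.Agent.SRF.LIF
import Pool.Agent.SRF.LOC
import Pool.Agent.SRF.NAL
import Pool.Agent.SRF.REC
import Pool.Agent.SRF.REG
import Pool.Agent.SRF.SCI
import Pool.Agent.SRF.SCP
import Pool.Agent.SRF.SEC
import Pool.Agent.SRF.THC
import Pool.Agent.SRF.ZER

set_option autoImplicit false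

/-!
# The facts of the surface library used by CPT
-/

namespace Pool.Agent.CPT.Srf

open Pool.Agent.SRF

theorem cen : Stmt_CEN := CEN_proof
theorem fin : Stmt_FIN := FIN_proof BAS_proof
theorem fra : Stmt_FRA := FRA_proof BAS_proof
theorem loc : Stmt_LOC := LOC_proof cen LIF_proof
theorem dvq : Stmt_DVQ := DVQ_proof fin fra
theorem reg : Stmt_REG := REG_proof fin fra loc dvq
theorem rec : Stmt_REC := REC_proof reg
theorem hch : Stmt_HCH := HCH_proof cen
theorem sec : Stmt_SEC := SEC_proof rec hch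
theorem sci : Stmt_SCI := SCI_proof sec
theorem scp : Stmt_SCP := SCP_proof BAS_proof fin sec sci
theorem thc : Stmt_THC := THC_proof cen LIF_proof
theorem ax1 : Stmt_AX1 := AX1_proof cen reg
theorem ax2 : Stmt_AX2 := AX2_proof cen reg thc
theorem ax3 : Stmt_AX3 := AX3_proof cen
theorem nal : Stmt_NAL := NAL_proof BAS_proof fin loc
theorem zer : Stmt_ZER := ZER_proof cen hch sec nal

end Pool.Agent.CPT.Srf
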