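import Pool.Agent.CPT.StmtsE

set_option autoImplicit false

/-!
# CPT: TRD
-/

namespace Pool.Agent.CPT

namespace TRD_

open Polynomial

open scoped Classical in
lemma gen (A K L : Type) [CommRing A] [IsDomain A] [Field K] [Field L] [Algebra A K] [Algebra K L]
    [Algebra A L]
    [IsScalarTower A K L] [IsFractionRing A K] [IsIntegrallyClosed A] [FiniteDimensional K L]
    [Algebra.IsSeparable K L] (v : L) (hv : IsIntegral A v)
    (htop : IntermediateField.adjoin K {v} = ⊤) (u : L) (hu : IsIntegral A u) :
    ∃ b : ℕ → A, aeval v (derivative (minpoly K v)) * u =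
      ∑ j ∈ Finset.range (Module.finrank K L), algebraMap A L (b j) * v ^ j := by
  have hKv : IsIntegral K v := Algebra.IsIntegral.isIntegral v
  have htop' : Algebra.adjoin K {v} = ⊤ := by
    have h1 := IntermediateField.adjoin_simple_toSubalgebra_of_isAlgebraic hKv.isAlgebraic
    rw [htop] at h1
    rw [← h1]
    rfl
  have h1 := traceForm_dualSubmodule_adjoin (A := A) (K := K) (L := L) htop' hv
  have h2 : u ∈ (Algebra.traceForm K L).dualSubmodule
      (Subalgebra.toSubmodule (Algebra.adjoin A {v})) := by
    rw [LinearMap.BilinForm.mem_dualSubmodule]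
    intro y hy
    have hy' : IsIntegral A y := by
      have h3 : Algebra.adjoin A {v} ≤ integralClosure A L := by
        rw [Algebra.adjoin_le_iff]
        rintro x rfl
        exact hv
      exact h3 hy
    have h4 : IsIntegral A (Algebra.trace K L (u * y)) := Algebra.isIntegral_trace (hu.mul hy')
    obtain ⟨a, ha⟩ := IsIntegrallyClosed.isIntegral_iff.mp h4
    rw [Algebra.traceForm_apply, ← ha, Submodule.mem_one]
    exact ⟨a, rfl⟩
  rw [h1] at h2
  have hsep : aeval v (derivative (minpoly K v)) ≠ 0 := by
    have := Algebra.IsSeparable.isSeparable K v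
    exact this.aeval_derivative_ne_zero (minpoly.aeval K v)
  have h3 : aeval v (derivative (minpoly K v)) * u ∈
      Subalgebra.toSubmodule (Algebra.adjoin A {v}) := by
    obtain ⟨w, hw, hw'⟩ := h2
    have : u = (aeval v (derivative (minpoly K v)))⁻¹ * w := hw'.symm
    rw [this, mul_inv_cancel_left₀ hsep]
    exact hw
  rw [← Submodule.span_range_natDegree_eq_adjoin (minpoly.monic hv) (minpoly.aeval A v)] at h3
  have hdeg : (minpoly A v).natDegree = Module.finrank K L := by
    have h4 : (minpoly A v).natDegree = (minpoly K v).natDegree := by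
      rw [minpoly.isIntegrallyClosed_eq_field_fractions' K hv, (minpoly.monic hv).natDegree_map]
    rw [h4, ← IntermediateField.adjoin.finrank hKv, htop]
    exact IntermediateField.finrank_top'
  rw [hdeg] at h3
  generalize aeval v (derivative (minpoly K v)) * u = t at h3
  induction h3 using Submodule.span_induction with
  | mem x hx =>
    rw [Finset.coe_image, Set.mem_image] at hx
    obtain ⟨j, hj, rfl⟩ := hx
    refine ⟨fun i => if i = j then 1 else 0, ?_⟩
    rw [Finset.sum_eq_single j]
    · simp
    · intro i _ hij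
      simp [hij]
    · intro hj'
      exact absurd (by simpa using hj) hj'
  | zero => exact ⟨fun _ => 0, by simp⟩
  | add x y _ _ hx hy =>
    obtain ⟨b, rfl⟩ := hx
    obtain ⟨c, rfl⟩ := hy
    refine ⟨fun i => b i + c i, ?_⟩
    rw [← Finset.sum_add_distrib]
    refine Finset.sum_congr rfl fun i _ => ?_
    rw [map_add, add_mul]
  | smul a x _ hx =>
    obtain ⟨b, rfl⟩ := hx
    refine ⟨fun i => a * b i, ?_⟩
    rw [Finset.smul_sum]
    refine Finset.sum_congr rfl fun i _ => ?_
    rw [map_mul, Algebra.smul_def, mul_assoc]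

end TRD_

open TRD_ in
theorem trd_proof : Stmt_TRD := by
  intro L _ A K hAK hfrac hic hfin hsep v hv htop u hu
  let f : A →+* K := A.subtype.codRestrict K.toSubring (fun a => hAK a a.2)
  let _ : Algebra A K := f.toAlgebra
  have hst : IsScalarTower A K L := IsScalarTower.of_algebraMap_eq (fun x => rfl)
  have hfs : FaithfulSMul A K := by
    rw [faithfulSMul_iff_algebraMap_injective]
    intro a b hab
    have : ((f a : K) : L) = ((f b : K) : L) := congrArg (fun z : K => (z : L)) hab
    exact Subtype.ext this
  have hfr : IsFractionRing A K := by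
    apply IsFractionRing.of_field
    intro z
    obtain ⟨a, ha, b, hb, hb0, hz⟩ := hfrac z z.2
    refine ⟨⟨a, ha⟩, ⟨b, hb⟩, ?_⟩
    apply Subtype.ext
    exact hz
  have hic' : IsIntegrallyClosed A := by
    rw [isIntegrallyClosed_iff K]
    intro x hx
    have hx' : IsIntegral A (algebraMap K L x) := IsIntegral.algebraMap hx
    exact ⟨⟨x, hic x x.2 hx'⟩, rfl⟩
  obtain ⟨b, hb⟩ := gen A K L v hv htop u hu
  exact ⟨fun j => algebraMap A L (b j), fun j => (b j).2, hb⟩

end Pool.Agent.CPT
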