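import Pool.Agent.CPT.MainA
import Pool.Agent.CPT.NRM
import Pool.Agent.CPT.SrfMain
import Pool.Agent.CPT.SFS
import Pool.Agent.CPT.AMD
import Pool.Agent.CPT.ROT
import Pool.Agent.CPT.PRJ
import Pool.Agent.CPT.TRD
import Pool.Agent.CPT.PHC
import Pool.Agent.CPT.PHI
import Pool.Agent.CPT.BZP
import Pool.Agent.CPT.BEZ
import Pool.Agent.CPT.BND
import Pool.Agent.CPT.END1

set_option autoImplicit false

/-!
# END-1: the closed point theorem with bounds, proved
-/

namespace Pool.Agent.CPT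

theorem nrm : Stmt_NRM := nrm_proof nem dvi
theorem fin : Stmt_FIN := fin_of nrm
theorem sfs : Stmt_SFS := pf_SFS Srf.ax1 Srf.ax2 Srf.ax3
theorem amd : Stmt_AMD := amd_proof Srf.ax1 Srf.ax3 Srf.cen Srf.thc Srf.hch Srf.zer
theorem phc : Stmt_PHC := phc_proof trd_proof SRF.BAS_proof Srf.sec Srf.fin
theorem phi : Stmt_PHI := phi_proof prj_proof phc SRF.BAS_proof Srf.loc Srf.hch Srf.sec
theorem bzp : Stmt_BZP := bzp_proof Srf.nal Srf.hch SRF.BAS_proof
theorem bez : Stmt_BEZ := bez_proof bzp Srf.scp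
theorem bnd : Stmt_BND := bnd_proof phi bez

/-- END-1 (DIS I6) -/
theorem end1 : Stmt_END1 := end1_proof sfs amd rot_proof bnd nem glb_proof fin

end Pool.Agent.CPT
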