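import Pool.Agent.CPT.StmtsF

set_option autoImplicit false

noncomputable section

namespace Pool.Agent.CPT

open Pool.Agent

namespace PTS_

theorem exists_low {ι : Type} [Fintype ι] (r : ι → ℝ) (hr : ∀ i, 0 < r i) :
    ∃ e : ℝ, 0 < e ∧ ∀ i, e ≤ r i := by
  rcases isEmpty_or_nonempty ι with h | h
  · exact ⟨1, one_pos, fun i => h.elim i⟩
  · obtain ⟨i0, hi0⟩ := Finite.exists_min r
    exact ⟨r i0, hr i0, hi0⟩

/-- the five generators and the constant one -/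
def gens : Fin 6 → ℤ × (Fin 5 → Fin 5 → ℤ) :=
  ![(0, cr 0 3 1 2), (0, cr 0 2 1 3), (0, cr 0 4 1 2), (0, cr 0 2 1 4), (0, cr 0 2 4 3),
    (-1, fun _ _ => 1)]

theorem gens_cond (k : Fin 6) :
    ((gens k).1 = 0 ∧ Lam (gens k).2) ∨ ((gens k).1 = -1 ∧ ∀ i j, (gens k).2 i j = 1) := by
  fin_cases k
  · exact Or.inl ⟨rfl, Lam_cr _ _ _ _ (by decide)⟩
  · exact Or.inl ⟨rfl, Lam_cr _ _ _ _ (by decide)⟩
  · exact Or.inl ⟨rfl, Lam_cr _ _ _ _ (by decide)⟩
  · exact Or.inl ⟨rfl, Lam_cr _ _ _ _ (by decide)⟩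
  · exact Or.inl ⟨rfl, Lam_cr _ _ _ _ (by decide)⟩
  · exact Or.inr ⟨rfl, fun _ _ => rfl⟩

section
variable {κ F : Type} [Field κ] [Field F] [Algebra κ F] {x y : F} {ι : Type} [Fintype ι]
  (lab : ι → Fin 5 × Fin 5) (ρ : ι → ℤ) (es : ι → SRF.PP κ x y → ℤ)

/-- the divisor of an exponent vector -/
def dA (c : Fin 5 → Fin 5 → ℤ) (O : SRF.PP κ x y) : ℤ :=
  ∑ i, c (lab i).1 (lab i).2 * ρ i * es i O

theorem dA_basis {n : Fin 5 → Fin 5 → ℤ} (hn : Lam n) (O : SRF.PP κ x y) :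
    dA lab ρ es n O = n 0 3 * dA lab ρ es (cr 0 3 1 2) O + n 1 3 * dA lab ρ es (cr 0 2 1 3) O +
      (n 0 4 + n 3 4) * dA lab ρ es (cr 0 4 1 2) O + n 1 4 * dA lab ρ es (cr 0 2 1 4) O +
      n 3 4 * dA lab ρ es (cr 0 2 4 3) O := by
  unfold dA
  simp only [Finset.mul_sum]
  rw [← Finset.sum_add_distrib, ← Finset.sum_add_distrib, ← Finset.sum_add_distrib,
    ← Finset.sum_add_distrib]
  refine Finset.sum_congr rfl fun i _ => ?_
  have h := congrFun (congrFun (Lam_basis hn) (lab i).1) (lab i).2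
  simp only [Pi.add_apply, Pi.smul_apply, smul_eq_mul] at h
  rw [h]
  ring

end

theorem trich (a b : Fin 5 × Fin 5) : SameP a b ∨ ShareP a b ∨ DisjP a b := by
  by_cases h : SameP a b
  · exact Or.inl h
  · by_cases h1 : a.1 = b.1 ∨ a.1 = b.2 ∨ a.2 = b.1 ∨ a.2 = b.2
    · exact Or.inr (Or.inl ⟨h, h1⟩)
    · push Not at h1
      exact Or.inr (Or.inr h1)

theorem thr_self {κ F : Type} [Field κ] [Field F] [Algebra κ F] {x y : F} (O : SRF.PP κ x y) :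
    SRF.thr κ x y O.1 O.1 := by
  obtain ⟨-, i, hi, -⟩ := O.2
  exact ⟨i, hi, hi, fun a _ _ h => h⟩

theorem kv_self {κ F : Type} [Field κ] [Field F] [Algebra κ F] {x y : F} (O : SRF.PP κ x y) :
    KV κ O.1 := fun c => O.2.const_mem κ x y c

theorem label_unique {κ F : Type} [Field κ] [Field F] [Algebra κ F] {x y : F} {ι : Type}
    [Fintype ι] {lab : ι → Fin 5 × Fin 5} {r : ι → ℝ} {b : ℕ} {es : ι → SRF.PP κ x y → ℤ}
    (h : CP x y lab r b es) {i i' : ι} {O : SRF.PP κ x y} (h1 : es i O ≠ 0) (h2 : es i' O ≠ 0) :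
    SameP (lab i) (lab i') := by
  rcases trich (lab i) (lab i') with h3 | h3 | h3
  · exact h3
  · exact absurd ⟨thr_self O, thr_self O⟩ (h.disj i i' h3 O O h1 h2 O.1 (kv_self O))
  · rcases h.comm i i' h3 O with h4 | h4
    · exact absurd h4 h1
    · exact absurd h4 h2

theorem same_val {n : Fin 5 → Fin 5 → ℤ} (hn : Lam n) {a : Fin 5 × Fin 5} {p q : Fin 5}
    (h : SameP a (p, q)) : n a.1 a.2 = n p q := by
  rcases h with ⟨h1, h2⟩ | ⟨h1, h2⟩
  · rw [h1, h2]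
  · rw [h1, h2]
    exact hn.1 _ _

theorem same_trans {a c : Fin 5 × Fin 5} {p q : Fin 5} (h : SameP a c) (h' : SameP c (p, q)) :
    SameP a (p, q) := by
  rcases h with ⟨h1, h2⟩ | ⟨h1, h2⟩ <;> rcases h' with ⟨h3, h4⟩ | ⟨h3, h4⟩
  · exact Or.inl ⟨h1.trans h3, h2.trans h4⟩
  · exact Or.inr ⟨h1.trans h3, h2.trans h4⟩
  · exact Or.inr ⟨h1.trans h4, h2.trans h3⟩
  · exact Or.inl ⟨h1.trans h4, h2.trans h3⟩

theorem share {a c : Fin 5 × Fin 5} {p q s : Fin 5} (hqs : q ≠ s) (ha : a.1 ≠ a.2)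
    (hc : c.1 ≠ c.2) (h : SameP a (p, q)) (h' : SameP c (p, s)) : ShareP a c := by
  obtain ⟨a1, a2⟩ := a
  obtain ⟨c1, c2⟩ := c
  unfold SameP at h h'
  unfold ShareP SameP
  simp only at h h' ha hc ⊢
  rcases h with ⟨rfl, rfl⟩ | ⟨rfl, rfl⟩ <;> rcases h' with ⟨rfl, rfl⟩ | ⟨rfl, rfl⟩
  · refine ⟨?_, Or.inl rfl⟩
    rintro (⟨-, h2⟩ | ⟨h1, -⟩)
    · exact hqs h2
    · exact hc h1
  · refine ⟨?_, Or.inr (Or.inl rfl)⟩
    rintro (⟨h1, -⟩ | ⟨-, h2⟩)
    · exact hc h1.symm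
    · exact hqs h2
  · refine ⟨?_, Or.inr (Or.inr (Or.inl rfl))⟩
    rintro (⟨h1, -⟩ | ⟨h1, -⟩)
    · exact ha h1
    · exact hqs h1
  · refine ⟨?_, Or.inr (Or.inr (Or.inr rfl))⟩
    rintro (⟨h1, -⟩ | ⟨h1, -⟩)
    · exact hqs h1
    · exact ha h1

theorem disjp {a c : Fin 5 × Fin 5} {p q s t : Fin 5} (hd : Dist p q s t) (h : SameP a (p, q))
    (h' : SameP c (s, t)) : DisjP a c := by
  obtain ⟨a1, a2⟩ := a
  obtain ⟨c1, c2⟩ := c
  obtain ⟨d1, d2, d3, d4, d5, d6⟩ := hd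
  unfold SameP at h h'
  unfold DisjP
  simp only at h h' ⊢
  rcases h with ⟨rfl, rfl⟩ | ⟨rfl, rfl⟩ <;> rcases h' with ⟨rfl, rfl⟩ | ⟨rfl, rfl⟩
  · exact ⟨d2, d3, d4, d5⟩
  · exact ⟨d3, d2, d5, d4⟩
  · exact ⟨d4, d5, d2, d3⟩
  · exact ⟨d5, d4, d3, d2⟩

end PTS_

open PTS_ in
theorem pts_proof (hTPT : Stmt_TPT) : Stmt_PTS := by
  classical
  intro ι _ lab r b hlab hr
  obtain ⟨e, he, hle⟩ := exists_low r hr
  refine ⟨⌈3 * b * (∑ i, r i) / e⌉₊, ?_⟩
  intro κ F _ _ _ _ x y hS es hCP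
  obtain ⟨M, ρ, hM, hρ, hT⟩ := hTPT κ F x y hS ι lab r b es hCP (e / 2) (by positivity)
  have hMr : (0 : ℝ) < M := by exact_mod_cast hM
  have hρ1 : ∀ i, e / 2 * M ≤ (ρ i : ℝ) := by
    intro i
    have h1 := (abs_lt.1 (hρ i)).1
    have h2 : e / 2 ≤ (ρ i : ℝ) / M := by linarith [hle i]
    rwa [le_div_iff₀ hMr] at h2
  have hρ2 : ∀ i, (ρ i : ℝ) ≤ 3 / 2 * r i * M := by
    intro i
    have h1 := (abs_lt.1 (hρ i)).2
    have h2 : (ρ i : ℝ) / M ≤ 3 / 2 * r i := by linarith [hle i]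
    rwa [div_le_iff₀ hMr] at h2
  have hρ0 : ∀ i, 0 < ρ i := by
    intro i
    have h1 : (0 : ℝ) < ρ i := lt_of_lt_of_le (by positivity) (hρ1 i)
    exact_mod_cast h1
  have hk := fun k => hT (gens k).1 (gens k).2 (gens_cond k)
  choose T hT0 f hf0 hford using hk
  -- the common multiple
  set TT : ℕ := ∏ k, T k with hTT
  have hTTpos : 0 < TT := Finset.prod_pos fun k _ => hT0 k
  let K : Fin 6 → ℕ := fun k => ∏ j ∈ Finset.univ.erase k, T j
  have hK : ∀ k, K k * T k = TT := by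
    intro k
    rw [mul_comm]
    exact Finset.mul_prod_erase Finset.univ T (Finset.mem_univ k)
  let g : Fin 6 → F := fun k => f k ^ K k
  have hg0 : ∀ k, g k ≠ 0 := fun k => pow_ne_zero _ (hf0 k)
  have hgord : ∀ (k : Fin 6) (O : SRF.PP κ x y), SRF.ord O.1 (g k) =
      TT * (M * (gens k).1 * SRF.H κ x y O + dA lab ρ es (gens k).2 O) := by
    intro k O
    have h1 : SRF.ord O.1 (f k ^ K k) = K k * SRF.ord O.1 (f k) := O.isOrd.pow (hf0 k) (K k)
    change SRF.ord O.1 (f k ^ K k) = _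
    rw [h1, hford k O, ← hK k]
    unfold dA
    push_cast
    ring
  -- multiplicities
  let m : SRF.PP κ x y → ℤ := fun O => TT * ∑ i, ρ i * es i O
  have hterm : ∀ (O : SRF.PP κ x y) (i : ι), 0 ≤ ρ i * es i O := fun O i =>
    mul_nonneg (hρ0 i).le (hCP.nonneg i O)
  have hmlow : ∀ (O : SRF.PP κ x y) (i : ι), es i O ≠ 0 → (TT : ℤ) * ρ i ≤ m O := by
    intro O i hi
    have h1 : 1 ≤ es i O := by
      have := hCP.nonneg i O
      omega
    have h2 : ρ i * es i O ≤ ∑ i, ρ i * es i O :=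
      Finset.single_le_sum (fun j _ => hterm O j) (Finset.mem_univ i)
    have h3 : ρ i ≤ ρ i * es i O := by nlinarith [hρ0 i]
    exact mul_le_mul_of_nonneg_left (h3.trans h2) (by positivity)
  have hzero : ∀ O : SRF.PP κ x y, (∀ i, es i O = 0) → m O = 0 := by
    intro O hO
    change (TT : ℤ) * ∑ i, ρ i * es i O = 0
    rw [Finset.sum_eq_zero fun i _ => by rw [hO i, mul_zero], mul_zero]
  let D : Fin 5 → Fin 5 → Set (SRF.PP κ x y) := fun p q =>
    {O | ∃ i, es i O ≠ 0 ∧ SameP (lab i) (p, q)}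
  have hout : ∀ O : SRF.PP κ x y, (∀ p q, O ∉ D p q) → ∀ i, es i O = 0 := by
    intro O hO i
    by_contra hne
    exact hO (lab i).1 (lab i).2 ⟨i, hne, Or.inl ⟨rfl, rfl⟩⟩
  let a : (Fin 5 → Fin 5 → ℤ) → F := fun n =>
    g 0 ^ (n 0 3) * g 1 ^ (n 1 3) * g 2 ^ (n 0 4 + n 3 4) * g 3 ^ (n 1 4) * g 4 ^ (n 3 4)
  have haord : ∀ n, Lam n → ∀ O : SRF.PP κ x y, SRF.ord O.1 (a n) = TT * dA lab ρ es n O := by
    intro n hn O
    have z : ∀ (k : Fin 6) (j : ℤ), SRF.ord O.1 (g k ^ j) = j * SRF.ord O.1 (g k) := fun k j =>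
      (dvOf O).v_zpow (hg0 k) j
    have nz : ∀ (k : Fin 6) (j : ℤ), g k ^ j ≠ 0 := fun k j => zpow_ne_zero _ (hg0 k)
    have e1 : SRF.ord O.1 (a n) = n 0 3 * SRF.ord O.1 (g 0) + n 1 3 * SRF.ord O.1 (g 1) +
        (n 0 4 + n 3 4) * SRF.ord O.1 (g 2) + n 1 4 * SRF.ord O.1 (g 3) +
        n 3 4 * SRF.ord O.1 (g 4) := by
      change SRF.ord O.1 (g 0 ^ (n 0 3) * g 1 ^ (n 1 3) * g 2 ^ (n 0 4 + n 3 4) *
        g 3 ^ (n 1 4) * g 4 ^ (n 3 4)) = _
      rw [O.isOrd.mul _ _ (mul_ne_zero (mul_ne_zero (mul_ne_zero (nz 0 _) (nz 1 _)) (nz 2 _))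
          (nz 3 _)) (nz 4 _),
        O.isOrd.mul _ _ (mul_ne_zero (mul_ne_zero (nz 0 _) (nz 1 _)) (nz 2 _)) (nz 3 _),
        O.isOrd.mul _ _ (mul_ne_zero (nz 0 _) (nz 1 _)) (nz 2 _),
        O.isOrd.mul _ _ (nz 0 _) (nz 1 _), z, z, z, z, z]
    rw [e1, hgord, hgord, hgord, hgord, hgord, dA_basis lab ρ es hn O]
    have q0 : gens 0 = (0, cr 0 3 1 2) := rfl
    have q1 : gens 1 = (0, cr 0 2 1 3) := rfl
    have q2 : gens 2 = (0, cr 0 4 1 2) := rfl
    have q3 : gens 3 = (0, cr 0 2 1 4) := rfl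
    have q4 : gens 4 = (0, cr 0 2 4 3) := rfl
    rw [q0, q1, q2, q3, q4]
    ring
  have hdAD : ∀ n, Lam n → ∀ p q, ∀ O ∈ D p q, (TT : ℤ) * dA lab ρ es n O = n p q * m O := by
    rintro n hn p q O ⟨i0, hi0, hs0⟩
    change (TT : ℤ) * dA lab ρ es n O = n p q * (TT * ∑ i, ρ i * es i O)
    have h1 : dA lab ρ es n O = n p q * ∑ i, ρ i * es i O := by
      unfold dA
      rw [Finset.mul_sum]
      refine Finset.sum_congr rfl fun i _ => ?_
      by_cases hi : es i O = 0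
      · rw [hi]
        ring
      · have h2 : SameP (lab i) (p, q) := same_trans (label_unique hCP hi hi0) hs0
        rw [same_val hn h2]
        ring
    rw [h1]
    ring
  have hgD : ∀ O : SRF.PP κ x y, SRF.ord O.1 (g 5) = m O - ((TT * M : ℕ) : ℤ) * SRF.H κ x y O := by
    intro O
    rw [hgord]
    have q5 : gens 5 = (-1, fun _ _ => 1) := rfl
    rw [q5]
    change (TT : ℤ) * (M * (-1) * SRF.H κ x y O + ∑ i, 1 * ρ i * es i O) =
      TT * (∑ i, ρ i * es i O) - ((TT * M : ℕ) : ℤ) * SRF.H κ x y O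
    simp only [one_mul]
    push_cast
    ring
  let I : Inp κ F x y :=
    { D := D
      D_symm := by
        intro p q
        ext O
        constructor
        · rintro ⟨i, hi, h | h⟩
          · exact ⟨i, hi, Or.inr h⟩
          · exact ⟨i, hi, Or.inl h⟩
        · rintro ⟨i, hi, h | h⟩
          · exact ⟨i, hi, Or.inr h⟩
          · exact ⟨i, hi, Or.inl h⟩
      D_diag := by
        intro p
        ext O
        constructor
        · rintro ⟨i, hi, h | h⟩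
          · exact absurd (h.1.trans h.2.symm) (hlab i)
          · exact absurd (h.1.trans h.2.symm) (hlab i)
        · intro h
          exact absurd h (Set.notMem_empty O)
      D_disj := by
        rintro p q s hqs O ⟨i, hi, h⟩ O' ⟨i', hi', h'⟩ V hV
        exact hCP.disj i i' (share hqs (hlab i) (hlab i') h h') O O' hi hi' V hV
      D_comm := by
        rintro p q s t hd O ⟨i, hi, h⟩ ⟨i', hi', h'⟩
        have hdis : DisjP (lab i) (lab i') := disjp hd h h'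
        rcases hCP.comm i i' hdis O with h1 | h1
        · exact hi h1
        · exact hi' h1
      m := m
      m_pos := by
        rintro p q O ⟨i, hi, -⟩
        have h1 := hmlow O i hi
        have h2 : 0 < (TT : ℤ) * ρ i := mul_pos (by exact_mod_cast hTTpos) (hρ0 i)
        exact lt_of_lt_of_le h2 h1
      a := a
      a_ne := fun n _ => mul_ne_zero (mul_ne_zero (mul_ne_zero (mul_ne_zero
        (zpow_ne_zero _ (hg0 0)) (zpow_ne_zero _ (hg0 1))) (zpow_ne_zero _ (hg0 2)))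
        (zpow_ne_zero _ (hg0 3))) (zpow_ne_zero _ (hg0 4))
      a_add := by
        intro n n' _ _
        change g 0 ^ (n 0 3 + n' 0 3) * g 1 ^ (n 1 3 + n' 1 3) *
          g 2 ^ (n 0 4 + n' 0 4 + (n 3 4 + n' 3 4)) * g 3 ^ (n 1 4 + n' 1 4) *
          g 4 ^ (n 3 4 + n' 3 4) =
          (g 0 ^ (n 0 3) * g 1 ^ (n 1 3) * g 2 ^ (n 0 4 + n 3 4) * g 3 ^ (n 1 4) *
            g 4 ^ (n 3 4)) * (g 0 ^ (n' 0 3) * g 1 ^ (n' 1 3) * g 2 ^ (n' 0 4 + n' 3 4) *
            g 3 ^ (n' 1 4) * g 4 ^ (n' 3 4))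
        have e2 : n 0 4 + n' 0 4 + (n 3 4 + n' 3 4) = (n 0 4 + n 3 4) + (n' 0 4 + n' 3 4) := by
          ring
        rw [e2, zpow_add₀ (hg0 0), zpow_add₀ (hg0 1), zpow_add₀ (hg0 2), zpow_add₀ (hg0 3),
          zpow_add₀ (hg0 4)]
        ring
      ord_D := by
        intro n hn p q O hO
        rw [haord n hn O]
        exact hdAD n hn p q O hO
      ord_0 := by
        intro n hn O hO
        rw [haord n hn O]
        have h1 := hout O hO
        unfold dA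
        rw [Finset.sum_eq_zero fun i _ => by rw [h1 i, mul_zero], mul_zero]
      g := g 5
      g_ne := hg0 5
      N := TT * M
      N_pos := Nat.mul_pos hTTpos hM
      t := 1
      t_pos := one_pos
      g_D := by
        intro p q O _
        rw [hgD O]
        push_cast
        ring
      g_0 := by
        intro O hO
        rw [hgD O, hzero O (hout O hO)]
        ring }
  refine ⟨I, fun p q => rfl, ?_⟩
  rintro p q O _ p' q' O' ⟨i', hi', -⟩
  change m O ≤ (⌈3 * b * (∑ i, r i) / e⌉₊ : ℤ) * m O'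
  have hTr : (0 : ℝ) < TT := by exact_mod_cast hTTpos
  have h1 : (m O : ℝ) ≤ TT * (3 / 2 * b * M * ∑ i, r i) := by
    change (((TT : ℤ) * ∑ i, ρ i * es i O : ℤ) : ℝ) ≤ _
    push_cast
    refine mul_le_mul_of_nonneg_left ?_ hTr.le
    rw [Finset.mul_sum]
    refine Finset.sum_le_sum fun i _ => ?_
    have h2 : (es i O : ℝ) ≤ b := by exact_mod_cast hCP.le i O
    have h3 : (0 : ℝ) ≤ es i O := by exact_mod_cast hCP.nonneg i O
    have h4 : (0 : ℝ) < ρ i := by exact_mod_cast hρ0 i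
    calc (ρ i : ℝ) * es i O ≤ ρ i * b := mul_le_mul_of_nonneg_left h2 h4.le
      _ ≤ (3 / 2 * r i * M) * b := mul_le_mul_of_nonneg_right (hρ2 i) (by positivity)
      _ = 3 / 2 * b * M * r i := by ring
  have h5 : (TT : ℝ) * (e / 2 * M) ≤ m O' := by
    have h6 : ((TT : ℤ) * ρ i' : ℤ) ≤ m O' := hmlow O' i' hi'
    have h7 : ((TT : ℝ) * ρ i') ≤ m O' := by exact_mod_cast h6
    exact (mul_le_mul_of_nonneg_left (hρ1 i') hTr.le).trans h7
  have h8 : 3 * b * (∑ i, r i) / e ≤ (⌈3 * b * (∑ i, r i) / e⌉₊ : ℝ) := Nat.le_ceil _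
  have h9 : (m O : ℝ) ≤ (⌈3 * b * (∑ i, r i) / e⌉₊ : ℝ) * m O' := by
    have hR : 0 ≤ 3 * (b : ℝ) * (∑ i, r i) / e :=
      div_nonneg (mul_nonneg (by positivity) (Finset.sum_nonneg fun i _ => (hr i).le)) he.le
    calc (m O : ℝ) ≤ TT * (3 / 2 * b * M * ∑ i, r i) := h1
      _ = (3 * b * (∑ i, r i) / e) * (TT * (e / 2 * M)) := by
        field_simp
        try ring
      _ ≤ (3 * b * (∑ i, r i) / e) * m O' := mul_le_mul_of_nonneg_left h5 hR
      _ ≤ (⌈3 * b * (∑ i, r i) / e⌉₊ : ℝ) * m O' :=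
        mul_le_mul_of_nonneg_right h8 ((by positivity : (0:ℝ) ≤ TT * (e / 2 * M)).trans h5)
  exact_mod_cast h9

end Pool.Agent.CPT
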