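import Pool.Agent.CPT.StmtsF

set_option autoImplicit false

/-!
# RAP: rational points of a rational affine subspace are dense
-/

noncomputable section

namespace Pool.Agent.CPT

namespace RAP_

open Filter Topology

theorem main (ι J : Type) [Fintype ι] [Fintype J] (L : J → ι → ℚ) (β : J → ℚ)
    (r : ι → ℝ) (h : ∀ j, ∑ i, (L j i : ℝ) * r i = β j) (ε : ℝ) (hε : 0 < ε) :
    ∃ ρ : ι → ℚ, (∀ j, ∑ i, L j i * ρ i = β j) ∧ ∀ i, |(ρ i : ℝ) - r i| < ε := by
  classical
  let W : Submodule ℚ ℝ := Submodule.span ℚ (insert 1 (Set.range r))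
  have hfin : Module.Finite ℚ W :=
    FiniteDimensional.span_of_finite ℚ ((Set.finite_range r).insert 1)
  let b := Module.finBasis ℚ W
  let one : W := ⟨1, Submodule.subset_span (Set.mem_insert _ _)⟩
  let ri : ι → W := fun i => ⟨r i, Submodule.subset_span (Set.mem_insert_of_mem _ ⟨i, rfl⟩)⟩
  have key : ∀ w : W, (w : ℝ) = ∑ k, ((b.repr w k : ℚ) : ℝ) * (b k : ℝ) := by
    intro w
    conv_lhs => rw [← b.sum_repr w]
    rw [Submodule.coe_sum]
    refine Finset.sum_congr rfl fun k _ => ?_
    rw [Submodule.coe_smul, Rat.smul_def]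
  let F : W → (Fin (Module.finrank ℚ W) → ℝ) → ℝ := fun w q => ∑ k, ((b.repr w k : ℚ) : ℝ) * q k
  have hF : ∀ w, F w (fun k => (b k : ℝ)) = (w : ℝ) := fun w => (key w).symm
  have hcont : ∀ w, Continuous (F w) := by
    intro w
    exact continuous_finsetSum _ fun k _ => continuous_const.mul (continuous_apply k)
  have h1 : ∀ᶠ q in 𝓝 (fun k => (b k : ℝ)), F one q ≠ 0 := by
    apply (hcont one).continuousAt.eventually_ne
    rw [hF]
    exact one_ne_zero
  have h2 : ∀ᶠ q in 𝓝 (fun k => (b k : ℝ)), ∀ i, |F (ri i) q / F one q - r i| < ε := by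
    rw [eventually_all]
    intro i
    have h3 : ContinuousAt (fun q => F (ri i) q / F one q - r i) (fun k => (b k : ℝ)) := by
      refine ContinuousAt.sub (ContinuousAt.div (hcont _).continuousAt (hcont _).continuousAt ?_)
        continuousAt_const
      rw [hF]
      exact one_ne_zero
    have h4 := h3.abs
    have h5 : |F (ri i) (fun k => (b k : ℝ)) / F one (fun k => (b k : ℝ)) - r i| < ε := by
      rw [hF, hF]
      show |r i / 1 - r i| < ε
      simpa using hε
    exact h4.eventually_lt_const h5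
  obtain ⟨δ, hδ, hball⟩ := Metric.eventually_nhds_iff.1 (h1.and h2)
  choose q hq using fun k => exists_rat_near ((b k : ℝ)) hδ
  have hd : dist (fun k => (q k : ℝ)) (fun k => (b k : ℝ)) < δ := by
    rw [dist_pi_lt_iff hδ]
    intro k
    rw [Real.dist_eq, abs_sub_comm]
    exact hq k
  obtain ⟨h6, h7⟩ := hball hd
  let ψ : W → ℚ := fun w => ∑ k, b.repr w k * q k
  have hψ : ∀ w, F w (fun k => (q k : ℝ)) = (ψ w : ℝ) := by
    intro w
    simp only [F, ψ]
    push_cast
    rfl
  have hψadd : ∀ (s : Finset ι) (c : ι → ℚ), ψ (∑ i ∈ s, c i • ri i) = ∑ i ∈ s, c i * ψ (ri i) := by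
    intro s c
    simp only [ψ, map_sum, map_smul, Finset.mul_sum, Finsupp.coe_finsetSum, Finset.sum_apply,
      Finsupp.smul_apply, smul_eq_mul, Finset.sum_mul]
    rw [Finset.sum_comm]
    refine Finset.sum_congr rfl fun i _ => Finset.sum_congr rfl fun k _ => ?_
    ring
  have h8 : ψ one ≠ 0 := by
    intro h0
    apply h6
    rw [hψ, h0, Rat.cast_zero]
  refine ⟨fun i => ψ (ri i) / ψ one, ?_, ?_⟩
  · intro j
    have h9 : ∑ i, L j i • ri i = β j • one := by
      apply Subtype.ext
      rw [Submodule.coe_sum, Submodule.coe_smul]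
      show ∑ i, L j i • r i = β j • (1 : ℝ)
      simp only [Rat.smul_def]
      rw [h j, mul_one]
    have h10 := hψadd Finset.univ (L j)
    rw [h9] at h10
    have h11 : ψ (β j • one) = β j * ψ one := by
      simp only [ψ, map_smul, Finset.mul_sum, Finsupp.smul_apply, smul_eq_mul]
      refine Finset.sum_congr rfl fun k _ => ?_
      ring
    rw [h11] at h10
    have h12 : ∑ i, L j i * (ψ (ri i) / ψ one) = (∑ i, L j i * ψ (ri i)) / ψ one := by
      rw [Finset.sum_div]
      refine Finset.sum_congr rfl fun i _ => ?_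
      ring
    rw [h12, ← h10]
    field_simp
  · intro i
    have := h7 i
    rw [hψ, hψ] at this
    push_cast
    exact this

end RAP_

theorem rap_proof : Stmt_RAP := fun ι J _ _ L β r h ε hε => RAP_.main ι J L β r h ε hε

end Pool.Agent.CPT
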