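import Pool.Agent.CPT.StmtsF

set_option autoImplicit false

/-!
TPT: a rational point.
-/

noncomputable section

namespace Pool.Agent.CPT

open Pool.Agent

namespace TPT_

section
variable {κ F : Type} [Field κ] [Field F] [Algebra κ F] {x y : F} {ι : Type} [Fintype ι]

theorem ord_zpow (O : SRF.PP κ x y) {f : F} (hf : f ≠ 0) (n : ℤ) :
    SRF.ord O.1 (f ^ n) = n * SRF.ord O.1 f := by
  obtain ⟨n, rfl | rfl⟩ := n.eq_nat_or_neg
  · rw [zpow_natCast, O.isOrd.pow hf]
  · rw [zpow_neg, zpow_natCast, O.isOrd.inv (pow_ne_zero n hf), O.isOrd.pow hf]; ring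

/-- integral vectors giving principal divisors -/
def Rel (es : ι → SRF.PP κ x y → ℤ) (u : Option ι → ℤ) : Prop :=
  ∃ f : F, f ≠ 0 ∧ ∀ O : SRF.PP κ x y,
    SRF.ord O.1 f = u none * SRF.H κ x y O + ∑ i, u (some i) * es i O

theorem Rel_comb {es : ι → SRF.PP κ x y → ℤ} {u w : Option ι → ℤ} (hu : Rel es u) (hw : Rel es w)
    (a b : ℤ) : Rel es (fun i => a * u i + b * w i) := by
  obtain ⟨f, hf, h1⟩ := hu
  obtain ⟨g, hg, h2⟩ := hw
  refine ⟨f ^ a * g ^ b, mul_ne_zero (zpow_ne_zero _ hf) (zpow_ne_zero _ hg), fun O => ?_⟩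
  rw [O.isOrd.mul _ _ (zpow_ne_zero _ hf) (zpow_ne_zero _ hg), ord_zpow O hf, ord_zpow O hg,
    h1, h2]
  have h3 : ∑ i, (a * u (some i) + b * w (some i)) * es i O =
      a * ∑ i, u (some i) * es i O + b * ∑ i, w (some i) * es i O := by
    rw [Finset.mul_sum, Finset.mul_sum, ← Finset.sum_add_distrib]
    exact Finset.sum_congr rfl fun i _ => by ring
  rw [h3]; ring

/-- the rational vectors with a positive multiple giving a principal divisor -/
def W (es : ι → SRF.PP κ x y → ℤ) : Submodule ℚ (Option ι → ℚ) where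
  carrier := {v | ∃ (T : ℕ) (u : Option ι → ℤ), 0 < T ∧ (∀ i, (u i : ℚ) = T * v i) ∧ Rel es u}
  zero_mem' := ⟨1, fun _ => 0, one_pos, fun i => by simp,
    1, one_ne_zero, fun O => by rw [O.isOrd.one]; simp⟩
  add_mem' := by
    rintro v w ⟨T, u, hT, h1, h2⟩ ⟨T', u', hT', h1', h2'⟩
    refine ⟨T * T', fun i => T' * u i + T * u' i, Nat.mul_pos hT hT', fun i => ?_,
      Rel_comb h2 h2' T' T⟩
    push_cast
    rw [h1, h1', Pi.add_apply]; ring
  smul_mem' := by
    rintro q v ⟨T, u, hT, h1, h2⟩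
    refine ⟨T * q.den, fun i => q.num * u i + 0 * u i, Nat.mul_pos hT q.den_pos, fun i => ?_,
      Rel_comb h2 h2 q.num 0⟩
    push_cast
    rw [h1, Pi.smul_apply, smul_eq_mul]
    have h3 : (q.den : ℚ) * q = q.num := by
      rw [mul_comm]; exact_mod_cast Rat.mul_den_eq_num q
    linear_combination (- (T : ℚ) * v i) * h3

theorem mem_W {es : ι → SRF.PP κ x y → ℤ} {v : Option ι → ℚ} : v ∈ W es ↔
    ∃ (T : ℕ) (u : Option ι → ℤ), 0 < T ∧ (∀ i, (u i : ℚ) = T * v i) ∧ Rel es u := Iff.rfl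

/-- the real relations -/
theorem real_rel {lab : ι → Fin 5 × Fin 5} {r : ι → ℝ} {b : ℕ} {es : ι → SRF.PP κ x y → ℤ}
    (hCP : CP x y lab r b es) (l : Option ι → ℚ)
    (hl : ∀ v ∈ W es, ∑ i, l i * v i = 0) (c₀ : ℤ) (c : Fin 5 → Fin 5 → ℤ)
    (hc : (c₀ = 0 ∧ Lam c) ∨ (c₀ = -1 ∧ ∀ i j, c i j = 1)) :
    (l none : ℝ) * c₀ + ∑ i, (l (some i) : ℝ) * ((c (lab i).1 (lab i).2 : ℝ) * r i) = 0 := by
  set X : ℝ := (l none : ℝ) * c₀ + ∑ i, (l (some i) : ℝ) * ((c (lab i).1 (lab i).2 : ℝ) * r i)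
    with hX
  set S : ℝ := ∑ i, |(l (some i) : ℝ)| with hS
  have key : ∀ N : ℕ, 0 < N → N * |X| ≤ S := by
    intro N hN
    obtain ⟨n, ⟨n', hn'⟩, m, ⟨m', hm'⟩, hnm, f, hf, hord⟩ := hCP.tor c₀ c hc {n | N ∣ n}
      (Set.infinite_of_injective_forall_mem (f := fun k => N * k)
        (fun a b h => Nat.eq_of_mul_eq_mul_left hN h) fun k => ⟨k, rfl⟩)
    have hNm : N ≤ m - n := by
      rw [hn', hm', ← Nat.mul_sub]
      have : 0 < m' - n' := by
        rw [hn', hm'] at hnm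
        have := (Nat.mul_lt_mul_left hN).1 hnm
        omega
      exact Nat.le_mul_of_pos_right N this
    set u : Option ι → ℤ := fun o => match o with
      | none => c₀ * ((m : ℤ) - n)
      | some i => ⌊(m : ℝ) * ((c (lab i).1 (lab i).2 : ℝ) * r i)⌋ -
          ⌊(n : ℝ) * ((c (lab i).1 (lab i).2 : ℝ) * r i)⌋ with hu
    have hv : (fun i => (u i : ℚ)) ∈ W es := by
      refine ⟨1, u, one_pos, fun i => by simp, f, hf, fun O => ?_⟩
      rw [hord]
      simp only [rd, hu]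
      have : ∀ i, (⌊(m : ℝ) * ((c (lab i).1 (lab i).2 : ℝ) * r i)⌋ -
          ⌊(n : ℝ) * ((c (lab i).1 (lab i).2 : ℝ) * r i)⌋) * es i O =
          ⌊(m : ℝ) * ((c (lab i).1 (lab i).2 : ℝ) * r i)⌋ * es i O -
          ⌊(n : ℝ) * ((c (lab i).1 (lab i).2 : ℝ) * r i)⌋ * es i O := fun i => sub_mul _ _ _
      rw [Finset.sum_congr rfl fun i _ => this i, Finset.sum_sub_distrib]
      ring
    have h1 := hl _ hv
    rw [Fintype.sum_option] at h1
    have h2 : (l none : ℝ) * (c₀ * ((m : ℝ) - n)) + ∑ i, (l (some i) : ℝ) *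
        ((⌊(m : ℝ) * ((c (lab i).1 (lab i).2 : ℝ) * r i)⌋ : ℝ) -
          (⌊(n : ℝ) * ((c (lab i).1 (lab i).2 : ℝ) * r i)⌋ : ℝ)) = 0 := by
      have h3 := congrArg (fun q : ℚ => (q : ℝ)) h1
      simp only [hu] at h3
      push_cast at h3
      exact h3
    have h4 : ((m : ℝ) - n) * X = ∑ i, (l (some i) : ℝ) *
        (((m : ℝ) - n) * ((c (lab i).1 (lab i).2 : ℝ) * r i) -
        ((⌊(m : ℝ) * ((c (lab i).1 (lab i).2 : ℝ) * r i)⌋ : ℝ) -
          (⌊(n : ℝ) * ((c (lab i).1 (lab i).2 : ℝ) * r i)⌋ : ℝ))) := by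
      simp only [mul_sub (l (some _) : ℝ), Finset.sum_sub_distrib] at h2 ⊢
      rw [hX, mul_add, Finset.mul_sum]
      have h5 : ∑ i, ((m : ℝ) - n) * ((l (some i) : ℝ) * ((c (lab i).1 (lab i).2 : ℝ) * r i)) =
          ∑ i, (l (some i) : ℝ) * (((m : ℝ) - n) * ((c (lab i).1 (lab i).2 : ℝ) * r i)) :=
        Finset.sum_congr rfl fun i _ => by ring
      rw [h5]
      linear_combination h2
    have hmn : (N : ℝ) ≤ (m : ℝ) - n := by
      have : (N : ℝ) ≤ ((m - n : ℕ) : ℝ) := by exact_mod_cast hNm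
      rwa [Nat.cast_sub hnm.le] at this
    calc (N : ℝ) * |X| ≤ ((m : ℝ) - n) * |X| := mul_le_mul_of_nonneg_right hmn (abs_nonneg _)
      _ = |((m : ℝ) - n) * X| := by
          rw [abs_mul, abs_of_nonneg ((Nat.cast_nonneg N).trans hmn)]
      _ ≤ S := by
          rw [h4, hS]
          refine (Finset.abs_sum_le_sum_abs _ _).trans (Finset.sum_le_sum fun i _ => ?_)
          rw [abs_mul]
          refine mul_le_of_le_one_right (abs_nonneg _) ?_
          rw [abs_le]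
          have a1 := Int.floor_le ((m : ℝ) * ((c (lab i).1 (lab i).2 : ℝ) * r i))
          have a2 := Int.lt_floor_add_one ((m : ℝ) * ((c (lab i).1 (lab i).2 : ℝ) * r i))
          have a3 := Int.floor_le ((n : ℝ) * ((c (lab i).1 (lab i).2 : ℝ) * r i))
          have a4 := Int.lt_floor_add_one ((n : ℝ) * ((c (lab i).1 (lab i).2 : ℝ) * r i))
          constructor <;> linarith
  by_contra hne
  have hpos : 0 < |X| := abs_pos.2 hne
  obtain ⟨N, hN⟩ := exists_nat_gt (S / |X|)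
  have h1 := key (N + 1) (Nat.succ_pos _)
  rw [div_lt_iff₀ hpos] at hN
  push_cast at h1
  nlinarith

end

/-- the six generators -/
def gen (k : Fin 6) : ℤ × (Fin 5 → Fin 5 → ℤ) :=
  ![(0, cr 0 3 1 2), (0, cr 0 2 1 3), (0, cr 0 4 1 2), (0, cr 0 2 1 4), (0, cr 0 2 4 3),
    (-1, fun _ _ => 1)] k

theorem gen_mem (k : Fin 6) : ((gen k).1 = 0 ∧ Lam (gen k).2) ∨
    ((gen k).1 = -1 ∧ ∀ i j, (gen k).2 i j = 1) := by
  fin_cases k
  · exact Or.inl ⟨rfl, Lam_cr _ _ _ _ (by decide)⟩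
  · exact Or.inl ⟨rfl, Lam_cr _ _ _ _ (by decide)⟩
  · exact Or.inl ⟨rfl, Lam_cr _ _ _ _ (by decide)⟩
  · exact Or.inl ⟨rfl, Lam_cr _ _ _ _ (by decide)⟩
  · exact Or.inl ⟨rfl, Lam_cr _ _ _ _ (by decide)⟩
  · exact Or.inr ⟨rfl, fun _ _ => rfl⟩

/-- the value of the form at `c` -/
def phi {ι : Type} [Fintype ι] (l : ι → ℚ) (lab : ι → Fin 5 × Fin 5) (ρ : ι → ℚ) :
    (Fin 5 → Fin 5 → ℤ) →+ ℚ where
  toFun c := ∑ i, l i * ((c (lab i).1 (lab i).2 : ℚ) * ρ i)
  map_zero' := by simp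
  map_add' c d := by
    rw [← Finset.sum_add_distrib]
    refine Finset.sum_congr rfl fun i _ => ?_
    simp only [Pi.add_apply]
    push_cast; ring

end TPT_

open TPT_ in
/-- a rational point -/
theorem tpt_proof (hRAP : Stmt_RAP) (hANN : Stmt_ANN) : Stmt_TPT := by
  intro κ F _ _ _ _ x y _ ι _ lab r b es hCP ε hε
  obtain ⟨m, L, hL⟩ := hANN (Option ι) (W es)
  obtain ⟨ρ, h1, h2⟩ := hRAP ι (Fin m × Fin 6)
    (fun jk i => L jk.1 (some i) * ((gen jk.2).2 (lab i).1 (lab i).2 : ℚ))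
    (fun jk => - (L jk.1 none * (gen jk.2).1)) r (by
      rintro ⟨j, k⟩
      have h := real_rel hCP (L j) (fun v hv => (hL v).1 hv j) (gen k).1 (gen k).2 (gen_mem k)
      simp only
      push_cast
      have h3 : ∑ i, (L j (some i) : ℝ) * ((gen k).2 (lab i).1 (lab i).2 : ℝ) * r i =
          ∑ i, (L j (some i) : ℝ) * (((gen k).2 (lab i).1 (lab i).2 : ℝ) * r i) :=
        Finset.sum_congr rfl fun i _ => by ring
      rw [h3]
      linear_combination h) ε hε
  have hgen : ∀ j k, phi (fun i => L j (some i)) lab ρ (gen k).2 = - (L j none * (gen k).1) := by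
    intro j k
    rw [← h1 (j, k)]
    exact Finset.sum_congr rfl fun i _ => by simp only; ring
  have hW : ∀ (c₀ : ℤ) (c : Fin 5 → Fin 5 → ℤ), (c₀ = 0 ∧ Lam c) ∨ (c₀ = -1 ∧ ∀ i j, c i j = 1) →
      (fun o : Option ι => match o with
        | none => (c₀ : ℚ)
        | some i => (c (lab i).1 (lab i).2 : ℚ) * ρ i) ∈ W es := by
    intro c₀ c hc
    rw [hL]
    intro j
    rw [Fintype.sum_option]
    change L j none * (c₀ : ℚ) + phi (fun i => L j (some i)) lab ρ c = 0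
    rcases hc with ⟨rfl, hc⟩ | ⟨rfl, hc⟩
    · have g0 := hgen j 0
      have g1 := hgen j 1
      have g2 := hgen j 2
      have g3 := hgen j 3
      have g4 := hgen j 4
      simp only [gen, Matrix.cons_val, Int.cast_zero, mul_zero, neg_zero] at g0 g1 g2 g3 g4
      rw [Lam_basis hc]
      simp only [map_add, map_zsmul, g0, g1, g2, g3, g4, smul_zero, add_zero, Int.cast_zero,
        mul_zero]
    · have g5 := hgen j 5
      have hc' : c = (gen 5).2 := by
        funext i j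
        rw [hc]; rfl
      rw [hc', g5]
      simp [gen]
  -- common denominator
  set M : ℕ := ∏ i, (ρ i).den with hM
  have hMpos : 0 < M := Finset.prod_pos fun i _ => (ρ i).den_pos
  have hden : ∀ i, ∃ z : ℤ, (z : ℚ) = M * ρ i := by
    intro i
    obtain ⟨e, he⟩ : (ρ i).den ∣ M := Finset.dvd_prod_of_mem (fun i => (ρ i).den) (Finset.mem_univ i)
    refine ⟨e * (ρ i).num, ?_⟩
    rw [he]
    push_cast
    have h3 : ((ρ i).den : ℚ) * ρ i = (ρ i).num := by
      rw [mul_comm]; exact_mod_cast Rat.mul_den_eq_num (ρ i)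
    rw [← h3]; ring
  choose z hz using hden
  refine ⟨M, z, hMpos, fun i => ?_, fun c₀ c hc => ?_⟩
  · have h3 : (z i : ℝ) = M * (ρ i : ℝ) := by
      have := congrArg (fun q : ℚ => (q : ℝ)) (hz i)
      push_cast at this
      exact this
    rw [h3, mul_div_cancel_left₀ _ (by exact_mod_cast hMpos.ne')]
    exact h2 i
  · obtain ⟨T, u, hT, hu, f, hf, hord⟩ := mem_W.1 (hW c₀ c hc)
    refine ⟨T, hT, f ^ M, pow_ne_zero _ hf, fun O => ?_⟩
    rw [O.isOrd.pow hf, hord]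
    have e0 : u none = T * c₀ := by
      have := hu none
      simp only at this
      exact_mod_cast this
    have e1 : ∀ i, M * u (some i) = T * (c (lab i).1 (lab i).2 * z i) := by
      intro i
      have := hu (some i)
      simp only at this
      have h3 : ((M * u (some i) : ℤ) : ℚ) = ((T * (c (lab i).1 (lab i).2 * z i) : ℤ) : ℚ) := by
        push_cast
        rw [this, hz]; ring
      exact_mod_cast h3
    rw [e0, mul_add, mul_add, Finset.mul_sum, Finset.mul_sum]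
    congr 1
    · ring
    · refine Finset.sum_congr rfl fun i _ => ?_
      rw [← mul_assoc, e1]; ring

end Pool.Agent.CPT
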