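import Pool.Agent.CPT.MainE
import Pool.Agent.CPT.RAP
import Pool.Agent.CPT.ANN
import Pool.Agent.CPT.TPT
import Pool.Agent.CPT.PTS
import Pool.Agent.CPT.CPL
import Pool.Agent.CPT.CPF

set_option autoImplicit false

/-!
# From torsion to the four functions at a closed point, proved
-/

namespace Pool.Agent.CPT

theorem tpt : Stmt_TPT := tpt_proof rap_proof ann_proof
theorem pts : Stmt_PTS := pts_proof tpt
theorem cpl : Stmt_CPL := cpl_proof pts end1
theorem cpf : Stmt_CPF := cpf_proof cpl

end Pool.Agent.CPT
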