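import Pool.Agent.CPT.Stmts

set_option autoImplicit false

namespace Pool.Agent.CPT

theorem rat_proof : Stmt_RAT := by
  intro κ K _ _ _ e e' F h f g hf hg f0 g0
  have hf' : f ∈ algebraicClosure F K := mem_algebraicClosure_iff.mpr hf
  have hg' : g ∈ algebraicClosure F K := mem_algebraicClosure_iff.mpr hg
  have hx : f ^ (e.v g) * g ^ (-(e.v f)) ∈ algebraicClosure F K :=
    mul_mem (zpow_mem hf' _) (zpow_mem hg' _)
  have hx' : IsAlgebraic F (f ^ (e.v g) * g ^ (-(e.v f))) := mem_algebraicClosure_iff.mp hx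
  have hx'' : IsAlgebraic F (f ^ (e.v g) * g ^ (-(e.v f)))⁻¹ := hx'.inv
  have z1 := zpow_ne_zero (e.v g) f0
  have z2 := zpow_ne_zero (-(e.v f)) g0
  have z := mul_ne_zero z1 z2
  have v1 : e.v (f ^ (e.v g) * g ^ (-(e.v f))) = 0 := by
    rw [e.v_mul z1 z2, e.v_zpow f0, e.v_zpow g0]; ring
  have v2 : e'.v (f ^ (e.v g) * g ^ (-(e.v f))) = e.v g * e'.v f - e.v f * e'.v g := by
    rw [e'.v_mul z1 z2, e'.v_zpow f0, e'.v_zpow g0]; ring
  have o1 := (h _ hx').mp (Or.inr (by rw [v1]))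
  have o2 := (h _ hx'').mp ((DV.O_inv z).mpr (by rw [v1]))
  rw [DV.O_iff z] at o1
  rw [DV.O_inv z] at o2
  rw [v2] at o1 o2
  linarith

end Pool.Agent.CPT
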