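import Pool.Agent.CPT.Lam

set_option autoImplicit false

/-!
# Statements of the modules of CPT
-/

namespace Pool.Agent.CPT

/-- CMP: composite valuation rings. `S₀` is a subring of `K` whose nonzero elements are units
of the discrete valuation ring `e`, `I` a proper ideal of `S₀`. Then some valuation ring
`V ⊆ O_e` dominates `(S₀, I)`. -/
def Stmt_CMP : Prop := ∀ (κ K : Type) [Field κ] [Field K] [Algebra κ K] (e : DV κ K)
  (S₀ : Subring K), (∀ c : κ, algebraMap κ K c ∈ S₀) → (∀ x ∈ S₀, x ≠ 0 → e.v x = 0) →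
  ∀ I : Ideal S₀, I ≠ ⊤ →
  ∃ V : ValuationSubring K, KV κ V ∧ (∀ x ∈ S₀, x ∈ V) ∧ (∀ x : S₀, x ∈ I → (x : K) ∈ V.nonunits) ∧
    (∀ x ∈ V, e.O x) ∧ ∀ x : K, e.M x → x ∈ V.nonunits

/-- TRN: if no `f - c` lies in the maximal ideal, then `e` is trivial on `κ[f]`. -/
def Stmt_TRN : Prop := ∀ (κ K : Type) [Field κ] [IsAlgClosed κ] [Field K] [Algebra κ K]
  (e : DV κ K) (f : K), e.O f → (∀ c : κ, ¬ e.M (f - algebraMap κ K c)) →
  ∀ P : Polynomial κ, P ≠ 0 → Polynomial.aeval f P ≠ 0 ∧ e.v (Polynomial.aeval f P) = 0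

/-- RON (R1): a function without poles on the curve `e` is constant on it. -/
def Stmt_RON : Prop := ∀ (κ K : Type) [Field κ] [IsAlgClosed κ] [Field K] [Algebra κ K]
  (S : Surf κ K), ∀ e ∈ S.PP, ∀ f : K, (∀ e' ∈ S.PP, S.meets e e' → e'.O f) →
  ∃ c : κ, e.M (f - algebraMap κ K c)

/-- GLB: a function without poles is constant. -/
def Stmt_GLB : Prop := ∀ (κ K : Type) [Field κ] [IsAlgClosed κ] [Field K] [Algebra κ K]
  (S : Surf κ K) (f : K), (∀ e ∈ S.PP, e.O f) → ∃ c : κ, f = algebraMap κ K c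

/-- KAP (Kaplansky): `R ⊆ K` integrally closed in `K`, `Q` a prime ideal of `R`,
`f` a root of a polynomial over `R` with one coefficient outside `Q`. Then `f` or `f⁻¹`
lies in the localisation of `R` at `Q`. -/
def Stmt_KAP : Prop := ∀ (K : Type) [Field K] (R : Subring K) (Q : Ideal R) [Q.IsPrime],
  (∀ x : K, IsIntegral R x → x ∈ R) →
  ∀ (f : K), f ≠ 0 → ∀ (P : Polynomial R), Polynomial.aeval f P = 0 → (∃ n, P.coeff n ∉ Q) →
  (∃ r s : R, s ∉ Q ∧ f * (s : K) = (r : K)) ∨ (∃ r s : R, s ∉ Q ∧ f⁻¹ * (s : K) = (r : K))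

/-- IVA: an element integral over `κ[α]`, where `α ≡ c` modulo `M_e`, is regular at `e` and has
a value in `κ`. -/
def Stmt_IVA : Prop := ∀ (κ K : Type) [Field κ] [IsAlgClosed κ] [Field K] [Algebra κ K]
  (e : DV κ K) (α : K) (c : κ), e.M (α - algebraMap κ K c) →
  ∀ r : K, IsIntegral (Algebra.adjoin κ {α}) r → e.O r ∧ ∃ c' : κ, e.M (r - algebraMap κ K c')

/-- SAM (A3): `α` regular at `V`, the prime divisor `e` through `V` lies over the point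
`α = c`. For functions algebraic over `κ(α)` membership in `O_e` and in `V` agree. -/
def Stmt_SAM : Prop := ∀ (κ K : Type) [Field κ] [IsAlgClosed κ] [Field K] [Algebra κ K]
  (S : Surf κ K) (V : ValuationSubring K), KV κ V → ∀ (α : K), S.reg V α →
  ∀ e ∈ S.PP, S.thr e V → ∀ c : κ, e.M (α - algebraMap κ K c) →
  ∀ f : K, IsAlgebraic (IntermediateField.adjoin κ {α}) f → (e.O f ↔ f ∈ V)

/-- ALG: a valuation trivial on a field is trivial on its algebraic closure. -/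
def Stmt_ALG : Prop := ∀ (κ K : Type) [Field κ] [Field K] [Algebra κ K]
  (e : DV κ K) (F : IntermediateField κ K), (∀ x ∈ F, x ≠ 0 → e.v x = 0) →
  ∀ f : K, IsAlgebraic F f → f ≠ 0 → e.v f = 0

/-- VRT: if `e` is nontrivial on some function algebraic over `κ(α)` and `α` is regular at `e`,
then `α` has a value in `κ` at `e`. -/
def Stmt_VRT : Prop := ∀ (κ K : Type) [Field κ] [IsAlgClosed κ] [Field K] [Algebra κ K]
  (e : DV κ K) (α : K), e.O α → ∀ f : K, IsAlgebraic (IntermediateField.adjoin κ {α}) f →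
  f ≠ 0 → e.v f ≠ 0 → ∃ c : κ, e.M (α - algebraMap κ K c)

/-- HOR (A4): `e` trivial on the algebraic closure of `F`. Every valuation ring of it is induced
by a valuation ring `V ⊆ O_e`. -/
def Stmt_HOR : Prop := ∀ (κ K : Type) [Field κ] [Field K] [Algebra κ K]
  (e : DV κ K) (F : IntermediateField κ K), (∀ f : K, IsAlgebraic F f → f ≠ 0 → e.v f = 0) →
  ∀ V₀ : ValuationSubring K, KV κ V₀ →
  ∃ V : ValuationSubring K, KV κ V ∧ (∀ x ∈ V, e.O x) ∧ ∀ f : K, IsAlgebraic F f → (f ∈ V ↔ f ∈ V₀)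

/-- AZR: the functions of one pencil are algebraically dependent. -/
def Stmt_AZR : Prop := ∀ (κ K : Type) [Field κ] [IsAlgClosed κ] [Field K] [Algebra κ K]
  (S : Surf κ K) (d : Dat S) (i j k l m : Fin 5), Dist j k l m → i ≠ j → i ≠ k → i ≠ l → i ≠ m →
  IsAlgebraic (IntermediateField.adjoin κ {d.a (cr j k l m)}) (d.a (cr j m l k))

/-- AZC: every function of the pencil is algebraic over `κ(a_ρ)`. -/
def Stmt_AZC : Prop := ∀ (κ K : Type) [Field κ] [IsAlgClosed κ] [Field K] [Algebra κ K]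
  (S : Surf κ K) (d : Dat S) (i j k l m : Fin 5), Dist j k l m → i ≠ j → i ≠ k → i ≠ l → i ≠ m →
  ∀ f : K, d.KI i f → IsAlgebraic (IntermediateField.adjoin κ {d.a (cr j k l m)}) f ∧
    IsAlgebraic (IntermediateField.adjoin κ {(d.a (cr j k l m))⁻¹}) f

/-- NTR (n3): a component of `D i j` meets `D k l` for every disjoint pair. -/
def Stmt_NTR : Prop := ∀ (κ K : Type) [Field κ] [IsAlgClosed κ] [Field K] [Algebra κ K]
  (S : Surf κ K) (d : Dat S) (i j k l : Fin 5), Dist i j k l → ∀ e ∈ d.D i j,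
  ∃ e' ∈ d.D k l, S.meets e e'

/-- SPL: `i`-vertical prime divisors through the centre of `V` lie over one place. -/
def Stmt_SPL : Prop := ∀ (κ K : Type) [Field κ] [IsAlgClosed κ] [Field K] [Algebra κ K]
  (S : Surf κ K) (d : Dat S) (i : Fin 5) (V : ValuationSubring K), KV κ V →
  ∀ e ∈ S.PP, S.thr e V → d.Ver i e → ∀ f : K, d.KI i f → (e.O f ↔ f ∈ V)

/-- HRZ: a component of `D i m` is horizontal for the pencil `i`. -/
def Stmt_HRZ : Prop := ∀ (κ K : Type) [Field κ] [IsAlgClosed κ] [Field K] [Algebra κ K]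
  (S : Surf κ K) (d : Dat S) (i m : Fin 5), ∀ e ∈ d.D i m, ¬ d.Ver i e

/-- VRD: a component of `D k l` is vertical for the pencils `i ≠ k, l`. -/
def Stmt_VRD : Prop := ∀ (κ K : Type) [Field κ] [Field K] [Algebra κ K]
  (S : Surf κ K) (d : Dat S) (i k l : Fin 5), i ≠ k → i ≠ l → ∀ e ∈ d.D k l, d.Ver i e

/-- NFR (n4): a prime divisor which is vertical for two pencils `i ≠ j` is a component of some
`D k l` with `k, l` different from `i, j`. -/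
def Stmt_NFR : Prop := ∀ (κ K : Type) [Field κ] [IsAlgClosed κ] [Field K] [Algebra κ K]
  (S : Surf κ K) (d : Dat S) (i j : Fin 5), i ≠ j → ∀ e ∈ S.PP, d.Ver i e → d.Ver j e →
  ∃ k l, Dist i j k l ∧ e ∈ d.D k l

/-- RAT: two discrete valuations inducing the same valuation ring on a field have proportional
values there. -/
def Stmt_RAT : Prop := ∀ (κ K : Type) [Field κ] [Field K] [Algebra κ K]
  (e e' : DV κ K) (F : IntermediateField κ K),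
  (∀ f : K, IsAlgebraic F f → (e.O f ↔ e'.O f)) →
  ∀ f g : K, IsAlgebraic F f → IsAlgebraic F g → f ≠ 0 → g ≠ 0 →
  e.v f * e'.v g = e'.v f * e.v g

/-- PAR (pairs of places): for a component `e5` of the fibre `D_jl ∪ D_km` of the pencil `i`
(pencil `i` on the indices `j k l m`) and a component `e4` of the fibre `D_il ∪ D_km` of the
pencil `j` there is a component of `D_km` over both places. -/
def Stmt_PAR : Prop := ∀ (κ K : Type) [Field κ] [IsAlgClosed κ] [Field K] [Algebra κ K]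
  (S : Surf κ K) (d : Dat S) (i j k l m : Fin 5), Dist j k l m → i ≠ j → i ≠ k → i ≠ l → i ≠ m →
  ∀ e5, (e5 ∈ d.D j l ∨ e5 ∈ d.D k m) → ∀ e4, (e4 ∈ d.D i l ∨ e4 ∈ d.D k m) →
  ∃ e ∈ d.D k m, (∀ f : K, d.KI i f → (e.O f ↔ e5.O f)) ∧ (∀ f : K, d.KI j f → (e.O f ↔ e4.O f))

/-- SWP: on a component of `D i j` the functions of the pencils `i` and `j` agree up to
constants (swap the indices `i` and `j`). -/
def Stmt_SWP : Prop := ∀ (κ K : Type) [Field κ] [IsAlgClosed κ] [Field K] [Algebra κ K]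
  (S : Surf κ K) (d : Dat S) (i j : Fin 5) (n : Fin 5 → Fin 5 → ℤ), LamI i n →
  ∀ e ∈ d.D i j, ∃ c : κ, c ≠ 0 ∧
    e.M (d.a n - algebraMap κ K c * d.a (rel (Equiv.swap i j) n))

/-- DIV: 2-divisibility of the cross ratio functions passes from the pencil `i` to the
pencil `j`. -/
def Stmt_DIV : Prop := ∀ (κ K : Type) [Field κ] [IsAlgClosed κ] [CharP κ 2] [Field K] [Algebra κ K]
  (S : Surf κ K) (d : Dat S) (i j : Fin 5), (∃ e, e ∈ d.D i j) →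
  ∀ (N : ℕ) (n : Fin 5 → Fin 5 → ℤ), LamI i n →
  (∃ c ∈ d.kf i, c ^ (2 ^ N) = d.a n) →
  ∃ c ∈ d.kf j, c ^ (2 ^ N) = d.a (rel (Equiv.swap i j) n)

/-- NEM: all boundary divisors are nonempty. -/
def Stmt_NEM : Prop := ∀ (κ K : Type) [Field κ] [IsAlgClosed κ] [Field K] [Algebra κ K]
  (S : Surf κ K) (d : Dat S), (∃ e, e ∈ S.PP) → ∀ i j, i ≠ j → ∃ e, e ∈ d.D i j

/-- NRM: common extraction of square roots. -/
def Stmt_NRM : Prop := ∀ (κ K : Type) [Field κ] [IsAlgClosed κ] [CharP κ 2] [Field K] [Algebra κ K]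
  (S : Surf κ K) (d : Dat S), (∃ e, e ∈ S.PP) →
  ∃ (d' : Dat S) (N : ℕ), d'.NS ∧ d'.D = d.D ∧ (∀ n, Lam n → d'.a n ^ (2 ^ N) = d.a n)

/-- PBS: a function field in one variable over a perfect field of characteristic two is
`F² + F² b` for every nonsquare `b`. -/
def Stmt_PBS : Prop := ∀ (κ K : Type) [Field κ] [IsAlgClosed κ] [CharP κ 2] [Field K] [Algebra κ K]
  (u v : K), IsAlgebraic (IntermediateField.adjoin κ {u}) v →
  ∀ b ∈ IntermediateField.adjoin κ {u, v},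
  (¬ ∃ c ∈ IntermediateField.adjoin κ {u, v}, c ^ 2 = b) →
  ∀ f ∈ IntermediateField.adjoin κ {u, v}, ∃ α ∈ IntermediateField.adjoin κ {u, v},
    ∃ β ∈ IntermediateField.adjoin κ {u, v}, f = α ^ 2 + β ^ 2 * b

/-- PBK: the same for the field `kf i` of a pencil. -/
def Stmt_PBK : Prop := ∀ (κ K : Type) [Field κ] [IsAlgClosed κ] [CharP κ 2] [Field K] [Algebra κ K]
  (S : Surf κ K) (d : Dat S) (i : Fin 5), ∀ b ∈ d.kf i, (¬ ∃ c ∈ d.kf i, c ^ 2 = b) →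
  ∀ f ∈ d.kf i, ∃ α ∈ d.kf i, ∃ β ∈ d.kf i, f = α ^ 2 + β ^ 2 * b

/-- WBA: the function `X` of one pencil: `X ≡ b`, `1 + X ≡ b'` modulo squares. -/
def Stmt_WBA : Prop := ∀ (K : Type) [Field K] [CharP K 2] (F : Subfield K) (b b' : K),
  b ∈ F → b' ∈ F → b ≠ 0 → b' ≠ 0 →
  (¬ ∃ c ∈ F, c ^ 2 = b) → (¬ ∃ c ∈ F, c ^ 2 = b') → (¬ ∃ c ∈ F, c ^ 2 = b / b') →
  (∀ f ∈ F, ∃ α ∈ F, ∃ β ∈ F, f = α ^ 2 + β ^ 2 * b) →
  ∃ X γ δ : K, X ∈ F ∧ γ ∈ F ∧ δ ∈ F ∧ γ ≠ 0 ∧ δ ≠ 0 ∧ X = b * γ ^ 2 ∧ 1 - X = b' * δ ^ 2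

/-- WBU: uniqueness of `X`. -/
def Stmt_WBU : Prop := ∀ (K : Type) [Field K] [CharP K 2] (L : Subfield K) (X X' γ δ : K),
  X ∈ L → X' ∈ L → γ ∈ L → δ ∈ L → (¬ ∃ c ∈ L, c ^ 2 = X) →
  X' = X * γ ^ 2 → 1 - X' = (1 - X) * δ ^ 2 → X' = X

/-- WBC: compatibility of the functions `X` of the pencils `5, 4, 2, 1` (linear algebra over the
field of squares). `x, y` are two-independent over `L²`. -/
def Stmt_WBC : Prop := ∀ (K : Type) [Field K] [CharP K 2] (L : Subfield K)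
  (X Y W Z bxy : K), X ∈ L → Y ∈ L → W ∈ L → Z ∈ L → bxy ∈ L → bxy ≠ 0 → X ≠ 0 → Y ≠ 0 →
  (∀ α ∈ L, ∀ β ∈ L, ∀ γ ∈ L, ∀ δ ∈ L, α ^ 2 + β ^ 2 * X + γ ^ 2 * Y + δ ^ 2 * (X * Y) = 0 →
    α = 0 ∧ β = 0 ∧ γ = 0 ∧ δ = 0) →
  (∃ θ ∈ L, θ ≠ 0 ∧ W = X / Y * θ ^ 2) → (∃ η ∈ L, η ≠ 0 ∧ 1 - W = bxy / Y * η ^ 2) →
  (∃ θ ∈ L, θ ≠ 0 ∧ Z = (1 - X) / (1 - Y) * θ ^ 2) →
  (∃ η ∈ L, η ≠ 0 ∧ 1 - Z = bxy / (1 - Y) * η ^ 2) →
  W = X / Y ∧ Z = (1 - X) / (1 - Y) ∧ ∃ η ∈ L, η ≠ 0 ∧ X - Y = bxy * η ^ 2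

/-- IND: two cross ratio functions of different pencils are two-independent over the squares of
the field `LL` of all units. -/
def Stmt_IND : Prop := ∀ (κ K : Type) [Field κ] [IsAlgClosed κ] [CharP κ 2] [Field K] [Algebra κ K]
  (S : Surf κ K) (d : Dat S), (∃ e, e ∈ S.PP) → d.NS →
  ∃ i j : Fin 5, i ≠ j ∧ ∀ b ∈ d.kf i, (¬ ∃ c ∈ d.kf i, c ^ 2 = b) →
    ∀ b' ∈ d.kf j, (¬ ∃ c ∈ d.kf j, c ^ 2 = b') →
    ∀ α ∈ d.LL, ∀ β ∈ d.LL, ∀ γ ∈ d.LL, ∀ δ ∈ d.LL,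
      α ^ 2 + β ^ 2 * b + γ ^ 2 * b' + δ ^ 2 * (b * b') = 0 →
      α = 0 ∧ β = 0 ∧ γ = 0 ∧ δ = 0

/-- SLA: the algebraic solution, when the independent pencils are `4` and `3`. -/
def Stmt_SLA : Prop := ∀ (κ K : Type) [Field κ] [IsAlgClosed κ] [CharP κ 2] [Field K] [Algebra κ K]
  (S : Surf κ K) (d : Dat S), d.NS →
  (∀ b ∈ d.kf 4, (¬ ∃ c ∈ d.kf 4, c ^ 2 = b) →
    ∀ b' ∈ d.kf 3, (¬ ∃ c ∈ d.kf 3, c ^ 2 = b') →
    ∀ α ∈ d.LL, ∀ β ∈ d.LL, ∀ γ ∈ d.LL, ∀ δ ∈ d.LL,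
      α ^ 2 + β ^ 2 * b + γ ^ 2 * b' + δ ^ 2 * (b * b') = 0 →
      α = 0 ∧ β = 0 ∧ γ = 0 ∧ δ = 0) →
  ∃ X, Sol d X

/-- SLP: the algebraic solution in general (relabelling). -/
def Stmt_SLP : Prop := ∀ (κ K : Type) [Field κ] [IsAlgClosed κ] [CharP κ 2] [Field K] [Algebra κ K]
  (S : Surf κ K) (d : Dat S), (∃ e, e ∈ S.PP) → d.NS → ∃ X, Sol d X

/-- SUP: zeros and poles of `X` of a cross ratio lie over the zeros and poles of the cross
ratio. -/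
def Stmt_SUP : Prop := ∀ (κ K : Type) [Field κ] [IsAlgClosed κ] [Field K] [Algebra κ K]
  (S : Surf κ K) (d : Dat S) (X : (Fin 5 → Fin 5 → ℤ) → K), Sol d X →
  ∀ i j k l : Fin 5, Dist i j k l → ∀ e ∈ S.PP, e.v (X (cr i j k l)) ≠ 0 →
  e ∈ d.D i j ∨ e ∈ d.D k l ∨ e ∈ d.D i k ∨ e ∈ d.D j l

/-- PRO: for every cross ratio the divisors of `X` and `a` are proportional; the ratio is
positive and does not change from `cr i j k l` to `cr i l k j`, and from the pencil `m` to the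
pencil `j` (replace the index `j` by `m`). -/
def Stmt_PRO : Prop := ∀ (κ K : Type) [Field κ] [IsAlgClosed κ] [Field K] [Algebra κ K]
  (S : Surf κ K) (d : Dat S) (X : (Fin 5 → Fin 5 → ℤ) → K), (∃ e, e ∈ S.PP) → Sol d X →
  ∃ r s : ℕ, 0 < r ∧ 0 < s ∧ ∀ i j k l : Fin 5, Dist i j k l → ∀ e ∈ S.PP,
    (r : ℤ) * e.v (X (cr i j k l)) = (s : ℤ) * e.v (d.a (cr i j k l))

/-- FIN: the closed point theorem. -/
def Stmt_FIN : Prop := ∀ (κ K : Type) [Field κ] [IsAlgClosed κ] [CharP κ 2] [Field K] [Algebra κ K]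
  (S : Surf κ K) (d : Dat S), (∃ e, e ∈ S.PP) →
  ∃ X, Out d X ∧ (∀ i j k l, Dist i j k l → ∀ c : κ, X (cr i j k l) ≠ algebraMap κ K c) ∧
    ∃ r s : ℕ, 0 < r ∧ 0 < s ∧ ∀ n, Lam n → ∀ e ∈ S.PP, (r : ℤ) * e.v (X n) = (s : ℤ) * e.v (d.a n)

end Pool.Agent.CPT
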