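import Pool.Agent.CPT.Stmts
import Pool.Agent.SRF.Stmts

set_option autoImplicit false

/-!
# END-1 in the language of `Pool.Agent.SRF` and the bound

The closed point theorem for a surface `(κ, F, x, y)` with a bound which depends only on the
degree `d = [F : κ(x,y)]`, on a generator `w ∈ L(cH)` of `F` over `κ(x,y)`, on the degree `c₁` of
a form `h` vanishing on the boundary and on the quotients of the multiplicities.
-/

noncomputable section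

namespace Pool.Agent.CPT

open Pool.Agent

section
variable {κ F : Type} [Field κ] [Field F] [Algebra κ F] {x y : F}

/-- a prime divisor of `SRF` as integer valued valuation -/
def dvOf (O : SRF.PP κ x y) : DV κ F where
  v := SRF.ord O.1
  map_mul := fun f g hf hg => O.isOrd.mul f g hf hg
  map_add := fun _ _ hf hg hfg => O.isOrd.add hf hg hfg
  map_const := fun c hc => SRF.ord_const κ x y O c hc

/-- the field `κ(x, y)` -/
abbrev KK (κ : Type) {F : Type} [Field κ] [Field F] [Algebra κ F] (x y : F) :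
    IntermediateField κ F := IntermediateField.adjoin κ {x, y}

end

/-- SFS: the surface of `SRF` as `Surf`. -/
def Stmt_SFS : Prop := ∀ (κ F : Type) [Field κ] [Field F] [Algebra κ F] (x y : F),
  SRF.IsSurf κ x y → ∃ S : Surf κ F, S.PP = Set.range (dvOf (κ := κ) (x := x) (y := y)) ∧
    ∀ (O : SRF.PP κ x y) (V : ValuationSubring F), S.thr (dvOf O) V ↔ SRF.thr κ x y O.1 V

/-- the input of END-1 in the language of `SRF` -/
structure Inp (κ F : Type) [Field κ] [Field F] [Algebra κ F] (x y : F) where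
  D : Fin 5 → Fin 5 → Set (SRF.PP κ x y)
  D_symm : ∀ i j, D i j = D j i
  D_diag : ∀ i, D i i = ∅
  D_disj : ∀ i j k, j ≠ k → ∀ O ∈ D i j, ∀ O' ∈ D i k, ∀ V : ValuationSubring F, KV κ V →
    ¬ (SRF.thr κ x y O.1 V ∧ SRF.thr κ x y O'.1 V)
  D_comm : ∀ i j k l, Dist i j k l → ∀ O ∈ D i j, O ∉ D k l
  m : SRF.PP κ x y → ℤ
  m_pos : ∀ i j, ∀ O ∈ D i j, 0 < m O
  a : (Fin 5 → Fin 5 → ℤ) → F
  a_ne : ∀ n, Lam n → a n ≠ 0
  a_add : ∀ m n, Lam m → Lam n → a (m + n) = a m * a n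
  ord_D : ∀ n, Lam n → ∀ i j, ∀ O ∈ D i j, SRF.ord O.1 (a n) = n i j * m O
  ord_0 : ∀ n, Lam n → ∀ O : SRF.PP κ x y, (∀ i j, O ∉ D i j) → SRF.ord O.1 (a n) = 0
  g : F
  g_ne : g ≠ 0
  N : ℕ
  N_pos : 0 < N
  t : ℕ
  t_pos : 0 < t
  g_D : ∀ i j, ∀ O ∈ D i j, SRF.ord O.1 g = t * m O - N * SRF.H κ x y O
  g_0 : ∀ O : SRF.PP κ x y, (∀ i j, O ∉ D i j) → SRF.ord O.1 g = - (N * SRF.H κ x y O)

/-- AMD: the data of `Inp` as `Dat` (the field `amp` from `ZER`). -/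
def Stmt_AMD : Prop := ∀ (κ F : Type) [Field κ] [IsAlgClosed κ] [Field F] [Algebra κ F] (x y : F),
  SRF.IsSurf κ x y → ∀ (I : Inp κ F x y) (S : Surf κ F),
  S.PP = Set.range (dvOf (κ := κ) (x := x) (y := y)) →
  (∀ (O : SRF.PP κ x y) (V : ValuationSubring F), S.thr (dvOf O) V ↔ SRF.thr κ x y O.1 V) →
  ∃ d : Dat S, (∀ i j, d.D i j = dvOf '' I.D i j) ∧ d.a = I.a ∧
    ∀ i j, ∀ O ∈ I.D i j, d.w (dvOf O) = I.m O

/-- ROT: common extraction of square roots of `X`. -/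
def Stmt_ROT : Prop := ∀ (κ K : Type) [Field κ] [IsAlgClosed κ] [CharP κ 2] [Field K] [Algebra κ K]
  (S : Surf κ K) (d : Dat S), (∃ i j e, e ∈ d.D i j) → ∀ X, Out d X →
  (∀ i j k l, Dist i j k l → ∀ c : κ, X (cr i j k l) ≠ algebraMap κ K c) →
  (∃ r s : ℕ, 0 < r ∧ 0 < s ∧ ∀ n, Lam n → ∀ e ∈ S.PP,
    (r : ℤ) * e.v (X n) = (s : ℤ) * e.v (d.a n)) →
  ∃ X', Out d X' ∧
    (∀ i j k l, Dist i j k l → ∀ c : κ, X' (cr i j k l) ≠ algebraMap κ K c) ∧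
    (∃ r s : ℕ, 0 < r ∧ 0 < s ∧ ∀ n, Lam n → ∀ e ∈ S.PP,
      (r : ℤ) * e.v (X' n) = (s : ℤ) * e.v (d.a n)) ∧
    ∃ i j k l, Dist i j k l ∧ ¬ ∃ f : K, f ^ 2 = X' (cr i j k l)

/-- PRJ: the projections of `F = F² ⊕ F² x ⊕ F² y ⊕ F² x y` to the last three summands. -/
def Stmt_PRJ : Prop := ∀ (κ F : Type) [Field κ] [IsAlgClosed κ] [CharP κ 2] [Field F] [Algebra κ F]
  (x y : F), SRF.IsSurf κ x y → ∃ φ : Fin 3 → F → F,
    (∀ l f g, φ l (f + g) = φ l f + φ l g) ∧ (∀ l f g, φ l (f ^ 2 * g) = f ^ 2 * φ l g) ∧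
    (∀ l, φ l 1 = 0) ∧ (∀ f, (∀ l, φ l f = 0) → ∃ r, r ^ 2 = f) ∧
    ∀ l (m n : ℤ), φ l (x ^ m * y ^ n) = x ^ m * y ^ n ∨ φ l (x ^ m * y ^ n) = 0

/-- TRD: the conductor of `A[v]` contains the derivative of the minimal polynomial of `v`. -/
def Stmt_TRD : Prop := ∀ (L : Type) [Field L] (A : Subring L) (K : Subfield L),
  (∀ f ∈ A, f ∈ K) → (∀ f ∈ K, ∃ a ∈ A, ∃ b ∈ A, b ≠ 0 ∧ f = a / b) →
  (∀ f ∈ K, IsIntegral A f → f ∈ A) → FiniteDimensional K L → Algebra.IsSeparable K L →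
  ∀ v : L, IsIntegral A v → (IntermediateField.adjoin K {v} = ⊤) →
  ∀ u : L, IsIntegral A u →
  ∃ b : ℕ → L, (∀ j, b j ∈ A) ∧ Polynomial.aeval v (Polynomial.derivative (minpoly K v)) * u =
    ∑ j ∈ Finset.range (Module.finrank K L), b j * v ^ j

/-- PHC: multiples of the elements of a chart in terms of the powers of `(w/zᵢᶜ)²`.
`e ^ 2` times `r` with `e = g'(w)/zᵢ^(c(d-1))`, where `g` is the minimal polynomial of `w`. -/
def Stmt_PHC : Prop := ∀ (κ F : Type) [Field κ] [IsAlgClosed κ] [CharP κ 2] [Field F] [Algebra κ F]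
  (x y : F), SRF.IsSurf κ x y → ∀ (c : ℕ) (w : F), w ∈ SRF.L κ x y (fun O => c * SRF.H κ x y O) →
  IntermediateField.adjoin (KK κ x y) {w} = ⊤ →
  ∃ e : F, e ≠ 0 ∧ ∀ i, ∀ r ∈ SRF.chart κ x y i, ∃ b : ℕ → F, (∀ j, b j ∈ SRF.base κ x y i) ∧
    (e / SRF.z x y i ^ (c * (Module.finrank (KK κ x y) F - 1))) ^ 2 * r =
      ∑ j ∈ Finset.range (Module.finrank (KK κ x y) F), b j * ((w / SRF.z x y i ^ c) ^ j) ^ 2

/-- PHI: for a nonsquare `X` there is an `F²`-linear map `φ` with `φ 1 = 0`, `φ X ≠ 0` and with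
poles bounded by `2c(d-1)H`, up to a fixed factor `Δ`. -/
def Stmt_PHI : Prop := ∀ (κ F : Type) [Field κ] [IsAlgClosed κ] [CharP κ 2] [Field F] [Algebra κ F]
  (x y : F), SRF.IsSurf κ x y → ∀ (c : ℕ) (w : F), w ∈ SRF.L κ x y (fun O => c * SRF.H κ x y O) →
  IntermediateField.adjoin (KK κ x y) {w} = ⊤ →
  ∀ X : F, (¬ ∃ r, r ^ 2 = X) → ∃ (Δ : F) (φ : F → F), Δ ≠ 0 ∧
    (∀ f g, φ (f + g) = φ f + φ g) ∧ (∀ f g, φ (f ^ 2 * g) = f ^ 2 * φ g) ∧ φ 1 = 0 ∧ φ X ≠ 0 ∧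
    ∀ O : SRF.PP κ x y, ∀ f ∈ O.1, φ f ≠ 0 →
      - (2 * c * Module.finrank (KK κ x y) F * SRF.H κ x y O) ≤ SRF.ord O.1 (Δ * φ f)

/-- BZP: the order of a polynomial of degree `D` at a prime divisor is at most `[F : κ(x,y)] D`. -/
def Stmt_BZP : Prop := ∀ (κ F : Type) [Field κ] [Field F] [Algebra κ F] (x y : F),
  SRF.IsSurf κ x y → ∀ (D : ℕ) (P : MvPolynomial (Fin 2) κ), P.totalDegree ≤ D →
  MvPolynomial.aeval ![x, y] P ≠ 0 → ∀ O : SRF.PP κ x y,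
    SRF.ord O.1 (MvPolynomial.aeval ![x, y] P) + D * SRF.H κ x y O ≤
      Module.finrank (KK κ x y) F * D

/-- BEZ: the order of a section of `aH` at a prime divisor is at most `[F : κ(x,y)]² a`. -/
def Stmt_BEZ : Prop := ∀ (κ F : Type) [Field κ] [Field F] [Algebra κ F] (x y : F),
  SRF.IsSurf κ x y → ∀ (a : ℕ) (Q : F), Q ≠ 0 → Q ∈ SRF.L κ x y (fun O => a * SRF.H κ x y O) →
  ∀ O : SRF.PP κ x y, SRF.ord O.1 Q + a * SRF.H κ x y O ≤ Module.finrank (KK κ x y) F ^ 2 * a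

/-- BND: the bound for the poles of a nonsquare `X`; the form `h` of degree `c₁` vanishes at the
zeros and poles of `X` and at the zeros of `1 - X`. -/
def Stmt_BND : Prop := ∀ (κ F : Type) [Field κ] [IsAlgClosed κ] [CharP κ 2] [Field F] [Algebra κ F]
  (x y : F), SRF.IsSurf κ x y → ∀ (c c₁ : ℕ) (w h : F),
  w ∈ SRF.L κ x y (fun O => c * SRF.H κ x y O) → IntermediateField.adjoin (KK κ x y) {w} = ⊤ →
  h ≠ 0 → h ∈ SRF.L κ x y (fun O => c₁ * SRF.H κ x y O) →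
  ∀ X : F, (¬ ∃ r, r ^ 2 = X) →
  (∀ O : SRF.PP κ x y, SRF.ord O.1 X ≠ 0 ∨ SRF.ord O.1 (1 - X) ≠ 0 →
    1 ≤ SRF.ord O.1 h + c₁ * SRF.H κ x y O) →
  ∀ O : SRF.PP κ x y, - SRF.ord O.1 X ≤
    Module.finrank (KK κ x y) F ^ 2 * (c₁ + 2 * c * Module.finrank (KK κ x y) F)

/-- END1: the closed point theorem with bounds. -/
def Stmt_END1 : Prop := ∀ (κ F : Type) [Field κ] [IsAlgClosed κ] [CharP κ 2] [Field F] [Algebra κ F]
  (x y : F), SRF.IsSurf κ x y → ∀ (I : Inp κ F x y) (c c₁ B : ℕ) (w h : F),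
  w ∈ SRF.L κ x y (fun O => c * SRF.H κ x y O) → IntermediateField.adjoin (KK κ x y) {w} = ⊤ →
  h ≠ 0 → h ∈ SRF.L κ x y (fun O => c₁ * SRF.H κ x y O) →
  (∀ i j, ∀ O ∈ I.D i j, 1 ≤ SRF.ord O.1 h + c₁ * SRF.H κ x y O) →
  (∀ i j, ∀ O ∈ I.D i j, ∀ i' j', ∀ O' ∈ I.D i' j', I.m O ≤ B * I.m O') →
  ∃ X : (Fin 5 → Fin 5 → ℤ) → F, (∀ n, Lam n → X n ≠ 0) ∧
    (∀ m n, Lam m → Lam n → X (m + n) = X m * X n) ∧
    (∀ i j k l, Dist i j k l → X (cr i j k l) + X (cr i l k j) = 1) ∧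
    (∀ i j k l, Dist i j k l → ∀ c : κ, X (cr i j k l) ≠ algebraMap κ F c) ∧
    (∃ r s : ℕ, 0 < r ∧ 0 < s ∧ ∀ n, Lam n → ∀ O : SRF.PP κ x y,
      (r : ℤ) * SRF.ord O.1 (X n) = (s : ℤ) * SRF.ord O.1 (I.a n)) ∧
    ∀ i j k l, Dist i j k l → ∀ O : SRF.PP κ x y,
      (SRF.ord O.1 (X (cr i j k l)) < 0 → O ∈ I.D i k ∨ O ∈ I.D j l) ∧
      - (B * (Module.finrank (KK κ x y) F ^ 2 * (c₁ + 2 * c * Module.finrank (KK κ x y) F)) : ℤ) ≤
        SRF.ord O.1 (X (cr i j k l))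

end Pool.Agent.CPT
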