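import Pool.Agent.CPT.StmtsE

set_option autoImplicit false

/-!
# From torsion of the rounded divisors to END-1 (DIS 7.3, 7.4)

`ι` indexes the exact curves (`CC` in DIS), `lab` gives the pair of points, `r` the real
coefficients, `es i` the effective divisor at the closed point.
-/

noncomputable section

namespace Pool.Agent.CPT

open Pool.Agent

/-- RAP: rational points of a rational affine subspace are dense. -/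
def Stmt_RAP : Prop := ∀ (ι J : Type) [Fintype ι] [Fintype J] (L : J → ι → ℚ) (β : J → ℚ)
  (r : ι → ℝ), (∀ j, ∑ i, (L j i : ℝ) * r i = β j) → ∀ ε : ℝ, 0 < ε →
  ∃ ρ : ι → ℚ, (∀ j, ∑ i, L j i * ρ i = β j) ∧ ∀ i, |(ρ i : ℝ) - r i| < ε

/-- ANN: a subspace of `ℚ^ι` is defined by finitely many linear forms. -/
def Stmt_ANN : Prop := ∀ (ι : Type) [Fintype ι] (V : Submodule ℚ (ι → ℚ)),
  ∃ (m : ℕ) (L : Fin m → ι → ℚ), ∀ v : ι → ℚ, v ∈ V ↔ ∀ j, ∑ i, L j i * v i = 0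

/-- The same unordered pair. -/
def SameP (a b : Fin 5 × Fin 5) : Prop := (a.1 = b.1 ∧ a.2 = b.2) ∨ (a.1 = b.2 ∧ a.2 = b.1)

/-- Exactly one common index (for pairs with different entries). -/
def ShareP (a b : Fin 5 × Fin 5) : Prop :=
  ¬ SameP a b ∧ (a.1 = b.1 ∨ a.1 = b.2 ∨ a.2 = b.1 ∨ a.2 = b.2)

/-- Disjoint pairs. -/
def DisjP (a b : Fin 5 × Fin 5) : Prop := a.1 ≠ b.1 ∧ a.1 ≠ b.2 ∧ a.2 ≠ b.1 ∧ a.2 ≠ b.2

/-- The rounded divisor `n (c₀ H + ∑ c D)` at the closed point. -/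
def rd {κ F : Type} [Field κ] [Field F] [Algebra κ F] (x y : F) {ι : Type} [Fintype ι]
    (lab : ι → Fin 5 × Fin 5) (r : ι → ℝ) (es : ι → SRF.PP κ x y → ℤ) (c₀ : ℤ)
    (c : Fin 5 → Fin 5 → ℤ) (n : ℕ) (O : SRF.PP κ x y) : ℤ :=
  n * c₀ * SRF.H κ x y O + ∑ i, ⌊(n : ℝ) * ((c (lab i).1 (lab i).2 : ℝ) * r i)⌋ * es i O

/-- The closed point data. -/
structure CP {κ F : Type} [Field κ] [Field F] [Algebra κ F] (x y : F) {ι : Type} [Fintype ι]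
    (lab : ι → Fin 5 × Fin 5) (r : ι → ℝ) (b : ℕ) (es : ι → SRF.PP κ x y → ℤ) : Prop where
  nonneg : ∀ i O, 0 ≤ es i O
  le : ∀ i O, es i O ≤ b
  disj : ∀ i i', ShareP (lab i) (lab i') → ∀ O O', es i O ≠ 0 → es i' O' ≠ 0 →
    ∀ V : ValuationSubring F, KV κ V → ¬ (SRF.thr κ x y O.1 V ∧ SRF.thr κ x y O'.1 V)
  comm : ∀ i i', DisjP (lab i) (lab i') → ∀ O, es i O = 0 ∨ es i' O = 0
  tor : ∀ (c₀ : ℤ) (c : Fin 5 → Fin 5 → ℤ), (c₀ = 0 ∧ Lam c) ∨ (c₀ = -1 ∧ ∀ i j, c i j = 1) →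
    ∀ I : Set ℕ, I.Infinite → ∃ n ∈ I, ∃ m ∈ I, n < m ∧ ∃ f : F, f ≠ 0 ∧ ∀ O : SRF.PP κ x y,
      SRF.ord O.1 f = rd x y lab r es c₀ c m O - rd x y lab r es c₀ c n O

/-- TPT: a rational point. There are rational `ρ i` near `r i` such that multiples of the
divisors `c₀ H + ∑ c ρ e` are principal. -/
def Stmt_TPT : Prop := ∀ (κ F : Type) [Field κ] [IsAlgClosed κ] [Field F] [Algebra κ F] (x y : F),
  SRF.IsSurf κ x y → ∀ (ι : Type) [Fintype ι] (lab : ι → Fin 5 × Fin 5) (r : ι → ℝ)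
  (b : ℕ) (es : ι → SRF.PP κ x y → ℤ), CP x y lab r b es → ∀ ε : ℝ, 0 < ε →
  ∃ (M : ℕ) (ρ : ι → ℤ), 0 < M ∧ (∀ i, |(ρ i : ℝ) / M - r i| < ε) ∧
    ∀ (c₀ : ℤ) (c : Fin 5 → Fin 5 → ℤ), (c₀ = 0 ∧ Lam c) ∨ (c₀ = -1 ∧ ∀ i j, c i j = 1) →
      ∃ T : ℕ, 0 < T ∧ ∃ f : F, f ≠ 0 ∧ ∀ O : SRF.PP κ x y,
        SRF.ord O.1 f = T * (M * c₀ * SRF.H κ x y O + ∑ i, c (lab i).1 (lab i).2 * ρ i * es i O)

/-- PTS: the input of END-1 with a bound for the quotients of the multiplicities. -/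
def Stmt_PTS : Prop := ∀ (ι : Type) [Fintype ι] (lab : ι → Fin 5 × Fin 5) (r : ι → ℝ)
  (b : ℕ), (∀ i, (lab i).1 ≠ (lab i).2) → (∀ i, 0 < r i) → ∃ B : ℕ,
  ∀ (κ F : Type) [Field κ] [IsAlgClosed κ] [Field F] [Algebra κ F] (x y : F),
  SRF.IsSurf κ x y → ∀ (es : ι → SRF.PP κ x y → ℤ), CP x y lab r b es →
  ∃ I : Inp κ F x y, (∀ p q, I.D p q = {O | ∃ i, es i O ≠ 0 ∧ SameP (lab i) (p, q)}) ∧
    ∀ i j, ∀ O ∈ I.D i j, ∀ i' j', ∀ O' ∈ I.D i' j', I.m O ≤ B * I.m O'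

/-- CPL: the closed point theorem from torsion, with a bound independent of the closed point. -/
def Stmt_CPL : Prop := ∀ (ι : Type) [Fintype ι] (lab : ι → Fin 5 × Fin 5) (r : ι → ℝ)
  (b d c c₁ : ℕ), (∀ i, (lab i).1 ≠ (lab i).2) → (∀ i, 0 < r i) → ∃ K : ℕ,
  ∀ (κ F : Type) [Field κ] [IsAlgClosed κ] [CharP κ 2] [Field F] [Algebra κ F] (x y : F),
  SRF.IsSurf κ x y → Module.finrank (KK κ x y) F ≤ d → ∀ w h : F,
  w ∈ SRF.L κ x y (fun O => c * SRF.H κ x y O) → IntermediateField.adjoin (KK κ x y) {w} = ⊤ →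
  h ≠ 0 → h ∈ SRF.L κ x y (fun O => c₁ * SRF.H κ x y O) →
  ∀ (es : ι → SRF.PP κ x y → ℤ), CP x y lab r b es →
  (∀ i O, es i O ≠ 0 → 1 ≤ SRF.ord O.1 h + c₁ * SRF.H κ x y O) →
  ∃ X : (Fin 5 → Fin 5 → ℤ) → F, (∀ n, Lam n → X n ≠ 0) ∧
    (∀ m n, Lam m → Lam n → X (m + n) = X m * X n) ∧
    (∀ i j k l, Dist i j k l → X (cr i j k l) + X (cr i l k j) = 1) ∧
    (∀ i j k l, Dist i j k l → ∀ c : κ, X (cr i j k l) ≠ algebraMap κ F c) ∧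
    ∀ i j k l, Dist i j k l → ∀ O : SRF.PP κ x y,
      (SRF.ord O.1 (X (cr i j k l)) < 0 →
        ∃ i', es i' O ≠ 0 ∧ (SameP (lab i') (i, k) ∨ SameP (lab i') (j, l))) ∧
      - (K : ℤ) ≤ SRF.ord O.1 (X (cr i j k l))

/-- CPF: the four functions of `DIS.Funs` at the closed point. -/
def Stmt_CPF : Prop := ∀ (ι : Type) [Fintype ι] (lab : ι → Fin 5 × Fin 5) (r : ι → ℝ)
  (b d c c₁ : ℕ), (∀ i, (lab i).1 ≠ (lab i).2) → (∀ i, 0 < r i) → ∃ K : ℕ,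
  ∀ (κ F : Type) [Field κ] [IsAlgClosed κ] [CharP κ 2] [Field F] [Algebra κ F] (x y : F),
  SRF.IsSurf κ x y → Module.finrank (KK κ x y) F ≤ d → ∀ w h : F,
  w ∈ SRF.L κ x y (fun O => c * SRF.H κ x y O) → IntermediateField.adjoin (KK κ x y) {w} = ⊤ →
  h ≠ 0 → h ∈ SRF.L κ x y (fun O => c₁ * SRF.H κ x y O) →
  ∀ (es : ι → SRF.PP κ x y → ℤ), CP x y lab r b es →
  (∀ i O, es i O ≠ 0 → 1 ≤ SRF.ord O.1 h + c₁ * SRF.H κ x y O) →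
  ∃ f f' : F, (∀ c : κ, f ≠ algebraMap κ F c) ∧ f' ≠ 0 ∧ f' ≠ 1 ∧
    ∀ (fu : F) (P : Set (Fin 5 × Fin 5)),
      ((fu = f ∧ P = {(0, 2), (1, 3)}) ∨ (fu = f' ∧ P = {(0, 2), (1, 4)}) ∨
        (fu = f / f' ∧ P = {(1, 3), (2, 4)}) ∨ (fu = (1 - f) / (1 - f') ∧ P = {(1, 3), (0, 4)})) →
      ∀ O : SRF.PP κ x y, - (K : ℤ) ≤ SRF.ord O.1 fu ∧
        (SRF.ord O.1 fu < 0 → ∃ i', es i' O ≠ 0 ∧ ∃ q ∈ P, SameP (lab i') q)

end Pool.Agent.CPT
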